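import Pool.Agent.Lib.MP_94aef8_gt.E2.AbsDefs

open scoped ContDiff Topology
open Filter Set

namespace Pool.Agent.Lib.MP_94aef8_gt.E2

namespace AD

variable {X Y Z : Type} [NormedAddCommGroup X] [NormedSpace ℝ X] [NormedAddCommGroup Y]
  [NormedSpace ℝ Y] [NormedAddCommGroup Z] [NormedSpace ℝ Z] [CompleteSpace X] [CompleteSpace Y]
  {d : AD X Y Z}

/-- The reduction map. Sketch: inverse function theorem (`ContDiffAt.to_localInverse`, `n = ω`,
`contDiffAt_omega_iff_analyticAt`) for `Ψ (k, h) = (k, E h + D (h - k) + F (ι h))` on `X × X` at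
` (0, 0)`; the derivative ` (k, h) ↦ (k, e h - D k)` is invertible (`ContinuousLinearEquiv.skewProd`
or an explicit inverse); `G p = (Ψ⁻¹ p).2`. For the last part use the local left inverse at
` (h, h)`, where `Ψ (h, h) = (h, F (ι h))` if `E h = 0`. -/
theorem exists_G (H : d.Hyp) : ∃ G : X × Y → X, AnalyticAt ℝ G (0, 0) ∧ G (0, 0) = 0 ∧
    (∀ᶠ p in 𝓝 ((0, 0) : X × Y), d.E (G p) + d.D (G p - p.1) + d.F (d.ι (G p)) = p.2) ∧
    ∀ᶠ h in 𝓝 (0 : X), d.E h = 0 → G (h, d.F (d.ι h)) = h := by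
  obtain ⟨e, he⟩ := H.inv
  let L : X × X →L[ℝ] Y :=
    d.D ∘L (.snd ℝ X X - .fst ℝ X X) + (d.j ∘L d.q ∘L d.ι) ∘L .snd ℝ X X
  let Ψ : X × X → X × Y := fun p => (p.1, d.E p.2 + L p)
  have h0 : Ψ (0, 0) = (0, 0) := by simp [Ψ, L, H.E0]
  have hE : AnalyticAt ℝ (fun p : X × X => d.E p.2) (0, 0) :=
    AnalyticAt.comp (f := fun p : X × X => p.2) H.at0.anE analyticAt_snd
  have hA : ContDiffAt ℝ ω Ψ (0, 0) :=
    (analyticAt_fst.prod (hE.add (L.analyticAt _))).contDiffAt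
  have hD : HasFDerivAt Ψ
      ((ContinuousLinearEquiv.refl ℝ X).skewProd e (-d.D) : X × X →L[ℝ] X × Y) (0, 0) := by
    have h1 : HasFDerivAt (fun p : X × X => d.E p.2) (fderiv ℝ d.E 0 ∘L .snd ℝ X X) (0, 0) :=
      HasFDerivAt.comp (f := fun p : X × X => p.2) _ H.at0.anE.differentiableAt.hasFDerivAt
        hasFDerivAt_snd
    refine (hasFDerivAt_fst.prodMk (h1.add L.hasFDerivAt)).congr_fderiv
      (ContinuousLinearMap.ext fun p => Prod.ext rfl ?_)
    show fderiv ℝ d.E 0 p.2 + (d.D (p.2 - p.1) + d.F (d.ι p.2)) = e p.2 + -d.D p.1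
    rw [he, map_sub]
    abel
  have hn : (ω : WithTop ℕ∞) ≠ 0 := by simp
  have hS := hA.hasStrictFDerivAt' hD hn
  have h2 := hA.to_localInverse hD hn
  have h3 := hA.localInverse_apply_image hD hn
  have h4 : ∀ᶠ p in 𝓝 (Ψ (0, 0)), Ψ (hA.localInverse hD hn p) = p := hS.eventually_right_inverse
  have h5 : ∀ᶠ p in 𝓝 ((0, 0) : X × X), hA.localInverse hD hn (Ψ p) = p :=
    hS.eventually_left_inverse
  rw [h0] at h2 h3 h4
  refine ⟨fun p => (hA.localInverse hD hn p).2,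
    analyticAt_snd.comp h2.analyticAt, congrArg Prod.snd h3,
    h4.mono fun p hp => ?_, ?_⟩
  · rw [← congrArg Prod.snd hp, add_assoc]
    conv_lhs => rw [← congrArg Prod.fst hp]
    rfl
  · have h6 : Tendsto (fun h : X => (h, h)) (𝓝 0) (𝓝 (0, 0)) :=
      (continuous_id.prodMk continuous_id).tendsto 0
    refine (h6.eventually h5).mono fun h hh h7 => ?_
    have h8 : Ψ (h, h) = (h, d.F (d.ι h)) := by simp [Ψ, L, h7, F]
    rw [h8] at hh
    exact congrArg Prod.snd hh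

end AD

end Pool.Agent.Lib.MP_94aef8_gt.E2
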