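import Pool.Agent.Lib.MP_94aef8_gt.E2.AbsDefs

open scoped ContDiff Topology
open Filter Set

namespace Pool.Agent.Lib.MP_94aef8_gt.E2

namespace AD

variable {X Y Z : Type} [NormedAddCommGroup X] [NormedSpace ℝ X] [NormedAddCommGroup Y]
  [NormedSpace ℝ Y] [NormedAddCommGroup Z] [NormedSpace ℝ Z] [CompleteSpace X] [CompleteSpace Y]
  {d : AD X Y Z}

/-- Derivative of the Bianchi identity: differentiate `h' ↦ ip (E h') (l0 u + l1 u h')`, which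
vanishes near `h`, in the direction `v`. -/
theorem At.bi' {h : X} (a : d.At h) (u v : X) :
    d.ip (fderiv ℝ d.E h v) (d.l u h) + d.ip (d.E h) (d.l1 u v) = 0 := by
  have h1 := d.ip.hasFDerivAt_of_bilinear a.anE.differentiableAt.hasFDerivAt
    ((d.l1 u).hasFDerivAt.const_add (d.l0 u))
  have h2 := h1.unique ((hasFDerivAt_const 0 h).congr_of_eventuallyEq (a.bi.mono fun x hx => hx u))
  exact (add_comm _ _).trans (DFunLike.congr_fun h2 v)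

/-- Symmetry of the second derivative of `S` (`ContDiffAt.isSymmSndFDerivAt`): near `h` one has
`fderiv S h' u = - ip (E h') (ι u)`, differentiate in `h'`. -/
theorem At.symm {h : X} (a : d.At h) (u v : X) :
    d.ip (fderiv ℝ d.E h v) (d.ι u) = d.ip (fderiv ℝ d.E h u) (d.ι v) := by
  have key : ∀ u v, fderiv ℝ (fderiv ℝ d.S) h v u = -d.ip (fderiv ℝ d.E h v) (d.ι u) := fun u v =>
    DFunLike.congr_fun (((ContinuousLinearMap.apply ℝ ℝ u).hasFDerivAt.comp h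
      a.anS.fderiv.differentiableAt.hasFDerivAt).unique ((((d.ip.flip (d.ι u)).hasFDerivAt.comp h
        a.anE.differentiableAt.hasFDerivAt).neg).congr_of_eventuallyEq
          (a.dS.mono fun x hx => hx u))) v
  refine neg_injective ?_
  rw [← key, ← key]
  exact (a.anS.contDiffAt (n := ⊤)).isSymmSndFDerivAt le_top v u

/-- With `ζ = E h + D (h - k)` and `η = Θ h y`:
`ip (D (h - k)) y = ip (D (h - k)) (l η h) = ip (ζ - E h) (l η h) = ip ζ (l η h)` by `gau`, `ips`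
and the Bianchi identity at `h`; `‖l η h‖ ≤ (‖l0‖ + ‖l1‖) C ‖y‖`. -/
theorem weak_bound (H : d.Hyp) (Θ : X → Y →L[ℝ] X) {C : ℝ} (hC : 0 ≤ C) :
    ∃ C₁ : ℝ, 0 ≤ C₁ ∧ ∀ h, d.Gd Θ C h → ∀ k y,
      |d.ip (d.E h) y| ≤ C₁ * ‖d.E h + d.D (h - k)‖ * ‖y‖ := by
  refine ⟨‖d.ip‖ * (1 + (‖d.l0‖ + ‖d.l1‖) * C), by positivity, fun h g k y => ?_⟩
  have h1 := g.gau y (h - k)
  have h2 := g.pt.bi.self_of_nhds (Θ h y)
  have h3 : d.ip (d.E h) y = d.ip (d.E h + d.D (h - k)) (y - d.l (Θ h y) h) := by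
    rw [H.ips] at h1
    simp only [map_add, map_sub (d.ip _), add_apply] at h1 ⊢
    linarith
  have h4 := (Θ h).le_of_opNorm_le g.bd y
  have h5 := d.l0.le_opNorm_of_le h4
  have h6 := (d.l1.le_of_opNorm₂_le_of_le le_rfl h4 g.le1)
  have h7 : ‖y - d.l (Θ h y) h‖ ≤ (1 + (‖d.l0‖ + ‖d.l1‖) * C) * ‖y‖ := by
    linarith [norm_sub_le y (d.l (Θ h y) h), norm_add_le (d.l0 (Θ h y)) (d.l1 (Θ h y) h),
      show ‖d.l (Θ h y) h‖ = ‖d.l0 (Θ h y) + d.l1 (Θ h y) h‖ from rfl]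
  rw [h3, ← Real.norm_eq_abs]
  exact (d.ip.le_of_opNorm₂_le_of_le le_rfl le_rfl h7).trans_eq (by ring)

/-- Let `u = Θ h (-ι h₀)`, `r = ι h' - l u h`, so `ζ' = -F r`. For `y` take `v` from `sol`. Then
`ip (DE v) (ι h') = ip (DE h') (ι v) = ip ζ' (ι v) - ip (D v) (ι h' + ι h₀)` (`At.symm`, `Ds`),
`ip (DE v) (l u h) = -ip (E h) (l1 u v)` (`At.bi'`), `ip (D v) (l u h) = -ip (D v) (ι h₀)` (`gau`),
`ip (F (ι v)) r = ip (ι v) (F r) = -ip ζ' (ι v)`. The sum gives `ip y r = ip (E h) (l1 u v)`.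
Use `weak_bound` and `Fb`. -/
theorem zeta_bound (H : d.Hyp) (Θ : X → Y →L[ℝ] X) {C : ℝ} (hC : 0 ≤ C) :
    ∃ C₂ : ℝ, 0 ≤ C₂ ∧ ∀ h, d.Gd Θ C h → ∀ (k h₀ h' : X) (ζ' : Y),
      fderiv ℝ d.E h h' + d.D (h' + h₀) = ζ' →
      ζ' = d.F (d.l (Θ h (-d.ι h₀)) h) - d.F (d.ι h') →
      ‖ζ'‖ ≤ C₂ * ‖h₀‖ * ‖d.E h + d.D (h - k)‖ := by
  obtain ⟨C₁, h0, h1⟩ := weak_bound H Θ hC
  obtain ⟨B, hB⟩ := H.Fb
  refine ⟨|B| * (C₁ * ‖d.l1‖ * C ^ 2 * ‖d.ι‖), by positivity, fun h g k h₀ h' ζ' e1 e2 => ?_⟩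
  have e3 : d.F (d.ι h' - d.l (Θ h (-d.ι h₀)) h) = -ζ' := by simp [e2, F]
  have h2 := hB (d.ι h' - d.l (Θ h (-d.ι h₀)) h)
    (C₁ * ‖d.l1‖ * C ^ 2 * ‖d.ι‖ * ‖h₀‖ * ‖d.E h + d.D (h - k)‖) (by positivity) fun y => by
      obtain ⟨v, rfl, hv⟩ := g.sol y
      have a1 := g.pt.symm h' v
      have a2 := g.pt.bi' (Θ h (-d.ι h₀)) v
      have a3 := g.gau (-d.ι h₀) v
      have a4 := H.Fs (d.ι v) (d.ι h' - d.l (Θ h (-d.ι h₀)) h)
      have a5 := H.Ds (h' + h₀) v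
      have a6 := (Θ h).le_of_opNorm_le_of_le g.bd ((norm_neg _).trans_le (d.ι.le_opNorm h₀))
      rw [e3, map_neg (d.ip (d.ι v)), H.ips _ ζ', ← e1] at a4
      rw [H.ips] at a3
      have a7 : d.ip (fderiv ℝ d.E h v + d.D v + d.F (d.ι v)) (d.ι h' - d.l (Θ h (-d.ι h₀)) h) =
          d.ip (d.E h) (d.l1 (Θ h (-d.ι h₀)) v) := by
        generalize Θ h (-d.ι h₀) = u at *
        simp only [map_add, map_sub, map_neg, add_apply] at *
        linarith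
      rw [a7]
      refine (h1 h g k _).trans ((mul_le_mul_of_nonneg_left
        (d.l1.le_of_opNorm₂_le_of_le le_rfl a6 hv) (by positivity)).trans_eq (by ring))
  rw [e3, norm_neg] at h2
  exact (h2.trans (mul_le_mul_of_nonneg_right (le_abs_self B) (by positivity))).trans_eq (by ring)

end AD

end Pool.Agent.Lib.MP_94aef8_gt.E2
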