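import Mathlib

/-!
Abstract data: a functional `S` with gradient `E` and infinitesimal symmetries `l`.
-/

open scoped ContDiff Topology
open Filter Set

namespace Pool.Agent.Lib.MP_94aef8_gt.E2

/-- The data of the abstract theorem. -/
structure AD (X Y Z : Type) [NormedAddCommGroup X] [NormedSpace ℝ X] [NormedAddCommGroup Y]
    [NormedSpace ℝ Y] [NormedAddCommGroup Z] [NormedSpace ℝ Z] where
  ι : X →L[ℝ] Y
  D : X →L[ℝ] Y
  l0 : X →L[ℝ] Y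
  l1 : X →L[ℝ] X →L[ℝ] Y
  ip : Y →L[ℝ] Y →L[ℝ] ℝ
  σ : Y →L[ℝ] X
  q : Y →L[ℝ] Z
  j : Z →L[ℝ] Y
  E : X → Y
  S : X → ℝ

namespace AD

variable {X Y Z : Type} [NormedAddCommGroup X] [NormedSpace ℝ X] [NormedAddCommGroup Y]
  [NormedSpace ℝ Y] [NormedAddCommGroup Z] [NormedSpace ℝ Z] (d : AD X Y Z)

/-- The infinitesimal symmetry `u` at the point `h`. -/
noncomputable def l (u h : X) : Y := d.l0 u + d.l1 u h

/-- The operator of finite rank. -/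
noncomputable def F (y : Y) : Y := d.j (d.q y)

/-- The identities near the point `h`. -/
structure At (h : X) : Prop where
  anE : AnalyticAt ℝ d.E h
  anS : AnalyticAt ℝ d.S h
  dS : ∀ᶠ h' in 𝓝 h, ∀ u, fderiv ℝ d.S h' u = -d.ip (d.E h') (d.ι u)
  bi : ∀ᶠ h' in 𝓝 h, ∀ u, d.ip (d.E h') (d.l u h') = 0

/-- The hypotheses of the abstract theorem. -/
structure Hyp : Prop where
  ips : ∀ y y', d.ip y y' = d.ip y' y
  Ds : ∀ u v, d.ip (d.D u) (d.ι v) = d.ip (d.D v) (d.ι u)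
  Fs : ∀ y y', d.ip (d.F y) y' = d.ip y (d.F y')
  Fb : ∃ C : ℝ, ∀ (r : Y) (ε : ℝ), 0 ≤ ε → (∀ y, |d.ip y r| ≤ ε * ‖y‖) → ‖d.F r‖ ≤ C * ε
  at0 : d.At 0
  E0 : d.E 0 = 0
  inv : ∃ e : X ≃L[ℝ] Y, ∀ u, e u = fderiv ℝ d.E 0 u + d.D u + d.F (d.ι u)
  sig : ∀ y v, d.ip (d.l0 (d.σ y) - y) (d.D v) = 0

/-- A good point: the linear problems can be solved with the constant `C`. -/
structure Gd (Θ : X → Y →L[ℝ] X) (C : ℝ) (h : X) : Prop where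
  pt : d.At h
  sol : ∀ y, ∃ v, fderiv ℝ d.E h v + d.D v + d.F (d.ι v) = y ∧ ‖v‖ ≤ C * ‖y‖
  gau : ∀ y v, d.ip (d.l (Θ h y) h - y) (d.D v) = 0
  bd : ‖Θ h‖ ≤ C
  le1 : ‖h‖ ≤ 1

end AD

end Pool.Agent.Lib.MP_94aef8_gt.E2
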