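import Mathlib

open scoped ContDiff Topology
open Filter Set

namespace Pool.Agent.Lib.MP_94aef8_gt.E2

/-- Picard-Lindeloef, with the solution staying in the ball. -/
theorem absODE_ball {Z : Type} [NormedAddCommGroup Z] [NormedSpace ℝ Z] [CompleteSpace Z]
    {f : ℝ → Z → Z} {tmin tmax : ℝ} {t₀ : Icc tmin tmax} {x₀ x : Z} {a r L K : NNReal}
    (hf : IsPicardLindelof f t₀ x₀ a r L K) (hx : x ∈ Metric.closedBall x₀ r) :
    ∃ α : ℝ → Z, α t₀ = x ∧ (∀ t, α t ∈ Metric.closedBall x₀ a) ∧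
      ∀ t ∈ Icc tmin tmax, HasDerivWithinAt α (f t (α t)) (Icc tmin tmax) t := by
  obtain ⟨α, hα⟩ := ODE.FunSpace.exists_isFixedPt_next hf hx
  refine ⟨α.compProj, by rw [ODE.FunSpace.compProj_val, ← hα, ODE.FunSpace.next_apply₀],
    fun t => α.compProj_mem_closedBall hf.mul_max_le, fun t ht => ?_⟩
  apply ODE.hasDerivWithinAt_picard_Icc t₀.2 hf.continuousOn_uncurry
    α.continuous_compProj.continuousOn (fun _ _ => α.compProj_mem_closedBall hf.mul_max_le)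
    x ht |>.congr_of_mem _ ht
  intro t' ht'
  nth_rw 1 [← hα]
  rw [ODE.FunSpace.compProj_of_mem ht', ODE.FunSpace.next_apply]

/-- Solutions of a small ordinary differential equation exist on `[0, 1]`. Sketch: `Γ` is
Lipschitz and bounded by some `L` on a product of closed balls of radius `ρ` contained in `W`
(`ContDiffAt.exists_lipschitzOnWith`). Take `ε ≤ ρ / 2` with `L ε ≤ ρ / 2` and apply
`IsPicardLindelof` to `f t c = Γ ((1 - t) • h₀, c) h₀` on `closedBall c₀ (ρ / 2)`; the solution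
stays in this ball (mean value inequality on a clamped field, or the statement on the ball in
`Mathlib/Analysis/ODE/PicardLindelof.lean`). -/
theorem ode_small {X Z : Type} [NormedAddCommGroup X] [NormedSpace ℝ X] [NormedAddCommGroup Z]
    [NormedSpace ℝ Z] [CompleteSpace Z] {Γ : X × Z → X →L[ℝ] Z} (hΓ : ContDiffAt ℝ 1 Γ (0, 0))
    {W : Set (X × Z)} (hW : W ∈ 𝓝 ((0, 0) : X × Z)) :
    ∃ ε : ℝ, 0 < ε ∧ ∀ (h₀ : X) (c₀ : Z), ‖h₀‖ < ε → ‖c₀‖ < ε → ∃ c : ℝ → Z, c 0 = c₀ ∧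
      ∀ t ∈ Icc (0 : ℝ) 1, ((1 - t) • h₀, c t) ∈ W ∧
        HasDerivWithinAt c (Γ ((1 - t) • h₀, c t) h₀) (Icc (0 : ℝ) 1) t := by
  obtain ⟨K, s, hs, hK⟩ := hΓ.exists_lipschitzOnWith
  obtain ⟨ρ, hρ, hsub⟩ := Metric.nhds_basis_closedBall.mem_iff.1 (inter_mem hs hW)
  have hL : (0 : ℝ) < ‖Γ (0, 0)‖ + K * ρ + 1 := by positivity
  have hb : ∀ p ∈ Metric.closedBall ((0, 0) : X × Z) ρ, ‖Γ p‖ ≤ ‖Γ (0, 0)‖ + K * ρ + 1 := by
    intro p hp
    have h1 := hK.dist_le_mul p (hsub hp).1 (0, 0) (mem_of_mem_nhds hs)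
    have h2 : (K : ℝ) * dist p (0, 0) ≤ K * ρ := mul_le_mul_of_nonneg_left hp K.2
    have h3 := norm_le_norm_add_norm_sub' (Γ p) (Γ (0, 0))
    rw [dist_eq_norm] at h1
    linarith
  refine ⟨min (ρ / 2) (ρ / 2 / (‖Γ (0, 0)‖ + K * ρ + 1)), by positivity, fun h₀ c₀ hh hc => ?_⟩
  have hh1 : ‖h₀‖ ≤ ρ / 2 := hh.le.trans (min_le_left _ _)
  have hh2 : (‖Γ (0, 0)‖ + K * ρ + 1) * ‖h₀‖ ≤ ρ / 2 := by
    rw [mul_comm, ← le_div_iff₀ hL]
    exact hh.le.trans (min_le_right _ _)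
  have hmem : ∀ t ∈ Icc (0 : ℝ) 1, ∀ c ∈ Metric.closedBall (0 : Z) ρ,
      ((1 - t) • h₀, c) ∈ Metric.closedBall ((0, 0) : X × Z) ρ := by
    intro t ht c hc'
    rw [← closedBall_prod_same]
    refine ⟨?_, hc'⟩
    rw [mem_closedBall_zero_iff, norm_smul, Real.norm_eq_abs, abs_of_nonneg (by linarith [ht.2])]
    nlinarith [ht.1, norm_nonneg h₀]
  have hP : IsPicardLindelof (fun t c => Γ ((1 - t) • h₀, c) h₀)
      (⟨0, left_mem_Icc.2 zero_le_one⟩ : Icc (0 : ℝ) 1) (0 : Z) ⟨ρ, hρ.le⟩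
      ⟨ρ / 2, by positivity⟩ ⟨ρ / 2, by positivity⟩ (K * ‖h₀‖₊) := by
    refine ⟨fun t ht => LipschitzOnWith.of_dist_le_mul fun c h1 c' h2 => ?_, fun c h1 => ?_,
      fun t ht c h1 => ?_, ?_⟩
    · have h3 := hK.dist_le_mul _ (hsub (hmem t ht c h1)).1 _ (hsub (hmem t ht c' h2)).1
      rw [dist_prod_same_left, dist_eq_norm] at h3
      rw [dist_eq_norm, ← sub_apply, NNReal.coe_mul, coe_nnnorm,
        mul_right_comm]
      exact (ContinuousLinearMap.le_opNorm _ _).trans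
        (mul_le_mul_of_nonneg_right h3 (norm_nonneg _))
    · refine ContinuousOn.clm_apply ?_ continuousOn_const
      exact hK.continuousOn.comp (f := fun t : ℝ => ((1 - t) • h₀, c)) (by fun_prop)
        fun t ht => (hsub (hmem t ht c h1)).1
    · exact (ContinuousLinearMap.le_opNorm _ _).trans
        ((mul_le_mul_of_nonneg_right (hb _ (hmem t ht c h1)) (norm_nonneg _)).trans hh2)
    · change ρ / 2 * max (1 - 0 : ℝ) (0 - 0) ≤ ρ - ρ / 2
      rw [sub_zero, sub_zero, max_eq_left zero_le_one]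
      linarith
  obtain ⟨c, h1, h2, h3⟩ := absODE_ball hP (x := c₀)
    (mem_closedBall_zero_iff.2 (hc.le.trans (min_le_left _ _)))
  exact ⟨c, h1, fun t ht => ⟨(hsub (hmem t ht _ (h2 t))).2, h3 t ht⟩⟩

/-- Gronwall (`norm_le_gronwallBound_of_norm_deriv_right_le`). -/
theorem zero_of_gronwall {Y : Type} [NormedAddCommGroup Y] [NormedSpace ℝ Y] {ζ ζ' : ℝ → Y}
    {K : ℝ} (hd : ∀ t ∈ Icc (0 : ℝ) 1, HasDerivWithinAt ζ (ζ' t) (Icc (0 : ℝ) 1) t)
    (hb : ∀ t ∈ Icc (0 : ℝ) 1, ‖ζ' t‖ ≤ K * ‖ζ t‖) (h0 : ζ 0 = 0) :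
    ∀ t ∈ Icc (0 : ℝ) 1, ζ t = 0 := by
  refine eq_zero_of_abs_deriv_le_mul_abs_self_of_eq_zero_right (f' := ζ') (K := K)
    (fun t ht => (hd t ht).continuousWithinAt) (fun t ht => ?_) h0
    fun t ht => hb t (Ico_subset_Icc_self ht)
  exact (hd t (Ico_subset_Icc_self ht)).mono_of_mem_nhdsWithin (Icc_mem_nhdsGE_of_mem ht)

end Pool.Agent.Lib.MP_94aef8_gt.E2
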