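import Pool.Agent.Lib.MP_94aef8_gt.E2.AbsDefs

open scoped ContDiff Topology
open Filter Set

namespace Pool.Agent.Lib.MP_94aef8_gt.E2

namespace AD

variable {X Y Z : Type} [NormedAddCommGroup X] [NormedSpace ℝ X] [NormedAddCommGroup Y]
  [NormedSpace ℝ Y] [NormedAddCommGroup Z] [NormedSpace ℝ Z] [CompleteSpace X] [CompleteSpace Y]
  {d : AD X Y Z}

theorem AbsT_neumann {A : Y →L[ℝ] Y} (hA : ‖A‖ ≤ 1 / 2) :
    (∀ y, Ring.inverse (1 + A) y + A (Ring.inverse (1 + A) y) = y) ∧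
      ‖Ring.inverse (1 + A)‖ ≤ 2 := by
  have hu : IsUnit (1 + A) := by
    have h1 := (Units.oneSub (-A) (by rw [norm_neg]; linarith)).isUnit
    rwa [Units.val_oneSub, sub_neg_eq_add] at h1
  have h2 : ∀ y, Ring.inverse (1 + A) y + A (Ring.inverse (1 + A) y) = y := fun y =>
    DFunLike.congr_fun (Ring.mul_inverse_cancel _ hu) y
  refine ⟨h2, ContinuousLinearMap.opNorm_le_bound _ zero_le_two fun y => ?_⟩
  have h3 := h2 y
  generalize Ring.inverse (1 + A) y = y' at h3 ⊢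
  have h4 : ‖y'‖ ≤ ‖y‖ + ‖A y'‖ := by
    rw [eq_sub_of_add_eq h3]
    refine (norm_sub_le _ _).trans (le_of_eq ?_)
    rw [← eq_sub_of_add_eq h3]
  have h5 : ‖A y'‖ ≤ 1 / 2 * ‖y'‖ :=
    (A.le_opNorm y').trans (mul_le_mul_of_nonneg_right hA (norm_nonneg _))
  linarith

omit [NormedSpace ℝ X] [CompleteSpace X] in
theorem AbsT_small {W : Type} [NormedAddCommGroup W] {f : X → W} (hf : ContinuousAt f 0)
    (h0 : f 0 = 0) {r : ℝ} (hr : 0 < r) : ∀ᶠ h in 𝓝 (0 : X), ‖f h‖ ≤ r := by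
  have h1 : Tendsto (fun h => ‖f h‖) (𝓝 0) (𝓝 0) := by
    have h2 := hf.norm.tendsto
    rwa [h0, norm_zero] at h2
  exact h1.eventually (eventually_le_nhds hr)

/-- Points near zero are good. Sketch: `At` holds near `0` (`AnalyticAt.eventually_analyticAt`,
`Filter.Eventually.eventually_nhds`). `fderiv E` is continuous at `0`, so for `h` near `0` the
operator `e + (fderiv E h - fderiv E 0)` is `e (1 + small)`, invertible with inverse of norm at
most `2 ‖e⁻¹‖` (Neumann series, `NormedRing.inverse_one_sub`, `Units.oneSub`,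
`tsum_geometric_le_of_norm_lt_one`, or continuity of `Ring.inverse` at `1`). Put
`N h = (y ↦ l1 (σ y) h) : Y →L[ℝ] Y` (linear and continuous in `h`) and
`Θ h = σ ∘ Ring.inverse (1 + N h)` (`analyticAt_inverse`); with `y' = (1 + N h)⁻¹ y` one has
`l (σ y') h - y = l0 (σ y') - y'`, so `gau` is `H.sig`. -/
theorem exists_Theta (H : d.Hyp) : ∃ (Θ : X → Y →L[ℝ] X) (C : ℝ), 0 ≤ C ∧ AnalyticAt ℝ Θ 0 ∧
    ∀ᶠ h in 𝓝 (0 : X), d.Gd Θ C h := by
  obtain ⟨e, he⟩ := H.inv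
  obtain ⟨N, hN⟩ : ∃ N : X →L[ℝ] Y →L[ℝ] Y, ∀ h y, N h y = d.l1 (d.σ y) h :=
    ⟨(d.l1.comp d.σ).flip, fun _ _ => rfl⟩
  refine ⟨fun h => d.σ.comp (Ring.inverse (1 + N h)), 2 * ‖(e.symm : Y →L[ℝ] X)‖ + 2 * ‖d.σ‖,
    by positivity, ?_, ?_⟩
  · have h1 : AnalyticAt ℝ (fun h => 1 + N h) 0 := analyticAt_const.add (N.analyticAt 0)
    have h2 : AnalyticAt ℝ (fun h => Ring.inverse (1 + N h)) 0 :=
      (analyticAt_inverse (𝕜 := ℝ) (1 : (Y →L[ℝ] Y)ˣ)).comp_of_eq h1 (by simp)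
    exact ((ContinuousLinearMap.compL ℝ Y Y X d.σ).analyticAt _).comp h2
  have hc : ContinuousAt
      (fun h => (fderiv ℝ d.E h - fderiv ℝ d.E 0).comp (e.symm : Y →L[ℝ] X)) 0 :=
    (H.at0.anE.fderiv.continuousAt.sub continuousAt_const).clm_comp continuousAt_const
  filter_upwards [H.at0.anE.eventually_analyticAt, H.at0.anS.eventually_analyticAt,
    H.at0.dS.eventually_nhds, H.at0.bi.eventually_nhds,
    AbsT_small hc (by simp) one_half_pos,
    AbsT_small N.continuous.continuousAt (map_zero N) one_half_pos,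
    AbsT_small (f := fun h : X => h) continuousAt_id rfl one_pos] with h a1 a2 a3 a4 hA hB hh
  obtain ⟨hA1, hA2⟩ := AbsT_neumann hA
  obtain ⟨hB1, hB2⟩ := AbsT_neumann hB
  refine ⟨⟨a1, a2, a3, a4⟩, fun y => ?_, fun y v => ?_, ?_, hh⟩
  · have h1 := hA1 y
    have h2 := (ContinuousLinearMap.le_opNorm _ y).trans
      (mul_le_mul_of_nonneg_right hA2 (norm_nonneg y))
    generalize Ring.inverse (1 + (fderiv ℝ d.E h - fderiv ℝ d.E 0).comp (e.symm : Y →L[ℝ] X)) y =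
      y' at h1 h2
    refine ⟨e.symm y', ?_, ?_⟩
    · have h3 := he (e.symm y')
      rw [e.apply_symm_apply] at h3
      change y' + (fderiv ℝ d.E h (e.symm y') - fderiv ℝ d.E 0 (e.symm y')) = y at h1
      rw [← h1]
      nth_rewrite 4 [h3]
      abel
    · have h4 := (e.symm : Y →L[ℝ] X).le_opNorm y'
      have h5 := mul_le_mul_of_nonneg_left h2 (norm_nonneg (e.symm : Y →L[ℝ] X))
      have h6 : 0 ≤ 2 * ‖d.σ‖ * ‖y‖ := by positivity
      change ‖e.symm y'‖ ≤ _ at h4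
      linarith
  · have h1 := hB1 y
    change d.ip (d.l (d.σ (Ring.inverse (1 + N h) y)) h - y) (d.D v) = 0
    generalize Ring.inverse (1 + N h) y = y' at h1
    have h2 : d.l (d.σ y') h - y = d.l0 (d.σ y') - y' := by
      rw [← h1, hN, l]
      abel
    rw [h2]
    exact H.sig y' v
  · have h1 := (d.σ.opNorm_comp_le (Ring.inverse (1 + N h))).trans
      (mul_le_mul_of_nonneg_left hB2 (norm_nonneg _))
    have h2 := norm_nonneg (e.symm : Y →L[ℝ] X)
    linarith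

end AD

end Pool.Agent.Lib.MP_94aef8_gt.E2
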