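import Mathlib

/-!
The critical values of a real analytic function form a countable set.
-/

open scoped ContDiff Topology
open Filter Set

namespace Pool.Agent.Lib.MP_94aef8_gt.E2

section

variable {E : Type} [NormedAddCommGroup E] [NormedSpace ℝ E] [FiniteDimensional ℝ E]

theorem count_loc {f : E → ℝ} {s : Set E} (h : ∀ p ∈ s, ∃ t ∈ 𝓝[s] p, (f '' t).Countable) :
    (f '' s).Countable :=
  (HereditarilyLindelofSpace.isLindelof s).induction_on (p := fun t => (f '' t).Countable)
    (fun _ _ hs ht => ht.mono (image_mono hs))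
    (fun S hS hS' => by
      rw [sUnion_eq_biUnion, image_iUnion₂]
      exact hS.biUnion hS') h

omit [FiniteDimensional ℝ E] in
theorem count_flat {f : E → ℝ} {p : E} (hf : AnalyticAt ℝ f p)
    (h : ∀ k, iteratedFDeriv ℝ (k + 1) f p = 0) : ∀ᶠ y in 𝓝 p, f y = f p := by
  obtain ⟨q, r, hq⟩ := hf
  filter_upwards [Metric.eball_mem_nhds p hq.r_pos] with y hy
  have h1 := hq.hasSum_iteratedFDeriv (y := y - p) (by
    rwa [mem_eball_zero_iff, ← edist_eq_enorm_sub])
  rw [add_sub_cancel] at h1
  refine h1.unique ?_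
  have h2 := hasSum_single (f := fun n : ℕ => ((n.factorial : ℝ)⁻¹ •
    iteratedFDeriv ℝ n f p fun _ => y - p)) 0 fun k hk => by
      obtain ⟨k, rfl⟩ := Nat.exists_eq_succ_of_ne_zero hk
      simp [h k]
  simpa using h2

theorem count_param {g : E → ℝ} {p : E} (hg : AnalyticAt ℝ g p) (h : fderiv ℝ g p ≠ 0) :
    ∃ (ψ : (fderiv ℝ g p).ker → E) (π : E → (fderiv ℝ g p).ker),
      ∀ᶠ y in 𝓝 p, AnalyticAt ℝ ψ (π y) ∧ (g y = g p → ψ (π y) = y) := by
  have := FiniteDimensional.complete ℝ E
  have hr : (fderiv ℝ g p).range = ⊤ :=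
    Module.Dual.range_eq_top_of_ne_zero fun h' => h (ContinuousLinearMap.coe_injective h')
  let φ := hg.hasStrictFDerivAt.implicitFunctionDataOfComplemented g _ hr
    (fderiv ℝ g p).ker_closedComplemented_of_finiteDimensional_range
  have h1 : ContDiffAt ℝ ω φ.rightFun p :=
    (ContinuousLinearMap.contDiff _).contDiffAt.comp p (contDiffAt_id.sub contDiffAt_const)
  have h2 := φ.contDiffAt_implicitFunction (n := ω) hg.contDiffAt h1 (by simp)
  have h3 : AnalyticAt ℝ (φ.implicitFunction (g p)) (φ.rightFun p) :=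
    AnalyticAt.comp (f := fun z => (g p, z)) h2.analyticAt (analyticAt_const.prod analyticAt_id)
  refine ⟨φ.implicitFunction (g p), φ.rightFun, ?_⟩
  filter_upwards [h1.continuousAt.eventually h3.eventually_analyticAt,
    φ.implicitFunction_apply_image] with y h4 h5
  exact ⟨h4, fun h6 => h6 ▸ h5⟩

end

theorem count_aux (n : ℕ) : ∀ {E : Type} [NormedAddCommGroup E] [NormedSpace ℝ E]
    [FiniteDimensional ℝ E], Module.finrank ℝ E < n → ∀ {f : E → ℝ} {U : Set E},
    AnalyticOnNhd ℝ f U → (f '' {x | x ∈ U ∧ fderiv ℝ f x = 0}).Countable := by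
  induction n with
  | zero => exact fun h => absurd h (Nat.not_lt_zero _)
  | succ n ih =>
    intro E _ _ _ hn f U hf
    have h1 : (f '' {x | x ∈ U ∧ ∀ k, iteratedFDeriv ℝ (k + 1) f x = 0}).Countable :=
      count_loc fun p hp => ⟨_, mem_nhdsWithin_of_mem_nhds (count_flat (hf p hp.1) hp.2),
        (countable_singleton (f p)).mono (by rintro _ ⟨y, hy, rfl⟩; exact hy)⟩
    have h2 : ∀ k, (f '' {x | (x ∈ U ∧ fderiv ℝ f x = 0) ∧ iteratedFDeriv ℝ k f x = 0 ∧
        iteratedFDeriv ℝ (k + 1) f x ≠ 0}).Countable := fun k => count_loc fun p hp => by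
      obtain ⟨m, hm⟩ : ∃ m, iteratedFDeriv ℝ (k + 1) f p m ≠ 0 := by
        by_contra! h
        exact hp.2.2 (ContinuousMultilinearMap.ext h)
      have h3 := hf.iteratedFDeriv k p hp.1.1
      have h4 : AnalyticAt ℝ (fun y => iteratedFDeriv ℝ k f y (Fin.tail m)) p :=
        ((ContinuousMultilinearMap.apply ℝ _ ℝ (Fin.tail m)).analyticAt _).comp h3
      have h5 : fderiv ℝ (fun y => iteratedFDeriv ℝ k f y (Fin.tail m)) p ≠ 0 := fun h => hm (by
        rw [iteratedFDeriv_succ_apply_left,
          ← fderiv_continuousMultilinear_apply_const_apply h3.differentiableAt, h]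
        rfl)
      obtain ⟨ψ, π, h6⟩ := count_param h4 h5
      have h7 := Module.Dual.finrank_ker_add_one_of_ne_zero
        (f := (fderiv ℝ (fun y => iteratedFDeriv ℝ k f y (Fin.tail m)) p : E →ₗ[ℝ] ℝ))
        fun h' => h5 (ContinuousLinearMap.coe_injective h')
      refine ⟨_, inter_mem_nhdsWithin _ h6, (ih (by omega) (f := f ∘ ψ)
        (U := {z | AnalyticAt ℝ ψ z ∧ ψ z ∈ U}) fun z hz => (hf _ hz.2).comp hz.1).mono ?_⟩
      rintro _ ⟨y, ⟨hy, h8, h9⟩, rfl⟩
      have h10 := h9 (by rw [hy.2.1, hp.2.1])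
      refine ⟨π y, ⟨⟨h8, h10.symm ▸ hy.1.1⟩, ?_⟩, congrArg f h10⟩
      rw [fderiv_comp _ (hf _ (h10.symm ▸ hy.1.1)).differentiableAt h8.differentiableAt, h10,
        hy.1.2, ContinuousLinearMap.zero_comp]
    refine (h1.union (countable_iUnion h2)).mono ?_
    rw [← image_iUnion, ← image_union]
    refine image_mono fun x hx => ?_
    by_contra h
    simp only [mem_union, mem_iUnion, mem_ofPred_eq, not_or, not_exists, not_and, not_not] at h
    refine h.1 hx.1 fun k => ?_
    induction k with
    | zero =>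
      ext m
      rw [iteratedFDeriv_one_apply, hx.2]
      rfl
    | succ k ihk => exact h.2 _ hx ihk

/-- Critical values of an analytic function on a finite dimensional space are countable.
Sketch. Induction on `finrank E` (state it for all `E : Type` of rank `n`). Let
`C k = {x ∈ U | ∀ i, 1 ≤ i → i ≤ k → iteratedFDeriv ℝ i f x = 0}`, the critical set is `C 1`.
It is enough (Lindeloef, `TopologicalSpace.countable_cover_nhdsWithin`) to show for each of the
countably many sets `⋂ k, C k` and `C k \ C (k+1)` (`k ≥ 1`) that every point `p` of the set has a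
neighbourhood `N` with `f '' (N ∩ set)` countable. At `p ∈ ⋂ k, C k` the function `f` is constant
near `p` (`HasFPowerSeriesOnBall.hasSum_iteratedFDeriv`). At `p ∈ C k \ C (k+1)` there is
`m : Fin k → E` such that `g y = iteratedFDeriv ℝ k f y m` has `fderiv g p ≠ 0`; `g` vanishes on
`C k`. With `K = ker (fderiv g p)` and a projection `π : E → K`, the map `y ↦ (g y, π y)` has an
analytic local inverse `ψ` (`ContDiffAt.to_localInverse` with `n = ω`); for `y ∈ C k` near `p` one
has `y = ψ (0, π y)` and `π y` is a critical point of `z ↦ f (ψ (0, z))`, analytic near `π p` on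
`K`, of smaller rank. Rank zero: `E` is a subsingleton. -/
theorem countable_crit {E : Type} [NormedAddCommGroup E] [NormedSpace ℝ E]
    [FiniteDimensional ℝ E] {f : E → ℝ} {U : Set E} (hf : AnalyticOnNhd ℝ f U) :
    (f '' {x | x ∈ U ∧ fderiv ℝ f x = 0}).Countable := by
  exact count_aux _ (Nat.lt_succ_self _) hf

end Pool.Agent.Lib.MP_94aef8_gt.E2
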