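import Pool.Agent.Lib.MP_94aef8_gt.E2.AbsA
import Pool.Agent.Lib.MP_94aef8_gt.E2.AbsT
import Pool.Agent.Lib.MP_94aef8_gt.E2.AbsB
import Pool.Agent.Lib.MP_94aef8_gt.E2.AbsODE
import Pool.Agent.Lib.MP_94aef8_gt.E2.Count

open scoped ContDiff Topology
open Filter Set

namespace Pool.Agent.Lib.MP_94aef8_gt.E2

namespace AD

variable {X Y Z : Type} [NormedAddCommGroup X] [NormedSpace ℝ X] [NormedAddCommGroup Y]
  [NormedSpace ℝ Y] [NormedAddCommGroup Z] [NormedSpace ℝ Z] [CompleteSpace X] [CompleteSpace Y]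
  {d : AD X Y Z}

/-- Along a solution of the equation the differential of `S` vanishes. -/
theorem absmain_path (H : d.Hyp) {Θ : X → Y →L[ℝ] X} {C : ℝ} (hC : 0 ≤ C) {h₀ : X} {h h' : ℝ → X}
    {c : ℝ → Z} (h0 : h 0 = h₀) (hE : d.E h₀ = 0) (hg : ∀ t ∈ Icc (0 : ℝ) 1, d.Gd Θ C (h t))
    (hh : ∀ t ∈ Icc (0 : ℝ) 1, HasDerivWithinAt h (h' t) (Icc (0 : ℝ) 1) t)
    (hc : ∀ t ∈ Icc (0 : ℝ) 1,
      HasDerivWithinAt c (d.q (d.l (Θ (h t) (-d.ι h₀)) (h t))) (Icc (0 : ℝ) 1) t)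
    (he : ∀ t ∈ Icc (0 : ℝ) 1,
      d.E (h t) + d.D (h t - (1 - t) • h₀) + d.F (d.ι (h t)) = d.j (c t)) :
    fderiv ℝ d.S (h 1) = 0 ∧ d.S (h 1) = d.S h₀ := by
  obtain ⟨C₁, -, hweak⟩ := weak_bound H Θ hC
  obtain ⟨C₂, -, hzeta⟩ := zeta_bound H Θ hC
  have hA : ∀ t ∈ Icc (0 : ℝ) 1, HasDerivWithinAt (fun t => d.E (h t) + d.D (h t - (1 - t) • h₀))
      (fderiv ℝ d.E (h t) (h' t) + d.D (h' t + h₀)) (Icc (0 : ℝ) 1) t := fun t ht => by
    have h1 : HasDerivWithinAt (fun t : ℝ => h t - (1 - t) • h₀) (h' t + h₀) (Icc (0 : ℝ) 1) t := by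
      have h2 := (hh t ht).sub
        (((hasDerivWithinAt_id t (Icc (0 : ℝ) 1)).const_sub 1).smul_const h₀)
      rw [neg_one_smul, sub_neg_eq_add] at h2
      exact h2
    exact ((hg t ht).pt.anE.differentiableAt.hasFDerivAt.comp_hasDerivWithinAt t (hh t ht)).add
      (d.D.hasFDerivAt.comp_hasDerivWithinAt t h1)
  have hB : ∀ t ∈ Icc (0 : ℝ) 1, HasDerivWithinAt (fun t => d.E (h t) + d.D (h t - (1 - t) • h₀))
      (d.F (d.l (Θ (h t) (-d.ι h₀)) (h t)) - d.F (d.ι (h' t))) (Icc (0 : ℝ) 1) t := fun t ht => by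
    have h1 := (d.j.hasFDerivAt.comp_hasDerivWithinAt t (hc t ht)).sub
      ((d.j ∘L d.q ∘L d.ι).hasFDerivAt.comp_hasDerivWithinAt t (hh t ht))
    exact h1.congr (fun s hs => eq_sub_of_add_eq (he s hs)) (eq_sub_of_add_eq (he t ht))
  have hz := zero_of_gronwall (K := C₂ * ‖h₀‖) hA (fun t ht => hzeta _ (hg t ht) _ _ _ _ rfl
    ((uniqueDiffOn_Icc zero_lt_one t ht).eq_deriv _ (hA t ht) (hB t ht))) (by simp [h0, hE])
  have hS : ∀ t ∈ Icc (0 : ℝ) 1, fderiv ℝ d.S (h t) = 0 := fun t ht => by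
    ext u
    have h1 := hweak _ (hg t ht) ((1 - t) • h₀) (d.ι u)
    rw [hz t ht, norm_zero, mul_zero, zero_mul, abs_nonpos_iff] at h1
    rw [(hg t ht).pt.dS.self_of_nhds u, h1, neg_zero, zero_apply]
  have h1 : (1 : ℝ) ∈ Icc (0 : ℝ) 1 := right_mem_Icc.2 zero_le_one
  refine ⟨hS 1 h1, sub_eq_zero.1 (zero_of_gronwall (K := 0) (ζ := fun t => d.S (h t) - d.S h₀)
    (ζ' := fun _ => 0) (fun t ht => ?_) (fun t _ => by simp) (by simp [h0]) 1 h1)⟩
  have h2 := (hg t ht).pt.anS.differentiableAt.hasFDerivAt.comp_hasDerivWithinAt t (hh t ht)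
  rw [hS t ht] at h2
  exact h2.sub_const _

/-- The abstract theorem. Sketch: `G`, `Θ`, `C` from `exists_G`, `exists_Theta`. Let `W` be the
set of ` (k, c) : X × Z` such that at `p = (k, j c)` the map `G` is analytic, its equation holds
near `p`, and `G p` is good. `Γ (k, c) = q ∘ (l0 + l1.flip h) ∘ Θ h ∘ (-ι)` with `h = G (k, j c)`
is analytic at ` (0, 0)`. For a small zero `h₀` of `E` solve the equation of `ode_small` with
`c₀ = q (ι h₀)`; `h t = G ((1 - t) • h₀, j (c t))`, `h 0 = h₀`,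
`ζ t = j (c t) - F (ι (h t)) = E (h t) + D (h t - (1 - t) • h₀)`. Differentiate both expressions
(uniqueness of derivatives within `Icc 0 1`), `zeta_bound` and `zero_of_gronwall` give `ζ = 0`,
`weak_bound` gives `ip (E (h t)) y = 0` for all `y`, so `S (h t)` has derivative zero and is
constant (`zero_of_gronwall` with `K = 0` for `S (h t) - S h₀`), and `c 1` is a critical point of
`f c = S (G (0, j c))`, analytic on `{c | (0, c) ∈ W}`. Apply `countable_crit`. -/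
theorem abs_main [FiniteDimensional ℝ Z] (H : d.Hyp) :
    ∃ U ∈ 𝓝 (0 : X), (d.S '' {h | h ∈ U ∧ d.E h = 0}).Countable := by
  have : CompleteSpace Z := FiniteDimensional.complete ℝ Z
  obtain ⟨G, hGa, hG0, hGe, hGl⟩ := exists_G H
  obtain ⟨Θ, C, hC, hΘa, hΘg⟩ := exists_Theta H
  obtain ⟨J, hJ⟩ : ∃ J : X × Z →L[ℝ] X × Y, ∀ p, J p = (p.1, d.j p.2) :=
    ⟨(ContinuousLinearMap.id ℝ X).prodMap d.j, fun _ => rfl⟩
  have hJ0 : J (0, 0) = (0, 0) := map_zero J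
  obtain ⟨g, hg⟩ : ∃ g : X × Z → X, g = fun p => G (J p) := ⟨_, rfl⟩
  have hga : AnalyticAt ℝ g (0, 0) := hg ▸ hGa.comp_of_eq (J.analyticAt _) hJ0
  have hg0 : g (0, 0) = 0 := by rw [hg]; exact (congrArg G hJ0).trans hG0
  have hW : {p : X × Z | AnalyticAt ℝ g p ∧
      d.E (g p) + d.D (g p - p.1) + d.F (d.ι (g p)) = d.j p.2 ∧ d.Gd Θ C (g p)} ∈
      𝓝 ((0, 0) : X × Z) := by
    have h1 := (J.continuous.tendsto' _ _ hJ0).eventually hGe
    have h2 := hga.continuousAt.tendsto.eventually (p := fun h => d.Gd Θ C h) (by rwa [hg0])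
    filter_upwards [hga.eventually_analyticAt, h1, h2] with p a1 a2 a3
    refine ⟨a1, ?_, a3⟩
    rw [hg]
    simpa only [hJ] using a2
  have hΓ : ContDiffAt ℝ 1 (fun p : X × Z =>
      d.q ∘L (d.l0 + d.l1.flip (g p)) ∘L Θ (g p) ∘L (-d.ι)) (0, 0) :=
    contDiffAt_const.clm_comp ((contDiffAt_const.add
      (d.l1.flip.contDiff.contDiffAt.comp _ hga.contDiffAt)).clm_comp
        ((hΘa.comp_of_eq hga hg0).contDiffAt.clm_comp contDiffAt_const))
  obtain ⟨ε, hε, hode⟩ := ode_small hΓ hW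
  have hf : AnalyticOnNhd ℝ (fun c : Z => d.S (g (0, c)))
      {c | AnalyticAt ℝ g (0, c) ∧ d.Gd Θ C (g (0, c))} := fun c hc =>
    hc.2.pt.anS.comp_of_eq (hc.1.comp_of_eq (analyticAt_const.prod analyticAt_id) rfl) rfl
  refine ⟨{h | ‖h‖ < ε ∧ ‖d.q (d.ι h)‖ < ε ∧ (d.E h = 0 → G (h, d.F (d.ι h)) = h)}, ?_,
    (countable_crit hf).mono ?_⟩
  · have h1 : ∀ᶠ h in 𝓝 (0 : X), ‖h‖ < ε :=
      continuous_norm.continuousAt.eventually_lt continuousAt_const (by simpa using hε)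
    have h2 : ∀ᶠ h in 𝓝 (0 : X), ‖d.q (d.ι h)‖ < ε :=
      (d.q.continuous.comp d.ι.continuous).norm.continuousAt.eventually_lt continuousAt_const
        (by simpa using hε)
    exact h1.and (h2.and hGl)
  · rintro _ ⟨h₀, ⟨⟨a1, a2, a3⟩, hE⟩, rfl⟩
    obtain ⟨c, hc0, hc⟩ := hode h₀ _ a1 a2
    obtain ⟨b1, b2⟩ := absmain_path H hC (h₀ := h₀) (h := fun t => g ((1 - t) • h₀, c t)) (c := c)
      (by simp only [hg, hJ, sub_zero, one_smul, hc0]; exact a3 hE) hE (fun t ht => (hc t ht).1.2.2)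
      (fun t ht => (hc t ht).1.1.differentiableAt.hasFDerivAt.comp_hasDerivWithinAt t
        ((((hasDerivWithinAt_id t (Icc (0 : ℝ) 1)).const_sub 1).smul_const h₀).prodMk (hc t ht).2))
      (fun t ht => (hc t ht).2) fun t ht => (hc t ht).1.2.1
    obtain ⟨e1, -, e2⟩ := (hc 1 (right_mem_Icc.2 zero_le_one)).1
    simp only [sub_self, zero_smul] at b1 b2 e1 e2
    refine ⟨c 1, ⟨⟨e1, e2⟩, ?_⟩, b2⟩
    have h1 := e2.pt.anS.differentiableAt.hasFDerivAt.comp (c 1)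
      (e1.differentiableAt.hasFDerivAt.comp (c 1) (hasFDerivAt_prodMk_right (0 : X) (c 1)))
    rw [b1, ContinuousLinearMap.zero_comp] at h1
    exact h1.fderiv

end AD

end Pool.Agent.Lib.MP_94aef8_gt.E2
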