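import Pool.Agent.Lib.MP_94aef8_gt.E2.PDefs

open scoped ContDiff Topology InnerProductSpace
open Filter Set MeasureTheory Matrix UniformSpace

namespace Pool.Agent.Lib.MP_94aef8_gt.E2

theorem Alg_gen (hS : SobP) {R : Type} [SeminormedCommRing R] [NormedAlgebra ℝ R]
    (j : SmF →ₗ[ℝ] R) (hj : Function.Surjective j) (t : R →ₐ[ℝ] Fn) (ht : ∀ f, t (j f) = f)
    {C : ℝ} (hC : 1 ≤ C) (hn : ∀ f : SmF, ‖j f‖ ^ 2 = C * hs 8 (Q (3 / 2)) f) :
    Nonempty (AlgP (Completion R)) := by
  obtain ⟨Cs, hCs⟩ := hS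
  have hle : ∀ f : SmF, hs 8 (Q (3 / 2)) f ≤ ‖j f‖ ^ 2 := fun f => by
    rw [hn]
    exact le_mul_of_one_le_left (hs_nonneg _ _ _) hC
  let e : R →ₗ[ℝ] Completion R := (Completion.toComplₗᵢ (𝕜 := ℝ) (E := R)).toLinearMap
  have hd : DenseRange e := Completion.denseRange_coe
  let φ : E4 → R →ₗ[ℝ] ℝ := fun y => (LinearMap.proj y).comp t.toLinearMap
  have hb : ∀ y ∈ Q (3 / 2), ∀ r, ‖φ y r‖ ≤ √|Cs| * ‖e r‖ := fun y hy r => by
    obtain ⟨f, rfl⟩ := hj r
    change |t (j f) y| ≤ √|Cs| * ‖(j f : Completion R)‖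
    rw [ht, Completion.norm_coe]
    refine abs_le_of_sq_le_sq' ?_ (by positivity) |> abs_le.2
    rw [mul_pow, Real.sq_sqrt (abs_nonneg _)]
    refine (hCs f f.2 y hy).trans ((mul_le_mul_of_nonneg_right (le_abs_self _)
      (hs_nonneg _ _ _)).trans (mul_le_mul_of_nonneg_left ?_ (abs_nonneg _)))
    exact (hs_mono (by norm_num) _ _).trans (hle f)
  have hev : ∀ y ∈ Q (3 / 2), ∀ r : R, (φ y).extendOfNorm e (r : Completion R) = t r y :=
    fun y hy r => LinearMap.extendOfNorm_eq hd ⟨_, hb y hy⟩ r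
  have hbd : ∀ y ∈ Q (3 / 2), ∀ f, |(φ y).extendOfNorm e f| ≤ √|Cs| * ‖f‖ :=
    fun y hy f => LinearMap.norm_extendOfNorm_apply_le hd _ (hb y hy) f
  refine ⟨{ co := e.comp j
            ev := fun y => (φ y).extendOfNorm e
            ev_mul := fun y hy f g => ?_
            ev_one := fun y hy => ?_
            ev_co := fun y hy f => (hev y hy (j f)).trans (by rw [ht])
            ev_bd := ⟨_, hbd⟩
            ev_cont := fun f => ?_
            dense := hd.comp hj.denseRange (Completion.continuous_coe R)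
            up := ⟨C, fun f => ?_⟩
            low := ⟨1, fun f => ?_⟩ }⟩
  · induction f, g using Completion.induction_on₂ with
    | hp => exact isClosed_eq (by fun_prop) (by fun_prop)
    | ih a b => rw [← Completion.coe_mul, hev y hy, hev y hy, hev y hy, map_mul, Pi.mul_apply]
  · rw [← Completion.coe_one, hev y hy, map_one, Pi.one_apply]
  · refine continuousOn_of_uniform_approx_of_continuousOn fun u hu => ?_
    obtain ⟨ε, hε, hu⟩ := Metric.mem_uniformity_dist.1 hu
    have h0 : 0 < √|Cs| + 1 := by positivity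
    obtain ⟨r, hr⟩ := hd.exists_dist_lt f (div_pos hε h0)
    obtain ⟨g, rfl⟩ := hj r
    refine ⟨g, (ContDiffOn.continuousOn g.2).mono (Q_mono (by norm_num)), fun y hy => hu ?_⟩
    have h1 := hbd y hy (f - e (j g))
    have h2 : (φ y).extendOfNorm e (e (j g)) = (g : Fn) y := (hev y hy (j g)).trans (by rw [ht])
    rw [map_sub, h2] at h1
    rw [dist_eq_norm, lt_div_iff₀ h0] at hr
    rw [Real.dist_eq]
    have h3 := norm_nonneg (f - e (j g))
    linarith
  · change ‖(j f : Completion R)‖ ^ 2 ≤ _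
    rw [Completion.norm_coe, hn]
  · change _ ≤ 1 * ‖(j f : Completion R)‖ ^ 2
    rw [Completion.norm_coe, one_mul]
    exact hle f

/-- The algebra of the functions that are smooth on the large cube. -/
def AlgSub : Subalgebra ℝ Fn where
  carrier := {f | ContDiffOn ℝ ∞ f (Q 3)}
  mul_mem' := fun hf hg => ContDiffOn.mul hf hg
  add_mem' := fun hf hg => ContDiffOn.add hf hg
  algebraMap_mem' := fun _ => contDiffOn_const

/-- The same algebra without its topology. -/
def AlgS : Type := AlgSub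

noncomputable instance : CommRing AlgS := inferInstanceAs (CommRing AlgSub)

noncomputable instance : Algebra ℝ AlgS := inferInstanceAs (Algebra ℝ AlgSub)

/-- The underlying function. -/
noncomputable def AlgVal : AlgS →ₐ[ℝ] Fn := AlgSub.val

theorem AlgVal_sm (f : AlgS) : ContDiffOn ℝ ∞ (AlgVal f) (Q 3) := Subtype.property (p := (· ∈ AlgSub)) f

theorem Alg_smul (C c : ℝ) (f : Fn) :
    √(C * hs 8 (Q (3 / 2)) (c • f)) = |c| * √(C * hs 8 (Q (3 / 2)) f) := by
  rw [hs_smul, mul_left_comm, Real.sqrt_mul (sq_nonneg c), Real.sqrt_sq_eq_abs]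

/-- The Sobolev seminorm. -/
noncomputable def AlgN {C : ℝ} (hC : 0 ≤ C) : AddGroupSeminorm AlgS where
  toFun f := √(C * hs 8 (Q (3 / 2)) (AlgVal f))
  map_zero' := by
    rw [map_zero, ← zero_smul ℝ (0 : Fn), Alg_smul, abs_zero, zero_mul]
  add_le' f g := by
    rw [map_add, Real.sqrt_mul hC, Real.sqrt_mul hC, Real.sqrt_mul hC, ← mul_add]
    exact mul_le_mul_of_nonneg_left
      (sqrt_hs_add (by norm_num) 8 (AlgVal_sm f) (AlgVal_sm g)) (Real.sqrt_nonneg _)
  neg' f := by
    rw [map_neg, ← neg_one_smul ℝ (AlgVal f), Alg_smul, abs_neg, abs_one, one_mul]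

/-- Sketch. Let `SA` be a type synonym (a `def`) of the subalgebra of `Fn` of the functions smooth
on `Q 3`, with `‖f‖ = √(C * hs 8 (Q (3/2)) f)`, `C ≥ 1` the constant of `MulP`. This is a
`SeminormedCommRing` (`sqrt_hs_add`, `hs_smul` of `Hs.lean`; build the seminormed group with
`AddGroupSeminorm.toSeminormedAddCommGroup`) and a `NormedAlgebra ℝ`. Take
`A = UniformSpace.Completion SA` (instances in `Mathlib/Analysis/Normed/Module/Completion.lean`).
For `y ∈ Q (3/2)` the evaluation at `y` is bounded (`SobP`, `hs_mono`), extend it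
(`LinearMap.extendOfNorm`), put `ev y = 0` otherwise. Multiplicativity and the bound pass to the
completion by density; `y ↦ ev y f` is a uniform limit of continuous functions. The constants of
`SobP`, `MulP` may be replaced by their maximum with `1`. -/
theorem exists_alg (hS : SobP) (hM : MulP) : ∃ (A : Type) (_ : NormedCommRing A)
    (_ : NormedAlgebra ℝ A) (_ : CompleteSpace A), Nonempty (AlgP A) := by
  obtain ⟨Cm, hCm⟩ := hM
  have hC : (1 : ℝ) ≤ max Cm 1 := le_max_right _ _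
  have hC0 : (0 : ℝ) ≤ max Cm 1 := zero_le_one.trans hC
  have hmul : ∀ f g : AlgS, AlgN hC0 (f * g) ≤ AlgN hC0 f * AlgN hC0 g := fun f g => by
    change √(_ * hs 8 _ (AlgVal (f * g))) ≤ √(_ * hs 8 _ (AlgVal f)) * √(_ * hs 8 _ (AlgVal g))
    have h1 := hs_nonneg 8 (Q (3 / 2)) (AlgVal f)
    have h2 := hs_nonneg 8 (Q (3 / 2)) (AlgVal g)
    rw [map_mul, ← Real.sqrt_mul (mul_nonneg hC0 h1)]
    refine Real.sqrt_le_sqrt ?_
    rw [mul_mul_mul_comm, mul_assoc]
    refine mul_le_mul_of_nonneg_left ((hCm _ _ (AlgVal_sm f) (AlgVal_sm g)).trans ?_) hC0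
    rw [mul_assoc]
    exact mul_le_mul_of_nonneg_right (le_max_left _ _) (mul_nonneg h1 h2)
  let i1 : SeminormedAddCommGroup AlgS := (AlgN hC0).toSeminormedAddCommGroup
  let i2 : SeminormedCommRing AlgS :=
    { (inferInstance : CommRing AlgS), i1 with norm_mul_le := hmul }
  let i3 : NormedAlgebra ℝ AlgS :=
    { (inferInstance : Algebra ℝ AlgS) with
      norm_smul_le := fun c f => by
        change √(_ * hs 8 _ (AlgVal (c • f))) ≤ |c| * √(_ * hs 8 _ (AlgVal f))
        rw [map_smul, Alg_smul] }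
  let j : SmF →ₗ[ℝ] AlgS :=
    { toFun := fun f => (⟨f.1, f.2⟩ : AlgSub)
      map_add' := fun _ _ => rfl
      map_smul' := fun _ _ => rfl }
  refine ⟨Completion AlgS, inferInstance, inferInstance, inferInstance,
    Alg_gen hS j (fun f => ⟨⟨AlgVal f, AlgVal_sm f⟩, rfl⟩) AlgVal (fun _ => rfl) hC fun f => ?_⟩
  exact Real.sq_sqrt (mul_nonneg hC0 (hs_nonneg _ _ _))

end Pool.Agent.Lib.MP_94aef8_gt.E2
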