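import Mathlib

open scoped InnerProductSpace Topology
open Filter Set UniformSpace

namespace Pool.Agent.Lib.MP_94aef8_gt.E2

variable {V V' W : Type} [SeminormedAddCommGroup V] [NormedSpace ℝ V] [SeminormedAddCommGroup V']
  [NormedSpace ℝ V'] [NormedAddCommGroup W] [NormedSpace ℝ W] [CompleteSpace W]

/-- Extension of a bounded linear map to the completion. -/
theorem ext_lin (f : V →ₗ[ℝ] W) (C : ℝ) (hf : ∀ u, ‖f u‖ ≤ C * ‖u‖) :
    ∃ g : Completion V →L[ℝ] W, ∀ u : V, g u = f u := by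
  exact ⟨(f.mkContinuous C hf).fromCompletion, fun u => by simp⟩

/-- Extension of a bounded bilinear map to the completions (extend, flip, extend). -/
theorem ext_bilin (f : V →ₗ[ℝ] V' →ₗ[ℝ] W) (C : ℝ) (hf : ∀ u v, ‖f u v‖ ≤ C * ‖u‖ * ‖v‖) :
    ∃ g : Completion V →L[ℝ] Completion V' →L[ℝ] W, ∀ (u : V) (v : V'), g u v = f u v := by
  exact ⟨(f.mkContinuous₂ C hf).fromCompletion.flip.fromCompletion.flip, fun u v => by simp⟩

/-- An identity between functions that are continuous on an open set and agree at the points of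
`V` holds on the open set. -/
theorem eq_on_open {φ ψ : Completion V → W} {O : Set (Completion V)} (hO : IsOpen O)
    (hφ : ContinuousOn φ O) (hψ : ContinuousOn ψ O) (h : ∀ u : V, (u : Completion V) ∈ O → φ u = ψ u) :
    ∀ a ∈ O, φ a = ψ a := by
  refine EqOn.of_subset_closure (s := (↑) '' ((↑) : V → Completion V) ⁻¹' O) ?_ hφ hψ
    (image_preimage_subset _ _) (Completion.denseRange_coe.subset_closure_image_preimage_of_isOpen hO)
  rintro _ ⟨u, hu, rfl⟩
  exact h u hu

/-- Square root and inverse near `1` in a Banach algebra. Sketch: `rt` is the local inverse of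
`z ↦ z * z` at `1` (`ContDiffAt.to_localInverse` with `n = ω`; the derivative is `2 •`), and
`iv = Ring.inverse` (`analyticAt_inverse`; a point near `1` is a unit). -/
theorem exists_root (A : Type) [NormedCommRing A] [NormedAlgebra ℝ A] [CompleteSpace A] :
    ∃ rt iv : A → A, AnalyticAt ℝ rt 1 ∧ AnalyticAt ℝ iv 1 ∧ rt 1 = 1 ∧
      ∀ᶠ z in 𝓝 (1 : A), rt z * rt z = z ∧ iv z * z = 1 := by
  obtain ⟨e, he⟩ : ∃ e : A ≃L[ℝ] A, ∀ z, e z = (2 : ℝ) • z :=
    ⟨ContinuousLinearEquiv.equivOfInverse ((2 : ℝ) • ContinuousLinearMap.id ℝ A)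
      ((2 : ℝ)⁻¹ • ContinuousLinearMap.id ℝ A) (fun z => by simp) fun z => by simp, fun _ => rfl⟩
  have h1 : ContDiffAt ℝ ⊤ (fun z : A => z * z) 1 := contDiffAt_id.mul contDiffAt_id
  have h2 : HasFDerivAt (fun z : A => z * z) (e : A →L[ℝ] A) 1 := by
    refine ((hasFDerivAt_id (1 : A)).fun_mul (hasFDerivAt_id (1 : A))).congr_fderiv ?_
    ext z
    simp [he, two_smul]
  have h3 := h1.to_localInverse h2 (by simp)
  have h4 := h1.localInverse_apply_image h2 (by simp)
  have h5 := (h1.hasStrictFDerivAt' h2 (by simp)).eventually_right_inverse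
  simp only [mul_one] at h3 h4 h5
  refine ⟨h1.localInverse h2 (by simp), Ring.inverse, h3.analyticAt,
    analyticAt_inverse (1 : Aˣ), h4, h5.and ?_⟩
  filter_upwards [Units.isOpen.mem_nhds isUnit_one] with z hz
  exact Ring.inverse_mul_cancel z hz

end Pool.Agent.Lib.MP_94aef8_gt.E2
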