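import Pool.Agent.Lib.MP_94aef8_gt.E2.PDefs
import Pool.Agent.Lib.MP_94aef8_gt.E2.Ext

open scoped ContDiff Topology InnerProductSpace
open Filter Set MeasureTheory Matrix UniformSpace

namespace Pool.Agent.Lib.MP_94aef8_gt.E2

variable {A : Type} [NormedCommRing A] [NormedAlgebra ℝ A] [CompleteSpace A] {α : AlgP A}
  {J B : Type} [NormedAddCommGroup B] [NormedSpace ℝ B] {x : J → B} {m l : ℕ} {F F' : J → Fn}

omit [CompleteSpace A] in
theorem ancls_congr (h : An0 α x F)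
    (e : ∀ᶠ b in 𝓝 (0 : B), ∀ j, x j = b → EqOn (F j) (F' j) (Q (3 / 2))) : An0 α x F' := by
  obtain ⟨Fh, ha, hF⟩ := h
  refine ⟨Fh, ha, ?_⟩
  filter_upwards [hF, e] with b h1 h2 j hj
  exact ⟨(h1 j hj).1.congr fun y hy => (h2 j hj hy).symm,
    fun y hy => ((h1 j hj).2 y hy).trans (h2 j hj hy)⟩

omit [CompleteSpace A] in
theorem ancls_diff (h : An0 α x F) : ∀ᶠ b in 𝓝 (0 : B), ∀ j, x j = b →
    ∀ y ∈ Q (3 / 2), DifferentiableAt ℝ (F j) y := by
  obtain ⟨Fh, -, hF⟩ := h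
  filter_upwards [hF] with b h1 j hj y hy
  exact sm_diff (isOpen_Q _) (h1 j hj).1 hy

omit [CompleteSpace A] in
theorem ancls_add (h : An0 α x F) (h' : An0 α x F') : An0 α x fun j => F j + F' j := by
  obtain ⟨Fh, ha, hF⟩ := h
  obtain ⟨Gh, hb, hG⟩ := h'
  refine ⟨Fh + Gh, ha.add hb, ?_⟩
  filter_upwards [hF, hG] with b h1 h2 j hj
  refine ⟨(h1 j hj).1.add (h2 j hj).1, fun y hy => ?_⟩
  rw [Pi.add_apply, map_add, (h1 j hj).2 y hy, (h2 j hj).2 y hy, Pi.add_apply]

omit [CompleteSpace A] in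
theorem ancls_neg (h : An0 α x F) : An0 α x fun j => -F j := by
  obtain ⟨Fh, ha, hF⟩ := h
  refine ⟨-Fh, ha.neg, ?_⟩
  filter_upwards [hF] with b h1 j hj
  refine ⟨(h1 j hj).1.neg, fun y hy => ?_⟩
  rw [Pi.neg_apply, map_neg, (h1 j hj).2 y hy, Pi.neg_apply]

omit [CompleteSpace A] in
theorem ancls_mul (h : An0 α x F) (h' : An0 α x F') : An0 α x fun j => F j * F' j := by
  obtain ⟨Fh, ha, hF⟩ := h
  obtain ⟨Gh, hb, hG⟩ := h'
  refine ⟨Fh * Gh, ha.mul hb, ?_⟩
  filter_upwards [hF, hG] with b h1 h2 j hj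
  refine ⟨(h1 j hj).1.mul (h2 j hj).1, fun y hy => ?_⟩
  rw [Pi.mul_apply, α.ev_mul y hy, (h1 j hj).2 y hy, (h2 j hj).2 y hy, Pi.mul_apply]

theorem ancls_pdw (w : List (Fin 4)) (i : Fin 4) (f : Fn) :
    pdw (w ++ [i]) f = pdw w (pd i f) := by
  induction w with
  | nil => rfl
  | cons k w ih => exact congrArg (pd k) ih

theorem ancls_pd_inv {f : Fn} {y : E4} (hf : DifferentiableAt ℝ f y) (h : f y ≠ 0) (i : Fin 4) :
    pd i (fun y => (f y)⁻¹) y = -((f y)⁻¹ * (f y)⁻¹ * pd i f y) := by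
  have h1 : HasFDerivAt (fun y => (f y)⁻¹) ((-(f y ^ 2)⁻¹) • fderiv ℝ f y) y :=
    (hasDerivAt_inv h).comp_hasFDerivAt y hf.hasFDerivAt
  simp only [pd, h1.fderiv, _root_.smul_apply, smul_eq_mul]
  ring

/-- Induction on `m`, `pd_congr_on`. -/
theorem An.congr (h : An α x m F)
    (e : ∀ᶠ b in 𝓝 (0 : B), ∀ j, x j = b → EqOn (F j) (F' j) (Q (3 / 2))) : An α x m F' := by
  induction m generalizing F F' with
  | zero => exact ancls_congr h e
  | succ m ih =>
    exact ⟨ancls_congr h.1 e, fun i => ih (h.2 i)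
      (e.mono fun b hb j hj => pd_congr_on (isOpen_Q _) (hb j hj) i)⟩

theorem An.zero (h : An α x m F) : An0 α x F := by
  cases m with
  | zero => exact h
  | succ m => exact h.1

theorem An.lev (h : An α x (m + 1) F) : An α x m F := by
  induction m generalizing F with
  | zero => exact h.1
  | succ m ih => exact ⟨h.1, fun i => ih (h.2 i)⟩

/-- Take the constant map `co f`; induction on `m` with `sm_pd`. -/
theorem An.const {f : Fn} (hf : ContDiffOn ℝ ∞ f (Q 3)) (m : ℕ) : An α x m fun _ => f := by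
  have h0 : ∀ {f : Fn}, ContDiffOn ℝ ∞ f (Q 3) → An0 α x fun _ => f := fun {f} hf =>
    ⟨fun _ => α.co ⟨f, hf⟩, analyticAt_const, Eventually.of_forall fun _ _ _ =>
      ⟨hf.mono (Q_mono (by norm_num)), fun y hy => α.ev_co y hy ⟨f, hf⟩⟩⟩
  induction m generalizing f with
  | zero => exact h0 hf
  | succ m ih => exact ⟨h0 hf, fun i => ih (sm_pd (isOpen_Q _) hf i)⟩

theorem An.add (h : An α x m F) (h' : An α x m F') : An α x m fun j => F j + F' j := by
  induction m generalizing F F' with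
  | zero => exact ancls_add h h'
  | succ m ih =>
    refine ⟨ancls_add h.1 h'.1, fun i => (ih (h.2 i) (h'.2 i)).congr ?_⟩
    filter_upwards [ancls_diff h.1, ancls_diff h'.1] with b h1 h2 j hj y hy
    exact (pd_add (h1 j hj y hy) (h2 j hj y hy) i).symm

theorem An.neg (h : An α x m F) : An α x m fun j => -F j := by
  induction m generalizing F with
  | zero => exact ancls_neg h
  | succ m ih =>
    refine ⟨ancls_neg h.1, fun i => ?_⟩
    simp only [pd_neg]
    exact ih (h.2 i)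

/-- Induction on `m`, Leibniz rule on the open cube and `An.congr`. -/
theorem An.mul (h : An α x m F) (h' : An α x m F') : An α x m fun j => F j * F' j := by
  induction m generalizing F F' with
  | zero => exact ancls_mul h h'
  | succ m ih =>
    refine ⟨ancls_mul h.1 h'.1, fun i =>
      ((ih (h.2 i) h'.lev).add (ih h.lev (h'.2 i))).congr ?_⟩
    filter_upwards [ancls_diff h.1, ancls_diff h'.1] with b h1 h2 j hj y hy
    exact (pd_mul (h1 j hj y hy) (h2 j hj y hy) i).symm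

/-- All derivatives up to order `m` in the class of order zero. -/
theorem An.of_words (h : ∀ w : List (Fin 4), w.length ≤ m → An0 α x fun j => pdw w (F j)) :
    An α x m F := by
  induction m generalizing F with
  | zero => exact h [] le_rfl
  | succ m ih =>
    refine ⟨h [] (Nat.zero_le _), fun i => ih fun w hw => ?_⟩
    simp only [← ancls_pdw]
    exact h _ (by simpa using hw)

/-- Let `Fh` represent `F`. Since `ev y (Fh 0) = 1` on the cube, `z b = Fh b - Fh 0 + 1` also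
represents `F` and `z 0 = 1`. Compose with `rt`, `iv` of `exists_root`; `ev y (rt (z b))` is
within `1 / 2` of `1` for small `b` (`ev_bd`), and its square is `F j y`. -/
theorem An0.root (h : An0 α x F) {j₀ : J} (h0 : x j₀ = 0) (h1 : ∀ y ∈ Q (3 / 2), F j₀ y = 1) :
    (An0 α x fun j y => (F j y)⁻¹) ∧ (An0 α x fun j y => √(F j y)) ∧
      ∀ᶠ b in 𝓝 (0 : B), ∀ j, x j = b → ∀ y ∈ Q (3 / 2), 0 < F j y := by
  obtain ⟨Fh, ha, hF⟩ := h
  obtain ⟨rt, iv, hrt, hiv, hr1, hri⟩ := exists_root A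
  obtain ⟨C, hC⟩ := α.ev_bd
  have hz : AnalyticAt ℝ (fun b => Fh b - Fh 0 + 1) 0 :=
    (ha.sub analyticAt_const).add analyticAt_const
  have hz1 : Fh 0 - Fh 0 + 1 = 1 := by simp
  have h2 := hrt.comp_of_eq hz hz1
  have h3 := hiv.comp_of_eq hz hz1
  have h4 : Tendsto (fun b => Fh b - Fh 0 + 1) (𝓝 0) (𝓝 1) := by
    simpa using hz.continuousAt.tendsto
  have h5 : Tendsto (fun b => C * ‖rt (Fh b - Fh 0 + 1) - 1‖) (𝓝 0) (𝓝 0) := by
    simpa [hr1] using ((hrt.continuousAt.tendsto.comp h4).sub_const 1).norm.const_mul C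
  have key : ∀ᶠ b in 𝓝 (0 : B), ∀ j, x j = b → ContDiffOn ℝ ∞ (F j) (Q (3 / 2)) ∧
      ∀ y ∈ Q (3 / 2), α.ev y (iv (Fh b - Fh 0 + 1)) = (F j y)⁻¹ ∧
        α.ev y (rt (Fh b - Fh 0 + 1)) = √(F j y) ∧ 0 < F j y := by
    filter_upwards [hF, h4.eventually hri, h5.eventually (gt_mem_nhds zero_lt_one)]
      with b e1 e2 e3 j hj
    refine ⟨(e1 j hj).1, fun y hy => ?_⟩
    have e4 : α.ev y (Fh b - Fh 0 + 1) = F j y := by
      rw [map_add, map_sub, (e1 j hj).2 y hy, (hF.self_of_nhds j₀ h0).2 y hy, h1 y hy,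
        α.ev_one y hy, sub_add_cancel]
    have e5 := congrArg (α.ev y) e2.1
    have e6 := congrArg (α.ev y) e2.2
    rw [α.ev_mul y hy, e4] at e5 e6
    rw [α.ev_one y hy] at e6
    have e7 := (hC y hy _).trans_lt e3
    rw [map_sub, α.ev_one y hy] at e7
    have e8 : 0 < α.ev y (rt (Fh b - Fh 0 + 1)) := by linarith [(abs_lt.1 e7).1]
    exact ⟨eq_inv_of_mul_eq_one_left e6, by rw [← e5, Real.sqrt_mul_self e8.le],
      e5 ▸ mul_pos e8 e8⟩
  exact ⟨⟨_, h3, key.mono fun b hb j hj => ⟨(hb j hj).1.inv fun y hy => ((hb j hj).2 y hy).2.2.ne',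
      fun y hy => ((hb j hj).2 y hy).1⟩⟩,
    ⟨_, h2, key.mono fun b hb j hj => ⟨(hb j hj).1.sqrt fun y hy => ((hb j hj).2 y hy).2.2.ne',
      fun y hy => ((hb j hj).2 y hy).2.1⟩⟩,
    key.mono fun b hb j hj y hy => ((hb j hj).2 y hy).2.2⟩

/-- Induction on `m`: `pd i F⁻¹ = -(F⁻¹ * F⁻¹ * pd i F)`. -/
theorem An.inv (h : An α x m F) {j₀ : J} (h0 : x j₀ = 0) (h1 : ∀ y ∈ Q (3 / 2), F j₀ y = 1) :
    An α x m fun j y => (F j y)⁻¹ := by
  induction m with
  | zero => exact (An0.root h h0 h1).1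
  | succ m ih =>
    refine ⟨(An0.root h.1 h0 h1).1, fun i =>
      (((ih h.lev).mul (ih h.lev)).mul (h.2 i)).neg.congr ?_⟩
    filter_upwards [ancls_diff h.1, (An0.root h.1 h0 h1).2.2] with b e1 e2 j hj y hy
    exact (ancls_pd_inv (e1 j hj y hy) (e2 j hj y hy).ne' i).symm

variable (α x) in
/-- The analytic families form a class. -/
def anCls : Cls J where
  C := fun m _ F => An α x m F
  m0 := 0
  pts := fun _ => Q (3 / 2)
  congr := fun h e => h.congr (Eventually.of_forall fun _ j _ y hy => (e j y hy).eq_of_nhds)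
  const := fun m _ => An.const contDiffOn_const m
  zero := fun m _ => An.const contDiffOn_const m
  add := fun h h' => h.add h'
  neg := fun h => h.neg
  mul := fun _ hl h h' => An.mul (by
    induction hl with
    | refl => exact h
    | step _ ih => exact ih (Nat.zero_le _) h.lev) h'
  der := fun i h => h.2 i
  lev := fun h => h.lev

end Pool.Agent.Lib.MP_94aef8_gt.E2
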