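import Pool.Agent.Lib.MP_94aef8_gt.E2.AnCls

open scoped ContDiff Topology InnerProductSpace
open Filter Set MeasureTheory Matrix UniformSpace

namespace Pool.Agent.Lib.MP_94aef8_gt.E2

variable {V I : Type} [NormedAddCommGroup V] [InnerProductSpace ℝ V] [Fintype I] {d : PD V I}

variable {A : Type} [NormedCommRing A] [NormedAlgebra ℝ A] [CompleteSpace A] (α : AlgP A)
  {J B : Type} [NormedAddCommGroup B] [NormedSpace ℝ B] {x : J → B}

theorem AnGeo_det {G : Tn} {U : Set E4} (hG : SmT G U) :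
    ContDiffOn ℝ ∞ (fun y => (G y).det) U := by
  simp only [Matrix.det_apply']
  exact ContDiffOn.sum fun σ _ => contDiffOn_const.mul (contDiffOn_prod fun i _ => hG _ _)

theorem AnGeo_idet {G : Tn} {U : Set E4} (hG : Good G U) :
    ContDiffOn ℝ ∞ (fun y => ((G y).det)⁻¹) U :=
  (AnGeo_det hG.smooth).inv fun y hy => (hG.pos y hy).det_pos.ne'

theorem AnGeo_add {U : Set E4} (hU : IsOpen U) {f g : Fn} (hf : ContDiffOn ℝ ∞ f U)
    (hg : ContDiffOn ℝ ∞ g U) (w : List (Fin 4)) :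
    EqOn (pdw w (f + g)) (pdw w f + pdw w g) U := by
  induction w with
  | nil => exact fun _ _ => rfl
  | cons i w ih =>
    intro y hy
    exact (pd_congr_on hU ih i hy).trans
      (pd_add (sm_diff hU (sm_pdw hU hf w) hy) (sm_diff hU (sm_pdw hU hg w) hy) i)

theorem AnGeo_smul (c : ℝ) (f : Fn) (w : List (Fin 4)) : pdw w (c • f) = c • pdw w f := by
  induction w with
  | nil => rfl
  | cons i w ih =>
    show pd i (pdw w (c • f)) = c • pd i (pdw w f)
    rw [ih, pd_smul]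

/-- Fixed smooth fields (`An.const`). -/
theorem an_constT {k : Tn} (hk : SmT k (Q 3)) (m : ℕ) : (anCls α x).T m 0 fun _ => k :=
  fun i j => An.const (hk i j) m

/-- A fixed metric; the entries of the inverse are smooth on `Q 3` (`Matrix.inv_def`, the
determinant is positive). -/
theorem an_constMt {G : Tn} (hG : Good G (Q 3)) (n : ℕ) : (anCls α x).Mt n fun _ => G :=
  ⟨Nat.zero_le _, an_constT α hG.smooth _,
    Cls.T.inv (Nat.zero_le _) (an_constT α hG.smooth _) (An.const (AnGeo_idet hG) _)⟩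

/-- `An.of_words`. For a word `w` of length at most two, the linear map
`v ↦ co (pdw w (loc a (A⁻⁵ v) · i k))` from `V` to `A` is bounded (`up`, `hs_pdw`, `hs_mono`,
`locb`; linearity by `AlgP.co_congr`, since `pdw w` is additive on the cube only); extend it
(`ext_lin`) and compose with `π`. -/
theorem PD.an_loc (H : d.Hyp) (a : I) (u : J → V) (π : B →L[ℝ] Completion V)
    (hπ : ∀ j, π (x j) = ((d.A ^ 5) (u j) : V)) :
    (anCls α x).T 2 0 fun j => d.loc a (u j) := by
  intro i k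
  refine An.of_words fun w hw => ?_
  have hs3 : ∀ v, ContDiffOn ℝ ∞ (pdw w fun y => d.loc a v y i k) (Q 3) := fun v =>
    sm_pdw (isOpen_Q 3) ((H.sym a v).smooth i k) w
  have hQ : Q (3 / 2) ⊆ Q 3 := Q_mono (by norm_num)
  let L : V →ₗ[ℝ] A :=
    { toFun := fun v => α.co ⟨pdw w fun y => d.loc a v y i k, hs3 v⟩
      map_add' := fun v v' => by
        rw [← map_add]
        refine α.co_congr fun y hy => ?_
        have e : (fun y => d.loc a (v + v') y i k) =
            (fun y => d.loc a v y i k) + fun y => d.loc a v' y i k := by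
          rw [map_add]
          rfl
        exact (congrFun (congrArg (pdw w) e) y).trans
          (AnGeo_add (isOpen_Q 3) ((H.sym a v).smooth i k) ((H.sym a v').smooth i k) w (hQ hy))
      map_smul' := fun c v => by
        rw [RingHom.id_apply, ← map_smul]
        refine α.co_congr fun y _ => ?_
        have e : (fun y => d.loc a (c • v) y i k) = c • fun y => d.loc a v y i k := by
          rw [map_smul]
          rfl
        exact congrFun ((congrArg (pdw w) e).trans (AnGeo_smul c _ w)) y }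
  obtain ⟨C₁, h₁⟩ := α.up
  obtain ⟨C₂, h₂⟩ := H.locb
  have hb : ∀ v, ‖L v‖ ≤ √(|C₁| * |C₂|) * ‖(d.A ^ 5) v‖ := fun v => by
    have e1 : hs 8 (Q (3 / 2)) (pdw w fun y => d.loc a v y i k) ≤
        hs 10 (Q (3 / 2)) fun y => d.loc a v y i k :=
      (hs_pdw _ _ _ w).trans (hs_mono (by omega) _ _)
    have e2 : (hs 10 (Q (3 / 2)) fun y => d.loc a v y i k) ≤ hsM 10 (Q (3 / 2)) (d.loc a v) :=
      (Finset.single_le_sum (f := fun b => hs 10 (Q (3 / 2)) fun y => d.loc a v y i b)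
        (fun _ _ => hs_nonneg _ _ _) (Finset.mem_univ k)).trans
        (Finset.single_le_sum (f := fun c => ∑ b, hs 10 (Q (3 / 2)) fun y => d.loc a v y c b)
          (fun _ _ => Finset.sum_nonneg fun _ _ => hs_nonneg _ _ _) (Finset.mem_univ i))
    have e3 : hs 8 (Q (3 / 2)) (pdw w fun y => d.loc a v y i k) ≤ |C₂| * ‖(d.A ^ 5) v‖ ^ 2 :=
      (e1.trans e2).trans ((h₂ a v).trans
        (mul_le_mul_of_nonneg_right (le_abs_self _) (sq_nonneg _)))
    have e4 : ‖L v‖ ^ 2 ≤ |C₁| * (|C₂| * ‖(d.A ^ 5) v‖ ^ 2) :=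
      (h₁ ⟨_, hs3 v⟩).trans ((mul_le_mul_of_nonneg_right (le_abs_self _) (hs_nonneg _ _ _)).trans
        (mul_le_mul_of_nonneg_left e3 (abs_nonneg _)))
    refine le_of_sq_le_sq ?_ (by positivity)
    rw [mul_pow, Real.sq_sqrt (by positivity), mul_assoc]
    exact e4
  obtain ⟨g, hg⟩ := ext_lin (L ∘ₗ ((d.A ^ 5).symm : V →ₗ[ℝ] V)) (√(|C₁| * |C₂|)) fun v => by
    have := hb ((d.A ^ 5).symm v)
    rwa [LinearEquiv.apply_symm_apply] at this
  refine ⟨g.comp π, (g.comp π).analyticAt 0, Eventually.of_forall fun b j hj =>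
    ⟨(hs3 _).mono hQ, fun y hy => ?_⟩⟩
  rw [← hj, ContinuousLinearMap.comp_apply, hπ, hg, LinearMap.comp_apply, LinearEquiv.coe_coe,
    LinearEquiv.symm_apply_apply]
  exact α.ev_co y hy _

/-- Put `z j y = det (G y + h j y) * (det (G y))⁻¹`, of level two (`Cls.T.det`), equal to `1` at
`j₀`. Then ` (det (G + h))⁻¹ = z⁻¹ * (det G)⁻¹` (`An.inv`, `Cls.T.inv`) and
`rho (G + h) = √z * rho G` (`An0.root`) on the cube. -/
theorem an_metric {G : Tn} (hG : Good G (Q 3)) {h : J → Tn} (hh : (anCls α x).T 2 0 h) {j₀ : J}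
    (h0 : x j₀ = 0) (h1 : h j₀ = 0) :
    (anCls α x).Mt 0 (fun j => G + h j) ∧ An0 α x fun j => rho (G + h j) := by
  have hQ : Q (3 / 2) ⊆ Q 3 := Q_mono (by norm_num)
  have hp : ∀ y ∈ Q (3 / 2), 0 < (G y).det := fun y hy => (hG.pos y (hQ hy)).det_pos
  have a1 : (anCls α x).T 2 0 fun j => G + h j := (an_constT α hG.smooth 2).add hh
  have a2 : An α x 2 fun j y => ((G + h j) y).det := Cls.T.det (Nat.zero_le _) a1
  have a3 : An α x 2 fun j y => ((G + h j) y).det * ((G y).det)⁻¹ :=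
    a2.mul (An.const (AnGeo_idet hG) 2)
  have a4 : ∀ y ∈ Q (3 / 2), ((G + h j₀) y).det * ((G y).det)⁻¹ = 1 := fun y hy => by
    rw [h1, add_zero, mul_inv_cancel₀ (hp y hy).ne']
  have a5 : An α x 2 fun j y => (((G + h j) y).det)⁻¹ := by
    refine ((a3.inv h0 a4).mul (An.const (AnGeo_idet hG) 2)).congr
      (Eventually.of_forall fun _ j _ y hy => ?_)
    show (((G + h j) y).det * ((G y).det)⁻¹)⁻¹ * ((G y).det)⁻¹ = (((G + h j) y).det)⁻¹
    rw [mul_inv, inv_inv, mul_assoc, mul_inv_cancel₀ (hp y hy).ne', mul_one]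
  refine ⟨⟨le_rfl, a1, Cls.T.inv (Nat.zero_le _) a1 a5⟩, ?_⟩
  have a6 : An α x 0 fun j y => √(((G + h j) y).det * ((G y).det)⁻¹) := (a3.zero.root h0 a4).2.1
  have a7 : ContDiffOn ℝ ∞ (fun y => √(G y).det) (Q 3) :=
    (AnGeo_det hG.smooth).sqrt fun y hy => (hG.pos y hy).det_pos.ne'
  refine An.zero (m := 0) ((a6.mul (An.const a7 0)).congr
    (Eventually.of_forall fun _ j _ y hy => ?_))
  show √(((G + h j) y).det * ((G y).det)⁻¹) * √(G y).det = √((G + h j) y).det
  rw [← Real.sqrt_mul' _ (hp y hy).le, mul_assoc, inv_mul_cancel₀ (hp y hy).ne', mul_one]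

end Pool.Agent.Lib.MP_94aef8_gt.E2
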