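import Pool.Agent.Lib.MP_94aef8_gt.E2.PDefs

open scoped ContDiff Topology InnerProductSpace
open Filter Set MeasureTheory Matrix UniformSpace

namespace Pool.Agent.Lib.MP_94aef8_gt.E2

variable {A : Type} [NormedCommRing A] [NormedAlgebra ℝ A] [CompleteSpace A] {α : AlgP A}
  {J B : Type} [NormedAddCommGroup B] [NormedSpace ℝ B] {x : J → B} {F : J → Fn}

/-- `y ↦ ev y f` is continuous and bounded on the cube, `w` is integrable on it
(`integrableOn_Q`). -/
theorem AlgP.integrable (α : AlgP A) {w : Fn} (hw : ContinuousOn w (Q 3)) (f : A) :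
    IntegrableOn (fun y => w y * α.ev y f) (Q (3 / 2)) := by
  obtain ⟨C, hC⟩ := α.ev_bd
  have hm : MeasurableSet (Q (3 / 2)) := (isOpen_Q _).measurableSet
  have h1 : IntegrableOn w (Q (3 / 2)) := integrableOn_Q (by norm_num) hw
  refine Integrable.mul_bdd (c := C * ‖f‖) h1 ((α.ev_cont f).aestronglyMeasurable hm) ?_
  exact (ae_restrict_mem hm).mono fun y hy => hC y hy f

/-- Integration against a weight is a continuous linear form on the algebra. -/
theorem AlgP.exists_int (α : AlgP A) {w : Fn} (hw : ContinuousOn w (Q 3)) :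
    ∃ L : A →L[ℝ] ℝ, ∀ f, L f = ∫ y in Q (3 / 2), w y * α.ev y f := by
  obtain ⟨C, hC⟩ := α.ev_bd
  have hm : MeasurableSet (Q (3 / 2)) := (isOpen_Q _).measurableSet
  have h1 : IntegrableOn w (Q (3 / 2)) := integrableOn_Q (by norm_num) hw
  let L : A →ₗ[ℝ] ℝ :=
    { toFun := fun f => ∫ y in Q (3 / 2), w y * α.ev y f
      map_add' := fun f g => by
        simp only [map_add, mul_add]
        exact integral_add (α.integrable hw f) (α.integrable hw g)
      map_smul' := fun c f => by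
        simp only [map_smul, smul_eq_mul, RingHom.id_apply]
        rw [← integral_const_mul]
        refine integral_congr_ae (Eventually.of_forall fun y => ?_)
        ring }
  refine ⟨L.mkContinuous ((∫ y in Q (3 / 2), ‖w y‖) * C) fun f => ?_, fun f => rfl⟩
  have h2 : Integrable (fun y => ‖w y‖ * (C * ‖f‖)) (volume.restrict (Q (3 / 2))) :=
    h1.norm.mul_const _
  have h3 : ‖∫ y in Q (3 / 2), w y * α.ev y f‖ ≤ ∫ y in Q (3 / 2), ‖w y‖ * (C * ‖f‖) := by
    refine norm_integral_le_of_norm_le h2 ((ae_restrict_mem hm).mono fun y hy => ?_)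
    rw [norm_mul]
    exact mul_le_mul_of_nonneg_left (hC y hy f) (norm_nonneg _)
  rw [integral_mul_const, ← mul_assoc] at h3
  exact h3

/-- Integrals of analytic families, and differentiation under the integral. Take `φ = L ∘ Fh`.
For `b` near `0` the map `Fh` is analytic at `b` and represents `F` near `b`
(`Eventually.eventually_nhds`); `s ↦ Fh (b + s • c)` has a derivative `f'` at `0`, and
`ev y f' = ψ y` by uniqueness of derivatives. -/
theorem An0.int (h : An0 α x F) {w : Fn} (hw : ContinuousOn w (Q 3)) :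
    ∃ φ : B → ℝ, AnalyticAt ℝ φ 0 ∧ ∀ᶠ b in 𝓝 (0 : B),
      (∀ j, x j = b → φ b = ∫ y in Q (3 / 2), w y * F j y) ∧
      ∀ (γ : ℝ → J) (c : B) (ψ : Fn), (∀ s : ℝ, x (γ s) = b + s • c) →
        (∀ y ∈ Q (3 / 2), HasDerivAt (fun s => F (γ s) y) (ψ y) 0) →
        HasDerivAt (fun s => ∫ y in Q (3 / 2), w y * F (γ s) y)
          (∫ y in Q (3 / 2), w y * ψ y) 0 := by
  obtain ⟨Fh, hA, hev⟩ := h
  obtain ⟨L, hL⟩ := α.exists_int hw
  have hm : MeasurableSet (Q (3 / 2)) := (isOpen_Q _).measurableSet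
  have key : ∀ b j, (∀ y ∈ Q (3 / 2), α.ev y (Fh b) = F j y) →
      L (Fh b) = ∫ y in Q (3 / 2), w y * F j y := by
    intro b j hj
    rw [hL]
    exact setIntegral_congr_fun hm fun y hy => by simp only [hj y hy]
  refine ⟨fun b => L (Fh b), (L.analyticAt _).comp hA, ?_⟩
  filter_upwards [hev.eventually_nhds, hA.eventually_analyticAt] with b hb hAb
  refine ⟨fun j hj => key b j (hb.self_of_nhds j hj).2, fun γ c ψ hγ hψ => ?_⟩
  have hl : HasDerivAt (fun s : ℝ => b + s • c) c 0 := by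
    simpa using ((hasDerivAt_id (0 : ℝ)).smul_const c).const_add b
  have h0 : b + (0 : ℝ) • c = b := by simp
  have hd : HasDerivAt (fun s : ℝ => Fh (b + s • c)) (fderiv ℝ Fh b c) 0 :=
    HasFDerivAt.comp_hasDerivAt_of_eq (0 : ℝ) hAb.differentiableAt.hasFDerivAt hl h0.symm
  have ht : Tendsto (fun s : ℝ => b + s • c) (𝓝 0) (𝓝 b) := by
    have h1 := hl.continuousAt.tendsto
    rwa [h0] at h1
  have hs : ∀ᶠ s : ℝ in 𝓝 0, ∀ y ∈ Q (3 / 2), α.ev y (Fh (b + s • c)) = F (γ s) y :=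
    (ht.eventually hb).mono fun s h1 => (h1 (γ s) (hγ s)).2
  have h2 : ∀ y ∈ Q (3 / 2), α.ev y (fderiv ℝ Fh b c) = ψ y := by
    intro y hy
    have h3 : HasDerivAt (fun s : ℝ => α.ev y (Fh (b + s • c))) (α.ev y (fderiv ℝ Fh b c)) 0 :=
      (α.ev y).hasFDerivAt.comp_hasDerivAt (0 : ℝ) hd
    exact (h3.congr_of_eventuallyEq (hs.mono fun s h1 => (h1 y hy).symm)).unique (hψ y hy)
  have h4 : HasDerivAt (fun s : ℝ => L (Fh (b + s • c))) (L (fderiv ℝ Fh b c)) 0 :=
    L.hasFDerivAt.comp_hasDerivAt (0 : ℝ) hd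
  have h5 : L (fderiv ℝ Fh b c) = ∫ y in Q (3 / 2), w y * ψ y := by
    rw [hL]
    exact setIntegral_congr_fun hm fun y hy => by simp only [h2 y hy]
  rw [← h5]
  exact h4.congr_of_eventuallyEq (hs.mono fun s h1 => (key _ _ h1).symm)

end Pool.Agent.Lib.MP_94aef8_gt.E2
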