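import Pool.Agent.Lib.MP_94aef8_gt.E2.AnCls
import Pool.Agent.Lib.MP_94aef8_gt.E2.AnInt

open scoped ContDiff Topology InnerProductSpace
open Filter Set MeasureTheory Matrix UniformSpace

namespace Pool.Agent.Lib.MP_94aef8_gt.E2

variable {V I : Type} [NormedAddCommGroup V] [InnerProductSpace ℝ V] [Fintype I] {d : PD V I}

variable {A : Type} [NormedCommRing A] [NormedAlgebra ℝ A] [CompleteSpace A] (α : AlgP A)
  {J B : Type} [NormedAddCommGroup B] [NormedSpace ℝ B] {x : J → B}

/-- A bounded bilinear form on `A × V` is represented by a map to the completion of `V`. -/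
theorem back_riesz {A : Type} [NormedAddCommGroup A] [NormedSpace ℝ A] (β : A →ₗ[ℝ] V →ₗ[ℝ] ℝ)
    (C : ℝ) (hβ : ∀ f v, ‖β f v‖ ≤ C * ‖f‖ * ‖v‖) :
    ∃ bk : A →L[ℝ] Completion V, ∀ (f : A) (v : V), ⟪bk f, (v : Completion V)⟫_ℝ = β f v := by
  obtain ⟨g, hg⟩ : ∃ g : A →L[ℝ] Completion V →L[ℝ] ℝ, ∀ (f : A) (v : V), g f v = β f v :=
    ⟨(β.mkContinuous₂ C hβ).flip.fromCompletion.flip, fun u v => by simp⟩
  refine ⟨⟨⟨⟨fun f => (InnerProductSpace.toDual ℝ (Completion V)).symm (g f), fun f f' => by simp⟩,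
    fun c f => by simp⟩, ?_⟩, fun f v => ?_⟩
  · exact (InnerProductSpace.toDual ℝ (Completion V)).symm.continuous.comp g.continuous
  · exact (InnerProductSpace.toDual_symm_apply).trans (hg f v)

theorem back_rho {G : Tn} {U : Set E4} (hG : SmT G U) : ContinuousOn (rho G) U := by
  have h : ContinuousOn G U :=
    continuousOn_pi.2 fun i => continuousOn_pi.2 fun j => (hG i j).continuousOn
  exact Real.continuous_sqrt.comp_continuousOn
    ((Continuous.matrix_det continuous_id).comp_continuousOn h)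

theorem back_ip {G w : Mat} (hG : G.PosDef) (hw : wᵀ = w) (c : ℝ) (i k : Fin 4) :
    ipM G (c • (G * ((1 / 2 : ℝ) • (single i k 1 + single k i 1)) * G)) w = c * w i k := by
  have hu : IsUnit G.det := hG.det_pos.ne'.isUnit
  have e : G⁻¹ * (c • (G * ((1 / 2 : ℝ) • (single i k 1 + single k i 1)) * G)) * G⁻¹ =
      c • ((1 / 2 : ℝ) • (single i k 1 + single k i (1 : ℝ))) := by
    rw [Matrix.mul_smul, Matrix.smul_mul, Matrix.mul_assoc G, nonsing_inv_mul_cancel_left _ _ hu,
      mul_nonsing_inv_cancel_right _ _ hu]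
  have e2 : w k i = w i k := congrFun (congrFun hw i) k
  rw [ipM, e, hw]
  simp only [Matrix.smul_mul, Matrix.add_mul, trace_smul, trace_add, trace_single_mul, smul_eq_mul,
    e2]
  ring

theorem back_pow (H : d.Hyp) (n : ℕ) (u v : V) : ⟪(d.A ^ n) u, v⟫_ℝ = ⟪u, (d.A ^ n) v⟫_ℝ := by
  induction n generalizing u with
  | zero => simp
  | succ n ih =>
    conv_lhs => rw [pow_succ, LinearEquiv.mul_apply, ih, H.As]
    rw [pow_succ', LinearEquiv.mul_apply]

theorem back_w (H : d.Hyp) (a : I) (i k : Fin 4) (v : V) :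
    ContinuousOn (fun y => d.χ a y * (d.loc a v y i k * rho (d.G a) y)) (Q 3) :=
  (H.χsm a).continuousOn.mul (((H.sym a v).smooth i k).continuousOn.mul (back_rho (H.good a).smooth))

theorem back_int (H : d.Hyp) (a : I) (i k : Fin 4) (f : A) (v : V) :
    IntegrableOn (fun y => d.χ a y * (α.ev y f * d.loc a v y i k * rho (d.G a) y)) (Q (3 / 2)) := by
  refine (α.integrable (back_w H a i k v) f).congr_fun (fun y _ => ?_) (isOpen_Q _).measurableSet
  ring

omit [CompleteSpace A] in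
/-- The bound for smooth functions. -/
theorem back_bd (H : d.Hyp) (a : I) (i k : Fin 4) : ∃ C : ℝ, ∀ (f : SmF) (v : V),
    ‖∫ y in Q (3 / 2), d.χ a y * (α.ev y (α.co f) * d.loc a ((d.A ^ 4) v) y i k * rho (d.G a) y)‖ ≤
      C * ‖α.co f‖ * ‖v‖ := by
  obtain ⟨C1, h1⟩ := H.extb
  obtain ⟨C2, h2⟩ := H.mul
  obtain ⟨C3, h3⟩ := α.low
  obtain ⟨s, hs'⟩ : ∃ s : Mat, s = (1 / 2 : ℝ) • (single i k 1 + single k i 1) := ⟨_, rfl⟩
  have ss : sᵀ = s := by
    rw [hs', transpose_smul, transpose_add, transpose_single, transpose_single, add_comm]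
  have hm : ∀ p q, ContDiffOn ℝ ∞ (fun y => d.χ a y * (d.G a y * s * d.G a y) p q) (Q 3) := by
    intro p q
    simp only [Matrix.mul_apply]
    exact (H.χsm a).mul (ContDiffOn.sum fun e _ => (ContDiffOn.sum fun e' _ =>
      ((H.good a).smooth p e').mul contDiffOn_const).mul ((H.good a).smooth e q))
  obtain ⟨K, hK⟩ : ∃ K : ℝ, K = ∑ p, ∑ q,
    hs 8 (Q (3 / 2)) fun y => d.χ a y * (d.G a y * s * d.G a y) p q := ⟨_, rfl⟩
  have K0 : 0 ≤ K := hK ▸ Finset.sum_nonneg fun p _ => Finset.sum_nonneg fun q _ => hs_nonneg _ _ _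
  refine ⟨√(|C1| * (|C2| * K * |C3|)), fun f v => ?_⟩
  obtain ⟨κ, hκ⟩ : ∃ κ : Tn, κ = fun y => (d.χ a y * (f : Fn) y) • (d.G a y * s * d.G a y) :=
    ⟨_, rfl⟩
  have e : ∀ p q, (fun y => κ y p q) =
      (fun y => d.χ a y * (d.G a y * s * d.G a y) p q) * (f : Fn) := fun p q => by
    ext y
    simp only [hκ, Matrix.smul_apply, smul_eq_mul, Pi.mul_apply]
    ring
  have k1 : SymT κ (Q 3) := by
    refine ⟨fun p q => ?_, fun y hy => ?_⟩
    · rw [e]
      exact (hm p q).mul f.2
    · have hG : (d.G a y)ᵀ = d.G a y := ((H.good a).pos y hy).isHermitian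
      simp only [hκ, transpose_smul, transpose_mul, hG, ss, Matrix.mul_assoc]
  have k2 : ∀ y ∉ Q 1, κ y = 0 := fun y hy => by simp only [hκ, H.χ0 a y hy, zero_mul, zero_smul]
  have k3 : ∫ y in Q (3 / 2), d.χ a y *
      (α.ev y (α.co f) * d.loc a ((d.A ^ 4) v) y i k * rho (d.G a) y) =
      ⟪(d.A ^ 4) (d.ext a κ), v⟫_ℝ := by
    rw [back_pow H, H.extip a κ k1 k2]
    refine setIntegral_congr_fun (isOpen_Q _).measurableSet fun y hy => ?_
    have hy3 : y ∈ Q 3 := Q_mono (by norm_num) hy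
    simp only [ipT, hκ, hs', back_ip ((H.good a).pos y hy3) ((H.sym a _).symm y hy3),
      α.ev_co y hy]
    ring
  have k4 : hs 8 (Q (3 / 2)) f ≤ |C3| * ‖α.co f‖ ^ 2 :=
    (h3 f).trans (mul_le_mul_of_nonneg_right (le_abs_self _) (sq_nonneg _))
  have k5 : hsM 8 (Q (3 / 2)) κ ≤ |C2| * K * hs 8 (Q (3 / 2)) f := by
    simp only [hsM, hK, Finset.mul_sum, Finset.sum_mul, e]
    refine Finset.sum_le_sum fun p _ => Finset.sum_le_sum fun q _ => (h2 _ _ (hm p q) f.2).trans ?_
    exact mul_le_mul_of_nonneg_right (mul_le_mul_of_nonneg_right (le_abs_self _) (hs_nonneg _ _ _))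
      (hs_nonneg _ _ _)
  have k6 : 0 ≤ hsM 8 (Q (3 / 2)) κ :=
    Finset.sum_nonneg fun p _ => Finset.sum_nonneg fun q _ => hs_nonneg _ _ _
  have k7 : ‖(d.A ^ 4) (d.ext a κ)‖ ^ 2 ≤ |C1| * (|C2| * K * |C3|) * ‖α.co f‖ ^ 2 := by
    refine (h1 a κ k1 k2).trans ((mul_le_mul_of_nonneg_right (le_abs_self _) k6).trans ?_)
    rw [mul_assoc, mul_assoc]
    exact mul_le_mul_of_nonneg_left (k5.trans (mul_le_mul_of_nonneg_left k4 (by positivity)))
      (abs_nonneg _)
  have k8 : ‖(d.A ^ 4) (d.ext a κ)‖ ≤ √(|C1| * (|C2| * K * |C3|)) * ‖α.co f‖ := by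
    refine (Real.le_sqrt_of_sq_le k7).trans_eq ?_
    rw [Real.sqrt_mul (by positivity), Real.sqrt_sq (norm_nonneg _)]
  rw [k3]
  exact (norm_inner_le_norm _ _).trans (mul_le_mul_of_nonneg_right k8 (norm_nonneg _))

/-- Sketch. Let `s = (1/2) • (single i k 1 + single k i 1)`. For `f : SmF` put
`κ y = (χ y * f y) • (G y * s * G y)`, symmetric, smooth on `Q 3`, zero off `Q 1`, and
`ipT G κ w y = χ y * f y * w y i k` for symmetric `w`. So the bilinear form
`β f v = ∫ χ * (ev f * loc (A ^ 4 v) i k * rho)` on `A × V` equals `⟪A ^ 4 (ext κ), v⟫` at `co f`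
(`extip`, `As`) and is bounded by `C ‖co f‖ ‖v‖` (`extb`, `MulP` with the fixed smooth factors,
`low`). For fixed `v` it is continuous in `f` (`AlgP.exists_int`), so the bound holds on `A` by
density. Extend in `v` to the completion and use `InnerProductSpace.toDual`. -/
theorem PD.exists_back (H : d.Hyp) (a : I) (i k : Fin 4) : ∃ bk : A →L[ℝ] Completion V,
    ∀ (f : A) (v : V), ⟪bk f, (v : Completion V)⟫_ℝ = ∫ y in Q (3 / 2),
      d.χ a y * (α.ev y f * d.loc a ((d.A ^ 4) v) y i k * rho (d.G a) y) := by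
  obtain ⟨C, hC⟩ := back_bd α H a i k
  refine back_riesz (LinearMap.mk₂ ℝ (fun (f : A) (v : V) => ∫ y in Q (3 / 2),
      d.χ a y * (α.ev y f * d.loc a ((d.A ^ 4) v) y i k * rho (d.G a) y))
    (fun f g v => ?_) (fun c f v => ?_) (fun f u v => ?_) fun c f v => ?_) C fun f v => ?_
  · rw [← integral_add (back_int α H a i k f _) (back_int α H a i k g _)]
    refine integral_congr_ae (Eventually.of_forall fun y => ?_)
    simp only [map_add]
    ring
  · rw [smul_eq_mul, ← integral_const_mul]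
    refine integral_congr_ae (Eventually.of_forall fun y => ?_)
    simp only [map_smul, smul_eq_mul]
    ring
  · rw [← integral_add (back_int α H a i k f _) (back_int α H a i k f _)]
    refine integral_congr_ae (Eventually.of_forall fun y => ?_)
    simp only [map_add, Pi.add_apply, Matrix.add_apply]
    ring
  · rw [smul_eq_mul, ← integral_const_mul]
    refine integral_congr_ae (Eventually.of_forall fun y => ?_)
    simp only [map_smul, Pi.smul_apply, Matrix.smul_apply, smul_eq_mul]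
    ring
  · obtain ⟨L, hL⟩ := α.exists_int (back_w H a i k ((d.A ^ 4) v))
    have e : ∀ f, (∫ y in Q (3 / 2),
        d.χ a y * (α.ev y f * d.loc a ((d.A ^ 4) v) y i k * rho (d.G a) y)) = L f := fun f => by
      rw [hL]
      refine integral_congr_ae (Eventually.of_forall fun y => ?_)
      ring
    rw [LinearMap.mk₂_apply, e]
    refine α.dense.induction_on f (isClosed_le (by fun_prop) (by fun_prop)) fun g => ?_
    rw [← e]
    exact hC g v

/-- `Φ b = ∑ i k, bk i k (Fh i k b)`; the sum commutes with the integral (`AlgP.integrable`). -/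
theorem PD.an_back (H : d.Hyp) (a : I) {F : J → Tn} (hF : (anCls α x).T 0 0 F) :
    ∃ Φ : B → Completion V, AnalyticAt ℝ Φ 0 ∧ ∀ᶠ b in 𝓝 (0 : B), ∀ j, x j = b → ∀ v : V,
      ⟪Φ b, (v : Completion V)⟫_ℝ = ∫ y in Q (3 / 2),
        d.χ a y * ((F j y * (d.loc a ((d.A ^ 4) v) y)ᵀ).trace * rho (d.G a) y) := by
  choose bk hbk using fun i k => PD.exists_back α H a i k
  choose Fh hA hE using hF
  refine ⟨fun b => ∑ i, ∑ k, bk i k (Fh i k b), ?_, ?_⟩
  · exact Finset.analyticAt_fun_sum _ fun i _ => Finset.analyticAt_fun_sum _ fun k _ =>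
      ((bk i k).analyticAt _).comp (hA i k)
  · filter_upwards [eventually_all.2 fun i => eventually_all.2 fun k => hE i k] with b hb j hj v
    simp only [sum_inner, hbk]
    rw [← Finset.sum_congr rfl fun i _ =>
      integral_finsetSum _ fun k _ => back_int α H a i k (Fh i k b) ((d.A ^ 4) v),
      ← integral_finsetSum _ fun i _ =>
        integrable_finsetSum _ fun k _ => back_int α H a i k (Fh i k b) ((d.A ^ 4) v)]
    refine setIntegral_congr_fun (isOpen_Q _).measurableSet fun y hy => ?_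
    simp only [fun i k => (hb i k j hj).2 y hy, Matrix.trace, Matrix.diag, Matrix.mul_apply,
      Matrix.transpose_apply, Finset.mul_sum, Finset.sum_mul]

end Pool.Agent.Lib.MP_94aef8_gt.E2
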