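import Pool.Agent.Lib.MP_94aef8_gt.E2.PDefs

open scoped ContDiff Topology InnerProductSpace
open Filter Set MeasureTheory Matrix UniformSpace

namespace Pool.Agent.Lib.MP_94aef8_gt.E2

/-! More operators on an arbitrary class; the proofs follow the pattern of `F/Cls.lean`
(unfold the operator of `B/Geo.lean`, use the closure lemmas). Vector fields: state auxiliary
lemmas for the components, `∀ i, S.C l p fun a y => X a y i`. -/

variable {α : Type} {S : Cls α} {l p q n : ℕ} {G h k : α → Tn}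

theorem clsX_chr (G : Tn) (k i j : Fin 4) : chr G k i j = (geo G).w i k j := by
  funext y
  simp only [chr, geo, Geo.w, Matrix.of_apply, Pi.mul_apply, Finset.sum_apply, Pi.add_apply,
    Pi.sub_apply, mf, inv]

theorem clsX_ric (G : Tn) (j k : Fin 4) : (fun y => ric G y j k) = (geo G).ric j k := by
  funext y
  simp only [ric, clsX_chr, Geo.ric, Matrix.of_apply, Pi.mul_apply, Finset.sum_apply,
    Pi.add_apply, Pi.sub_apply]
  rfl

theorem clsX_gbian {M : α → MA Fn} (hG : S.Mt n G) (hl : l ≤ n) (hM : S.R (l + 2) p M)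
    (i : Fin 4) : S.C (l + 1) p fun a => (geo (G a)).bian (M a) i := by
  have h0 : S.m0 ≤ n + 2 := hG.le.trans (by omega)
  have hH : S.R (n + 2) 0 fun a => (geo (G a)).H := hG.h
  have h1 : S.C (l + 2) p fun a => (geo (G a)).trG (M a) :=
    Cls.R.trace (hH.mulL h0 (by omega) hM)
  have h2 : ∀ j, S.C (l + 1) p fun a => (geo (G a)).divT (M a) j := fun j =>
    Cls.sum Finset.univ fun b _ => Cls.sum Finset.univ fun c _ =>
      Cls.mulL h0 (by omega) (hH b c) (hG.gnab (l := l + 1) (by omega) hM b c j)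
  exact Cls.sum Finset.univ fun j _ => Cls.mulL h0 (by omega) (hH i j)
    (Cls.sub (h2 j) (Cls.mulL h0 (by omega) (S.const _ _) (S.der j h1)))

theorem clsX_gcov {X : α → VA Fn} (hG : S.Mt n G) (hl : l ≤ n)
    (hX : ∀ i, S.C (l + 1) p fun a => X a i) : S.R l p fun a => (geo (G a)).cov (X a) :=
  fun k i => S.add (S.der i (hX k)) (Cls.sum Finset.univ fun m _ =>
    Cls.mulL hG.le hl (hG.gw0 i k m) (S.lev (hX m)))

theorem clsX_cov {X : α → Vn} (hG : S.Mt n G) (hl : l ≤ n)
    (hX : ∀ i, S.C (l + 1) p fun a y => X a y i) : S.T l p fun a => cov (G a) (X a) :=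
  clsX_gcov (X := fun a => vf (X a)) hG hl hX

theorem clsX_lie {X : α → Vn} (hG : S.Mt n G) (hl : l ≤ n)
    (hX : ∀ i, S.C (l + 1) p fun a y => X a y i) : S.T l p fun a => lie (G a) (X a) := by
  have hg : S.R n 0 fun a => (geo (G a)).G := Cls.R.levLe (m := n + 2) hG.g (by omega)
  have h1 := hg.mulL hG.le hl (clsX_gcov (X := fun a => vf (X a)) hG hl hX)
  exact h1.add h1.tr

/-- `ric G p j k = (geo G).ric j k p` by unfolding (`chr G k i j = (geo G).w i k j`), then
`Cls.Mt.gric`. -/
theorem cls_ric (hG : S.Mt n G) : S.T n 0 fun a => ric (G a) := by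
  intro i j
  have e : (fun a y => ric (G a) y i j) = fun a => (geo (G a)).ric i j :=
    funext fun a => clsX_ric (G a) i j
  change S.C n 0 fun a y => ric (G a) y i j
  rw [e]
  exact hG.gric i j

theorem cls_scal (hG : S.Mt n G) : S.C n 0 fun a => scal (G a) :=
  hG.trG le_rfl (cls_ric hG)

theorem cls_Ein (hG : S.Mt n G) : S.T n 0 fun a => Ein (G a) := by
  have h1 : S.C n 0 fun a y => scal (G a) y / 2 + 3 := by
    have h2 := S.add (Cls.cmul (1 / 2) (cls_scal hG)) (S.const n 3)
    refine S.congr h2 fun a y _ => Filter.Eventually.of_forall fun z => ?_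
    simp only [Pi.add_apply]
    ring
  exact (cls_ric hG).sub (Cls.T.smulL hG.le le_rfl h1 (hG.g.levLe (by omega)))

theorem cls_raise (hG : S.Mt n G) (hl : l ≤ n) (hh : S.T l p h) :
    S.T l p fun a y => (G a y)⁻¹ * h a y * (G a y)⁻¹ :=
  have h1 := hG.h.levLe (l := n) (by omega)
  (h1.mulL hG.le hl hh).mulR hG.le hl h1

theorem cls_bian (hG : S.Mt n G) (hl : l ≤ n) (hh : S.T (l + 2) p h) (i : Fin 4) :
    S.C (l + 1) p fun a y => bian (G a) (h a) y i :=
  clsX_gbian (M := fun a => mf (h a)) hG hl hh i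

theorem cls_Dl (hG : S.Mt n G) (hl : l ≤ n) (hh : S.T (l + 2) p h) :
    S.T l p fun a => Dl (G a) (h a) := by
  have h1 := clsX_lie (X := fun a => bian (G a) (h a)) hG hl (cls_bian hG hl hh)
  have h2 : S.C l p fun a y => trG (G a) (lie (G a) (bian (G a) (h a))) y / 2 := by
    refine S.congr (Cls.cmul (1 / 2) (hG.trG hl h1)) fun a y _ =>
      Filter.Eventually.of_forall fun z => ?_
    ring
  have h3 : S.T l p fun a y => (trG (G a) (lie (G a) (bian (G a) (h a))) y / 2) • G a y :=
    fun i j => Cls.mulR hG.le hl h2 (hG.g.levLe (l := n) (by omega) i j)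
  exact Cls.T.cmul (-1 / 2) (h1.sub h3)

theorem cls_l1l (hG : S.Mt n G) (h0 : S.m0 ≤ l) (hl : l ≤ n) (hh : S.T (l + 2) p h)
    (hk : S.T (l + 1) q k) : S.T l (p + q) fun a => l1l (G a) (h a) (k a) := by
  have hX := cls_bian hG hl hh
  have h1 := clsX_cov (X := fun a => bian (G a) (h a)) hG hl hX
  have hk0 : S.T l q k := hk.levLe (by omega)
  have h2 : S.T l (p + q) fun a => nabX (G a) (bian (G a) (h a)) (k a) := by
    intro i j
    simp only [nabX, Matrix.sum_apply, Matrix.smul_apply, smul_eq_mul]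
    exact Cls.sum' Finset.univ fun e _ =>
      S.mul h0 le_rfl (S.lev (hX e)) (hG.nab (by omega) hk e i j)
  have h3 := hk0.mul h0 le_rfl h1
  rw [add_comm q p] at h3
  have h4 := Cls.T.mul (h := fun a y => (cov (G a) (bian (G a) (h a)) y)ᵀ) h0 le_rfl
    (fun i j => h1 j i) hk0
  exact (h2.add h3).add h4

end Pool.Agent.Lib.MP_94aef8_gt.E2
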