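import Pool.Agent.Lib.MP_94aef8_gt.E2.Rec
import Pool.Agent.Lib.MP_94aef8_gt.E2.ClsX

/-! The Einstein constant is a continuous function on the moduli space. -/

open scoped Manifold ContDiff Topology
open Filter Set MeasureTheory

namespace Pool.Agent.Lib.MP_94aef8_gt

namespace E2

/-- Families of smooth functions whose value at `p` depends continuously on the parameter. -/
def contBase (α : Type) [TopologicalSpace α] {U : Set E4} (hU : IsOpen U) {p : E4} (hp : p ∈ U) :
    Base (⊤ : Filter α) U where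
  B _ f := (∀ a, ContDiffOn ℝ ∞ (f a) U) ∧ Continuous fun a => f a p
  isOpen := hU
  sm h := Eventually.of_forall h.1
  congr h e := by
    rw [eventually_top] at e
    exact ⟨fun a => (h.1 a).congr fun y hy => (e a hy).symm, h.2.congr fun a => e a hp⟩
  const _ := ⟨fun _ => contDiffOn_const, continuous_const⟩
  zero _ := ⟨fun _ => contDiffOn_const, continuous_const⟩
  add h h' := ⟨fun a => (h.1 a).add (h'.1 a), h.2.add h'.2⟩
  neg h := ⟨fun a => (h.1 a).neg, h.2.neg⟩
  mul h h' := ⟨fun a => (h.1 a).mul (h'.1 a), h.2.mul h'.2⟩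

theorem ric_cont {α : Type} [TopologicalSpace α] {U : Set E4} {p : E4} (hp : p ∈ U) {G : α → Tn}
    (hG : ∀ a, Good (G a) U) (hU : IsOpen U)
    (hc : ∀ w i j, Continuous fun a => pdw w (fun y => G a y i j) p) (i j : Fin 4) :
    Continuous fun a => ric (G a) p i j := by
  have h1 : (contBase α hU hp).cls.T 2 0 G := fun i j =>
    Base.C.of_words fun w _ => ⟨fun a => sm_pdw hU ((hG a).smooth i j) w, hc w i j⟩
  have h2 : (contBase α hU hp).C 2 0 fun a y => (G a y).det := h1.det (Nat.zero_le _)
  have h3 : ∀ a, ∀ y ∈ U, (G a y).det ≠ 0 := fun a y hy => ((hG a).pos y hy).det_pos.ne'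
  have h4 : (contBase α hU hp).C 2 0 fun a y => ((G a y).det)⁻¹ :=
    h2.inv ⟨fun a => (h2.base.1 a).inv (h3 a), h2.base.2.inv₀ fun a => h3 a p hp⟩
      (Eventually.of_forall h3)
  have h5 : (contBase α hU hp).cls.Mt 0 G := ⟨le_rfl, h1, h1.inv (Nat.zero_le _) h4⟩
  exact (cls_ric h5 i j).2

section

variable {M : Type} [TopologicalSpace M] [ChartedSpace E4 M] [IsManifold (𝓡 4) ∞ M]
  [MeasurableSpace M]

theorem jet_cont (x : M) (w : List (Fin 4)) (i j : Fin 4) :
    Continuous fun g : Ein1 M =>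
      pdw w (fun p => coef g.1 (chartAt E4 x) p i j) (chartAt E4 x x) := by
  have h1 : Continuous (jet (M := M) x w i j) :=
    continuous_iInf_dom (i := x) (continuous_iInf_dom (i := w) (continuous_iInf_dom (i := i)
      (continuous_iInf_dom (i := j) continuous_induced_dom)))
  have h2 := (UniformOnFun.uniformContinuous_eval_of_mem ℝ
    {K | IsCompact K ∧ K ⊆ (chartAt E4 x).target} (mem_singleton (chartAt E4 x x))
    ⟨isCompact_singleton, singleton_subset_iff.2 (mem_chart_target E4 x)⟩).continuous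
  exact h2.comp h1

/-- The Einstein constant, computed at the point `x`. -/
noncomputable def cst (x : M) (g : Ein1 M) : ℝ :=
  ric (coef g.1 (chartAt E4 x)) (chartAt E4 x x) 0 0 / coef g.1 (chartAt E4 x) (chartAt E4 x x) 0 0

variable (hA : ∀ (g : Met M) (x : M), Good (coef g (chartAt E4 x)) (chartAt E4 x).target)
include hA

omit [MeasurableSpace M] in
theorem coef_ne (g : Met M) (x : M) : coef g (chartAt E4 x) (chartAt E4 x x) 0 0 ≠ 0 :=
  ((hA g x).pos _ (mem_chart_target E4 x)).diag_pos.ne'

theorem cst_eq (x : M) {g : Ein1 M} {c : ℝ} (h : IsEinstein g.1 c) : cst x g = c := by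
  rw [cst, h x, Matrix.smul_apply, smul_eq_mul, mul_div_cancel_right₀ _ (coef_ne hA g.1 x)]

theorem cst_cont (x : M) : Continuous (cst x) :=
  (ric_cont (mem_chart_target E4 x) (fun g : Ein1 M => hA g.1 x) (chartAt E4 x).open_target
    (jet_cont x) 0 0).div (jet_cont x [] 0 0) fun g => coef_ne hA g.1 x

/-- Countably and infinitely many negative constants give infinitely many components. -/
theorem bridge_of (hB : ∀ g g' : Ein1 M, Isom g g' → ∀ c, IsEinstein g'.1 c → IsEinstein g.1 c)
    (hc : (constants M ∩ Iio 0).Countable) (hi : (constants M ∩ Iio 0).Infinite) :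
    Infinite (ConnectedComponents (Moduli M)) := by
  rcases isEmpty_or_nonempty M with hM | ⟨⟨x⟩⟩
  · obtain ⟨_, ⟨g, _⟩, _⟩ := hi.nonempty
    have h0 : vol g.1 univ = 0 := (congrArg _ (Set.eq_empty_of_isEmpty _)).trans measure_empty
    exact absurd (h0.symm.trans g.2.1) zero_ne_one
  have h1 : ∀ g g' : Ein1 M, Isom g g' → cst x g = cst x g' := fun g g' h => by
    obtain ⟨c, hc⟩ := g'.2.2
    rw [cst_eq hA x hc, cst_eq hA x (hB g g' h c hc)]
  let cb : Moduli M → ℝ := Quot.lift (cst x) h1
  have h2 : Continuous cb := continuous_quot_lift h1 (cst_cont hA x)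
  have h3 : ∀ q, cb q ∈ constants M := by
    rintro ⟨g⟩
    obtain ⟨c, hc⟩ := g.2.2
    exact ⟨g, by rwa [show cb (Quot.mk _ g) = c from cst_eq hA x hc]⟩
  have h4 : ∀ q q' : Moduli M, (q : ConnectedComponents (Moduli M)) = q' → cb q < cb q' →
      ¬cb q' < 0 := by
    intro q q' e hlt h0
    have h5 := ((isPreconnected_connectedComponent (x := q')).image cb h2.continuousOn).Icc_subset
      (mem_image_of_mem cb (ConnectedComponents.coe_eq_coe'.1 e))
      (mem_image_of_mem cb mem_connectedComponent)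
    have h6 : (Icc (cb q) (cb q')).Countable := hc.mono fun y hy => by
      obtain ⟨z, _, rfl⟩ := h5 hy
      exact ⟨h3 z, hy.2.trans_lt h0⟩
    have h7 := h6.measure_zero volume
    rw [Real.volume_Icc, ENNReal.ofReal_eq_zero] at h7
    linarith
  have := hi.to_subtype
  have h8 : ∀ c : ↥(constants M ∩ Iio 0), ∃ q : Moduli M, cb q = c := fun c => by
    obtain ⟨g, hg⟩ := c.2.1
    exact ⟨Quot.mk _ g, cst_eq hA x hg⟩
  choose q hq using h8
  refine Infinite.of_injective (fun c => (q c : ConnectedComponents (Moduli M))) fun c c' e => ?_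
  rcases lt_trichotomy (cb (q c)) (cb (q c')) with h | h | h
  · exact absurd (hq c' ▸ c'.2.2) (h4 _ _ e h)
  · exact Subtype.ext (by rw [← hq c, ← hq c', h])
  · exact absurd (hq c ▸ c.2.2) (h4 _ _ e.symm h)

end

end E2

end Pool.Agent.Lib.MP_94aef8_gt
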