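import Mathlib

open scoped InnerProductSpace Topology
open Filter Set

namespace Pool.Agent.Lib.MP_94aef8_gt.E2

variable {H : Type} [NormedAddCommGroup H] [InnerProductSpace ℝ H] [CompleteSpace H]

theorem fred_closed {Z : Type} [NormedAddCommGroup Z] [NormedSpace ℝ Z] [FiniteDimensional ℝ Z]
    (B : H →L[ℝ] H) (Pi : H →L[ℝ] Z) (C : ℝ) (h : ∀ a, ‖a‖ ≤ C * (‖Pi a‖ + ‖B a‖)) :
    IsClosed ((B : H →ₗ[ℝ] H).range : Set H) := by
  have h1 : AntilipschitzWith (2 * |C|).toNNReal (Pi.prod B) := by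
    refine AddMonoidHomClass.antilipschitz_of_bound _ fun a => (h a).trans ?_
    have h2 : ‖Pi a‖ ≤ ‖Pi.prod B a‖ := norm_fst_le (Pi.prod B a)
    have h3 : ‖B a‖ ≤ ‖Pi.prod B a‖ := norm_snd_le (Pi.prod B a)
    rw [Real.coe_toNNReal _ (by positivity)]
    refine (mul_le_mul (le_abs_self C) (add_le_add h2 h3) (by positivity) (abs_nonneg C)).trans_eq ?_
    ring
  have h2 := (Submodule.isClosed_sup_finiteDimensional (Pi.prod B : H →ₗ[ℝ] Z × H).range
    (LinearMap.inl ℝ Z H).range (h1.isClosed_range (Pi.prod B).uniformContinuous)).preimage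
    (ContinuousLinearMap.inr ℝ Z H).continuous
  refine (congrArg IsClosed (Set.ext fun y => ⟨fun hy => ?_, fun hy => ?_⟩)).mp h2
  · obtain ⟨_, ⟨a, rfl⟩, _, ⟨z, rfl⟩, e⟩ := Submodule.mem_sup.1 hy
    exact ⟨a, (add_zero _).symm.trans (congrArg Prod.snd e)⟩
  · obtain ⟨a, rfl⟩ := hy
    exact Submodule.mem_sup.2 ⟨_, ⟨a, rfl⟩, _, ⟨-Pi a, rfl⟩,
      Prod.ext (add_neg_cancel (Pi a)) (add_zero (B a))⟩

/-- A symmetric operator with an estimate modulo finite rank. Sketch: `Pi` is injective on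
`ker B`, so `ker B` is finite dimensional. `B` is bounded below on the closed subspace `ker Pi`,
so `B (ker Pi)` is closed; `range B = B (ker Pi) ⊔ B ((ker Pi)ᗮ)` and ` (ker Pi)ᗮ` is finite
dimensional (`Pi` is injective on it), so the range is closed (sum of a closed and a finite
dimensional subspace). By symmetry ` (range B)ᗮ = ker B`, hence `range B = (ker B)ᗮ`. -/
theorem fred {Z : Type} [NormedAddCommGroup Z] [NormedSpace ℝ Z] [FiniteDimensional ℝ Z]
    (B : H →L[ℝ] H) (hB : ∀ x y, ⟪B x, y⟫_ℝ = ⟪x, B y⟫_ℝ) (Pi : H →L[ℝ] Z) (C : ℝ)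
    (h : ∀ a, ‖a‖ ≤ C * (‖Pi a‖ + ‖B a‖)) :
    FiniteDimensional ℝ (B : H →ₗ[ℝ] H).ker ∧
      ∃ e : H ≃L[ℝ] H, ∀ a, e a = B a + (B : H →ₗ[ℝ] H).ker.starProjection a := by
  have hc := fred_closed B Pi C h
  have hP : ∀ a, B ((B : H →ₗ[ℝ] H).ker.starProjection a) = 0 := fun a =>
    (B : H →ₗ[ℝ] H).ker.starProjection_apply_mem a
  have hPP : ∀ a, (B : H →ₗ[ℝ] H).ker.starProjection ((B : H →ₗ[ℝ] H).ker.starProjection a) =
      (B : H →ₗ[ℝ] H).ker.starProjection a := fun a =>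
    Submodule.starProjection_eq_self_iff.2 (hP a)
  refine ⟨FiniteDimensional.of_injective ((Pi : H →ₗ[ℝ] Z).domRestrict _)
    ((injective_iff_map_eq_zero _).2 fun a ha => ?_), ContinuousLinearEquiv.ofBijective
      (B + (B : H →ₗ[ℝ] H).ker.starProjection) (LinearMap.ker_eq_bot'.2 fun a ha => ?_)
      (LinearMap.range_eq_top.2 fun y => ?_), fun _ => rfl⟩
  · have h1 := h a
    have h2 : Pi a = 0 := ha
    have h3 : B a = 0 := a.2
    rw [h2, h3, norm_zero, norm_zero, add_zero, mul_zero] at h1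
    exact Subtype.ext (norm_le_zero_iff.1 h1)
  · have h1 : B a + (B : H →ₗ[ℝ] H).ker.starProjection a = 0 := ha
    have h2 := hB a ((B : H →ₗ[ℝ] H).ker.starProjection a)
    rw [hP, inner_zero_right, eq_neg_of_add_eq_zero_left h1, inner_neg_left, neg_eq_zero,
      inner_self_eq_zero] at h2
    rw [h2, add_zero] at h1
    exact (Submodule.starProjection_eq_self_iff.2 h1).symm.trans h2
  · have h1 : (B : H →ₗ[ℝ] H).rangeᗮ ≤ (B : H →ₗ[ℝ] H).ker := fun x hx => by
      have h2 : ⟪B (B x), x⟫_ℝ = 0 := hx _ ⟨B x, rfl⟩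
      rw [hB, inner_self_eq_zero] at h2
      exact h2
    have h2 := Submodule.orthogonal_le h1 (Submodule.sub_starProjection_mem_orthogonal y)
    rw [Submodule.orthogonal_orthogonal_eq_closure, hc.submodule_topologicalClosure_eq] at h2
    obtain ⟨x, hx⟩ := h2
    have h3 : B x = y - (B : H →ₗ[ℝ] H).ker.starProjection y := hx
    refine ⟨x - (B : H →ₗ[ℝ] H).ker.starProjection x + (B : H →ₗ[ℝ] H).ker.starProjection y, ?_⟩
    change B _ + (B : H →ₗ[ℝ] H).ker.starProjection _ = y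
    rw [map_add, map_sub, map_add, map_sub, hP, hP, hPP, hPP, h3]
    abel

end Pool.Agent.Lib.MP_94aef8_gt.E2
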