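import Pool.Agent.Lib.MP_94aef8_gt.E2.AbsMain
import Pool.Agent.Lib.MP_94aef8_gt.E2.Fred

open scoped InnerProductSpace Topology
open Filter Set

namespace Pool.Agent.Lib.MP_94aef8_gt.E2

/-- Data on one Hilbert space; `T` is the inclusion of the strong space in the weak space. -/
structure HD (H : Type) [NormedAddCommGroup H] [InnerProductSpace ℝ H] where
  T : H →L[ℝ] H
  R : H →L[ℝ] H
  D : H →L[ℝ] H
  l1 : H →L[ℝ] H →L[ℝ] H
  E : H → H
  S : H → ℝ
  lam : ℝ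
  c : ℝ

namespace HD

variable {H : Type} [NormedAddCommGroup H] [InnerProductSpace ℝ H] (d : HD H)

/-- The weak scalar product. -/
noncomputable def ip (y y' : H) : ℝ := ⟪(d.T ^ 4) y, (d.T ^ 4) y'⟫_ℝ

/-- The hypotheses. -/
structure Hyp : Prop where
  Ts : ∀ x y, ⟪d.T x, y⟫_ℝ = ⟪x, d.T y⟫_ℝ
  Rs : ∀ x y, ⟪d.R x, y⟫_ℝ = ⟪x, d.R y⟫_ℝ
  RR : ∀ x, d.R (d.R x) = x
  RT : ∀ x, d.R (d.T x) = d.T (d.R x)
  lam0 : d.lam ≠ 0
  c0 : d.c ≠ 0
  est : ∃ (m : ℕ) (Pi : H →L[ℝ] (Fin m → ℝ)) (C : ℝ),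
    ∀ a, ‖a‖ ≤ C * (‖Pi a‖ + ‖a - d.lam • d.T a‖)
  anE : AnalyticAt ℝ d.E 0
  anS : AnalyticAt ℝ d.S 0
  E0 : d.E 0 = 0
  dS : ∀ᶠ h in 𝓝 (0 : H), ∀ u, fderiv ℝ d.S h u = -d.ip (d.E h) (d.T u)
  bi : ∀ᶠ h in 𝓝 (0 : H), ∀ u, d.ip (d.E h) (d.c • d.R (d.D u) + d.l1 u h) = 0
  lin : ∀ u, fderiv ℝ d.E 0 u + d.D u = (1 / 2 : ℝ) • d.R (u - d.lam • d.T u)
  Ds : ∀ u v, d.ip (d.D u) (d.T v) = d.ip (d.D v) (d.T u)
  Dpos : ∀ u, 0 ≤ d.ip (d.D u) (d.T u)
  yano : ∃ c' : ℝ, 0 < c' ∧ ∀ u, c' * d.ip (d.D u) (d.T u) ≤ d.ip (d.R (d.D u)) (d.D u)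

variable {d}

theorem mid_ip : ∃ b : H →L[ℝ] H →L[ℝ] ℝ, ∀ y y', b y y' = d.ip y y' :=
  ⟨(innerSL ℝ : H →L[ℝ] H →L[ℝ] ℝ).bilinearComp (d.T ^ 4) (d.T ^ 4), fun _ _ => rfl⟩

theorem mid_four (y : H) : (d.T ^ 4) y = d.T (d.T (d.T (d.T y))) := by
  simp only [pow_succ, pow_zero, one_mul, mul_apply_eq_comp]

theorem mid_symm (y y' : H) : d.ip y y' = d.ip y' y := real_inner_comm _ _

theorem mid_R (h : d.Hyp) (y y' : H) : d.ip (d.R y) y' = d.ip y (d.R y') := by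
  simp only [ip, mid_four, ← h.RT, h.Rs]

theorem mid_K (h : d.Hyp) {a : H} (ha : d.T a = d.lam⁻¹ • a) (y : H) :
    d.ip a y = d.lam⁻¹ ^ 8 * ⟪a, y⟫_ℝ := by
  simp only [ip, mid_four, ← h.Ts, ha, map_smul, real_inner_smul_left]
  ring

theorem mid_form {Q : H →L[ℝ] H →L[ℝ] ℝ} (hs : ∀ u v, Q u v = Q v u) (h0 : ∀ u, 0 ≤ Q u u)
    {a : H} (ha : Q a a = 0) (v : H) : Q v a = 0 := by
  have h1 : ∀ t : ℝ, 0 ≤ Q v v * (t * t) + 2 * Q v a * t + 0 := fun t => by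
    have := h0 (a + t • v)
    simp only [map_add, map_smul, _root_.add_apply, _root_.smul_apply,
      smul_eq_mul, ha, hs a v] at this
    linarith
  have h2 := discrim_le_zero h1
  rw [discrim] at h2
  nlinarith [sq_nonneg (Q v a)]

/-- Sketch: `B = 1 - lam T`, `K = ker B`, `p` the orthogonal projection on `K`, `e = B + p` from
`fred`. On `K` one has `T = lam⁻¹`, so `p T = T p = lam⁻¹ p` and `ip (p y) y' = lam⁻¹ ^ 8 ⟪p y, y'⟫`;
`R` commutes with `T`, preserves `K`, commutes with `p`, and is symmetric for `ip`. Apply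
`AD.abs_main` with `X = Y = H`, `Z = K`, `ι = T`, `l0 = c • R ∘ D`, `q = orthogonalProjection K`,
`j = (lam / 2) • R ∘ K.subtypeL`, `σ = (2 / c) • e⁻¹`. Then `fderiv E 0 + D + F ι = (1/2) R e`.
`Fb`: `‖p r‖ ^ 2 = lam ^ 8 ip (p r) r`. `sig`: put `N = {y | ∀ v, ip y (D v) = 0}`. The derivative
of `bi` at `0` (`AD.At.bi'`, `E 0 = 0`) gives `ip (fderiv E 0 v) (R (D w)) = 0`, that is
`R (fderiv E 0 v) ∈ N`, so `c R D v - (c / 2) B v ∈ N` by `lin`. For `a ∈ K` this gives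
`ip (R (D a)) (D a) = 0`, hence `ip (D a) (T a) = 0` by `yano` and `Dpos`, hence
`ip (D v) (T a) = 0` for all `v` (the form ` (u, v) ↦ ip (D u) (T v)` is symmetric and nonnegative),
so `K ⊆ N`. -/
theorem mid_main [CompleteSpace H] (h : d.Hyp) :
    ∃ U ∈ 𝓝 (0 : H), (d.S '' {a | a ∈ U ∧ d.E a = 0}).Countable := by
  obtain ⟨b, hb⟩ := mid_ip (d := d)
  obtain ⟨m, Pi, C, hC⟩ := h.est
  obtain ⟨B, hB⟩ : ∃ B : H →L[ℝ] H, ∀ a, B a = a - d.lam • d.T a := ⟨1 - d.lam • d.T, fun _ => rfl⟩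
  obtain ⟨hfin, e, he⟩ := fred B (fun x y => by
    simp only [hB, inner_sub_left, inner_sub_right, real_inner_smul_left, real_inner_smul_right,
      h.Ts]) Pi C fun a => by rw [hB]; exact hC a
  set K := (B : H →ₗ[ℝ] H).ker with hK
  have hK1 : ∀ a, a ∈ K ↔ a = d.lam • d.T a := fun a => by
    rw [hK, LinearMap.mem_ker, ContinuousLinearMap.coe_coe, hB, sub_eq_zero]
  have hT : ∀ a ∈ K, d.T a = d.lam⁻¹ • a := fun a ha => by
    rw [eq_inv_smul_iff₀ h.lam0]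
    exact ((hK1 a).1 ha).symm
  have hR : ∀ a ∈ K, d.R a ∈ K := fun a ha => by
    rw [hK1, ← h.RT, ← map_smul, ← (hK1 a).1 ha]
  have hp : ∀ y, K.starProjection y ∈ K := fun y => K.starProjection_apply_mem y
  have hin : ∀ a ∈ K, ∀ y, ⟪a, y⟫_ℝ = ⟪a, K.starProjection y⟫_ℝ := fun a ha y => by
    rw [← K.inner_starProjection_left_eq_right, Submodule.starProjection_eq_self_iff.2 ha]
  have hpT : ∀ y, K.starProjection (d.T y) = d.lam⁻¹ • K.starProjection y := fun y =>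
    ext_inner_right ℝ fun z => by
      rw [K.inner_starProjection_left_eq_right, h.Ts, hT _ (hp z), real_inner_smul_right,
        real_inner_smul_left, K.inner_starProjection_left_eq_right]
  let A : AD H H K :=
    { ι := d.T, D := d.D, l0 := d.c • d.R ∘L d.D, l1 := d.l1, ip := b
      σ := (2 / d.c) • (e.symm : H →L[ℝ] H), q := K.orthogonalProjectionOnto
      j := (d.lam / 2) • d.R ∘L K.subtypeL, E := d.E, S := d.S }
  have hF : ∀ y, A.F y = (d.lam / 2) • d.R (K.starProjection y) := fun _ => rfl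
  have hA : A.At 0 := ⟨h.anE, h.anS, h.dS.mono fun x hx u => (hx u).trans (by rw [← hb]),
    h.bi.mono fun x hx u => (hb _ _).trans (hx u)⟩
  have h1 : ∀ w u, b (B w) (d.D u) = 2 * b (d.R (d.D w)) (d.D u) := fun w u => by
    have h2 : b (fderiv ℝ d.E 0 w) (d.c • d.R (d.D u) + d.l1 u 0) + b (d.E 0) (d.l1 u w) = 0 :=
      hA.bi' u w
    rw [h.E0, map_zero, map_zero, _root_.zero_apply, add_zero, add_zero, map_smul,
      smul_eq_mul, mul_eq_zero, or_iff_right h.c0, hb, ← mid_R h, eq_sub_of_add_eq (h.lin w),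
      map_sub, map_smul, h.RR, ← hB, ← hb] at h2
    simp only [map_sub, map_smul, _root_.sub_apply, _root_.smul_apply,
      smul_eq_mul] at h2
    linarith
  have h3 : ∀ a ∈ K, ∀ v, b a (d.D v) = 0 := fun a ha v => by
    obtain ⟨c', hc', hy⟩ := h.yano
    have h4 := h1 a a
    rw [show B a = 0 from ha, map_zero, _root_.zero_apply, hb] at h4
    have h5 : d.ip (d.D a) (d.T a) = 0 := by
      refine le_antisymm ?_ (h.Dpos a)
      have := hy a
      by_contra hn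
      nlinarith [mul_pos hc' (not_le.1 hn)]
    have h6 : b (d.D v) (d.T a) = 0 :=
      mid_form (Q := b.bilinearComp d.D d.T) (fun u v => (hb _ _).trans ((h.Ds u v).trans
        (hb _ _).symm)) (fun u => (h.Dpos u).trans_eq (hb _ _).symm) ((hb _ _).trans h5) v
    rw [hT a ha, map_smul, smul_eq_mul, mul_eq_zero, or_iff_right (inv_ne_zero h.lam0)] at h6
    rw [hb, mid_symm, ← hb, h6]
  refine AD.abs_main (d := A) ⟨fun y y' => ?_, fun u v => ?_, fun y y' => ?_, ?_, hA, h.E0, ?_,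
    fun y v => ?_⟩
  · exact (hb _ _).trans ((mid_symm _ _).trans (hb _ _).symm)
  · exact (hb _ _).trans ((h.Ds u v).trans (hb _ _).symm)
  · change b (A.F y) y' = b y (A.F y')
    rw [hF, hF, map_smul, map_smul, _root_.smul_apply, hb, hb, mid_symm y,
      mid_K h (hT _ (hR _ (hp y))), mid_K h (hT _ (hR _ (hp y'))), hin _ (hR _ (hp y)),
      hin _ (hR _ (hp y')), h.Rs, real_inner_comm]
  · refine ⟨|d.lam / 2| * ‖d.R‖ * d.lam ^ 8, fun r ε hε hr => ?_⟩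
    have h4 : |b (K.starProjection r) r| ≤ ε * ‖K.starProjection r‖ := hr _
    rw [hb, mid_K h (hT _ (hp r)), hin _ (hp r), real_inner_self_eq_norm_sq] at h4
    have h8 : 0 < d.lam ^ 8 := Even.pow_pos (by norm_num) h.lam0
    have h5 : ‖K.starProjection r‖ ≤ d.lam ^ 8 * ε := by
      rcases (norm_nonneg (K.starProjection r)).eq_or_lt with h0 | h0
      · rw [← h0]
        positivity
      · have h6 := (le_abs_self _).trans h4
        rw [inv_pow, inv_mul_le_iff₀ h8, sq, ← mul_assoc] at h6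
        exact le_of_mul_le_mul_right h6 h0
    rw [hF, norm_smul, Real.norm_eq_abs, mul_assoc, mul_assoc]
    exact mul_le_mul_of_nonneg_left ((d.R.le_opNorm _).trans
      (mul_le_mul_of_nonneg_left h5 (norm_nonneg _))) (abs_nonneg _)
  · refine ⟨e.trans (ContinuousLinearEquiv.equivOfInverse ((1 / 2 : ℝ) • d.R) ((2 : ℝ) • d.R)
      (fun x => ?_) fun x => ?_), fun u => ?_⟩
    · simp [h.RR, smul_smul]
    · simp [h.RR, smul_smul]
    · change (1 / 2 : ℝ) • d.R (e u) = fderiv ℝ d.E 0 u + d.D u + A.F (d.T u)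
      rw [h.lin, hF, hpT, he, hB, map_add, smul_add, map_smul, smul_smul]
      have : d.lam / 2 * d.lam⁻¹ = 1 / 2 := by field_simp [h.lam0]
      rw [this]
  · change b (d.c • d.R (d.D ((2 / d.c) • e.symm y)) - y) (d.D v) = 0
    obtain ⟨w, rfl⟩ := e.surjective y
    rw [e.symm_apply_apply, he, map_smul, map_smul, smul_smul, mul_div_cancel₀ _ h.c0]
    simp only [map_sub, map_add, map_smul, _root_.sub_apply,
      _root_.add_apply, _root_.smul_apply, smul_eq_mul, h1]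
    linarith [h3 _ (hp w) v]

end HD

end Pool.Agent.Lib.MP_94aef8_gt.E2
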