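import Pool.Agent.Lib.MP_94aef8_gt.E2.DensA
import Pool.Agent.Lib.MP_94aef8_gt.E2.Mid

open scoped InnerProductSpace Topology
open Filter Set UniformSpace

namespace Pool.Agent.Lib.MP_94aef8_gt.E2

namespace VD

variable {V : Type} [NormedAddCommGroup V] [InnerProductSpace ℝ V] {d : VD V}

theorem dens_succ (n : ℕ) (u : V) : (d.A ^ (n + 1)) u = d.A ((d.A ^ n) u) := by
  rw [pow_succ', LinearEquiv.mul_apply]

theorem dens_succ' (n : ℕ) (u : V) : (d.A ^ (n + 1)) u = (d.A ^ n) (d.A u) := by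
  rw [pow_succ, LinearEquiv.mul_apply]

theorem dens_As (h : d.Hyp) (n : ℕ) (u v : V) : ⟪(d.A ^ n) u, v⟫_ℝ = ⟪u, (d.A ^ n) v⟫_ℝ := by
  induction n generalizing v with
  | zero => rfl
  | succ n ih => rw [dens_succ, h.As, ih, dens_succ']

theorem dens_RA (h : d.Hyp) (n : ℕ) (u : V) : d.R ((d.A ^ n) u) = (d.A ^ n) (d.R u) := by
  induction n with
  | zero => rfl
  | succ n ih => rw [dens_succ, h.RA, ih, dens_succ]

theorem dens_ind (d : VD V) {p : Completion V → Prop} (hp : IsClosed {x | p x})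
    (h : ∀ u, p ((d.A ^ 5) u : V)) (x : Completion V) : p x := by
  refine Completion.induction_on x hp fun v => ?_
  obtain ⟨u, rfl⟩ := (d.A ^ 5).surjective v
  exact h u

theorem dens_orth {x : Completion V} (h : ∀ v : V, ⟪x, (v : Completion V)⟫_ℝ = 0) : x = 0 := by
  have : ∀ y, ⟪x, y⟫_ℝ = 0 := fun y =>
    Completion.induction_on y (isClosed_eq (by fun_prop) continuous_const) h
  exact inner_self_eq_zero.1 (this x)

theorem dens_line {f : Completion V → ℝ} {f' : Completion V →L[ℝ] ℝ} {g : V → ℝ} {k u : V} {b : ℝ}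
    (hf : HasFDerivAt f f' ((d.A ^ 5) k : V)) (hk : ‖(d.A ^ 5) k‖ < d.δ)
    (hg : ∀ k, ‖(d.A ^ 5) k‖ < d.δ → f ((d.A ^ 5) k : V) = g k)
    (hb : HasDerivAt (fun s : ℝ => g (k + s • u)) b 0) : f' ((d.A ^ 5) u : V) = b := by
  refine (hf.hasLineDerivAt _).unique (hb.congr_of_eventuallyEq ?_)
  have hc : Continuous fun s : ℝ => ‖(d.A ^ 5) k + s • (d.A ^ 5) u‖ := by fun_prop
  filter_upwards [hc.continuousAt.eventually_lt continuousAt_const
    (show ‖(d.A ^ 5) k + (0 : ℝ) • (d.A ^ 5) u‖ < d.δ by simpa using hk)] with s hs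
  rw [← hg (k + s • u) (by simpa using hs), map_add, map_smul, Completion.coe_add,
    Completion.coe_smul]

theorem dens_cip (e : HD (Completion V)) {f g : Completion V → Completion V} (hf : Continuous f)
    (hg : Continuous g) : Continuous fun x => e.ip (f x) (g x) :=
  ((e.T ^ 4).continuous.comp hf).inner ((e.T ^ 4).continuous.comp hg)

theorem dens_cipOn (e : HD (Completion V)) {f g : Completion V → Completion V}
    {s : Set (Completion V)} (hf : ContinuousOn f s) (hg : ContinuousOn g s) :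
    ContinuousOn (fun x => e.ip (f x) (g x)) s :=
  ((e.T ^ 4).continuous.comp_continuousOn hf).inner ((e.T ^ 4).continuous.comp_continuousOn hg)

/-- Sketch: apply `HD.mid_main` to the operators of `exists_ops`. Every point of `V` is `A ^ 5 u`.
For `y : Completion V` and `w : V` one has `ip y (A ^ 4 w) = ⟪T ^ 4 y, w⟫ = ⟪y, A⁻⁴ w⟫`, so `hE`
says `ip (E (A ^ 5 h)) (A ^ 4 w) = es h w`, and `T (A ^ 5 u) = A ^ 4 u`. `dS` and `bi`: on a small
ball where `E`, `S` are analytic both sides are continuous in `h` (`eq_on_open`) and in `u`.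
`lin`: the derivative of `s ↦ ⟪E (s • A ^ 5 u), v⟫` at `0` computed in two ways; a vector
orthogonal to `V` vanishes. At the end `es h = 0` gives `E (A ^ 5 h) = 0`. -/
theorem dens_main (h : d.Hyp) : ∃ δ' : ℝ, 0 < δ' ∧
    (d.ss '' {k | ‖(d.A ^ 5) k‖ < δ' ∧ ∀ v, d.es k v = 0}).Countable := by
  obtain ⟨T, R, D, l1, hT, hR, hD, hl, Ts, Rs, RR, RT, hT1⟩ := exists_ops h
  let e : HD (Completion V) := ⟨T, R, D, l1, d.E, d.S, d.lam, d.c⟩
  have ipd : ∀ x y, e.ip x y = ⟪(T ^ 4) x, (T ^ 4) y⟫_ℝ := fun _ _ => rfl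
  have T1 : ∀ u : V, T ((d.A ^ 5) u : V) = ((d.A ^ 4) u : V) := fun u => by rw [dens_succ, hT]
  have Tn : ∀ (n : ℕ) (u : V), (T ^ n) ((d.A ^ n) u : V) = u := by
    intro n u
    induction n with
    | zero => rfl
    | succ n ih => rw [pow_succ T, mul_apply_eq_comp, dens_succ, hT, ih]
  have Tns : ∀ (n : ℕ) x y, ⟪(T ^ n) x, y⟫_ℝ = ⟪x, (T ^ n) y⟫_ℝ := by
    intro n x y
    induction n generalizing y with
    | zero => rfl
    | succ n ih =>
      rw [pow_succ' T, mul_apply_eq_comp, Ts, ih, ← mul_apply_eq_comp,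
        ← pow_succ, pow_succ' T]
  have ip4 : ∀ a b : V, e.ip ((d.A ^ 4) a : V) ((d.A ^ 4) b : V) = ⟪a, b⟫_ℝ := fun a b => by
    rw [ipd, Tn, Tn, Completion.inner_coe]
  have ipE : ∀ k, ‖(d.A ^ 5) k‖ < d.δ → ∀ w : V,
      e.ip (d.E ((d.A ^ 5) k : V)) ((d.A ^ 4) w : V) = d.es k w := by
    intro k hk w
    obtain ⟨v, rfl⟩ := (d.A ^ 4).surjective w
    rw [ipd, Tn, Tns, Tn, h.hE k hk]
  have h0 : ‖(d.A ^ 5) 0‖ < d.δ := by simpa using h.δ0
  have c0 : (((d.A ^ 5) 0 : V) : Completion V) = 0 := by rw [map_zero, Completion.coe_zero]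
  obtain ⟨r, hr, hball⟩ := Metric.eventually_nhds_iff_ball.1
    ((h.anE.eventually_analyticAt.and h.anS.eventually_analyticAt).and
      (Metric.ball_mem_nhds (0 : Completion V) h.δ0))
  have hE : AnalyticOnNhd ℝ d.E (Metric.ball 0 r) := fun a ha => (hball a ha).1.1
  have hS : AnalyticOnNhd ℝ d.S (Metric.ball 0 r) := fun a ha => (hball a ha).1.2
  have hδ : ∀ k, (((d.A ^ 5) k : V) : Completion V) ∈ Metric.ball 0 r → ‖(d.A ^ 5) k‖ < d.δ :=
    fun k hk => by simpa using (hball _ hk).2
  have cE := hE.continuousOn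
  have cT := T.continuous
  have cD := D.continuous
  have cRD : Continuous fun x => R (D x) := R.continuous.comp cD
  have He : e.Hyp := by
    refine ⟨Ts, Rs, RR, RT, h.lam0, h.c0, est h T hT hT1, h.anE, h.anS, ?_, ?_, ?_, ?_, ?_, ?_, ?_⟩
    · refine dens_orth fun v => ?_
      rw [← h.es0 ((d.A ^ 4) v), ← h.hE 0 h0, c0]
    · filter_upwards [Metric.ball_mem_nhds 0 hr] with a ha x
      refine eq_on_open (φ := fun a => fderiv ℝ d.S a x) (ψ := fun a => -e.ip (d.E a) (T x))
        Metric.isOpen_ball (hS.fderiv.continuousOn.clm_apply continuousOn_const)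
        (dens_cipOn e cE continuousOn_const).neg (fun k hk => ?_) a ha
      obtain ⟨k, rfl⟩ := (d.A ^ 5).surjective k
      refine dens_ind d (p := fun x => fderiv ℝ d.S _ x = -e.ip (d.E _) (T x))
        (isClosed_eq (ContinuousLinearMap.continuous _) (dens_cip e continuous_const cT).neg)
        (fun u => ?_) x
      rw [T1, ipE k (hδ k hk)]
      exact dens_line (hS _ hk).differentiableAt.hasFDerivAt (hδ k hk) h.hS (h.var k (hδ k hk) u)
    · filter_upwards [Metric.ball_mem_nhds 0 hr] with a ha x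
      refine eq_on_open (φ := fun a => e.ip (d.E a) (d.c • R (D x) + l1 x a)) (ψ := fun _ => 0)
        Metric.isOpen_ball (dens_cipOn e cE (continuous_const.add (l1 x).continuous).continuousOn)
        continuousOn_const (fun k hk => ?_) a ha
      obtain ⟨k, rfl⟩ := (d.A ^ 5).surjective k
      refine dens_ind d (p := fun x => e.ip (d.E _) (d.c • R (D x) + l1 x _) = 0)
        (isClosed_eq (dens_cip e continuous_const ((cRD.const_smul d.c).add
          (l1.continuous.clm_apply continuous_const))) continuous_const) (fun u => ?_) x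
      rw [hD, hR, hl, dens_RA h, ← Completion.coe_smul, ← Completion.coe_add, ← map_smul,
        ← map_add, ipE k (hδ k hk)]
      exact h.bi k (hδ k hk) u
    · intro x
      refine dens_ind d (p := fun x => fderiv ℝ d.E 0 x + D x = (1 / 2 : ℝ) • R (x - d.lam • T x))
        (isClosed_eq ((ContinuousLinearMap.continuous _).add cD)
          ((R.continuous.comp (continuous_id.sub (cT.const_smul d.lam))).const_smul (1 / 2 : ℝ)))
        (fun u => ?_) x
      have key : fderiv ℝ d.E 0 ((d.A ^ 5) u : V) =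
          ((d.A ^ 4) ((1 / 2 : ℝ) • d.R (d.A u - d.lam • u) - d.D u) : V) := by
        refine sub_eq_zero.1 (dens_orth fun v => ?_)
        have h1 := (innerSL ℝ (v : Completion V)).hasFDerivAt.comp 0
          h.anE.differentiableAt.hasFDerivAt
        rw [← c0] at h1
        have h2 := dens_line (g := fun k => d.es k ((d.A ^ 4) v)) (u := u) h1 h0
          (fun k hk => by rw [← h.hE k hk, real_inner_comm]; rfl)
          (by simpa only [zero_add] using h.lin u ((d.A ^ 4) v))
        rw [inner_sub_left, Completion.inner_coe, dens_As h, ← h2, c0, real_inner_comm]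
        exact sub_self _
      rw [key, hD, T1, ← Completion.coe_add, ← map_add, sub_add_cancel, ← Completion.coe_smul,
        ← Completion.coe_sub, hR, ← Completion.coe_smul, dens_succ' 4, ← map_smul (d.A ^ 4),
        ← map_sub, dens_RA h, map_smul]
    · intro x y
      refine dens_ind d (p := fun x => e.ip (D x) (T y) = e.ip (D y) (T x))
        (isClosed_eq (dens_cip e cD continuous_const) (dens_cip e continuous_const cT))
        (fun u => ?_) x
      refine dens_ind d (p := fun y => e.ip (D _) (T y) = e.ip (D y) (T _))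
        (isClosed_eq (dens_cip e continuous_const cT) (dens_cip e cD continuous_const))
        (fun v => ?_) y
      rw [hD, hD, T1, T1, ip4, ip4, h.Ds]
    · intro x
      refine dens_ind d (p := fun x => 0 ≤ e.ip (D x) (T x))
        (isClosed_le continuous_const (dens_cip e cD cT)) (fun u => ?_) x
      rw [hD, T1, ip4]
      exact h.Dpos u
    · obtain ⟨c', hc', hy⟩ := h.yano
      refine ⟨c', hc', fun x => ?_⟩
      refine dens_ind d (p := fun x => c' * e.ip (D x) (T x) ≤ e.ip (R (D x)) (D x))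
        (isClosed_le (continuous_const.mul (dens_cip e cD cT)) (dens_cip e cRD cD)) (fun u => ?_) x
      rw [hD, T1, hR, dens_RA h, ip4, ip4]
      exact hy u
  obtain ⟨U, hU, hc⟩ := HD.mid_main He
  obtain ⟨ρ, hρ, hρU⟩ := Metric.mem_nhds_iff.1 hU
  refine ⟨min ρ d.δ, lt_min hρ h.δ0, hc.mono ?_⟩
  rintro _ ⟨k, ⟨hk, hk'⟩, rfl⟩
  obtain ⟨k1, k2⟩ := lt_min_iff.1 hk
  exact ⟨((d.A ^ 5) k : V), ⟨hρU (by simpa using k1),
    dens_orth fun v => (h.hE k k2 v).trans (hk' _)⟩, h.hS k k2⟩

end VD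

end Pool.Agent.Lib.MP_94aef8_gt.E2
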