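import Pool.Agent.Lib.MP_94aef8_gt.E2.DensDefs
import Pool.Agent.Lib.MP_94aef8_gt.E2.Ext

open scoped InnerProductSpace Topology
open Filter Set UniformSpace

namespace Pool.Agent.Lib.MP_94aef8_gt.E2

namespace VD

variable {V : Type} [NormedAddCommGroup V] [InnerProductSpace ℝ V] {d : VD V}

theorem densa_symm {T : Completion V →L[ℝ] Completion V} {f : V → V} (hT : ∀ u : V, T u = f u)
    (hf : ∀ u v, ⟪f u, v⟫_ℝ = ⟪u, f v⟫_ℝ) (x y : Completion V) : ⟪T x, y⟫_ℝ = ⟪x, T y⟫_ℝ := by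
  refine Completion.induction_on₂ x y (isClosed_eq (by fun_prop) (by fun_prop)) fun u v => ?_
  rw [hT, hT, Completion.inner_coe, Completion.inner_coe, hf]

/-- The operators on the completion (`ext_lin`, `ext_bilin`; `R` is an isometry). -/
theorem exists_ops (h : d.Hyp) :
    ∃ (T R D : Completion V →L[ℝ] Completion V)
      (l1 : Completion V →L[ℝ] Completion V →L[ℝ] Completion V),
      (∀ u : V, T (d.A u : V) = u) ∧ (∀ u : V, R u = (d.R u : V)) ∧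
      (∀ u : V, D ((d.A ^ 5) u : V) = ((d.A ^ 4) (d.D u) : V)) ∧
      (∀ u k : V, l1 ((d.A ^ 5) u : V) ((d.A ^ 5) k : V) = ((d.A ^ 4) (d.l1 u k) : V)) ∧
      (∀ x y, ⟪T x, y⟫_ℝ = ⟪x, T y⟫_ℝ) ∧ (∀ x y, ⟪R x, y⟫_ℝ = ⟪x, R y⟫_ℝ) ∧
      (∀ x, R (R x) = x) ∧ (∀ x, R (T x) = T (R x)) ∧ (∀ x, ‖T x‖ ≤ ‖x‖) := by
  let ι : V →ₗ[ℝ] Completion V := (Completion.toComplₗᵢ : V →ₗᵢ[ℝ] Completion V).toLinearMap
  let B : V →ₗ[ℝ] V := (d.A ^ 5).symm.toLinearMap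
  have hA : ∀ u, ‖d.A.symm u‖ ≤ ‖u‖ := fun u => by
    simpa only [LinearEquiv.apply_symm_apply] using h.Alow (d.A.symm u)
  have hR : ∀ u, ‖d.R u‖ = ‖u‖ := fun u => by
    rw [norm_eq_sqrt_real_inner, norm_eq_sqrt_real_inner u, h.Rs, h.RR]
  obtain ⟨C, hC⟩ := h.Db
  obtain ⟨C', hC'⟩ := h.l1b
  obtain ⟨T, hT⟩ := ext_lin (ι ∘ₗ d.A.symm.toLinearMap) 1 fun u => by
    rw [one_mul]
    exact (Completion.norm_coe _).trans_le (hA u)
  obtain ⟨R, hR'⟩ := ext_lin (ι ∘ₗ d.R) 1 fun u => by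
    rw [one_mul]
    exact (Completion.norm_coe _).trans_le (hR u).le
  obtain ⟨D, hD⟩ := ext_lin (ι ∘ₗ (d.A ^ 4).toLinearMap ∘ₗ d.D ∘ₗ B) C fun u => by
    refine (Completion.norm_coe _).trans_le ((hC (B u)).trans_eq ?_)
    exact congrArg (fun x => C * ‖x‖) ((d.A ^ 5).apply_symm_apply u)
  obtain ⟨l, hl⟩ := ext_bilin ((d.l1.compl₁₂ B B).compr₂ (ι ∘ₗ (d.A ^ 4).toLinearMap)) C'
    fun u v => by
      refine (Completion.norm_coe _).trans_le ((hC' (B u) (B v)).trans_eq ?_)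
      exact congrArg₂ (fun x y => C' * ‖x‖ * ‖y‖) ((d.A ^ 5).apply_symm_apply u)
        ((d.A ^ 5).apply_symm_apply v)
  replace hT : ∀ u : V, T u = (d.A.symm u : V) := hT
  replace hR' : ∀ u : V, R u = (d.R u : V) := hR'
  have hB : ∀ u, B ((d.A ^ 5) u) = u := (d.A ^ 5).symm_apply_apply
  refine ⟨T, R, D, l, fun u => by rw [hT, LinearEquiv.symm_apply_apply], hR', fun u => ?_,
    fun u k => ?_, densa_symm hT fun u v => ?_, densa_symm hR' h.Rs, fun x => ?_, fun x => ?_,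
    fun x => ?_⟩
  · rw [hD, LinearMap.comp_apply, LinearMap.comp_apply, LinearMap.comp_apply, hB]
    rfl
  · rw [hl, LinearMap.compr₂_apply, LinearMap.compl₁₂_apply, hB, hB]
    rfl
  · have e := h.As (d.A.symm u) (d.A.symm v)
    rw [LinearEquiv.apply_symm_apply, LinearEquiv.apply_symm_apply] at e
    exact e.symm
  · refine Completion.induction_on x (isClosed_eq (by fun_prop) (by fun_prop)) fun u => ?_
    rw [hR', hR', h.RR]
  · refine Completion.induction_on x (isClosed_eq (by fun_prop) (by fun_prop)) fun u => ?_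
    rw [hT, hR', hR', hT]
    refine congrArg _ (d.A.injective ?_)
    rw [← h.RA, LinearEquiv.apply_symm_apply, LinearEquiv.apply_symm_apply]
  · refine Completion.induction_on x (isClosed_le (by fun_prop) (by fun_prop)) fun u => ?_
    rw [hT, Completion.norm_coe, Completion.norm_coe]
    exact hA u

/-- The estimate modulo finite rank. With `b = a - lam T a` one has
`a = (lam T) ^ 5 a + ∑ i < 5, (lam T) ^ i b`; use `net` with `ε |lam| ^ 5 ≤ 1 / 2` for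
`u = A⁻⁵ a` and extend `a ↦ Pi (A⁻⁵ a)`. -/
theorem est (h : d.Hyp) (T : Completion V →L[ℝ] Completion V) (hT : ∀ u : V, T (d.A u : V) = u)
    (hT1 : ∀ x, ‖T x‖ ≤ ‖x‖) : ∃ (m : ℕ) (Pi : Completion V →L[ℝ] (Fin m → ℝ)) (C : ℝ),
    ∀ a, ‖a‖ ≤ C * (‖Pi a‖ + ‖a - d.lam • T a‖) := by
  have h0 : 0 < |d.lam| ^ 5 := pow_pos (abs_pos.2 h.lam0) 5
  obtain ⟨m, P, C, h1, h2⟩ := h.net (1 / (2 * |d.lam| ^ 5)) (by positivity)
  obtain ⟨Q, hQ⟩ := ext_lin (P ∘ₗ (d.A ^ 5).symm.toLinearMap) C fun u =>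
    (h1 _).trans_eq (congrArg (fun x => C * ‖x‖) ((d.A ^ 5).apply_symm_apply u))
  have h3 : ∀ (n : ℕ) (u : V), (T ^ n) ((d.A ^ n) u : V) = u := fun n => by
    induction n with
    | zero => exact fun _ => rfl
    | succ n ih =>
      intro u
      rw [pow_succ T, pow_succ' d.A]
      exact (congrArg (T ^ n) (hT _)).trans (ih u)
  have h4 : ∀ a, ‖(T ^ 5) a‖ ≤ 1 / (2 * |d.lam| ^ 5) * ‖a‖ + C * ‖Q a‖ := fun a => by
    refine Completion.induction_on a (isClosed_le (by fun_prop) (by fun_prop)) fun v => ?_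
    obtain ⟨u, rfl⟩ := (d.A ^ 5).surjective v
    have e : Q ((d.A ^ 5) u : V) = P u :=
      (hQ _).trans (congrArg P ((d.A ^ 5).symm_apply_apply u))
    rw [h3, e, Completion.norm_coe, Completion.norm_coe]
    exact h2 u
  set G := ∑ i ∈ Finset.range 5, (d.lam • T) ^ i with hG
  refine ⟨m, Q, 2 * (|d.lam| ^ 5 * |C| + ‖G‖), fun a => ?_⟩
  have h5 : a = d.lam ^ 5 • (T ^ 5) a + G (a - d.lam • T a) := by
    have e := DFunLike.congr_fun (geom_sum_mul_neg (d.lam • T) 5) a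
    rw [smul_pow] at e
    exact (eq_sub_iff_add_eq'.1 e).symm
  have h6 : ‖a‖ ≤ |d.lam| ^ 5 * ‖(T ^ 5) a‖ + ‖G‖ * ‖a - d.lam • T a‖ := by
    conv_lhs => rw [h5]
    refine (norm_add_le _ _).trans (add_le_add ?_ (G.le_opNorm _))
    rw [norm_smul, norm_pow, Real.norm_eq_abs]
  have h7 := mul_le_mul_of_nonneg_left (h4 a) h0.le
  rw [mul_add, ← mul_assoc, mul_one_div, div_mul_cancel_right₀ h0.ne'] at h7
  have h8 : |d.lam| ^ 5 * (C * ‖Q a‖) ≤ |d.lam| ^ 5 * (|C| * ‖Q a‖) := by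
    gcongr
    exact le_abs_self C
  have h9 : 0 ≤ |d.lam| ^ 5 * |C| * ‖a - d.lam • T a‖ := by positivity
  have h10 : 0 ≤ ‖G‖ * ‖Q a‖ := by positivity
  linarith

end VD

end Pool.Agent.Lib.MP_94aef8_gt.E2
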