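import Mathlib

open scoped InnerProductSpace Topology
open Filter Set UniformSpace

namespace Pool.Agent.Lib.MP_94aef8_gt.E2

/-- Data on the space `V` of smooth objects. `es h v` is the pairing of the gradient at `h` with
`v`; `E` and `S` are the extensions to the completion, where `h` is the point `A ^ 5 h`. -/
structure VD (V : Type) [NormedAddCommGroup V] [InnerProductSpace ℝ V] where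
  A : V ≃ₗ[ℝ] V
  R : V →ₗ[ℝ] V
  D : V →ₗ[ℝ] V
  l1 : V →ₗ[ℝ] V →ₗ[ℝ] V
  es : V → V → ℝ
  ss : V → ℝ
  E : Completion V → Completion V
  S : Completion V → ℝ
  lam : ℝ
  c : ℝ
  δ : ℝ

namespace VD

variable {V : Type} [NormedAddCommGroup V] [InnerProductSpace ℝ V] (d : VD V)

/-- The hypotheses. -/
structure Hyp : Prop where
  As : ∀ u v, ⟪d.A u, v⟫_ℝ = ⟪u, d.A v⟫_ℝ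
  Alow : ∀ u, ‖u‖ ≤ ‖d.A u‖
  Rs : ∀ u v, ⟪d.R u, v⟫_ℝ = ⟪u, d.R v⟫_ℝ
  RR : ∀ u, d.R (d.R u) = u
  RA : ∀ u, d.R (d.A u) = d.A (d.R u)
  lam0 : d.lam ≠ 0
  c0 : d.c ≠ 0
  δ0 : 0 < d.δ
  Db : ∃ C : ℝ, ∀ u, ‖(d.A ^ 4) (d.D u)‖ ≤ C * ‖(d.A ^ 5) u‖
  l1b : ∃ C : ℝ, ∀ u h, ‖(d.A ^ 4) (d.l1 u h)‖ ≤ C * ‖(d.A ^ 5) u‖ * ‖(d.A ^ 5) h‖
  net : ∀ ε : ℝ, 0 < ε → ∃ (m : ℕ) (Pi : V →ₗ[ℝ] (Fin m → ℝ)) (C : ℝ),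
    (∀ u, ‖Pi u‖ ≤ C * ‖(d.A ^ 5) u‖) ∧ ∀ u, ‖u‖ ≤ ε * ‖(d.A ^ 5) u‖ + C * ‖Pi u‖
  anE : AnalyticAt ℝ d.E 0
  anS : AnalyticAt ℝ d.S 0
  hE : ∀ h, ‖(d.A ^ 5) h‖ < d.δ → ∀ v : V,
    ⟪d.E ((d.A ^ 5) h : V), (v : Completion V)⟫_ℝ = d.es h ((d.A ^ 4) v)
  hS : ∀ h, ‖(d.A ^ 5) h‖ < d.δ → d.S ((d.A ^ 5) h : V) = d.ss h
  es0 : ∀ v, d.es 0 v = 0
  var : ∀ h, ‖(d.A ^ 5) h‖ < d.δ → ∀ u, HasDerivAt (fun s : ℝ => d.ss (h + s • u)) (-d.es h u) 0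
  bi : ∀ h, ‖(d.A ^ 5) h‖ < d.δ → ∀ u, d.es h (d.c • d.R (d.D u) + d.l1 u h) = 0
  lin : ∀ u v, HasDerivAt (fun s : ℝ => d.es (s • u) v)
    ⟪(1 / 2 : ℝ) • d.R (d.A u - d.lam • u) - d.D u, v⟫_ℝ 0
  Ds : ∀ u v, ⟪d.D u, v⟫_ℝ = ⟪d.D v, u⟫_ℝ
  Dpos : ∀ u, 0 ≤ ⟪d.D u, u⟫_ℝ
  yano : ∃ c' : ℝ, 0 < c' ∧ ∀ u, c' * ⟪d.D u, u⟫_ℝ ≤ ⟪d.R (d.D u), d.D u⟫_ℝ

end VD

end Pool.Agent.Lib.MP_94aef8_gt.E2
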