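import Pool.Agent.Lib.MP_94aef8_gt.E2.Hs
import Pool.Agent.Lib.MP_94aef8_gt.F.Cls

/-!
The Banach algebra of a cube, families of functions depending analytically on a parameter, and
spaces described by finitely many patches.
-/

open scoped ContDiff Topology InnerProductSpace
open Filter Set MeasureTheory Matrix UniformSpace

namespace Pool.Agent.Lib.MP_94aef8_gt.E2

/-- Trace reversal. -/
noncomputable def Rl (G h : Tn) : Tn := fun p => h p - (trG G h p / 2) • G p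

/-- The gauge operator. -/
noncomputable def Dl (G u : Tn) : Tn := fun p => (-1 / 2 : ℝ) • Rl G (lie G (bian G u)) p

/-- The Lie derivative of `h` along `bian G u`. -/
noncomputable def l1l (G u h : Tn) : Tn := fun p =>
  nabX G (bian G u) h p + h p * cov G (bian G u) p + (cov G (bian G u) p)ᵀ * h p

/-- The Einstein tensor with cosmological constant. -/
noncomputable def Ein (G : Tn) : Tn := fun p => ric G p - (scal G p / 2 + 3) • G p

/-- The density of the first variation. -/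
noncomputable def eDen (G v : Tn) : Fn := fun p => ipT G (Ein G) v p * rho G p

/-- The density of the action. -/
noncomputable def sDen (G : Tn) : Fn := fun p => (scal G p + 6) * rho G p

/-- Sobolev embedding. -/
def SobP : Prop := ∃ C : ℝ, ∀ f : Fn, ContDiffOn ℝ ∞ f (Q 3) →
  ∀ y ∈ Q (3 / 2), f y ^ 2 ≤ C * hs 4 (Q (3 / 2)) f

/-- The product estimate. -/
def MulP : Prop := ∃ C : ℝ, ∀ f k : Fn, ContDiffOn ℝ ∞ f (Q 3) → ContDiffOn ℝ ∞ k (Q 3) →
  hs 8 (Q (3 / 2)) (f * k) ≤ C * hs 8 (Q (3 / 2)) f * hs 8 (Q (3 / 2)) k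

/-- Functions that are smooth on the large cube. -/
def SmF : Submodule ℝ Fn where
  carrier := {f | ContDiffOn ℝ ∞ f (Q 3)}
  add_mem' := fun hf hg => ContDiffOn.add hf hg
  zero_mem' := contDiffOn_const
  smul_mem' := fun c _ hf => ContDiffOn.const_smul c hf

/-- A normed algebra of functions on the cube `Q (3 / 2)` in which the smooth functions are
dense, with the Sobolev norm of order eight. -/
structure AlgP (A : Type) [NormedCommRing A] [NormedAlgebra ℝ A] where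
  co : SmF →ₗ[ℝ] A
  ev : E4 → A →L[ℝ] ℝ
  ev_mul : ∀ y ∈ Q (3 / 2), ∀ f g, ev y (f * g) = ev y f * ev y g
  ev_one : ∀ y ∈ Q (3 / 2), ev y 1 = 1
  ev_co : ∀ y ∈ Q (3 / 2), ∀ f : SmF, ev y (co f) = (f : Fn) y
  ev_bd : ∃ C : ℝ, ∀ y ∈ Q (3 / 2), ∀ f, |ev y f| ≤ C * ‖f‖
  ev_cont : ∀ f, ContinuousOn (fun y => ev y f) (Q (3 / 2))
  dense : DenseRange co
  up : ∃ C : ℝ, ∀ f : SmF, ‖co f‖ ^ 2 ≤ C * hs 8 (Q (3 / 2)) f
  low : ∃ C : ℝ, ∀ f : SmF, hs 8 (Q (3 / 2)) f ≤ C * ‖co f‖ ^ 2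

section

variable {A : Type} [NormedCommRing A] [NormedAlgebra ℝ A] (α : AlgP A) {J B : Type}
  [NormedAddCommGroup B] [NormedSpace ℝ B] (x : J → B)

theorem AlgP.co_congr {f g : SmF} (h : EqOn (f : Fn) g (Q (3 / 2))) : α.co f = α.co g := by
  obtain ⟨C, hC⟩ := α.up
  have h1 : hs 8 (Q (3 / 2)) ((f - g : SmF) : Fn) = hs 8 (Q (3 / 2)) ((0 : ℝ) • (0 : Fn)) :=
    hs_congr (isOpen_Q _) 8 fun y hy => by simp [h hy]
  have h2 := hC (f - g)
  rw [h1, hs_smul, map_sub] at h2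
  have h3 : ‖α.co f - α.co g‖ ^ 2 = 0 := le_antisymm (by simpa using h2) (sq_nonneg _)
  exact sub_eq_zero.1 (norm_eq_zero.1 (pow_eq_zero_iff two_ne_zero |>.1 h3))

/-- The family `F` is given near `0` by an analytic map to the algebra. -/
def An0 (F : J → Fn) : Prop := ∃ Fh : B → A, AnalyticAt ℝ Fh 0 ∧ ∀ᶠ b in 𝓝 (0 : B), ∀ j, x j = b →
  ContDiffOn ℝ ∞ (F j) (Q (3 / 2)) ∧ ∀ y ∈ Q (3 / 2), α.ev y (Fh b) = F j y

/-- The family and its derivatives up to order `m` are analytic. -/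
def An : ℕ → (J → Fn) → Prop
  | 0, F => An0 α x F
  | m + 1, F => An0 α x F ∧ ∀ i, An m fun j => pd i (F j)

end

/-- A space with finitely many patches. -/
structure PD (V I : Type) [NormedAddCommGroup V] [InnerProductSpace ℝ V] where
  A : V ≃ₗ[ℝ] V
  loc : I → V →ₗ[ℝ] Tn
  G : I → Tn
  χ : I → Fn
  ext : I → Tn → V

namespace PD

variable {V I : Type} [NormedAddCommGroup V] [InnerProductSpace ℝ V] [Fintype I] (d : PD V I)

/-- The first variation. -/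
noncomputable def es (h v : V) : ℝ :=
  ∑ a, ∫ y in Q (3 / 2), d.χ a y * eDen (d.G a + d.loc a h) (d.loc a v) y

/-- The action. -/
noncomputable def ss (h : V) : ℝ := ∑ a, ∫ y in Q (3 / 2), d.χ a y * sDen (d.G a + d.loc a h) y

/-- The hypotheses. -/
structure Hyp : Prop where
  sob : SobP
  mul : MulP
  As : ∀ u v, ⟪d.A u, v⟫_ℝ = ⟪u, d.A v⟫_ℝ
  good : ∀ a, Good (d.G a) (Q 3)
  sym : ∀ a u, SymT (d.loc a u) (Q 3)
  χsm : ∀ a, ContDiffOn ℝ ∞ (d.χ a) (Q 3)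
  χ0 : ∀ a, ∀ y ∉ Q 1, d.χ a y = 0
  locb : ∃ C : ℝ, ∀ a u, hsM 10 (Q (3 / 2)) (d.loc a u) ≤ C * ‖(d.A ^ 5) u‖ ^ 2
  extb : ∃ C : ℝ, ∀ a k, SymT k (Q 3) → (∀ y ∉ Q 1, k y = 0) →
    ‖(d.A ^ 4) (d.ext a k)‖ ^ 2 ≤ C * hsM 8 (Q (3 / 2)) k
  extip : ∀ a k, SymT k (Q 3) → (∀ y ∉ Q 1, k y = 0) → ∀ v, ⟪d.ext a k, v⟫_ℝ =
    ∫ y in Q (3 / 2), ipT (d.G a) k (d.loc a v) y * rho (d.G a) y
  ipf : ∀ u v, ⟪u, v⟫_ℝ =
    ∑ a, ∫ y in Q (3 / 2), d.χ a y * (ipT (d.G a) (d.loc a u) (d.loc a v) y * rho (d.G a) y)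

end PD

end Pool.Agent.Lib.MP_94aef8_gt.E2
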