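import Pool.Agent.Lib.MP_94aef8_gt.Sys
import Pool.Agent.Lib.MP_94aef8_gt.E2.PDefs

/-!
The global operators of the variational problem and finite atlases.
-/

open scoped Manifold ContDiff Topology
open Filter Set MeasureTheory Matrix

namespace Pool.Agent.Lib.MP_94aef8_gt.E2

/-- The vector field of the first variation of the scalar curvature. -/
noncomputable def Wl (G u : Tn) : Vn := fun p => bian G u p - (1 / 2 : ℝ) • grad G (trG G u) p

variable {M : Type} [TopologicalSpace M] [ChartedSpace E4 M]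

/-- Trace reversal. -/
noncomputable def GR (g h : M → Mat) : M → Mat := fun x => h x - (trg g h x / 2) • g x

/-- The gauge operator. -/
noncomputable def GDl (g u : M → Mat) : M → Mat := atc Dl g u

/-- The Lie derivative of `h` along the Bianchi field of `u`. -/
noncomputable def Gl1 (g u h : M → Mat) : M → Mat :=
  fun x => l1l (gpull (ch x) g) (gpull (ch x) u) (gpull (ch x) h) (c0 x)

/-- The Einstein tensor. -/
noncomputable def GEin (g : M → Mat) : M → Mat := fun x => Ein (gpull (ch x) g) (c0 x)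

/-- The scalar curvature. -/
noncomputable def Gscal (g : M → Mat) (x : M) : ℝ := scal (gpull (ch x) g) (c0 x)

/-- Metrics with `Ric = -3 g`. -/
def IsE (g : M → Mat) : Prop := GoodT g ∧ ∀ x, GRic g x = (-3 : ℝ) • g x

variable [MeasurableSpace M]

/-- The scalar product of tensor fields. -/
noncomputable def ipL (g h k : M → Mat) : ℝ := ∫ x, ipg g h k x ∂volT g

/-- The first variation. -/
noncomputable def esM (g v : M → Mat) : ℝ := ipL g (GEin g) v

/-- The action. -/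
noncomputable def ssM (g : M → Mat) : ℝ := ∫ x, (Gscal g x + 6) ∂volT g

variable (M) in
/-- A finite family of patches with a partition of unity and extension by zero. -/
structure Atl (I : Type) [Fintype I] where
  Θ : I → E4 → M
  χ : I → Fn
  ext : I → Tn → M → Mat
  pt : ∀ a, Pt (Θ a) (Q 4)
  cover : ∀ x, ∃ a, ∃ y ∈ Q 1, Θ a y = x
  χsm : ∀ a, ContDiff ℝ ∞ (χ a)
  χ0 : ∀ a, ∀ y ∉ Q 1, χ a y = 0
  int : ∀ g : M → Mat, GoodT g → ∀ F : M → ℝ, Continuous F → ∫ x, F x ∂volT g =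
    ∑ a, ∫ y in Q (3 / 2), χ a y * (F (Θ a y) * rho (gpull (Θ a) g) y)
  intle : ∀ g : M → Mat, GoodT g → ∀ F : M → ℝ, Continuous F → (∀ x, 0 ≤ F x) → ∀ a,
    ∫ y in Q 2, F (Θ a y) * rho (gpull (Θ a) g) y ≤ ∫ x, F x ∂volT g
  intsupp : ∀ g : M → Mat, GoodT g → ∀ F : M → ℝ, Continuous F → ∀ a,
    (∀ x ∉ Θ a '' Kc 1, F x = 0) →
    ∫ x, F x ∂volT g = ∫ y in Q (3 / 2), F (Θ a y) * rho (gpull (Θ a) g) y
  extI : ∀ a k, SymT k (Q 3) → (∀ y ∉ Q 1, k y = 0) → InvT ∅ (ext a k) ∧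
    (∀ y ∈ Q 3, gpull (Θ a) (ext a k) y = k y) ∧ ∀ x ∉ Θ a '' Kc 1, ext a k x = 0

/-- The metrics with `Ric = -3 g` that are close to `g₀` in the patches. -/
def Near {I : Type} [Fintype I] (T : Atl M I) (g₀ : M → Mat) (δ : ℝ) : Set (M → Mat) :=
  {g | IsE g ∧ ∀ a, CbM 10 (Q (3 / 2)) (gpull (T.Θ a) g - gpull (T.Θ a) g₀) δ}

end Pool.Agent.Lib.MP_94aef8_gt.E2
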