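import Pool.Agent.Lib.MP_94aef8_gt.B.Dual

/-! Identities for the trace reversal, the adjoint of the Bianchi operator and the Einstein tensor. -/

open Matrix

namespace Pool.Agent.Lib.MP_94aef8_gt

namespace Geo

variable {A : Type} [CommRing A]

/-- Trace reversal. -/
def rev (c : Geo A) (h : MA A) : MA A := h - (c.hf * c.trG h) • c.G

variable {c : Geo A}

theorem OK.rev_symm (hc : c.OK) {h : MA A} (hs : hᵀ = h) : (c.rev h)ᵀ = c.rev h := by
  rw [rev, Matrix.transpose_sub, Matrix.transpose_smul, hs, hc.symm]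

theorem OK.ipT_rev (hc : c.OK) (h k : MA A) : c.ipT (c.rev h) k = c.ipT h (c.rev k) := by
  rw [rev, rev, ipT_sub_left, ipT_sub_right, ipT_smul_left, ipT_smul_right, hc.ipT_G,
    hc.ipT_comm c.G, hc.ipT_G]
  ring

theorem OK.d_hf (hc : c.OK) (i : Fin 4) (f : A) : c.D i (c.hf * f) = c.hf * c.D i f := by
  rw [hc.mul, hc.half, zero_mul, zero_add]

theorem OK.grad_G (hc : c.OK) (f : A) : c.grad f ᵥ* c.G = c.df f := by
  rw [← Matrix.mulVec_transpose, hc.symm, grad, Matrix.mulVec_mulVec, hc.inv, Matrix.one_mulVec]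

theorem OK.divT_rev (hc : c.OK) (h : MA A) : c.divT (c.rev h) = c.G *ᵥ c.bian h := by
  rw [rev, hc.divT_sub, hc.divT_smul, hc.divT_G, smul_zero, zero_add, hc.grad_G, bian,
    Matrix.mulVec_mulVec, hc.inv, Matrix.one_mulVec]
  congr 1
  funext i
  exact hc.d_hf i _

/-- The adjoint of the Bianchi operator. -/
theorem OK.adj_bian (hc : c.OK) {h : MA A} (hs : hᵀ = h) (X : VA A) :
    c.hf * c.ipT h (c.rev (c.lie X)) = c.dvg (c.H *ᵥ (c.rev h *ᵥ X)) - c.ipV X (c.bian h) := by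
  rw [hc.adj_lie (hc.rev_symm hs), hc.divT_rev, hc.ipT_rev, ipV, dotProduct_comm]
  ring

/-- The integral formula of Yano. -/
theorem OK.yano (hc : c.OK) (X : VA A) : c.hf * c.ipT (c.lie X) (c.rev (c.lie X)) =
    c.ipT (c.G * c.cov X) (c.G * c.cov X) - X ⬝ᵥ c.ric *ᵥ X +
      c.dvg (c.H *ᵥ (c.rev (c.lie X) *ᵥ X) - c.hf • c.grad (c.ipV X X)) := by
  have h0 : c.df c.hf = 0 := funext hc.half
  have h1 := hc.lap_ipV X
  rw [hc.adj_bian (lie_symm X), hc.dvg_sub, hc.dvg_smul, h0, dotProduct_zero, hc.bian_lie, ← lap,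
    h1, hc.ipV_comm (c.roughV X), ipV, ipV, Matrix.mulVec_add, Matrix.mulVec_neg,
    Matrix.mulVec_mulVec _ c.G, hc.inv, Matrix.one_mulVec, dotProduct_add, dotProduct_neg]
  linear_combination (c.ipT (c.G * c.cov X) (c.G * c.cov X) - X ⬝ᵥ c.G *ᵥ c.roughV X) * hc.hh

theorem OK.trG_ricL' (hc : c.OK) (h : MA A) :
    c.trG (c.ricL h) = c.dvg (c.bian h - c.hf • c.grad (c.trG h)) := by
  have h0 : c.df c.hf = 0 := funext hc.half
  rw [hc.trG_ricL, hc.dvg_sub, hc.dvg_smul, h0, dotProduct_zero, add_zero, lap]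

/-- The Einstein tensor is orthogonal to the Lie derivatives up to a divergence. -/
theorem OK.ein_lie (hc : c.OK) {l : A} (hl : ∀ i, c.D i l = 0) (X : VA A) :
    c.hf * c.ipT (c.rev c.ric - l • c.G) (c.lie X) =
      c.dvg (c.H *ᵥ ((c.rev c.ric - l • c.G) *ᵥ X)) := by
  have h1 : (c.rev c.ric - l • c.G)ᵀ = c.rev c.ric - l • c.G := by
    rw [Matrix.transpose_sub, hc.rev_symm hc.ric_symm, Matrix.transpose_smul, hc.symm]
  have h2 : c.df l = 0 := funext hl
  rw [hc.adj_lie h1, hc.divT_sub, hc.divT_rev, hc.bian_ric, hc.divT_smul, hc.divT_G, hc.grad_G, h2]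
  simp

theorem OK.lich_rev (hc : c.OK) (h : MA A) : c.lich (c.rev h) = c.rev (c.lich h) := by
  have h1 : c.lap (c.hf * c.trG h) = c.hf * c.lap (c.trG h) := by
    simp only [hc.lap_eq, hc.d_hf, Finset.mul_sum]
    refine Finset.sum_congr rfl fun a _ => Finset.sum_congr rfl fun b _ => ?_
    simp only [Fin.sum_univ_four]
    ring
  have h2 : ∀ X, c.nabX X c.G = 0 := fun X => by simp [nabX, hc.nab_G]
  rw [rev, rev, hc.lich_sub, hc.lich_smul, hc.lich_G, h2, h1, hc.trG_lich]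
  simp

end Geo

end Pool.Agent.Lib.MP_94aef8_gt
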