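import Pool.Agent.Lib.MP_94aef8_gt.B.Lift
import Pool.Agent.Lib.MP_94aef8_gt.E2.RingId
import Pool.Agent.Lib.MP_94aef8_gt.E2.MDefs

/-! The local identities of the variational problem. -/

open scoped ContDiff Topology
open Filter Set Matrix

namespace Pool.Agent.Lib.MP_94aef8_gt.E2

open Geo

section

variable {A : Type} [CommRing A] {l : Filter E4} {φ : A →+* Germ l ℝ} {a : Geo A} {G h : Tn}
  {N : MA A}

theorem zig_rev (Z : Zig φ a G) (r : RT φ N h) : RT φ (a.rev N) (Rl G h) :=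
  (r.sub (RT.smul (Z.hf.mul (Z.trG r)) Z.G')).congr (Eventually.of_forall fun p => by
    simp only [Rl, Pi.sub_apply]
    rw [one_div_mul_eq_div])

end

variable {G u v h : Tn} {X : Vn} {U : Set E4} {y : E4}

theorem fn_trG_ricL (hG : Good G U) (hu : SmT u U) (hy : y ∈ U) :
    trG G (ricL G u) y = dvg G (Wl G u) y := by
  obtain ⟨s, ok, Z⟩ := hG.lift
  obtain ⟨N, r⟩ := hu.lift
  exact (Z.trG (Z.ricL r)).at (Z.dvg ((Z.bian r).sub (RV.smul Z.hf (Z.grad (Z.trG r)))))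
    (ok.trG_ricL' N) hy

theorem fn_lich_Rl (hG : Good G U) (hu : SmT u U) (hy : y ∈ U) :
    lich G (Rl G u) y = Rl G (lich G u) y := by
  obtain ⟨s, ok, Z⟩ := hG.lift
  obtain ⟨N, r⟩ := hu.lift
  exact (Z.lich (zig_rev Z r)).at (zig_rev Z (Z.lich r)) (ok.lich_rev N) hy

theorem fn_adj (hG : Good G U) (hv : SymT v U) (hX : SmV X U) (hy : y ∈ U) :
    1 / 2 * ipT G v (Rl G (lie G X)) y =
      dvg G (fun p => (G p)⁻¹ *ᵥ (Rl G v p *ᵥ X p)) y - ipV G X (bian G v) y := by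
  obtain ⟨s, ok, Z⟩ := hG.lift
  obtain ⟨N, r, e⟩ := hv.lift
  obtain ⟨Y, rY⟩ := hX.lift
  exact (Z.hf.mul (Z.ipT r (zig_rev Z (Z.lie rY)))).at
    ((Z.dvg (Z.H.mulVec ((zig_rev Z r).mulVec rY))).sub (Z.ipV rY (Z.bian r))) (ok.adj_bian e Y) hy

theorem fn_yano (hG : Good G U) (hX : SmV X U) (hy : y ∈ U) :
    1 / 2 * ipT G (lie G X) (Rl G (lie G X)) y =
      ipM (G y) (G y * cov G X y) (G y * cov G X y) - X y ⬝ᵥ ric G y *ᵥ X y +
      dvg G (fun p => (G p)⁻¹ *ᵥ (Rl G (lie G X) p *ᵥ X p) -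
        (1 / 2 : ℝ) • grad G (ipV G X X) p) y := by
  obtain ⟨s, ok, Z⟩ := hG.lift
  obtain ⟨Y, rY⟩ := hX.lift
  have r := Z.G'.mul (Z.cov rY)
  exact (Z.hf.mul (Z.ipT (Z.lie rY) (zig_rev Z (Z.lie rY)))).at
    (((Z.ipT r r).sub (rY.dot (Z.ric.mulVec rY))).add
      (Z.dvg ((Z.H.mulVec ((zig_rev Z (Z.lie rY)).mulVec rY)).sub
        (RV.smul Z.hf (Z.grad (Z.ipV rY rY)))))) (ok.yano Y) hy

theorem Ein_eq (G : Tn) : Ein G = Rl G (ric G) - fun p => (3 : ℝ) • G p := by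
  funext p
  simp only [Ein, Rl, scal, Pi.sub_apply, add_smul, sub_sub]

theorem fn_ein (hG : Good G U) (hX : SmV X U) (hy : y ∈ U) :
    1 / 2 * ipT G (Ein G) (lie G X) y = dvg G (fun p => (G p)⁻¹ *ᵥ (Ein G p *ᵥ X p)) y := by
  obtain ⟨s, ok, Z⟩ := hG.lift
  obtain ⟨Y, rY⟩ := hX.lift
  obtain ⟨l, rl, hl⟩ := Z.const 3
  have r := (zig_rev Z Z.ric).sub (RT.smul rl Z.G')
  rw [← Ein_eq] at r
  exact (Z.hf.mul (Z.ipT r (Z.lie rY))).at (Z.dvg (Z.H.mulVec (r.mulVec rY))) (ok.ein_lie hl Y) hy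

theorem fn_lie_add (hG : Good G U) (hG' : Good (G + h) U) (hu : SmT u U) (hy : y ∈ U) :
    lie (G + h) (bian G u) y = lie G (bian G u) y + l1l G u h y := by
  obtain ⟨s, N, K, ok, Z, r, rK, e, hK⟩ := hG.lift2 hG'
  obtain ⟨N', r'⟩ := hu.lift
  have rY := Z.bian r'
  refine ((Z.sh r rK).lie rY).at ((Z.lie rY).add (((Z.nabX rY r).add (r.mul (Z.cov rY))).add
    ((Z.cov rY).tr.mul r))) ?_ hy
  rw [ok.lie_sh e hK]
  simp only [add_assoc]

theorem fn_dvg_congr {Y : Vn} (hU : IsOpen U) (e : ∀ p ∈ U, X p = Y p) (hy : y ∈ U) :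
    dvg G X y = dvg G Y y :=
  ((zig_congr (locF_nhds y) EventuallyEq.rfl).dvg
    (rv_congr (eventually_of_mem (hU.mem_nhds hy) e))).self.eq_of_nhds

theorem fn_lich_congr (hU : IsOpen U) (e : ∀ p ∈ U, u p = v p) (hy : y ∈ U) :
    lich G u y = lich G v y :=
  (RT.self ((zig_congr (locF_nhds y) EventuallyEq.rfl).lich
    (rt_congr (eventually_of_mem (hU.mem_nhds hy) e)))).eq_of_nhds

end Pool.Agent.Lib.MP_94aef8_gt.E2
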