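import Pool.Agent.Lib.MP_94aef8_gt.Cube
import Pool.Agent.Lib.MP_94aef8_gt.CubeEq

/-! Elementary properties of the Sobolev norms on cubes. -/

open scoped ContDiff Topology
open Filter Set MeasureTheory

namespace Pool.Agent.Lib.MP_94aef8_gt

namespace E2

theorem isOpen_Q (r : ℝ) : IsOpen (Q r) := by
  have : Q r = ⋂ i : Fin 4, {y : E4 | |y i| < r} := by
    ext y
    simp [Q]
  rw [this]
  exact isOpen_iInter_of_finite fun i => isOpen_lt (by fun_prop) continuous_const

theorem Q_mono {r R : ℝ} (h : r ≤ R) : Q r ⊆ Q R := fun _ hy i => (hy i).trans_le h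

/-- The closed cube. -/
def Kc (r : ℝ) : Set E4 := {y | ∀ i, |y i| ≤ r}

theorem Q_sub_Kc (r : ℝ) : Q r ⊆ Kc r := fun _ hy i => (hy i).le

theorem Kc_sub_Q {r R : ℝ} (h : r < R) : Kc r ⊆ Q R := fun _ hy i => (hy i).trans_lt h

theorem isClosed_Kc (r : ℝ) : IsClosed (Kc r) := by
  have : Kc r = ⋂ i : Fin 4, {y : E4 | |y i| ≤ r} := by
    ext y
    simp [Kc]
  rw [this]
  exact isClosed_iInter fun i => isClosed_le (by fun_prop) continuous_const

theorem isCompact_Kc (r : ℝ) : IsCompact (Kc r) := by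
  refine Metric.isCompact_of_isClosed_isBounded (isClosed_Kc r) ?_
  refine (Metric.isBounded_closedBall (x := (0 : E4)) (r := 2 * |r|)).subset fun y hy => ?_
  rw [mem_closedBall_zero_iff, EuclideanSpace.norm_eq]
  refine Real.sqrt_le_iff.2 ⟨by positivity, ?_⟩
  have h : ∀ i, ‖y i‖ ^ 2 ≤ |r| ^ 2 := fun i =>
    pow_le_pow_left₀ (norm_nonneg _) ((hy i).trans (le_abs_self r)) 2
  rw [Fin.sum_univ_four]
  nlinarith [h 0, h 1, h 2, h 3]

theorem sm_pd {U : Set E4} (hU : IsOpen U) {f : Fn} (hf : ContDiffOn ℝ ∞ f U) (i : Fin 4) :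
    ContDiffOn ℝ ∞ (pd i f) U :=
  (hf.fderiv_of_isOpen hU (m := ∞) (by simp)).clm_apply contDiffOn_const

theorem sm_pdw {U : Set E4} (hU : IsOpen U) {f : Fn} (hf : ContDiffOn ℝ ∞ f U)
    (w : List (Fin 4)) : ContDiffOn ℝ ∞ (pdw w f) U := by
  induction w with
  | nil => exact hf
  | cons i w ih => exact sm_pd hU ih i

theorem sm_diff {U : Set E4} (hU : IsOpen U) {f : Fn} (hf : ContDiffOn ℝ ∞ f U) {y : E4}
    (hy : y ∈ U) : DifferentiableAt ℝ f y :=
  (hf.contDiffAt (hU.mem_nhds hy)).differentiableAt (by simp)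

theorem pd_congr {f g : Fn} {y : E4} (h : f =ᶠ[𝓝 y] g) (i : Fin 4) : pd i f y = pd i g y := by
  simp only [pd, h.fderiv_eq]

theorem pd_congr_on {U : Set E4} (hU : IsOpen U) {f g : Fn} (h : EqOn f g U) (i : Fin 4) :
    EqOn (pd i f) (pd i g) U :=
  fun _ hy => pd_congr (h.eventuallyEq_of_mem (hU.mem_nhds hy)) i

theorem pd_add {f g : Fn} {y : E4} (hf : DifferentiableAt ℝ f y) (hg : DifferentiableAt ℝ g y)
    (i : Fin 4) : pd i (f + g) y = pd i f y + pd i g y := by
  simp only [pd, fderiv_add hf hg, _root_.add_apply]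

theorem pd_mul {f g : Fn} {y : E4} (hf : DifferentiableAt ℝ f y) (hg : DifferentiableAt ℝ g y)
    (i : Fin 4) : pd i (f * g) y = pd i f y * g y + f y * pd i g y := by
  simp only [pd, fderiv_mul hf hg, _root_.add_apply, _root_.smul_apply,
    smul_eq_mul]
  ring

theorem pd_smul (c : ℝ) (f : Fn) (i : Fin 4) : pd i (c • f) = c • pd i f := by
  ext y
  simp only [pd, fderiv_const_smul_field, Pi.smul_apply, _root_.smul_apply]

theorem pd_neg (f : Fn) (i : Fin 4) : pd i (-f) = -pd i f := by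
  ext y
  simp only [pd, fderiv_neg, Pi.neg_apply, _root_.neg_apply]

theorem pd_const (c : ℝ) (i : Fin 4) : pd i (fun _ => c) = 0 := by
  ext y
  simp [pd]

theorem hs_nonneg (j : ℕ) (S : Set E4) (f : Fn) : 0 ≤ hs j S f := by
  induction j generalizing f with
  | zero => exact integral_nonneg fun y => sq_nonneg _
  | succ j ih =>
    exact add_nonneg (integral_nonneg fun y => sq_nonneg _) (Finset.sum_nonneg fun i _ => ih _)

theorem hs_congr {U : Set E4} (hU : IsOpen U) (j : ℕ) {f g : Fn} (h : EqOn f g U) :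
    hs j U f = hs j U g := by
  have h0 : ∀ {f g : Fn}, EqOn f g U → ∫ y in U, f y ^ 2 = ∫ y in U, g y ^ 2 := fun h =>
    setIntegral_congr_fun hU.measurableSet fun y hy => by simp only [h hy]
  induction j generalizing f g with
  | zero => exact h0 h
  | succ j ih =>
    simp only [hs, h0 h]
    exact congrArg _ (Finset.sum_congr rfl fun i _ => ih (pd_congr_on hU h i))

theorem hs_smul (j : ℕ) (S : Set E4) (c : ℝ) (f : Fn) : hs j S (c • f) = c ^ 2 * hs j S f := by
  have h0 : ∀ f : Fn, ∫ y in S, (c • f) y ^ 2 = c ^ 2 * ∫ y in S, f y ^ 2 := fun f => by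
    simp only [Pi.smul_apply, smul_eq_mul, mul_pow, integral_const_mul]
  induction j generalizing f with
  | zero => exact h0 f
  | succ j ih => simp only [hs, h0, pd_smul, ih, mul_add, Finset.mul_sum]

theorem hs_le_succ (j : ℕ) (S : Set E4) (f : Fn) : hs j S f ≤ hs (j + 1) S f := by
  induction j generalizing f with
  | zero => exact le_add_of_nonneg_right (Finset.sum_nonneg fun i _ => hs_nonneg _ _ _)
  | succ j ih => exact add_le_add le_rfl (Finset.sum_le_sum fun i _ => ih _)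

theorem hs_mono {j k : ℕ} (h : j ≤ k) (S : Set E4) (f : Fn) : hs j S f ≤ hs k S f := by
  induction h with
  | refl => exact le_rfl
  | step _ ih => exact ih.trans (hs_le_succ _ _ _)

theorem hs_pd (j : ℕ) (S : Set E4) (f : Fn) (i : Fin 4) : hs j S (pd i f) ≤ hs (j + 1) S f :=
  (Finset.single_le_sum (f := fun i => hs j S (pd i f)) (fun _ _ => hs_nonneg _ _ _)
    (Finset.mem_univ i)).trans (le_add_of_nonneg_left (integral_nonneg fun _ => sq_nonneg _))

theorem hs_pdw (j : ℕ) (S : Set E4) (f : Fn) (w : List (Fin 4)) :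
    hs j S (pdw w f) ≤ hs (j + w.length) S f := by
  induction w generalizing j with
  | nil => exact le_rfl
  | cons i w ih =>
    refine (hs_pd j S _ i).trans ((ih (j + 1)).trans (le_of_eq ?_))
    rw [List.length_cons, add_assoc, add_comm 1]

theorem integrableOn_Q {r R : ℝ} (h : r < R) {f : Fn} (hf : ContinuousOn f (Q R)) :
    IntegrableOn f (Q r) :=
  ((hf.mono (Kc_sub_Q h)).integrableOn_compact (isCompact_Kc r)).mono_set (Q_sub_Kc r)

theorem hs_add_le {r R t : ℝ} (h : r < R) (ht : 0 < t) (j : ℕ) {f g : Fn}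
    (hf : ContDiffOn ℝ ∞ f (Q R)) (hg : ContDiffOn ℝ ∞ g (Q R)) :
    hs j (Q r) (f + g) ≤ (1 + t) * hs j (Q r) f + (1 + t⁻¹) * hs j (Q r) g := by
  have h0 : ∀ {f g : Fn}, ContDiffOn ℝ ∞ f (Q R) → ContDiffOn ℝ ∞ g (Q R) →
      ∫ y in Q r, (f + g) y ^ 2 ≤
        (1 + t) * (∫ y in Q r, f y ^ 2) + (1 + t⁻¹) * ∫ y in Q r, g y ^ 2 := by
    intro f g hf hg
    have i1 : IntegrableOn (fun y => (1 + t) * f y ^ 2) (Q r) :=
      (integrableOn_Q h (hf.continuousOn.pow 2)).const_mul (1 + t)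
    have i2 : IntegrableOn (fun y => (1 + t⁻¹) * g y ^ 2) (Q r) :=
      (integrableOn_Q h (hg.continuousOn.pow 2)).const_mul (1 + t⁻¹)
    rw [← integral_const_mul, ← integral_const_mul, ← integral_add i1 i2]
    refine integral_mono (integrableOn_Q h ((hf.add hg).continuousOn.pow 2)) (i1.add i2) fun y => ?_
    have e : t * t⁻¹ = 1 := mul_inv_cancel₀ ht.ne'
    have := mul_nonneg (inv_pos.2 ht).le (sq_nonneg (t * f y - g y))
    simp only [Pi.add_apply]
    nlinarith
  induction j generalizing f g with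
  | zero => exact h0 hf hg
  | succ j ih =>
    have h1 : ∀ i, hs j (Q r) (pd i (f + g)) ≤
        (1 + t) * hs j (Q r) (pd i f) + (1 + t⁻¹) * hs j (Q r) (pd i g) := fun i => by
      rw [hs_congr (isOpen_Q r) j (g := pd i f + pd i g) fun y hy =>
        pd_add (sm_diff (isOpen_Q R) hf (Q_mono h.le hy)) (sm_diff (isOpen_Q R) hg (Q_mono h.le hy)) i]
      exact ih (sm_pd (isOpen_Q R) hf i) (sm_pd (isOpen_Q R) hg i)
    have h2 := Finset.sum_le_sum fun i (_ : i ∈ Finset.univ) => h1 i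
    have h3 := h0 hf hg
    simp only [hs, Finset.sum_add_distrib, ← Finset.mul_sum] at h2 ⊢
    linarith

theorem sqrt_add_of {a b c : ℝ} (ha : 0 ≤ a) (hb : 0 ≤ b)
    (h : ∀ t, 0 < t → c ≤ (1 + t) * a + (1 + t⁻¹) * b) : √c ≤ √a + √b := by
  refine le_of_forall_pos_le_add fun e he => ?_
  have h1 : 0 < √a + e / 2 := by positivity
  have h2 : 0 < √b + e / 2 := by positivity
  have h3 := h ((√b + e / 2) / (√a + e / 2)) (by positivity)
  have h4 : a ≤ (√a + e / 2) ^ 2 := by nlinarith [Real.sq_sqrt ha, Real.sqrt_nonneg a]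
  have h5 : b ≤ (√b + e / 2) ^ 2 := by nlinarith [Real.sq_sqrt hb, Real.sqrt_nonneg b]
  refine Real.sqrt_le_iff.2 ⟨by positivity, h3.trans ?_⟩
  have h6 : (√a + √b + e) ^ 2 = (1 + (√b + e / 2) / (√a + e / 2)) * (√a + e / 2) ^ 2 +
      (1 + ((√b + e / 2) / (√a + e / 2))⁻¹) * (√b + e / 2) ^ 2 := by
    field_simp
    ring
  rw [h6]
  gcongr

theorem sqrt_hs_add {r R : ℝ} (h : r < R) (j : ℕ) {f g : Fn}
    (hf : ContDiffOn ℝ ∞ f (Q R)) (hg : ContDiffOn ℝ ∞ g (Q R)) :
    √(hs j (Q r) (f + g)) ≤ √(hs j (Q r) f) + √(hs j (Q r) g) :=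
  sqrt_add_of (hs_nonneg _ _ _) (hs_nonneg _ _ _) fun _ ht => hs_add_le h ht j hf hg

end E2

end Pool.Agent.Lib.MP_94aef8_gt
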