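import Pool.Agent.Lib.MP_94aef8_gt.E2.PDefs
import Pool.Agent.Lib.MP_94aef8_gt.B.Smo
import Pool.Agent.Lib.MP_94aef8_gt.B.Cong
import Pool.Agent.Lib.MP_94aef8_gt.B.Sub2
import Pool.Agent.Lib.MP_94aef8_gt.B.Gauge
import Pool.Agent.Lib.MP_94aef8_gt.C.Smooth

/-!
The Lie derivative of a tensor field: smoothness, linearity, change of coordinates.
-/

open scoped ContDiff Topology
open Filter Set Matrix

namespace Pool.Agent.Lib.MP_94aef8_gt.E2

open Geo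

/-- The Lie derivative of `h` along `X`. -/
noncomputable def lieT (G : Tn) (X : Vn) (h : Tn) : Tn := fun p =>
  nabX G X h p + h p * cov G X p + (cov G X p)ᵀ * h p

/-- The same in a ring. -/
def lieA {A : Type} [CommRing A] (c : Geo A) (X : VA A) (h : MA A) : MA A :=
  c.nabX X h + h * c.cov X + (c.cov X)ᵀ * h

theorem zig_lieT {A : Type} [CommRing A] {l : Filter E4} {φ : A →+* Germ l ℝ} {a : Geo A} {G h : Tn}
    {V : Vn} {X : VA A} {M : MA A} (Z : Zig φ a G) (r : RV φ X V) (s : RT φ M h) :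
    RT φ (lieA a X M) (lieT G V h) :=
  ((Z.nabX r s).add (s.mul (Z.cov r))).add ((Z.cov r).tr.mul s)

theorem sub_lieA {A B : Type} [CommRing A] [CommRing B] {c : Geo A} {c' : Geo B} {π : B →+* A}
    {J K : MA A} (S : Sub c c' π J K) (X : VA B) (h : MA B) :
    lieA c (pv π K X) (pl π J h) = pl π J (lieA c' X h) := by
  have e1 : ∀ N : MA B, pl π J h * pe π J K N = pl π J (h * N) := fun N => by
    have e : Jᵀ * h.map π * J * (K * N.map π * J) = Jᵀ * (h.map π * (J * K) * N.map π) * J := by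
      simp only [Matrix.mul_assoc]
    rw [pl, pe, pl, e, S.inv', Matrix.mul_one, Matrix.map_mul]
  have e2 : ∀ N : MA B, (pe π J K N)ᵀ * pl π J h = pl π J (Nᵀ * h) := fun N => by
    have e : (K * N.map π * J)ᵀ * (Jᵀ * h.map π * J) =
        Jᵀ * ((N.map π)ᵀ * (J * K)ᵀ * h.map π) * J := by
      simp only [Matrix.transpose_mul, Matrix.mul_assoc]
    rw [pl, pe, pl, e, S.inv', Matrix.transpose_one, Matrix.mul_one, Matrix.map_mul,
      Matrix.transpose_map]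
  rw [lieA, lieA, S.nabX, S.cov, e1, e2, pl_add, pl_add]

variable {τ : E4 → E4} {U V : Set E4} {G G' h h' k : Tn} {X X' Y : Vn} {p : E4}

theorem good_pull' (hτ : LDif τ U V) (hG : Good G V) : Good (pull τ G) U :=
  ⟨hτ.isOpen, smo_pull hτ hG.smooth, fun y hy => by
    rw [← gpull_eq_pull hτ hy]
    exact hτ.pt.posDef hy (hG.pos _ (hτ.maps hy))⟩

theorem r0_pull (hτ : LDif τ U V) {a : SU V} {f : Fn} (r : R0 (iu V) a f) :
    R0 (iu U) (pullG hτ.smooth hτ.maps a) fun y => f (τ y) := iu_pullG hτ.smooth hτ.maps r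

theorem rt_pull (hτ : LDif τ U V) {M : MA (SU V)} {J : MA (SU U)} (r : RT (iu V) M h)
    (rJ : RT (iu U) J (jac τ)) : RT (iu U) (pl (pullG hτ.smooth hτ.maps) J M) (pull τ h) :=
  (rJ.tr.mul (k := fun y => h (τ y)) (RT.of fun i j => r0_pull hτ (r.entry i j))).mul rJ

theorem rv_pull (hτ : LDif τ U V) {Z : VA (SU V)} {K : MA (SU U)} (r : RV (iu V) Z X)
    (rK : RT (iu U) K (inv (jac τ))) : RV (iu U) (pv (pullG hτ.smooth hτ.maps) K Z) (pullV τ X) :=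
  rK.mulVec (V := fun y => X (τ y)) (RV.of fun i => r0_pull hτ (r.entry i))

theorem exists_sub (hτ : LDif τ U V) (hG : Good G V) :
    ∃ (s : Geo (SU U)) (s' : Geo (SU V)) (J K : MA (SU U)),
      Sub s s' (pullG hτ.smooth hτ.maps) J K ∧ Zig (iu U) s (pull τ G) ∧ Zig (iu V) s' G ∧
      RT (iu U) J (jac τ) ∧ RT (iu U) K (inv (jac τ)) := by
  obtain ⟨s, ok, Z⟩ := (good_pull' hτ hG).lift
  obtain ⟨s', ok', Z'⟩ := hG.lift
  obtain ⟨J, rJ⟩ := (smo_jac hτ).lift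
  obtain ⟨K, rK⟩ := ((smo_jac hτ).inv hτ.det).lift
  refine ⟨s, s', J, K, ⟨ok, ok', fun a f => ?_, fun a b i => ?_, ?_, ?_, ?_⟩, Z, Z', rJ, rK⟩
  · obtain ⟨f₀, r⟩ := ex0 f
    refine (Z.D (r0_pull hτ r) a).ext
      (R0.sum Finset.univ fun i => (r0_pull hτ (Z'.D r i)).mul (rJ.entry i a)) fun y hy => ?_
    exact pd_chain (hτ.diffAt hy) (sm_diff hG.isOpen r.smooth (hτ.maps hy)) a
  · refine (Z.D (rJ.entry i b) a).ext (Z.D (rJ.entry i a) b) fun y hy => ?_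
    have h1 : ContDiffAt ℝ ∞ (fun y => τ y i) y :=
      (EuclideanSpace.proj i : E4 →L[ℝ] ℝ).contDiff.contDiffAt.comp y
        (hτ.smooth.contDiffAt (hτ.isOpen.mem_nhds hy))
    exact pd_comm h1 a b
  · exact (rK.mul rJ).ext RT.one fun y hy =>
      Matrix.nonsing_inv_mul _ (isUnit_iff_ne_zero.2 (hτ.det y hy))
  · exact (r0_pull hτ Z'.hf).ext Z.hf fun _ _ => rfl
  · exact Z.G'.ext (rt_pull hτ Z'.G' rJ) fun _ _ => rfl

theorem lieT_congr (eG : G =ᶠ[𝓝 p] G') (eX : X =ᶠ[𝓝 p] X') (eh : h =ᶠ[𝓝 p] h') :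
    lieT G X h p = lieT G' X' h' p := by
  rw [lieT, lieT, (nabX_cg (locF_nhds p) eG eX eh).eq_of_nhds,
    (cov_cg (locF_nhds p) eG eX).eq_of_nhds, eh.eq_of_nhds]

theorem lieT_nat (hτ : LDif τ U V) (hp : p ∈ U) (hG : Good G V) (eG : G' =ᶠ[𝓝 p] pull τ G)
    (hX : SmV X V) (eX : X' =ᶠ[𝓝 p] pullV τ X) (hh : SmT h V) (eh : h' =ᶠ[𝓝 p] pull τ h) :
    lieT G' X' h' p = pull τ (lieT G X h) p := by
  obtain ⟨s, s', J, K, S, Z, Z', rJ, rK⟩ := exists_sub hτ hG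
  obtain ⟨X₀, rX⟩ := hX.lift
  obtain ⟨h₀, rh⟩ := hh.lift
  rw [lieT_congr eG eX eh]
  exact (zig_lieT Z (rv_pull hτ rX rK) (rt_pull hτ rh rJ)).at
    (rt_pull hτ (zig_lieT Z' rX rh) rJ) (sub_lieA S X₀ h₀) hp

theorem sm_lieT (hG : Good G U) (hX : SmV X U) (hh : SmT h U) : SmT (lieT G X h) U := by
  obtain ⟨s, -, Z⟩ := hG.lift
  obtain ⟨X₀, rX⟩ := hX.lift
  obtain ⟨h₀, rh⟩ := hh.lift
  exact (zig_lieT Z rX rh).smooth

theorem lieT_symm (hG : Good G U) (hX : SmV X U) (hh : SymT h U) (hp : p ∈ U) :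
    (lieT G X h p)ᵀ = lieT G X h p := by
  obtain ⟨s, -, Z⟩ := hG.lift
  obtain ⟨X₀, rX⟩ := hX.lift
  obtain ⟨h₀, rh, e⟩ := hh.lift
  refine ((zig_lieT Z rX rh).symT ?_).symm p hp
  simp only [lieA, Geo.nabX, transpose_add, transpose_mul, transpose_sum, transpose_smul,
    transpose_transpose, ← nab_transpose, e]
  abel

theorem lieT_add_left (hG : Good G U) (hX : SmV X U) (hY : SmV Y U) (hh : SmT h U) (hp : p ∈ U) :
    lieT G (X + Y) h p = lieT G X h p + lieT G Y h p := by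
  obtain ⟨s, ok, Z⟩ := hG.lift
  obtain ⟨X₀, rX⟩ := hX.lift
  obtain ⟨Y₀, rY⟩ := hY.lift
  obtain ⟨h₀, rh⟩ := hh.lift
  refine (zig_lieT Z (rX.add rY) rh).at ((zig_lieT Z rX rh).add (zig_lieT Z rY rh)) ?_ hp
  simp only [lieA, Geo.nabX, ok.cov_add, Pi.add_apply, add_smul, Finset.sum_add_distrib,
    transpose_add, Matrix.mul_add, Matrix.add_mul]
  abel

theorem lieT_add_right (hG : Good G U) (hX : SmV X U) (hh : SmT h U) (hk : SmT k U) (hp : p ∈ U) :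
    lieT G X (h + k) p = lieT G X h p + lieT G X k p := by
  obtain ⟨s, ok, Z⟩ := hG.lift
  obtain ⟨X₀, rX⟩ := hX.lift
  obtain ⟨h₀, rh⟩ := hh.lift
  obtain ⟨k₀, rk⟩ := hk.lift
  refine (zig_lieT Z rX (rh.add rk)).at ((zig_lieT Z rX rh).add (zig_lieT Z rX rk)) ?_ hp
  simp only [lieA, Geo.nabX, ok.nab_add, smul_add, Finset.sum_add_distrib, Matrix.mul_add,
    Matrix.add_mul]
  abel

theorem lieT_smul_left (hG : Good G U) (c : ℝ) (hX : SmV X U) (hh : SmT h U) (hp : p ∈ U) :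
    lieT G (c • X) h p = c • lieT G X h p := by
  obtain ⟨s, ok, Z⟩ := hG.lift
  obtain ⟨x, rx, hx⟩ := Z.const c
  obtain ⟨X₀, rX⟩ := hX.lift
  obtain ⟨h₀, rh⟩ := hh.lift
  refine (zig_lieT Z (RV.smul rx rX) rh).at (RT.smul rx (zig_lieT Z rX rh)) ?_ hp
  have e : s.cov (x • X₀) = x • s.cov X₀ := by
    ext i j
    simp only [Geo.cov, Matrix.of_apply, Pi.smul_apply, smul_eq_mul, ok.mul, hx, Matrix.smul_apply,
      zero_mul, zero_add, mul_add, Finset.mul_sum, mul_left_comm x]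
  simp only [lieA, Geo.nabX, e, Pi.smul_apply, smul_eq_mul, mul_smul, smul_add, Finset.smul_sum,
    transpose_smul, Matrix.mul_smul, Matrix.smul_mul]

theorem lieT_smul_right (hG : Good G U) (c : ℝ) (hX : SmV X U) (hh : SmT h U) (hp : p ∈ U) :
    lieT G X (c • h) p = c • lieT G X h p := by
  obtain ⟨s, ok, Z⟩ := hG.lift
  obtain ⟨x, rx, hx⟩ := Z.const c
  obtain ⟨X₀, rX⟩ := hX.lift
  obtain ⟨h₀, rh⟩ := hh.lift
  refine (zig_lieT Z rX (RT.smul rx rh)).at (RT.smul rx (zig_lieT Z rX rh)) ?_ hp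
  simp only [lieA, Geo.nabX, ok.nab_smul, hx, zero_smul, zero_add, smul_add,
    Finset.smul_sum, Matrix.mul_smul, Matrix.smul_mul, smul_comm x]

theorem bian_add (hG : Good G U) (hh : SmT h U) (hk : SmT k U) (hp : p ∈ U) :
    bian G (h + k) p = bian G h p + bian G k p := by
  obtain ⟨s, ok, Z⟩ := hG.lift
  obtain ⟨h₀, rh⟩ := hh.lift
  obtain ⟨k₀, rk⟩ := hk.lift
  exact (Z.bian (rh.add rk)).at ((Z.bian rh).add (Z.bian rk)) (ok.bian_add _ _) hp

theorem bian_smul (hG : Good G U) (c : ℝ) (hh : SmT h U) (hp : p ∈ U) :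
    bian G (c • h) p = c • bian G h p := by
  obtain ⟨s, ok, Z⟩ := hG.lift
  obtain ⟨x, rx, hx⟩ := Z.const c
  obtain ⟨h₀, rh⟩ := hh.lift
  exact (Z.bian (RT.smul rx rh)).at (RV.smul rx (Z.bian rh)) (ok.bian_const hx _) hp

theorem lie_eq_lieT (hG : Good G U) (hX : SmV X U) (hp : p ∈ U) : lie G X p = lieT G X G p := by
  obtain ⟨s, ok, Z⟩ := hG.lift
  obtain ⟨X₀, rX⟩ := hX.lift
  refine (Z.lie rX).at (zig_lieT Z rX Z.G') ?_ hp
  simp only [lieA, Geo.lie, Geo.nabX, ok.nab_G, smul_zero, Finset.sum_const_zero, zero_add,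
    transpose_mul, ok.symm]

end Pool.Agent.Lib.MP_94aef8_gt.E2
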