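import Pool.Agent.Lib.MP_94aef8_gt.E2.Hs
import Pool.Agent.Lib.MP_94aef8_gt.DefsEq

/-! From locally countable to countable. -/

open scoped ContDiff Topology
open Filter Set

namespace Pool.Agent.Lib.MP_94aef8_gt

namespace E2

theorem lind_top {α Y β : Type} [TopologicalSpace Y] [SecondCountableTopology Y] (j : α → Y)
    (f : α → β) (h : ∀ a, ∃ N ∈ 𝓝 (j a), (f '' (j ⁻¹' N)).Countable) : (range f).Countable := by
  choose N hN hc using h
  let _ : TopologicalSpace α := TopologicalSpace.induced j inferInstance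
  have : SecondCountableTopology α := TopologicalSpace.secondCountableTopology_induced α Y j
  obtain ⟨s, hs, hU⟩ := TopologicalSpace.countable_cover_nhds (f := fun a => j ⁻¹' N a)
    fun a => continuous_induced_dom.continuousAt.preimage_mem_nhds (hN a)
  refine (hs.biUnion fun a _ => hc a).mono ?_
  rintro _ ⟨a, rfl⟩
  obtain ⟨b, hb, hab⟩ := mem_iUnion₂.1 (hU.ge (mem_univ a))
  exact mem_iUnion₂.2 ⟨b, hb, a, hab, rfl⟩

theorem pdw_sub {U : Set E4} (hU : IsOpen U) {f g : Fn} (hf : ContDiffOn ℝ ∞ f U)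
    (hg : ContDiffOn ℝ ∞ g U) (w : List (Fin 4)) : EqOn (pdw w (f - g)) (pdw w f - pdw w g) U := by
  induction w with
  | nil => exact fun _ _ => rfl
  | cons i w ih =>
    intro y hy
    have h1 := sm_diff hU (sm_pdw hU hf w) hy
    have h2 := sm_diff hU (sm_pdw hU hg w) hy
    rw [pdw, pd_congr_on hU ih i hy, sub_eq_add_neg, pd_add h1 h2.neg, pd_neg]
    simp only [pdw, Pi.sub_apply, Pi.neg_apply, sub_eq_add_neg]

/-- A function which has countably many values on a `C^m` neighbourhood of every point has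
countably many values. -/
theorem lind {α ι β : Type} [Finite ι] (G : α → ι → Tn) {r R : ℝ} (hr : r < R)
    (hG : ∀ g a, SmT (G g a) (Q R)) (m : ℕ) (f : α → β)
    (h : ∀ g0, ∃ δ > 0, (f '' {g | ∀ a, CbM m (Q r) (G g a - G g0 a) δ}).Countable) :
    (range f).Countable := by
  have : CompactSpace (Kc r) := isCompact_iff_compactSpace.1 (isCompact_Kc r)
  have : Finite {w : List (Fin 4) // w.length ≤ m} := List.finite_length_le (Fin 4) m
  let j : α → (ι × {w : List (Fin 4) // w.length ≤ m} × Fin 4 × Fin 4) → C(Kc r, ℝ) := fun g k =>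
    ⟨(Kc r).domRestrict (pdw k.2.1.1 fun y => G g k.1 y k.2.2.1 k.2.2.2),
      ((sm_pdw (isOpen_Q R) (hG g k.1 _ _) _).continuousOn.mono (Kc_sub_Q hr)).domRestrict⟩
  refine lind_top j f fun g0 => ?_
  obtain ⟨δ, hδ, hc⟩ := h g0
  refine ⟨⋂ k, {t | dist (t k) (j g0 k) < δ}, ?_, hc.mono (image_mono ?_)⟩
  · refine iInter_mem.2 fun k => IsOpen.mem_nhds (isOpen_lt (by fun_prop) continuous_const) ?_
    simpa using hδ
  · intro g hg a i k w hw y hy
    have h1 : dist (j g (a, ⟨w, hw⟩, i, k)) (j g0 (a, ⟨w, hw⟩, i, k)) < δ :=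
      mem_iInter.1 hg (a, ⟨w, hw⟩, i, k)
    have h2 := (ContinuousMap.dist_apply_le_dist (⟨y, Q_sub_Kc r hy⟩ : Kc r)).trans h1.le
    have h3 := pdw_sub (isOpen_Q R) (hG g a i k) (hG g0 a i k) w (Q_mono hr.le hy)
    change |pdw w ((fun y => G g a y i k) - fun y => G g0 a y i k) y| ≤ δ
    rw [h3]
    exact h2

end E2

end Pool.Agent.Lib.MP_94aef8_gt
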