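import Pool.Agent.Lib.MP_94aef8_gt.E2.MDefs
import Pool.Agent.Lib.MP_94aef8_gt.C.Atlas

open scoped Manifold ContDiff Topology
open Filter Set MeasureTheory Matrix

namespace Pool.Agent.Lib.MP_94aef8_gt.E2

variable {M : Type} [TopologicalSpace M] [T2Space M] [CompactSpace M] [ChartedSpace E4 M]
  [IsManifold (𝓡 4) ∞ M] [MeasurableSpace M] [BorelSpace M]

variable (M) in
theorem exists_atl : ∃ (I : Type) (_ : Fintype I), Nonempty (Atl M I) := by
  choose Θ hpt hinj h0 _ using fun x : M => exists_cube x (W := univ) univ_mem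
  have hop : ∀ x, IsOpen (Θ x '' Q 1) := fun x =>
    (hpt x).isOpen_image (isOpen_Q 1) (Q_mono (by norm_num))
  obtain ⟨t, ht⟩ := isCompact_univ.elim_finite_subcover _ hop fun x _ =>
    mem_iUnion.2 ⟨x, 0, atl_zero_mem one_pos, h0 x⟩
  have hc : (univ : Set M) ⊆ ⋃ a : t, Θ a '' Q 1 := fun x hx => by
    obtain ⟨a, ha, h⟩ := mem_iUnion₂.1 (ht hx)
    exact mem_iUnion.2 ⟨⟨a, ha⟩, h⟩
  obtain ⟨ρ, hρ⟩ := SmoothPartitionOfUnity.exists_isSubordinate (𝓡 4) isClosed_univ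
    (fun a : t => Θ a '' Q 1) (fun a => hop a) hc
  have hz : ∀ (a : t) x, x ∉ Θ a '' Q 1 → ρ a x = 0 := fun a x hx =>
    image_eq_zero_of_notMem_tsupport fun h => hx (hρ a h)
  have A : MP_94aef8_gt.Atl (fun a : t => Θ a) fun a => ρ a :=
    ⟨fun a => hpt a, fun a => hinj a, fun a => (ρ a).contMDiff, ρ.nonneg,
      fun a x hx => hz a x fun h => hx (image_mono (Q_sub_Kc 1) h), fun x => by
        rw [← finsum_eq_sum_of_fintype]
        exact ρ.sum_eq_one (mem_univ x)⟩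
  have hχ : ∀ a : t, ∀ y ∉ Q 1, (Q 4).indicator (fun y => ρ a (Θ a y)) y = 0 := fun a y h1 => by
    by_cases hy : y ∈ Q 4
    · rw [indicator_of_mem hy]
      refine hz a _ ?_
      rintro ⟨z, hz1, e⟩
      exact h1 (hinj a (Q_mono (by norm_num) hz1) hy e ▸ hz1)
    · exact indicator_of_notMem hy _
  have hsub : ∀ {r : ℝ}, r ≤ 4 → ∀ a : t, Pt (Θ a) (Q r) ∧ InjOn (Θ a) (Q r) := fun hr a =>
    ⟨(hpt a).mono (isOpen_Q _) (Q_mono hr), (hinj a).mono (Q_mono hr)⟩
  refine ⟨t, inferInstance, ⟨⟨fun a => Θ a, fun a => (Q 4).indicator fun y => ρ a (Θ a y),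
    fun a k => gext (Θ a) (Q 3) k, fun a => hpt a, fun x => ?_, fun a => ?_, hχ,
    fun g hg F hF => ?_, fun g hg F hF h0 a => ?_, fun g hg F hF a h0 => ?_,
    fun a k hk h0 => ?_⟩⟩⟩
  · obtain ⟨a, y, hy, e⟩ := mem_iUnion.1 (hc (mem_univ x))
    exact ⟨a, y, hy, e⟩
  · refine contDiff_iff_contDiffAt.2 fun y => ?_
    by_cases hy : y ∈ Q 4
    · refine (((hpt a).sm_comp (A.sm a)).contDiffAt
        ((isOpen_Q 4).mem_nhds hy)).congr_of_eventuallyEq ?_
      filter_upwards [(isOpen_Q 4).mem_nhds hy] with z hz using indicator_of_mem hz _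
    · refine (contDiffAt_const (c := (0 : ℝ))).congr_of_eventuallyEq ?_
      filter_upwards [(isClosed_Kc 1).isOpen_compl.mem_nhds
        fun h => hy (Kc_sub_Q (by norm_num) h)] with z hz
      exact hχ a z fun h => hz (Q_sub_Kc 1 h)
  · rw [A.int_eq hg hF (r := 3 / 2) (by norm_num) (by norm_num)]
    refine Finset.sum_congr rfl fun a _ =>
      setIntegral_congr_fun (isOpen_Q _).measurableSet fun y hy => ?_
    simp only [indicator_of_mem (Q_mono (by norm_num : (3 / 2 : ℝ) ≤ 4) hy)]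
    ring
  · have h1 := (hpt a).int_eq (isOpen_Q 2).measurableSet (Q_mono (by norm_num))
      (hsub (by norm_num) a).2 hg hF.measurable
    simp only [mul_comm (rho _ _)] at h1
    rw [← h1]
    exact setIntegral_le_integral (hg.integrable hF) (Eventually.of_forall h0)
  · rw [(hsub (r := 3 / 2) (by norm_num) a).1.int_eq_of_zero (hsub (by norm_num) a).2 hg
      hF.measurable fun x hx => h0 x fun h => hx (image_mono (Kc_sub_Q (by norm_num)) h)]
    simp only [mul_comm]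
  · obtain ⟨h1, h2⟩ := hsub (r := 3) (by norm_num) a
    have h3 : ∀ y ∈ Q 3, y ∉ Kc 1 → k y = 0 := fun y _ hy => h0 y fun h => hy (Q_sub_Kc 1 h)
    exact ⟨⟨h1.smG_gext h2 hk.smooth (isCompact_Kc 1) (Kc_sub_Q (by norm_num)) h3,
      gext_symm hk.symm, fun _ hF => hF.elim⟩, fun y hy => h1.gpull_gext h2 hy k,
      fun x hx => gext_zero h3 hx⟩

end Pool.Agent.Lib.MP_94aef8_gt.E2
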