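import Pool.Agent.Lib.MP_94aef8_gt.E2.MLoc
import Pool.Agent.Lib.MP_94aef8_gt.E2.MAtl
import Pool.Agent.Lib.MP_94aef8_gt.E2.LindG

/-! The volumes of the metrics with `Ric = -3 g` form a countable set. -/

open scoped Manifold ContDiff Topology
open Filter Set MeasureTheory Matrix

namespace Pool.Agent.Lib.MP_94aef8_gt.E2

variable {M : Type} [TopologicalSpace M] [T2Space M] [CompactSpace M] [ChartedSpace E4 M]
  [IsManifold (𝓡 4) ∞ M] [MeasurableSpace M] [BorelSpace M]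

variable (M) in
theorem vols_countable : ((fun g => (volT g univ).toReal) '' {g : M → Mat | IsE g}).Countable := by
  obtain ⟨I, _, ⟨T⟩⟩ := exists_atl M
  rw [image_eq_range]
  refine lind (α := {g : M → Mat | IsE g}) (fun g a => gpull (T.Θ a) g.1) (r := 3 / 2) (R := 4)
    (by norm_num) (fun g a => (good_pull g.2.1 (T.pt a)).smooth) 10 _ fun g0 => ?_
  obtain ⟨δ, hδ, hc⟩ := loc_countable T g0.2
  refine ⟨δ, hδ, hc.mono ?_⟩
  rintro _ ⟨g, hg, rfl⟩
  exact ⟨g.1, ⟨g.2, hg⟩, rfl⟩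

end Pool.Agent.Lib.MP_94aef8_gt.E2
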