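import Pool.Agent.Lib.MP_94aef8_gt.E2.MId
import Pool.Agent.Lib.MP_94aef8_gt.D.Main

open scoped Manifold ContDiff Topology
open Filter Set MeasureTheory Matrix

namespace Pool.Agent.Lib.MP_94aef8_gt.E2

theorem MEst_cmp {X V : Type} [TopologicalSpace X] [CompactSpace X] [NormedAddCommGroup V]
    [NormedSpace ℝ V] [FiniteDimensional ℝ V] {p q : X → V → ℝ}
    (hp : Continuous fun z : X × V => p z.1 z.2) (hq : Continuous fun z : X × V => q z.1 z.2)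
    (hp2 : ∀ x (c : ℝ) v, p x (c • v) = c ^ 2 * p x v)
    (hq2 : ∀ x (c : ℝ) v, q x (c • v) = c ^ 2 * q x v) (h0 : ∀ x v, v ≠ 0 → 0 < q x v) :
    ∃ C : ℝ, 0 ≤ C ∧ ∀ x v, p x v ≤ C * q x v := by
  have : ProperSpace V := FiniteDimensional.proper_real V
  have hK : IsCompact ((univ : Set X) ×ˢ Metric.sphere (0 : V) 1) :=
    isCompact_univ.prod (isCompact_sphere 0 1)
  have hn : ∀ z ∈ (univ : Set X) ×ˢ Metric.sphere (0 : V) 1, q z.1 z.2 ≠ 0 := fun z hz =>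
    (h0 _ _ fun e => by simpa [e] using hz.2).ne'
  obtain ⟨C, hC⟩ := hK.exists_bound_of_continuousOn
    (f := fun z : X × V => p z.1 z.2 / q z.1 z.2) (hp.continuousOn.div hq.continuousOn hn)
  refine ⟨max C 0, le_max_right _ _, fun x v => ?_⟩
  by_cases hv : v = 0
  · have e1 := hp2 x 0 v
    have e2 := hq2 x 0 v
    rw [zero_smul, ← hv] at e1 e2
    rw [e1, e2]
    simp
  · have hv' : ‖v‖ ≠ 0 := norm_ne_zero_iff.2 hv
    have hw : ‖v‖⁻¹ • v ∈ Metric.sphere (0 : V) 1 := by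
      simp [norm_smul, hv']
    have hw0 : ‖v‖⁻¹ • v ≠ 0 := smul_ne_zero (inv_ne_zero hv') hv
    have h1 := (le_abs_self _).trans (hC (x, ‖v‖⁻¹ • v) ⟨mem_univ _, hw⟩)
    have h2 := h0 x _ hw0
    have h3 : p x (‖v‖⁻¹ • v) ≤ max C 0 * q x (‖v‖⁻¹ • v) :=
      ((div_le_iff₀ h2).1 h1).trans (mul_le_mul_of_nonneg_right (le_max_left _ _) h2.le)
    have e : v = ‖v‖ • ‖v‖⁻¹ • v := by rw [smul_inv_smul₀ hv']
    rw [e, hp2, hq2, mul_left_comm]
    exact mul_le_mul_of_nonneg_left h3 (sq_nonneg _)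

open scoped MatrixOrder in
theorem MEst_ip_eq {G : Mat} (hG : G.PosDef) : ∃ B : Mat, B.det ≠ 0 ∧
    ∀ k : Mat, ipM G k k = ∑ i, ∑ j, (B * k * Bᵀ) i j ^ 2 := by
  obtain ⟨B, hB⟩ := CStarAlgebra.nonneg_iff_eq_star_mul_self.mp hG.inv.posSemidef.nonneg
  have hB' : G⁻¹ = Bᵀ * B := by
    rw [hB, star_eq_conjTranspose, conjTranspose_eq_transpose_of_trivial]
  refine ⟨B, fun h => ?_, fun k => ?_⟩
  · have := hG.inv.det_pos
    rw [hB', det_mul, h, mul_zero] at this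
    exact lt_irrefl _ this
  · have e : ∀ X : Mat, (X * Xᵀ).trace = ∑ i, ∑ j, X i j ^ 2 := fun X => by
      simp only [Matrix.trace, Matrix.diag, Matrix.mul_apply, Matrix.transpose_apply, sq]
    rw [← e, ipM, hB']
    simp only [transpose_mul, transpose_transpose, Matrix.mul_assoc]
    rw [trace_mul_comm]
    simp only [Matrix.mul_assoc]

theorem MEst_sq_pos {k : Mat} (hk : k ≠ 0) : 0 < ∑ i, ∑ j, k i j ^ 2 := by
  obtain ⟨i, j, h⟩ : ∃ i j, k i j ≠ 0 := by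
    by_contra h
    push Not at h
    exact hk (Matrix.ext h)
  exact Finset.sum_pos' (fun _ _ => Finset.sum_nonneg fun _ _ => sq_nonneg _)
    ⟨i, Finset.mem_univ _, Finset.sum_pos' (fun _ _ => sq_nonneg _)
      ⟨j, Finset.mem_univ _, by positivity⟩⟩

theorem MEst_ip_nonneg {G : Mat} (hG : G.PosDef) (k : Mat) : 0 ≤ ipM G k k := by
  obtain ⟨B, -, hB⟩ := MEst_ip_eq hG
  rw [hB]
  exact Finset.sum_nonneg fun _ _ => Finset.sum_nonneg fun _ _ => sq_nonneg _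

theorem MEst_ip_pos {G k : Mat} (hG : G.PosDef) (hk : k ≠ 0) : 0 < ipM G k k := by
  obtain ⟨B, h0, hB⟩ := MEst_ip_eq hG
  rw [hB]
  refine MEst_sq_pos fun e => hk ?_
  have h1 : IsUnit B := (Matrix.isUnit_iff_isUnit_det B).2 h0.isUnit
  have h2 : IsUnit Bᵀ := (Matrix.isUnit_iff_isUnit_det _).2 (by rw [det_transpose]; exact h0.isUnit)
  exact h1.mul_right_eq_zero.1 (h2.mul_left_eq_zero.1 e)

theorem MEst_cont {G : Tn} {U : Set E4} (hG : SmT G U) : ContinuousOn G U :=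
  continuousOn_pi.2 fun i => continuousOn_pi.2 fun j => (hG i j).continuousOn

theorem MEst_rho {G : Tn} {U : Set E4} (hG : SmT G U) : ContinuousOn (rho G) U :=
  Real.continuous_sqrt.comp_continuousOn
    (continuous_id.matrix_det.comp_continuousOn (MEst_cont hG))

theorem MEst_contK {G : Tn} (hG : Good G (Q 4)) : Continuous fun y : Kc 3 => G y :=
  ((MEst_cont hG.smooth).mono (Kc_sub_Q (by norm_num))).domRestrict

theorem MEst_Cb {r R : ℝ} (h : r < R) (j : ℕ) {f : Fn} (hf : ContDiffOn ℝ ∞ f (Q R)) :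
    ∃ B : ℝ, 0 ≤ B ∧ Cb j (Q r) f B := by
  have h1 : ∀ w : List (Fin 4), ∃ B : ℝ, 0 ≤ B ∧ ∀ y ∈ Q r, |pdw w f y| ≤ B := fun w => by
    obtain ⟨B, hB⟩ := (isCompact_Kc r).exists_bound_of_continuousOn
      ((sm_pdw (isOpen_Q R) hf w).continuousOn.mono (Kc_sub_Q h))
    exact ⟨max B 0, le_max_right _ _, fun y hy => (hB y (Q_sub_Kc r hy)).trans (le_max_left _ _)⟩
  choose B h0 hB using h1
  refine ⟨∑ w ∈ (List.finite_length_le (Fin 4) j).toFinset, B w,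
    Finset.sum_nonneg fun w _ => h0 w, fun w hw y hy => (hB w y hy).trans ?_⟩
  exact Finset.single_le_sum (fun w _ => h0 w) (by simpa using hw)

theorem MEst_unif {ι : Type} [Fintype ι] {P : ι → ℝ → Prop}
    (hm : ∀ i C C', C ≤ C' → P i C → P i C') (h : ∀ i, ∃ C, 0 ≤ C ∧ P i C) :
    ∃ C, 0 ≤ C ∧ ∀ i, P i C := by
  choose C h0 hC using h
  exact ⟨∑ i, C i, Finset.sum_nonneg fun i _ => h0 i, fun i =>
    hm i _ _ (Finset.single_le_sum (fun i _ => h0 i) (Finset.mem_univ i)) (hC i)⟩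

theorem MEst_hsM_nonneg (j : ℕ) (S : Set E4) (k : Tn) : 0 ≤ hsM j S k :=
  Finset.sum_nonneg fun _ _ => Finset.sum_nonneg fun _ _ => hs_nonneg _ _ _

theorem MEst_hsM_mono {j l : ℕ} (h : j ≤ l) (S : Set E4) (k : Tn) : hsM j S k ≤ hsM l S k :=
  Finset.sum_le_sum fun _ _ => Finset.sum_le_sum fun _ _ => hs_mono h _ _

theorem MEst_hsM_congr {U : Set E4} (hU : IsOpen U) (j : ℕ) {k k' : Tn} (h : EqOn k k' U) :
    hsM j U k = hsM j U k' :=
  Finset.sum_congr rfl fun _ _ => Finset.sum_congr rfl fun _ _ =>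
    hs_congr hU j fun y hy => by simp only [h hy]

theorem MEst_pdw (w : List (Fin 4)) (i : Fin 4) (f : Fn) :
    pdw w (pd i f) = pdw (w ++ [i]) f := by
  induction w with
  | nil => rfl
  | cons a w ih => simp only [List.cons_append, pdw, ih]

theorem MEst_hs_Cb (j : ℕ) (r : ℝ) : ∃ C : ℝ, 0 ≤ C ∧ ∀ (f : Fn) (B : ℝ), Cb j (Q r) f B →
    hs j (Q r) f ≤ C * B ^ 2 := by
  have hv : volume (Q r) < ⊤ := (measure_mono (Q_sub_Kc r)).trans_lt (isCompact_Kc r).measure_lt_top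
  have h0 : ∀ (j : ℕ) (f : Fn) (B : ℝ), Cb j (Q r) f B →
      ∫ y in Q r, f y ^ 2 ≤ volume.real (Q r) * B ^ 2 := fun j f B h => by
    refine (Real.le_norm_self _).trans ((norm_setIntegral_le_of_norm_le_const (C := B ^ 2) hv
      fun y hy => ?_).trans (mul_comm _ _).le)
    rw [norm_pow]
    exact pow_le_pow_left₀ (norm_nonneg _) (h [] (Nat.zero_le _) y hy) 2
  induction j with
  | zero => exact ⟨_, measureReal_nonneg, h0 0⟩
  | succ j ih =>
    obtain ⟨C, hC, ih⟩ := ih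
    refine ⟨volume.real (Q r) + 4 * C, add_nonneg measureReal_nonneg (by positivity),
      fun f B h => ?_⟩
    have h1 : ∀ i, hs j (Q r) (pd i f) ≤ C * B ^ 2 := fun i => ih _ _ fun w hw y hy => by
      rw [MEst_pdw]
      exact h _ (by simpa using hw) y hy
    have h2 := h0 _ f B h
    simp only [hs, Fin.sum_univ_four]
    linarith [h1 0, h1 1, h1 2, h1 3]

variable {M : Type} [TopologicalSpace M] [T2Space M] [CompactSpace M] [ChartedSpace E4 M]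
  [IsManifold (𝓡 4) ∞ M] [MeasurableSpace M] [BorelSpace M]

variable {I : Type} [Fintype I] (T : Atl M I) {g : M → Mat}

/-- The metric is smooth and positive on `Q 4`, and `Q 3 ⊆ Kc 3 ⊆ Q 4` with `Kc 3` compact. -/
theorem goodB_of_good {G : Tn} (hG : Good G (Q 4)) : ∃ C : ℝ, GoodB C G := by
  have : CompactSpace (Kc 3) := isCompact_iff_compactSpace.1 (isCompact_Kc 3)
  have hs : Q 3 ⊆ Q 4 := Q_mono (by norm_num)
  have hc := (MEst_contK hG).comp (continuous_fst (X := Kc 3) (Y := Fin 4 → ℝ))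
  obtain ⟨C1, h1, hC1⟩ := MEst_cmp (X := Kc 3) (V := Fin 4 → ℝ) (p := fun _ v => v ⬝ᵥ v)
    (q := fun y v => v ⬝ᵥ G y *ᵥ v) (continuous_snd.dotProduct continuous_snd)
    (continuous_snd.dotProduct (hc.matrix_mulVec continuous_snd))
    (fun _ c v => by simp only [smul_dotProduct, dotProduct_smul, smul_eq_mul]; ring)
    (fun _ c v => by simp only [mulVec_smul, smul_dotProduct, dotProduct_smul, smul_eq_mul]; ring)
    (fun y v hv => by
      simpa using (hG.pos y (Kc_sub_Q (by norm_num) y.2)).dotProduct_mulVec_pos hv)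
  obtain ⟨C2, h2, hC2⟩ := MEst_unif (ι := Fin 4 × Fin 4)
    (P := fun i C => Cb 12 (Q 3) (fun y => G y i.1 i.2) C)
    (fun i C C' h h' w hw y hy => (h' w hw y hy).trans h)
    fun i => MEst_Cb (by norm_num) 12 (hG.smooth i.1 i.2)
  refine ⟨C1 + C2, ⟨isOpen_Q 3, fun i j => (hG.smooth i j).mono hs, fun p hp => hG.pos p (hs hp)⟩,
    fun y hy v => (hC1 ⟨y, Q_sub_Kc 3 hy⟩ v).trans (mul_le_mul_of_nonneg_right (by linarith) ?_),
    fun a b w hw y hy => (hC2 (a, b) w hw y hy).trans (by linarith)⟩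
  simpa using (hG.pos y (hs hy)).posSemidef.dotProduct_mulVec_nonneg v

/-- The two scalar products are comparable on `Q 3`. -/
theorem ip_compare {G : Tn} (hG : Good G (Q 4)) : ∃ C : ℝ, 0 ≤ C ∧ ∀ y ∈ Q 3, ∀ k : Mat,
    ipM (G y) k k * rho G y ≤ C * ∑ i, ∑ j, k i j ^ 2 ∧
      ∑ i, ∑ j, k i j ^ 2 ≤ C * (ipM (G y) k k * rho G y) := by
  have : CompactSpace (Kc 3) := isCompact_iff_compactSpace.1 (isCompact_Kc 3)
  have hp : ∀ y : Kc 3, (G y).PosDef := fun y => hG.pos y (Kc_sub_Q (by norm_num) y.2)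
  have hr : ∀ y : Kc 3, 0 < rho G y := fun y => Real.sqrt_pos.2 (hp y).det_pos
  have hi : Continuous fun y : Kc 3 => (G y)⁻¹ := continuous_iff_continuousAt.2 fun y => by
    refine (continuousAt_matrix_inv (G y) ?_).comp (f := fun y : Kc 3 => G y)
      (MEst_contK hG).continuousAt
    rw [Ring.inverse_eq_inv']
    exact continuousAt_inv₀ (hp y).det_pos.ne'
  have hi' := hi.comp (continuous_fst (X := Kc 3) (Y := Fin 4 → Fin 4 → ℝ))
  have ho : Continuous fun z : Kc 3 × (Fin 4 → Fin 4 → ℝ) => (Matrix.of z.2 : Mat) :=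
    continuous_snd
  have c1 : Continuous fun z : Kc 3 × (Fin 4 → Fin 4 → ℝ) =>
      ipM (G z.1) (Matrix.of z.2) (Matrix.of z.2) * rho G z.1 :=
    (((hi'.matrix_mul ho).matrix_mul hi').matrix_mul ho.matrix_transpose).matrix_trace.mul
      ((((MEst_rho hG.smooth).mono (Kc_sub_Q (by norm_num))).domRestrict).comp continuous_fst)
  have c2 : Continuous fun z : Kc 3 × (Fin 4 → Fin 4 → ℝ) => ∑ i, ∑ j, z.2 i j ^ 2 := by
    fun_prop
  have e1 : ∀ (y : Kc 3) (c : ℝ) (v : Fin 4 → Fin 4 → ℝ),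
      ipM (G y) (Matrix.of (c • v)) (Matrix.of (c • v)) * rho G y =
        c ^ 2 * (ipM (G y) (Matrix.of v) (Matrix.of v) * rho G y) := fun y c v => by
    simp only [← Matrix.smul_of, ipM, transpose_smul, Matrix.mul_smul, Matrix.smul_mul, trace_smul,
      smul_eq_mul]
    ring
  have e2 : ∀ (_ : Kc 3) (c : ℝ) (v : Fin 4 → Fin 4 → ℝ),
      ∑ i, ∑ j, (c • v) i j ^ 2 = c ^ 2 * ∑ i, ∑ j, v i j ^ 2 := fun _ c v => by
    simp only [Pi.smul_apply, smul_eq_mul, mul_pow, Finset.mul_sum]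
  have p1 : ∀ (y : Kc 3) (v : Fin 4 → Fin 4 → ℝ), v ≠ 0 →
      0 < ipM (G y) (Matrix.of v) (Matrix.of v) * rho G y := fun y v hv =>
    mul_pos (MEst_ip_pos (hp y) hv) (hr y)
  obtain ⟨C1, h1, hC1⟩ := MEst_cmp (p := fun (y : Kc 3) (v : Fin 4 → Fin 4 → ℝ) =>
    ipM (G y) (Matrix.of v) (Matrix.of v) * rho G y) (q := fun _ v => ∑ i, ∑ j, v i j ^ 2)
    c1 c2 e1 e2 fun _ v hv => MEst_sq_pos (k := Matrix.of v) hv
  obtain ⟨C2, h2, hC2⟩ := MEst_cmp (q := fun (y : Kc 3) (v : Fin 4 → Fin 4 → ℝ) =>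
    ipM (G y) (Matrix.of v) (Matrix.of v) * rho G y) (p := fun _ v => ∑ i, ∑ j, v i j ^ 2)
    c2 c1 e2 e1 p1
  refine ⟨C1 + C2, by linarith, fun y hy k => ⟨(hC1 ⟨y, Q_sub_Kc 3 hy⟩ k).trans ?_,
    (hC2 ⟨y, Q_sub_Kc 3 hy⟩ k).trans ?_⟩⟩
  · exact mul_le_mul_of_nonneg_right (by linarith)
      (Finset.sum_nonneg fun _ _ => Finset.sum_nonneg fun _ _ => sq_nonneg _)
  · exact mul_le_mul_of_nonneg_right (by linarith)
      (mul_nonneg (MEst_ip_nonneg (hp ⟨y, Q_sub_Kc 3 hy⟩) _) (Real.sqrt_nonneg _))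

/-- `gpull Θ ((GP g)^[j] u) = (Pop 3 (gpull Θ g))^[j] (gpull Θ u)` on the patch: induction with
`GP_pull`, `GP_inv` and locality of `PP`. -/
theorem GP_iter_pull (hg : GoodT g) {u : M → Mat} (hu : InvT ∅ u) {Θ : E4 → M} {U : Set E4}
    (hΘ : Pt Θ U) (j : ℕ) : InvT ∅ ((GP g)^[j] u) ∧
      ∀ y ∈ U, gpull Θ ((GP g)^[j] u) y = (Pop 3 (gpull Θ g))^[j] (gpull Θ u) y := by
  induction j with
  | zero => exact ⟨hu, fun _ _ => rfl⟩
  | succ j ih =>
    rw [Function.iterate_succ_apply', Function.iterate_succ_apply']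
    refine ⟨GP_inv hg ih.1, fun y hy => ?_⟩
    rw [GP_pull hg ih.1 hΘ hy, ← Pop_congr hΘ.isOpen (fun z hz => ih.2 z hz) hy]
    simp only [PP, Pop]
    norm_num

theorem MEst_nonneg (hg : GoodT g) (w : M → Mat) (x : M) : 0 ≤ ipg g w w x :=
  MEst_ip_nonneg (hg.pos x) _

theorem MEst_int (hg : GoodT g) {Θ : E4 → M} (hΘ : Pt Θ (Q 4)) {w : M → Mat} (hw : InvT ∅ w) :
    ContinuousOn (fun y => ipg g w w (Θ y) * rho (gpull Θ g) y) (Q 4) :=
  ((ipg_cont hg hw hw).comp_continuousOn hΘ.smooth.continuousOn).mul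
    (MEst_rho (good_pull hg hΘ).smooth)

theorem MEst_patch (hg : GoodT g) {Θ : E4 → M} (hΘ : Pt Θ (Q 4)) : ∃ C : ℝ, 0 ≤ C ∧
    ∀ w, InvT ∅ w → ∀ r ≤ 3,
      ∫ y in Q r, ipg g w w (Θ y) * rho (gpull Θ g) y ≤ C * hsM 0 (Q r) (gpull Θ w) ∧
        hsM 0 (Q r) (gpull Θ w) ≤ C * ∫ y in Q r, ipg g w w (Θ y) * rho (gpull Θ g) y := by
  obtain ⟨C, h0, hC⟩ := ip_compare (good_pull hg hΘ)
  refine ⟨C, h0, fun w hw r hr => ?_⟩
  have h4 : r < 4 := by linarith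
  have i1 : ∀ i j, IntegrableOn (fun y => gpull Θ w y i j ^ 2) (Q r) := fun i j =>
    integrableOn_Q h4 (((sym_pull hw hΘ).smooth i j).continuousOn.pow 2)
  have i2 : IntegrableOn (fun y => ∑ i, ∑ j, gpull Θ w y i j ^ 2) (Q r) :=
    integrable_finsetSum _ fun i _ => integrable_finsetSum _ fun j _ => i1 i j
  have i3 := integrableOn_Q h4 (MEst_int hg hΘ hw)
  have e : hsM 0 (Q r) (gpull Θ w) = ∫ y in Q r, ∑ i, ∑ j, gpull Θ w y i j ^ 2 := by
    rw [integral_finsetSum _ fun i _ => integrable_finsetSum _ fun j _ => i1 i j]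
    exact Finset.sum_congr rfl fun i _ => (integral_finsetSum _ fun j _ => i1 i j).symm
  rw [e, ← integral_const_mul, ← integral_const_mul]
  constructor
  · refine setIntegral_mono_on i3 (i2.const_mul C) (isOpen_Q r).measurableSet fun y hy => ?_
    rw [ipg_pull hg hΘ (Q_mono h4.le hy)]
    exact (hC y (Q_mono hr hy) _).1
  · refine setIntegral_mono_on i2 (i3.const_mul C) (isOpen_Q r).measurableSet fun y hy => ?_
    rw [ipg_pull hg hΘ (Q_mono h4.le hy)]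
    exact (hC y (Q_mono hr hy) _).2

/-- `thmD3` with `m = 5`, `r = 3/2`, `r' = 2`, `ip_compare`, `T.intle`. -/
theorem loc_est (hg : GoodT g) : ∃ C : ℝ, 0 ≤ C ∧ ∀ a u, InvT ∅ u →
    hsM 10 (Q (3 / 2)) (gpull (T.Θ a) u) ≤
      C * ∑ j ∈ Finset.range 6, ipL g ((GP g)^[j] u) ((GP g)^[j] u) := by
  refine MEst_unif (P := fun a C => ∀ u, InvT ∅ u → hsM 10 (Q (3 / 2)) (gpull (T.Θ a) u) ≤
      C * ∑ j ∈ Finset.range 6, ipL g ((GP g)^[j] u) ((GP g)^[j] u))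
    (fun a C C' h h' u hu => (h' u hu).trans (mul_le_mul_of_nonneg_right h
      (Finset.sum_nonneg fun j _ => ipL_nonneg hg _))) fun a => ?_
  obtain ⟨C0, hC0⟩ := goodB_of_good (good_pull hg (T.pt a))
  obtain ⟨C1, hC1⟩ := thmD3 C0 (m := 5) le_rfl (r := 3 / 2) (r' := 2) (by norm_num) (by norm_num)
    (by norm_num)
  obtain ⟨C2, h2, hC2⟩ := MEst_patch hg (T.pt a)
  refine ⟨max C1 0 * C2, by positivity, fun u hu => ?_⟩
  refine (hC1 _ _ 3 hC0 (by norm_num) le_rfl fun i j =>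
    ((sym_pull hu (T.pt a)).smooth i j).mono (Q_mono (by norm_num))).trans ?_
  refine (mul_le_mul_of_nonneg_right (le_max_left C1 0)
    (Finset.sum_nonneg fun j _ => MEst_hsM_nonneg _ _ _)).trans ?_
  rw [mul_assoc, Finset.mul_sum _ _ C2]
  refine mul_le_mul_of_nonneg_left (Finset.sum_le_sum fun j _ => ?_) (le_max_right C1 0)
  obtain ⟨h3, h4⟩ := GP_iter_pull hg hu (T.pt a) j
  rw [← MEst_hsM_congr (isOpen_Q 2) 0 fun y hy => h4 y (Q_mono (by norm_num) hy)]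
  exact (hC2 _ h3 2 (by norm_num)).2.trans (mul_le_mul_of_nonneg_left
    (T.intle g hg _ (ipg_cont hg h3 h3) (MEst_nonneg hg _) a) h2)

/-- `thmD5` iterated: `hsM 0 (Q r) (P^[j] k) ≤ C hsM (2 j) (Q r) k` for `j ≤ 5`. -/
theorem iter_est {G : Tn} (hG : Good G (Q 4)) {j : ℕ} (hj : j ≤ 5) : ∃ C : ℝ, 0 ≤ C ∧
    ∀ k : Tn, SmT k (Q 3) →
      hsM 0 (Q (3 / 2)) ((Pop 3 G)^[j] k) ≤ C * hsM (2 * j) (Q (3 / 2)) k := by
  obtain ⟨C0, hC0⟩ := goodB_of_good hG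
  induction j with
  | zero => exact ⟨1, zero_le_one, fun k _ => by simp⟩
  | succ j ih =>
    obtain ⟨C1, h1, hC1⟩ := ih (by omega)
    obtain ⟨C2, hC2⟩ := thmD5 C0 (l := 2 * j) (by omega) (r := 3 / 2) (by norm_num) (by norm_num)
    refine ⟨C1 * max C2 0, by positivity, fun k hk => ?_⟩
    rw [Function.iterate_succ_apply, mul_assoc]
    refine (hC1 _ (smT_Pop hC0.good hk)).trans (mul_le_mul_of_nonneg_left ?_ h1)
    exact (hC2 G k 3 hC0 (by norm_num) le_rfl hk).trans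
      (mul_le_mul_of_nonneg_right (le_max_left _ _) (MEst_hsM_nonneg _ _ _))

theorem MEst_up (hg : GoodT g) {Θ : E4 → M} (hΘ : Pt Θ (Q 4)) : ∃ C : ℝ, 0 ≤ C ∧
    ∀ j ≤ 5, ∀ u, InvT ∅ u →
      ∫ y in Q (3 / 2), ipg g ((GP g)^[j] u) ((GP g)^[j] u) (Θ y) * rho (gpull Θ g) y ≤
        C * hsM (2 * j) (Q (3 / 2)) (gpull Θ u) := by
  obtain ⟨C1, h1, hC1⟩ := MEst_patch hg hΘ
  obtain ⟨C2, h2, hC2⟩ := MEst_unif (ι := Fin 6) (P := fun j C => ∀ k : Tn, SmT k (Q 3) →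
      hsM 0 (Q (3 / 2)) ((Pop 3 (gpull Θ g))^[j] k) ≤ C * hsM (2 * j) (Q (3 / 2)) k)
    (fun j C C' h h' k hk => (h' k hk).trans
      (mul_le_mul_of_nonneg_right h (MEst_hsM_nonneg _ _ _)))
    fun j => iter_est (good_pull hg hΘ) (by omega)
  refine ⟨C1 * C2, by positivity, fun j hj u hu => ?_⟩
  obtain ⟨h3, h4⟩ := GP_iter_pull hg hu hΘ j
  refine (hC1 _ h3 _ (by norm_num)).1.trans ?_
  rw [MEst_hsM_congr (isOpen_Q _) 0 fun y hy => h4 y (Q_mono (by norm_num) hy), mul_assoc]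
  exact mul_le_mul_of_nonneg_left (hC2 ⟨j, by omega⟩ _ fun a b =>
    ((sym_pull hu hΘ).smooth a b).mono (Q_mono (by norm_num))) h1

/-- ` (GP g)^[j] (ext a k)` vanishes off the compact set `Θ a '' Kc 1` (`GP_zero`); `T.intsupp`,
`ip_compare`, `iter_est`. -/
theorem ext_est (hg : GoodT g) : ∃ C : ℝ, 0 ≤ C ∧ ∀ a k, SymT k (Q 3) → (∀ y ∉ Q 1, k y = 0) →
    ∀ j ≤ 4, ipL g ((GP g)^[j] (T.ext a k)) ((GP g)^[j] (T.ext a k)) ≤
      C * hsM 8 (Q (3 / 2)) k := by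
  refine MEst_unif (P := fun a C => ∀ k, SymT k (Q 3) → (∀ y ∉ Q 1, k y = 0) →
    ∀ j ≤ 4, ipL g ((GP g)^[j] (T.ext a k)) ((GP g)^[j] (T.ext a k)) ≤ C * hsM 8 (Q (3 / 2)) k)
    (fun a C C' h h' k hk h0 j hj => (h' k hk h0 j hj).trans
      (mul_le_mul_of_nonneg_right h (MEst_hsM_nonneg _ _ _))) fun a => ?_
  obtain ⟨C, hC0, hC⟩ := MEst_up hg (T.pt a)
  refine ⟨C, hC0, fun k hk h0 j hj => ?_⟩
  obtain ⟨h1, h2, h3⟩ := T.extI a k hk h0
  have hK : IsClosed (T.Θ a '' Kc 1) := ((isCompact_Kc 1).image_of_continuousOn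
    ((T.pt a).smooth.continuousOn.mono (Kc_sub_Q (by norm_num)))).isClosed
  have hz : ∀ j, ∀ x ∉ T.Θ a '' Kc 1, (GP g)^[j] (T.ext a k) x = 0 := fun j => by
    induction j with
    | zero => exact h3
    | succ j ih =>
      intro x hx
      rw [Function.iterate_succ_apply']
      exact GP_zero hg (GP_iter_pull hg h1 (T.pt a) j).1
        (eventually_of_mem (hK.isOpen_compl.mem_nhds hx) ih)
  have h4 := (GP_iter_pull hg h1 (T.pt a) j).1
  rw [ipL, T.intsupp g hg _ (ipg_cont hg h4 h4) a fun x hx => by simp [ipg, ipM, hz j x hx]]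
  refine (hC j (by omega) _ h1).trans (mul_le_mul_of_nonneg_left ?_ hC0)
  rw [MEst_hsM_congr (isOpen_Q _) _ fun y hy => h2 y (Q_mono (by norm_num) hy)]
  exact MEst_hsM_mono (by omega) _ _

/-- `T.int`, a bound of `χ a` on the cube, `ip_compare`, `iter_est`, and
`hs j (Q r) f ≤ C B ^ 2` if `Cb j (Q r) f B`. -/
theorem glob_est (hg : GoodT g) : ∃ C : ℝ, 0 ≤ C ∧ ∀ (u : M → Mat) (δ : ℝ), InvT ∅ u →
    (∀ a, CbM 10 (Q (3 / 2)) (gpull (T.Θ a) u) δ) →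
    ∀ j ≤ 5, ipL g ((GP g)^[j] u) ((GP g)^[j] u) ≤ C * δ ^ 2 := by
  obtain ⟨C1, h1, hC1⟩ := MEst_hs_Cb 10 (3 / 2)
  have key : ∀ a, ∃ C : ℝ, 0 ≤ C ∧ ∀ (u : M → Mat) (δ : ℝ), InvT ∅ u →
      CbM 10 (Q (3 / 2)) (gpull (T.Θ a) u) δ → ∀ j ≤ 5, ∫ y in Q (3 / 2), T.χ a y *
        (ipg g ((GP g)^[j] u) ((GP g)^[j] u) (T.Θ a y) * rho (gpull (T.Θ a) g) y) ≤
          C * δ ^ 2 := fun a => by
    obtain ⟨C2, h2, hC2⟩ := MEst_up hg (T.pt a)
    obtain ⟨B, h3, hB⟩ := MEst_Cb (r := 3 / 2) (R := 4) (by norm_num) 0 (T.χsm a).contDiffOn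
    refine ⟨B * (C2 * (16 * C1)), by positivity, fun u δ hu hδ j hj => ?_⟩
    have h4 := MEst_int hg (T.pt a) (GP_iter_pull hg hu (T.pt a) j).1
    have h5 : hsM 10 (Q (3 / 2)) (gpull (T.Θ a) u) ≤ 16 * C1 * δ ^ 2 :=
      (Finset.sum_le_sum fun i _ => Finset.sum_le_sum fun l _ => hC1 _ δ (hδ i l)).trans
        (le_of_eq (by simp; ring))
    refine (setIntegral_mono_on (integrableOn_Q (R := 4) (by norm_num)
      ((T.χsm a).continuous.continuousOn.mul h4))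
      ((integrableOn_Q (R := 4) (by norm_num) h4).const_mul B) (isOpen_Q _).measurableSet
      fun y hy => mul_le_mul_of_nonneg_right ((le_abs_self _).trans (hB [] le_rfl y hy))
        (mul_nonneg (MEst_nonneg hg _ _) (Real.sqrt_nonneg _))).trans ?_
    rw [integral_const_mul, mul_assoc, mul_assoc]
    exact mul_le_mul_of_nonneg_left ((hC2 j hj u hu).trans (mul_le_mul_of_nonneg_left
      ((MEst_hsM_mono (by omega) _ _).trans h5) h2)) h3
  choose C h0 hC using key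
  refine ⟨∑ a, C a, Finset.sum_nonneg fun a _ => h0 a, fun u δ hu hδ j hj => ?_⟩
  have h4 : InvT ∅ ((GP g)^[j] u) := by
    clear hj
    induction j with
    | zero => exact hu
    | succ j ih =>
      rw [Function.iterate_succ_apply']
      exact GP_inv hg ih
  rw [ipL, T.int g hg _ (ipg_cont hg h4 h4), Finset.sum_mul]
  exact Finset.sum_le_sum fun a _ => hC a u δ hu (hδ a) j hj

end Pool.Agent.Lib.MP_94aef8_gt.E2
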