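import Pool.Agent.Lib.MP_94aef8_gt.E2.MNat
import Pool.Agent.Lib.MP_94aef8_gt.E2.FnId
import Pool.Agent.Lib.MP_94aef8_gt.C.Div

/-! The global identities of the variational problem. -/

open scoped Manifold ContDiff Topology
open Filter Set MeasureTheory Matrix

namespace Pool.Agent.Lib.MP_94aef8_gt.E2

variable {M : Type} [TopologicalSpace M] [T2Space M] [CompactSpace M] [ChartedSpace E4 M]
  [IsManifold (𝓡 4) ∞ M] [MeasurableSpace M] [BorelSpace M]

variable {g u v h k : M → Mat}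

section Point

variable {X Y : M → Fin 4 → ℝ} {Θ : E4 → M} {U : Set E4} {y : E4}

/-- The vector field `g⁻¹ k X`. -/
noncomputable def Gsh (g k : M → Mat) (X : M → Fin 4 → ℝ) (x : M) : Fin 4 → ℝ :=
  (g x)⁻¹ *ᵥ (k x *ᵥ X x)

/-- The scalar product of vector fields. -/
noncomputable def GV (g : M → Mat) (X Y : M → Fin 4 → ℝ) (x : M) : ℝ := X x ⬝ᵥ g x *ᵥ Y x

omit [T2Space M] [CompactSpace M] [IsManifold (𝓡 4) ∞ M] [MeasurableSpace M] [BorelSpace M]

theorem Gsh_pull (hΘ : Pt Θ U) (hy : y ∈ U) (g k : M → Mat) (X : M → Fin 4 → ℝ) :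
    gpullV Θ (Gsh g k X) y = (gpull Θ g y)⁻¹ *ᵥ (gpull Θ k y *ᵥ gpullV Θ X y) := by
  rw [mulVec_mulVec, gpull, gpull, lin_inv_conj (hΘ.isUnit hy), gpullV, gpullV, Gsh, mulVec_mulVec,
    mulVec_mulVec, mulVec_mulVec, Matrix.mul_nonsing_inv_cancel_right _ _ (hΘ.isUnit hy),
    Matrix.mul_assoc]

theorem GV_pull (hΘ : Pt Θ U) (hy : y ∈ U) (g : M → Mat) (X Y : M → Fin 4 → ℝ) :
    GV g X Y (Θ y) = ipV (gpull Θ g) (gpullV Θ X) (gpullV Θ Y) y :=
  (lin_ipV_conj (hΘ.isUnit hy) _ _ _).symm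

theorem GV_comm (hg : GoodT g) (X Y : M → Fin 4 → ℝ) : GV g X Y = GV g Y X := by
  funext x
  rw [GV, GV, dotProduct_mulVec, ← mulVec_transpose, (lin_symm (hg.pos x)).eq, dotProduct_comm]

theorem ipg_comm (hg : GoodT g) (h k : M → Mat) : ipg g h k = ipg g k h :=
  funext fun x => lin_ipM_comm (lin_symm (hg.pos x)) _ _

theorem ipg_GR (hg : GoodT g) (u v : M → Mat) : ipg g (GR g u) v = ipg g u (GR g v) := by
  funext x
  simp only [ipg, GR, trg]
  rw [lin_ipM_sub_left, lin_ipM_sub_right, lin_ipM_smul_left, lin_ipM_smul_right,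
    lin_ipM_comm (lin_symm (hg.pos x)) (g x), lin_ipM_G (hg.pos x), lin_ipM_G (hg.pos x)]
  ring

theorem trg_self (hg : GoodT g) (x : M) : trg g g x = 4 := by
  rw [trg, Matrix.nonsing_inv_mul _ (hg.pos x).det_pos.ne'.isUnit, Matrix.trace_one]
  norm_num

end Point

section Smooth

variable {X Y : M → Fin 4 → ℝ}

omit [T2Space M] [CompactSpace M] [MeasurableSpace M] [BorelSpace M]

theorem Gsh_sm (hg : GoodT g) (hk : SmG k) (hX : SmVF X) : SmVF (Gsh g k X) := fun x =>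
  ((hg.patch (pt_ch x)).smooth_inv.mulVec ((hk x).mulVec (hX x))).congr
    fun _ hy => Gsh_pull (pt_ch x) hy g k X

theorem GV_sm (hg : GoodT g) (hX : SmVF X) (hY : SmVF Y) : Sm (GV g X Y) := sm_of_charts fun x =>
  ((hX x).dot ((hg.smooth x).mulVec (hY x))).congr fun _ hy => GV_pull (pt_ch x) hy g X Y

omit [IsManifold (𝓡 4) ∞ M] in
theorem GDiv_eq {x : M} {W : Vn} (e : ∀ p ∈ (chartAt E4 x).target, gpullV (ch x) X p = W p) :
    GDiv g X x = dvg (gpull (ch x) g) W (c0 x) :=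
  fn_dvg_congr (chartAt E4 x).open_target e (c0_mem x)

theorem GR_GDl (hg : GoodT g) (u : M → Mat) (x : M) : GR g (GDl g u) x = (-1 / 2 : ℝ) •
    lie (gpull (ch x) g) (bian (gpull (ch x) g) (gpull (ch x) u)) (c0 x) := by
  have h5 := trg_self hg x
  simp only [GR, GDl, atc, Dl, Rl, trg, trG, gpull_ch_c0, Matrix.mul_sub, Matrix.mul_smul,
    Matrix.trace_sub, Matrix.trace_smul, smul_eq_mul] at h5 ⊢
  rw [h5]
  module

end Smooth

omit [T2Space M] [CompactSpace M] [IsManifold (𝓡 4) ∞ M] [BorelSpace M] in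
theorem ipL_comm (hg : GoodT g) (h k : M → Mat) : ipL g h k = ipL g k h := by
  rw [ipL, ipL, ipg_comm hg]

theorem ipL_add_left (hg : GoodT g) (hu : InvT ∅ u) (hh : InvT ∅ h) (hk : InvT ∅ k) :
    ipL g (u + h) k = ipL g u k + ipL g h k := by
  rw [ipL, ipL, ipL, ← integral_add (hg.integrable (ipg_cont hg hu hk))
    (hg.integrable (ipg_cont hg hh hk))]
  exact integral_congr_ae (Eventually.of_forall fun x => lin_ipM_add_left _ _ _ _)

omit [T2Space M] [CompactSpace M] [IsManifold (𝓡 4) ∞ M] [BorelSpace M] in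
theorem ipL_smul_left (g : M → Mat) (c : ℝ) (h k : M → Mat) :
    ipL g (c • h) k = c * ipL g h k := by
  rw [ipL, ipL, ← integral_const_mul]
  exact integral_congr_ae (Eventually.of_forall fun x => lin_ipM_smul_left _ _ _ _)

omit [T2Space M] [CompactSpace M] [IsManifold (𝓡 4) ∞ M] [BorelSpace M] in
theorem ipL_nonneg (hg : GoodT g) (h : M → Mat) : 0 ≤ ipL g h h :=
  integral_nonneg (n0_nonneg hg h)

omit [T2Space M] in
theorem ipL_definite (hg : GoodT g) (hh : InvT ∅ h) (h0 : ipL g h h = 0) : h = 0 :=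
  hg.eq_zero_of_n0 hh.smooth h0

theorem GP_symm (hg : GoodT g) (hu : InvT ∅ u) (hv : InvT ∅ v) :
    ipL g (GP g u) v = ipL g u (GP g v) := int_GP_symm hg hu.smooth hv.smooth

theorem GP_low (hg : GoodT g) :
    ∃ C : ℝ, ∀ u, InvT ∅ u → -C * ipL g u u ≤ ipL g (GP g u) u := by
  obtain ⟨C, hC⟩ := exists_lower hg
  exact ⟨C, fun u hu => hC u hu.smooth hu.symm⟩

omit [TopologicalSpace M] [T2Space M] [CompactSpace M] [ChartedSpace E4 M]
  [IsManifold (𝓡 4) ∞ M] [MeasurableSpace M] [BorelSpace M] in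
theorem GR_add (g u h : M → Mat) : GR g (u + h) = GR g u + GR g h := by
  funext x
  simp only [GR, trg, Pi.add_apply, Matrix.mul_add, Matrix.trace_add]
  module

omit [TopologicalSpace M] [T2Space M] [CompactSpace M] [ChartedSpace E4 M]
  [IsManifold (𝓡 4) ∞ M] [MeasurableSpace M] [BorelSpace M] in
theorem GR_smul (g : M → Mat) (c : ℝ) (u : M → Mat) : GR g (c • u) = c • GR g u := by
  funext x
  simp only [GR, trg, Pi.smul_apply, Matrix.mul_smul, Matrix.trace_smul, smul_eq_mul]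
  module

omit [T2Space M] [CompactSpace M] [IsManifold (𝓡 4) ∞ M] [BorelSpace M] in
theorem GR_symm (hg : GoodT g) (u v : M → Mat) : ipL g (GR g u) v = ipL g u (GR g v) := by
  rw [ipL, ipL, ipg_GR hg]

omit [T2Space M] [CompactSpace M] [IsManifold (𝓡 4) ∞ M] [MeasurableSpace M] [BorelSpace M] in
theorem GR_GR (hg : GoodT g) (u : M → Mat) : GR g (GR g u) = u := by
  funext x
  have e := trg_self hg x
  simp only [GR, trg, Matrix.mul_sub, Matrix.mul_smul, Matrix.trace_sub, Matrix.trace_smul,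
    smul_eq_mul] at e ⊢
  rw [e]
  module

theorem GR_GP (hg : GoodT g) (hu : InvT ∅ u) : GR g (GP g u) = GP g (GR g u) := by
  funext x
  have hU := (chartAt E4 x).open_target
  have e : ∀ p ∈ (chartAt E4 x).target, gpull (ch x) (GR g u) p =
      Rl (gpull (ch x) g) (gpull (ch x) u) p := fun p hp => GR_pull hg (pt_ch x) hp u
  simp only [GP, atc, PP]
  rw [fn_lich_congr hU e (c0_mem x), e _ (c0_mem x),
    fn_lich_Rl (hg.patch (pt_ch x)) (hu.smooth x) (c0_mem x)]
  simp only [GR, trg, atc, PP, Rl, trG, gpull_ch_c0, Matrix.mul_add, Matrix.mul_smul,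
    Matrix.trace_add, Matrix.trace_smul, smul_eq_mul]
  module

theorem GDl_ip (hg : GoodT g) (hu : InvT ∅ u) (hv : InvT ∅ v) :
    ipL g (GDl g u) v = ∫ x, GV g (GBian g u) (GBian g v) x ∂volT g := by
  have hX := smVF_GBian hg hu.smooth
  have hW := Gsh_sm hg (GR_inv hg hv).smooth hX
  have e : ∀ x, ipg g (GDl g u) v x =
      GV g (GBian g u) (GBian g v) x - GDiv g (Gsh g (GR g v) (GBian g u)) x := fun x => by
    have hG := hg.patch (pt_ch x)
    have h1 := fn_adj hG (sym_pull hv (pt_ch x)) (bs_sm_bian hG (hu.smooth x)) (c0_mem x)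
    rw [GDiv_eq (W := fun p => (gpull (ch x) g p)⁻¹ *ᵥ (Rl (gpull (ch x) g) (gpull (ch x) v) p *ᵥ
      bian (gpull (ch x) g) (gpull (ch x) u) p)) fun p hp => by
        rw [Gsh_pull (pt_ch x) hp, GR_pull hg (pt_ch x) hp, (pt_ch x).GBian_eq hp hg hu.smooth],
      ipg_comm hg]
    simp only [ipT, ipV, gpull_ch_c0] at h1
    simp only [ipg, GDl, GV, GBian, atc, Dl, lin_ipM_smul_right]
    linarith
  simp only [ipL, e]
  rw [integral_sub (hg.integrable (GV_sm hg hX (smVF_GBian hg hv.smooth)).continuous)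
    (hg.integrable (sm_GDiv hg hW).continuous), int_GDiv hg hW, sub_zero]

theorem GDl_symm (hg : GoodT g) (hu : InvT ∅ u) (hv : InvT ∅ v) :
    ipL g (GDl g u) v = ipL g (GDl g v) u := by
  rw [GDl_ip hg hu hv, GDl_ip hg hv hu, GV_comm hg]

theorem GDl_pos (hg : GoodT g) (hu : InvT ∅ u) : 0 ≤ ipL g (GDl g u) u := by
  rw [GDl_ip hg hu hu]
  exact integral_nonneg fun x => (hg.pos x).posSemidef.dotProduct_mulVec_nonneg _

theorem GDl_yano (hg : IsE g) (hu : InvT ∅ u) :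
    3 / 2 * ipL g (GDl g u) u ≤ ipL g (GR g (GDl g u)) (GDl g u) := by
  have hX := smVF_GBian hg.1 hu.smooth
  have hL : InvT ∅ (GDl g u) := GDl_inv hg.1 hu
  have hV := GV_sm hg.1 hX hX
  let W : M → Fin 4 → ℝ := Gsh g ((-2 : ℝ) • GDl g u) (GBian g u) -
    fun x => (1 / 2 : ℝ) • GGrad g (GV g (GBian g u) (GBian g u)) x
  have hW : SmVF W := (Gsh_sm hg.1 (hL.smooth.smul _) hX).sub
    ((smVF_GGrad hg.1 hV).fsmul (f := fun _ => 1 / 2) contMDiff_const)
  have e : ∀ x, 3 / 2 * GV g (GBian g u) (GBian g u) x + 1 / 2 * GDiv g W x ≤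
      ipg g (GR g (GDl g u)) (GDl g u) x := fun x => by
    have hG := hg.1.patch (pt_ch x)
    have h1 := fn_yano hG (bs_sm_bian hG (hu.smooth x)) (c0_mem x)
    have h2 : GDiv g W x = _ := GDiv_eq (W := fun p => (gpull (ch x) g p)⁻¹ *ᵥ
        (Rl (gpull (ch x) g) (lie (gpull (ch x) g) (bian (gpull (ch x) g) (gpull (ch x) u))) p *ᵥ
          bian (gpull (ch x) g) (gpull (ch x) u) p) - (1 / 2 : ℝ) • grad (gpull (ch x) g)
          (ipV (gpull (ch x) g) (bian (gpull (ch x) g) (gpull (ch x) u))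
            (bian (gpull (ch x) g) (gpull (ch x) u))) p) fun p hp => by
      have h3 : df (GV g (GBian g u) (GBian g u) ∘ ch x) p = df (ipV (gpull (ch x) g)
          (bian (gpull (ch x) g) (gpull (ch x) u)) (bian (gpull (ch x) g) (gpull (ch x) u))) p :=
        funext fun i => pd_congrOn (chartAt E4 x).open_target (fun q hq => by
          rw [Function.comp_apply, GV_pull (pt_ch x) hq, ipV, ipV,
            (pt_ch x).GBian_eq hq hg.1 hu.smooth]) i hp
      rw [gpullV_sub, gpullV_fsmul, Pi.sub_apply, Gsh_pull (pt_ch x) hp, gpull_smul, Pi.smul_apply,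
        GDl_pull hg.1 hu (pt_ch x) hp, (pt_ch x).GBian_eq hp hg.1 hu.smooth,
        (pt_ch x).GGrad_eq hp hg.1 hV, Dl, smul_smul, grad, grad, h3]
      norm_num
    have h6 := hg.2 x
    have h7 := lin_ipM_nonneg (hg.1.pos x)
      (g x * cov (gpull (ch x) g) (bian (gpull (ch x) g) (gpull (ch x) u)) (c0 x))
    rw [GRic] at h6
    rw [← h2, h6, ipT, gpull_ch_c0, smul_mulVec, dotProduct_smul, smul_eq_mul] at h1
    rw [ipg, GR_GDl hg.1]
    simp only [GDl, GV, GBian, atc, Dl, lin_ipM_smul_right, lin_ipM_smul_left]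
    linarith
  have h8 := integral_mono (((hg.1.integrable hV.continuous).const_mul (3 / 2)).add
    ((hg.1.integrable (sm_GDiv hg.1 hW).continuous).const_mul (1 / 2)))
    (hg.1.integrable (ipg_cont hg.1 (GR_inv hg.1 hL) hL)) e
  rw [integral_add' ((hg.1.integrable hV.continuous).const_mul (3 / 2))
    ((hg.1.integrable (sm_GDiv hg.1 hW).continuous).const_mul (1 / 2)), integral_const_mul,
    integral_const_mul, int_GDiv hg.1 hW, mul_zero, add_zero, ← GDl_ip hg.1 hu hu] at h8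
  exact h8

omit [T2Space M] [CompactSpace M] [MeasurableSpace M] [BorelSpace M] in
theorem Gscal_eq (hg : IsE g) (x : M) : Gscal g x = -12 := by
  have h1 := trg_self hg.1 x
  have h2 := hg.2 x
  rw [GRic] at h2
  rw [trg] at h1
  rw [Gscal, scal, trG, h2, gpull_ch_c0, Matrix.mul_smul, Matrix.trace_smul, h1]
  norm_num

omit [T2Space M] [CompactSpace M] [MeasurableSpace M] [BorelSpace M] in
theorem GEin_zero (hg : IsE g) : GEin g = 0 := by
  funext x
  have h1 := Gscal_eq hg x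
  have h2 := hg.2 x
  rw [GRic] at h2
  rw [Gscal] at h1
  rw [GEin, Ein, h1, h2, gpull_ch_c0, ← sub_smul]
  norm_num

omit [T2Space M] [CompactSpace M] [BorelSpace M] in
theorem ssM_eq (hg : IsE g) : ssM g = -6 * (volT g univ).toReal := by
  simp only [ssM, Gscal_eq hg, integral_const, smul_eq_mul, Measure.real]
  ring

/-- The Bianchi identity. -/
theorem esM_bianchi (hg : GoodT g) (hu : InvT ∅ u) (_hh : InvT ∅ h) (hg' : GoodT (g + h)) :
    esM (g + h) ((-2 : ℝ) • GR g (GDl g u) + Gl1 g u h) = 0 := by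
  have hW := Gsh_sm hg' (GEin_inv hg').smooth (smVF_GBian hg hu.smooth)
  have e : ∀ x, ipg (g + h) (GEin (g + h)) ((-2 : ℝ) • GR g (GDl g u) + Gl1 g u h) x =
      2 * GDiv (g + h) (Gsh (g + h) (GEin (g + h)) (GBian g u)) x := fun x => by
    have hG := hg.patch (pt_ch x)
    have hG' := hg'.patch (pt_ch x)
    have h1 := fn_ein hG' (bs_sm_bian hG (hu.smooth x)) (c0_mem x)
    have h2 := fn_lie_add hG (by rwa [gpull_add] at hG') (hu.smooth x) (c0_mem x)
    rw [GDiv_eq (W := fun p => (gpull (ch x) (g + h) p)⁻¹ *ᵥ (Ein (gpull (ch x) (g + h)) p *ᵥ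
      bian (gpull (ch x) g) (gpull (ch x) u) p)) fun p hp => by
        rw [Gsh_pull (pt_ch x) hp, GEin_pull hg' (pt_ch x) hp, (pt_ch x).GBian_eq hp hg hu.smooth],
      ← h1, ipT, gpull_ch_c0, ← gpull_add] at *
    rw [ipg, Pi.add_apply ((-2 : ℝ) • GR g (GDl g u)), Pi.smul_apply, GR_GDl hg, smul_smul, h2, GEin,
      Gl1, show (-2 : ℝ) * (-1 / 2) = 1 by norm_num, one_smul]
    ring
  simp only [esM, ipL, e]
  rw [integral_const_mul, int_GDiv hg' hW, mul_zero]

/-- The divergence term of the first variation. -/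
theorem exists_div (hg : GoodT g) (hu : InvT ∅ u) : ∃ F : M → ℝ, Continuous F ∧
    ∫ x, F x ∂volT g = 0 ∧ ∀ (Θ : E4 → M) (U : Set E4), Pt Θ U → ∀ y ∈ U,
      F (Θ y) = dvg (gpull Θ g) (Wl (gpull Θ g) (gpull Θ u)) y := by
  have hf := sm_trg hg hu.smooth
  have hW : SmVF (GBian g u - fun x => (1 / 2 : ℝ) • GGrad g (trg g u) x) :=
    (smVF_GBian hg hu.smooth).sub ((smVF_GGrad hg hf).fsmul (f := fun _ => 1 / 2) contMDiff_const)
  refine ⟨_, (sm_GDiv hg hW).continuous, int_GDiv hg hW, fun Θ U hΘ y hy => ?_⟩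
  rw [hΘ.GDiv_eq hy hg hW]
  refine fn_dvg_congr hΘ.isOpen (fun p hp => ?_) hy
  have h3 : df (trg g u ∘ Θ) p = df (trG (gpull Θ g) (gpull Θ u)) p :=
    funext fun i => pd_congrOn hΘ.isOpen (fun q hq => hΘ.trg_eq hq g u) i hp
  rw [gpullV_sub, gpullV_fsmul, Pi.sub_apply, hΘ.GBian_eq hp hg hu.smooth, hΘ.GGrad_eq hp hg hf, Wl,
    grad, grad, h3]

end Pool.Agent.Lib.MP_94aef8_gt.E2
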