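import Pool.Agent.Lib.MP_94aef8_gt.E2.MId
import Pool.Agent.Lib.MP_94aef8_gt.E.Main

/-! The smooth symmetric tensor fields as an inner product space. -/

open scoped Manifold ContDiff Topology InnerProductSpace
open Filter Set MeasureTheory Matrix

namespace Pool.Agent.Lib.MP_94aef8_gt.E2

theorem pow_bound {V : Type} [NormedAddCommGroup V] [NormedSpace ℝ V] (P R : V →ₗ[ℝ] V) (c : ℝ)
    (h : ∀ u, R u = P u + c • u) (n : ℕ) : ∃ C : ℝ, 0 ≤ C ∧ ∀ (u : V) (t : ℝ),
      (∀ i ≤ n, ‖P^[i] u‖ ≤ t) → ‖R^[n] u‖ ≤ C * t := by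
  induction n with
  | zero => exact ⟨1, zero_le_one, fun u t ht => by simpa using ht 0 le_rfl⟩
  | succ n ih =>
    obtain ⟨C, hC, ih⟩ := ih
    refine ⟨C + |c| * C, by positivity, fun u t ht => ?_⟩
    have e : R^[n + 1] u = R^[n] (P u) + c • R^[n] u := by
      rw [Function.iterate_succ_apply, h, ← Module.End.pow_apply, map_add, map_smul,
        Module.End.pow_apply, Module.End.pow_apply]
    have h1 := ih (P u) t fun i hi => by
      rw [← Function.iterate_succ_apply]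
      exact ht _ (by omega)
    have h2 := ih u t fun i hi => ht i (by omega)
    rw [e]
    refine (norm_add_le _ _).trans ?_
    rw [norm_smul, Real.norm_eq_abs, add_mul, mul_assoc]
    gcongr

variable {M : Type} [TopologicalSpace M] [T2Space M] [CompactSpace M] [ChartedSpace E4 M]
  [IsManifold (𝓡 4) ∞ M] [MeasurableSpace M] [BorelSpace M]

/-- The space `V` represents the smooth symmetric fields with the scalar product of `g`. -/
structure Rep (g : M → Mat) (V : Type) [NormedAddCommGroup V] [InnerProductSpace ℝ V] where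
  val : V →ₗ[ℝ] (M → Mat)
  inj : Function.Injective val
  mem : ∀ u, InvT ∅ (val u)
  surj : ∀ h, InvT ∅ h → ∃ u, val u = h
  inner : ∀ u v, ⟪u, v⟫_ℝ = ipL g (val u) (val v)

variable (M) in
/-- The smooth symmetric fields. -/
def TS : Submodule ℝ (M → Mat) where
  carrier := {h | InvT ∅ h}
  add_mem' := fun hu hh => inv_add hu hh
  zero_mem' := inv_zero
  smul_mem' := fun c _ hu => inv_smul c hu

variable (M) in
/-- A copy without topology. -/
def TV : Type := TS M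

noncomputable instance : AddCommGroup (TV M) := inferInstanceAs (AddCommGroup (TS M))

noncomputable instance : Module ℝ (TV M) := inferInstanceAs (Module ℝ (TS M))

/-- The underlying field. -/
noncomputable def tval : TV M →ₗ[ℝ] (M → Mat) := (TS M).subtype

theorem tval_mem (u : TV M) : InvT ∅ (tval u) := (show TS M from u).2

/-- The scalar product. -/
@[reducible] noncomputable def tcore {g : M → Mat} (hg : GoodT g) :
    InnerProductSpace.Core ℝ (TV M) where
  inner := fun u v => ipL g (tval u) (tval v)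
  conj_inner_symm := fun u v => ipL_comm hg _ _
  re_inner_nonneg := fun u => ipL_nonneg hg _
  add_left := fun u v w => by
    rw [map_add]
    exact ipL_add_left hg (tval_mem u) (tval_mem v) (tval_mem w)
  smul_left := fun u v c => by
    rw [map_smul]
    exact ipL_smul_left g c _ _
  definite := fun u hu => Subtype.ext (ipL_definite hg (tval_mem u) hu)

theorem exists_rep {g : M → Mat} (hg : GoodT g) : ∃ (V : Type) (_ : NormedAddCommGroup V)
    (_ : InnerProductSpace ℝ V), Nonempty (Rep g V) := by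
  letI := tcore hg
  letI : NormedAddCommGroup (TV M) := InnerProductSpace.Core.toNormedAddCommGroup (𝕜 := ℝ)
  letI : InnerProductSpace ℝ (TV M) := InnerProductSpace.ofCore (tcore hg).toCore
  exact ⟨TV M, inferInstance, inferInstance, ⟨⟨tval, Subtype.val_injective, tval_mem,
    fun h hh => ⟨⟨h, hh⟩, rfl⟩, fun _ _ => rfl⟩⟩⟩

namespace Rep

variable {g : M → Mat} {V : Type} [NormedAddCommGroup V] [InnerProductSpace ℝ V] (r : Rep g V)

theorem lift (φ : (M → Mat) → M → Mat) (h1 : ∀ u, InvT ∅ u → InvT ∅ (φ u))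
    (h2 : ∀ u h, InvT ∅ u → InvT ∅ h → φ (u + h) = φ u + φ h)
    (h3 : ∀ (c : ℝ) u, InvT ∅ u → φ (c • u) = c • φ u) :
    ∃ Φ : V →ₗ[ℝ] V, ∀ u, r.val (Φ u) = φ (r.val u) := by
  choose f hf using fun u : V => r.surj _ (h1 _ (r.mem u))
  refine ⟨⟨⟨f, fun u v => r.inj ?_⟩, fun c u => r.inj ?_⟩, hf⟩
  · rw [hf, map_add, map_add, hf, hf, h2 _ _ (r.mem u) (r.mem v)]
  · simp only [RingHom.id_apply, map_smul, hf, h3 _ _ (r.mem u)]

theorem lift2 (hg : GoodT g) :
    ∃ Φ : V →ₗ[ℝ] V →ₗ[ℝ] V, ∀ u h, r.val (Φ u h) = Gl1 g (r.val u) (r.val h) := by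
  choose f hf using fun u h : V => r.surj _ (Gl1_inv hg (r.mem u) (r.mem h))
  refine ⟨LinearMap.mk₂ ℝ f (fun u k h => r.inj ?_) (fun c u h => r.inj ?_)
    (fun u h k => r.inj ?_) (fun c u h => r.inj ?_), hf⟩
  · rw [hf, map_add, map_add, hf, hf, Gl1_add_left hg (r.mem u) (r.mem k) (r.mem h)]
  · rw [hf, map_smul, map_smul, hf, Gl1_smul_left hg c (r.mem u) (r.mem h)]
  · rw [hf, map_add, map_add, hf, hf, Gl1_add_right hg (r.mem u) (r.mem h) (r.mem k)]
  · rw [hf, map_smul, map_smul, hf, Gl1_smul_right hg c (r.mem u) (r.mem h)]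

theorem exists_A (hg : GoodT g) : ∃ (P : V →ₗ[ℝ] V) (A : V ≃ₗ[ℝ] V) (lam : ℝ), lam ≠ 0 ∧
    (∀ u, r.val (P u) = GP g (r.val u)) ∧ (∀ u, A u = P u + lam • u) ∧ (∀ u, ‖u‖ ≤ ‖A u‖) ∧
    (∀ u v, ⟪A u, v⟫_ℝ = ⟪u, A v⟫_ℝ) ∧
    (∃ C : ℝ, 0 ≤ C ∧ ∀ u, ∀ j ≤ 5,
      ipL g ((GP g)^[j] (r.val u)) ((GP g)^[j] (r.val u)) ≤ C * ‖(A ^ 5) u‖ ^ 2) ∧
    ∀ n : ℕ, ∃ C : ℝ, 0 ≤ C ∧ ∀ (u : V) (t : ℝ),
      (∀ j ≤ n, ipL g ((GP g)^[j] (r.val u)) ((GP g)^[j] (r.val u)) ≤ t) →
        ‖(A ^ n) u‖ ^ 2 ≤ C * t := by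
  obtain ⟨P, hP⟩ := r.lift (GP g) (fun _ hu => GP_inv hg hu) (fun _ _ hu hh => GP_add hg hu hh)
    fun c _ hu => GP_smul hg c hu
  obtain ⟨l0, hl0⟩ := thmE0 hg
  obtain ⟨C, hC⟩ := GP_low hg
  obtain ⟨lam, h1, h2, h3⟩ : ∃ lam : ℝ, l0 ≤ lam ∧ C + 1 ≤ lam ∧ 1 ≤ lam :=
    ⟨max l0 (max (C + 1) 1), le_max_left _ _, (le_max_left _ _).trans (le_max_right _ _),
      (le_max_right _ _).trans (le_max_right _ _)⟩
  set A0 : V →ₗ[ℝ] V := P + lam • LinearMap.id with hA0
  have hA : ∀ u, A0 u = P u + lam • u := fun u => rfl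
  have hlow : ∀ u, ‖u‖ ≤ ‖A0 u‖ := by
    intro u
    have e1 := hC _ (r.mem u)
    rw [← hP, ← r.inner, ← r.inner, real_inner_self_eq_norm_sq] at e1
    have e2 : ⟪A0 u, u⟫_ℝ = ⟪P u, u⟫_ℝ + lam * ‖u‖ ^ 2 := by
      rw [hA, inner_add_left, real_inner_smul_left, real_inner_self_eq_norm_sq]
    have e3 := real_inner_le_norm (A0 u) u
    have e4 : ‖u‖ * ‖u‖ ≤ ‖A0 u‖ * ‖u‖ := by nlinarith [sq_nonneg ‖u‖]
    rcases (norm_nonneg u).eq_or_lt with h | h
    · rw [← h]
      exact norm_nonneg _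
    · exact le_of_mul_le_mul_right e4 h
  have hinj : Function.Injective A0 := (injective_iff_map_eq_zero _).2 fun u hu =>
    norm_le_zero_iff.1 (by simpa only [hu, norm_zero] using hlow u)
  have hsur : Function.Surjective A0 := by
    intro f
    obtain ⟨h, hh, e⟩ := hl0 lam h1 _ (r.mem f)
    obtain ⟨u, rfl⟩ := r.surj h hh
    refine ⟨u, r.inj ?_⟩
    rw [hA, map_add, map_smul, hP]
    exact funext e
  have hit : ∀ (j : ℕ) (u : V), r.val (P^[j] u) = (GP g)^[j] (r.val u) := by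
    intro j u
    induction j with
    | zero => rfl
    | succ j ih => rw [Function.iterate_succ_apply', Function.iterate_succ_apply', hP, ih]
  have hn : ∀ (j : ℕ) (u : V),
      ipL g ((GP g)^[j] (r.val u)) ((GP g)^[j] (r.val u)) = ‖P^[j] u‖ ^ 2 := by
    intro j u
    rw [← hit, ← r.inner, real_inner_self_eq_norm_sq]
  have hpow : ∀ (n : ℕ) (u : V), (LinearEquiv.ofBijective A0 ⟨hinj, hsur⟩ ^ n) u = A0^[n] u :=
    fun n u => LinearEquiv.pow_apply _ n u
  refine ⟨P, LinearEquiv.ofBijective A0 ⟨hinj, hsur⟩, lam, by positivity, hP, hA, hlow,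
    fun u v => ?_, ?_, fun n => ?_⟩
  · change ⟪A0 u, v⟫_ℝ = ⟪u, A0 v⟫_ℝ
    rw [hA, hA, inner_add_left, inner_add_right, real_inner_smul_left, real_inner_smul_right,
      r.inner, r.inner u (P v), hP, hP, GP_symm hg (r.mem u) (r.mem v)]
  · have hm : ∀ (u : V) {i k : ℕ}, i ≤ k → ‖A0^[i] u‖ ≤ ‖A0^[k] u‖ := by
      intro u i k hik
      induction hik with
      | refl => exact le_rfl
      | step _ ih =>
        rw [Function.iterate_succ_apply']
        exact ih.trans (hlow _)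
    choose D hD0 hD using pow_bound A0 P (-lam) fun u => by rw [hA]; module
    refine ⟨∑ j ∈ Finset.range 6, D j ^ 2, by positivity, fun u j hj => ?_⟩
    have e1 := hD j u ‖A0^[5] u‖ fun i hi => hm u (hi.trans hj)
    rw [hn, hpow]
    refine (pow_le_pow_left₀ (norm_nonneg _) e1 2).trans ?_
    rw [mul_pow]
    gcongr
    exact Finset.single_le_sum (f := fun j => D j ^ 2) (fun _ _ => sq_nonneg _)
      (Finset.mem_range.2 (by omega))
  · obtain ⟨D, hD0, hD⟩ := pow_bound P A0 lam hA n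
    refine ⟨D ^ 2, by positivity, fun u t ht => ?_⟩
    have t0 : 0 ≤ t := (ipL_nonneg hg _).trans (ht 0 (Nat.zero_le _))
    have e1 := hD u √t fun i hi => Real.le_sqrt_of_sq_le (by rw [← hn]; exact ht i hi)
    rw [hpow]
    refine (pow_le_pow_left₀ (norm_nonneg _) e1 2).trans ?_
    rw [mul_pow, Real.sq_sqrt t0]

end Rep

end Pool.Agent.Lib.MP_94aef8_gt.E2
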