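import Pool.Agent.Lib.MP_94aef8_gt.Ops

/-! Derivatives of curves of matrices. -/

open scoped Topology
open Filter Matrix

namespace Pool.Agent.Lib.MP_94aef8_gt

namespace E2

/-- The curve `F` of matrices has the derivative `F'` at zero. -/
def MD0 (F : ℝ → Mat) (F' : Mat) : Prop := ∀ i j, HasDerivAt (fun s => F s i j) (F' i j) 0

variable {F K : ℝ → Mat} {F' K' : Mat} {f : ℝ → ℝ} {f' : ℝ}

theorem MD0.const (A : Mat) : MD0 (fun _ => A) 0 := fun i j => hasDerivAt_const 0 (A i j)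

theorem MD0.add (hF : MD0 F F') (hK : MD0 K K') : MD0 (fun s => F s + K s) (F' + K') :=
  fun i j => (hF i j).add (hK i j)

theorem MD0.sub (hF : MD0 F F') (hK : MD0 K K') : MD0 (fun s => F s - K s) (F' - K') :=
  fun i j => (hF i j).sub (hK i j)

theorem MD0.mul (hF : MD0 F F') (hK : MD0 K K') :
    MD0 (fun s => F s * K s) (F' * K 0 + F 0 * K') := fun i j => by
  simp only [Matrix.add_apply, Matrix.mul_apply, ← Finset.sum_add_distrib]
  exact HasDerivAt.fun_sum fun e _ => (hF i e).mul (hK e j)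

theorem MD0.smul (hf : HasDerivAt f f' 0) (hF : MD0 F F') :
    MD0 (fun s => f s • F s) (f' • F 0 + f 0 • F') := fun i j => hf.mul (hF i j)

theorem MD0.csmul (c : ℝ) (hF : MD0 F F') : MD0 (fun s => c • F s) (c • F') :=
  fun i j => (hF i j).const_mul c

theorem MD0.trace (hF : MD0 F F') : HasDerivAt (fun s => (F s).trace) F'.trace 0 :=
  HasDerivAt.fun_sum fun e _ => hF e e

theorem MD0.congr (hF : MD0 F F') (e : ∀ᶠ s in 𝓝 (0 : ℝ), K s = F s) (e' : K' = F') :
    MD0 K K' := fun i j => by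
  rw [e']
  exact (hF i j).congr_of_eventuallyEq (e.mono fun s hs => by simp only [hs])

theorem MD0.line (G u : Mat) : MD0 (fun s => G + s • u) u := fun i j => by
  simpa using ((hasDerivAt_id (0 : ℝ)).mul_const (u i j)).const_add (G i j)

theorem det_line {G : Mat} (hG : G.det ≠ 0) (u : Mat) :
    HasDerivAt (fun s : ℝ => (G + s • u).det) (G.det * (G⁻¹ * u).trace) 0 := by
  have e : ∀ s : ℝ, (G + s • u).det = G.det * (1 + s • (G⁻¹ * u)).det := fun s => by
    rw [← Matrix.det_mul, Matrix.mul_add, Matrix.mul_one, Matrix.mul_smul, ← Matrix.mul_assoc,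
      Matrix.mul_nonsing_inv _ hG.isUnit, Matrix.one_mul]
  obtain ⟨P, hP⟩ : ∃ P : Polynomial ℝ, ∀ s : ℝ, (1 + s • (G⁻¹ * u)).det =
      1 + (G⁻¹ * u).trace * s + P.eval s * s ^ 2 := ⟨_, fun s => Matrix.det_one_add_smul s _⟩
  simp only [e, hP]
  refine HasDerivAt.const_mul _ ?_
  have h1 := ((hasDerivAt_id (0 : ℝ)).const_mul (G⁻¹ * u).trace).const_add 1
  have h2 := (P.hasDerivAt (0 : ℝ)).mul (hasDerivAt_pow 2 (0 : ℝ))
  exact (h1.add h2).congr_deriv (by simp)

theorem det_line_ne {G : Mat} (hG : G.det ≠ 0) (u : Mat) :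
    ∀ᶠ s in 𝓝 (0 : ℝ), (G + s • u).det ≠ 0 :=
  (det_line hG u).continuousAt.eventually_ne (by simpa using hG)

theorem sqrt_det_line {G : Mat} (hG : 0 < G.det) (u : Mat) :
    HasDerivAt (fun s : ℝ => √(G + s • u).det) (1 / 2 * (G⁻¹ * u).trace * √G.det) 0 := by
  have h1 := (det_line hG.ne' u).sqrt (by simpa using hG.ne')
  refine h1.congr_deriv ?_
  have h2 := Real.sqrt_pos.2 hG
  have h3 := Real.mul_self_sqrt hG.le
  simp only [zero_smul, add_zero]
  rw [div_eq_iff (by positivity)]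
  linear_combination (-(G⁻¹ * u).trace) * h3

theorem inv_line_cont {G : Mat} (hG : G.det ≠ 0) (u : Mat) (i j : Fin 4) :
    ContinuousAt (fun s : ℝ => (G + s • u)⁻¹ i j) 0 := by
  simp only [Matrix.inv_def, Matrix.smul_apply, smul_eq_mul, Ring.inverse_eq_inv']
  have h1 : Continuous fun s : ℝ => G + s • u := by fun_prop
  exact ((det_line hG u).continuousAt.inv₀ (by simpa using hG)).mul
    ((h1.matrix_adjugate.matrix_elem i j).continuousAt)

theorem MD0.inv_line {G : Mat} (hG : G.det ≠ 0) (u : Mat) :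
    MD0 (fun s => (G + s • u)⁻¹) (-(G⁻¹ * u * G⁻¹)) := by
  have h1 : ∀ᶠ s in 𝓝 (0 : ℝ), (G + s • u)⁻¹ = G⁻¹ - s • (G⁻¹ * u * (G + s • u)⁻¹) := by
    filter_upwards [det_line_ne hG u] with s hs
    have e1 := Matrix.nonsing_inv_mul G hG.isUnit
    have e2 := Matrix.mul_nonsing_inv _ hs.isUnit
    calc (G + s • u)⁻¹ = G⁻¹ * G * (G + s • u)⁻¹ := by rw [e1, Matrix.one_mul]
      _ = G⁻¹ * ((G + s • u) * (G + s • u)⁻¹) - s • (G⁻¹ * u * (G + s • u)⁻¹) := by
        simp only [Matrix.add_mul, Matrix.mul_add, Matrix.smul_mul, Matrix.mul_smul,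
          Matrix.mul_assoc, add_sub_cancel_right]
      _ = _ := by rw [e2, Matrix.mul_one]
  have h2 : MD0 (fun s => s • (G⁻¹ * u * (G + s • u)⁻¹)) (G⁻¹ * u * G⁻¹) := fun i j => by
    have h3 : ContinuousAt (fun s : ℝ => (G⁻¹ * u * (G + s • u)⁻¹) i j) 0 := by
      simp only [Matrix.mul_apply (M := G⁻¹ * u)]
      exact tendsto_finsetSum _ fun e _ => continuousAt_const.mul (inv_line_cont hG u e j)
    rw [hasDerivAt_iff_tendsto_slope_zero]
    have h4 := h3.tendsto.mono_left (nhdsWithin_le_nhds (s := {0}ᶜ))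
    simp only [zero_smul, add_zero] at h4
    refine h4.congr' (eventually_nhdsWithin_of_forall fun s hs => ?_)
    have hs' : s ≠ 0 := hs
    simp only [zero_add, Matrix.smul_apply, zero_mul, sub_zero, smul_eq_mul]
    field_simp
  exact ((MD0.const G⁻¹).sub h2).congr h1 (zero_sub _).symm

end E2

end Pool.Agent.Lib.MP_94aef8_gt
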