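import Pool.Agent.Lib.MP_94aef8_gt.B.Lift
import Pool.Agent.Lib.MP_94aef8_gt.B.Dual
import Pool.Agent.Lib.MP_94aef8_gt.E2.MatD

/-! The derivative of the Ricci tensor along a line of metrics. -/

open scoped ContDiff Topology
open Filter Set Matrix

namespace Pool.Agent.Lib.MP_94aef8_gt

namespace E2

open Geo

variable {W : Set (ℝ × E4)} {s : ℝ} {y : E4}

theorem slc_mem (hW : IsOpen W) (h : (s, y) ∈ W) : ∀ᶠ p in 𝓝 y, (s, p) ∈ W :=
  (Continuous.prodMk_right s).continuousAt.eventually_mem (hW.mem_nhds h)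

/-- The germ at `y` of the slice at time `s`. -/
noncomputable def slc (hW : IsOpen W) (h : (s, y) ∈ W) : SU W →+* Germ (𝓝 y) ℝ where
  toFun a := a.1.compTendsto (fun p => (s, p)) (tendsto_principal.2 (slc_mem hW h))
  map_one' := rfl
  map_zero' := rfl
  map_mul' := by
    rintro ⟨_, f, hf, rfl⟩ ⟨_, g, hg, rfl⟩
    rfl
  map_add' := by
    rintro ⟨_, f, hf, rfl⟩ ⟨_, g, hg, rfl⟩
    rfl

theorem slc_of (hW : IsOpen W) (h : (s, y) ∈ W) {a : SU W} {f : ℝ × E4 → ℝ}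
    (e : iu W a = cg (𝓟 W) f) : R0 (slc hW h) a fun p => f (s, p) := by
  change a.1.compTendsto _ (tendsto_principal.2 (slc_mem hW h)) = _
  rw [show a.1 = cg (𝓟 W) f from e]
  rfl

theorem dd_slc {f : ℝ × E4 → ℝ} (hf : DifferentiableAt ℝ f (s, y)) (v : E4) :
    dd (0, v) f (s, y) = dd v (fun p => f (s, p)) y := by
  have h1 := (hf.hasFDerivAt.comp y (hasFDerivAt_prodMk_right (𝕜 := ℝ) s y)).fderiv
  exact (congrArg (fun L => L v) h1).symm

theorem dd_time {f : ℝ × E4 → ℝ} (hf : DifferentiableAt ℝ f (s, y)) :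
    HasDerivAt (fun t => f (t, y)) (dd (1, 0) f (s, y)) s :=
  hf.hasFDerivAt.comp_hasDerivAt s ((hasDerivAt_id s).prodMk (hasDerivAt_const s y))

theorem slc_D (hW : IsOpen W) (h : (s, y) ∈ W) (v : E4) (a : SU W) :
    slc hW h (sD hW (0, v) a) = gD (locF_nhds y) v (slc hW h a) := by
  obtain ⟨f, hf, rfl⟩ := ex_sgm a
  exact cg_eq.2 ((slc_mem hW h).mono fun p hp => dd_slc (diffAt' hW hf hp) v)

variable {G u : Tn} {U : Set E4}

theorem ric_deriv (hG : Good G U) (hu : SymT u U) (hy : y ∈ U) :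
    MD0 (fun s => ric (G + s • u) y) (ricL G u y) := by
  let K : ℝ × E4 → Mat := fun z => G z.2 + z.1 • u z.2
  have hO : IsOpen (univ ×ˢ U : Set (ℝ × E4)) := isOpen_univ.prod hG.isOpen
  have hK : ∀ i j, ContDiffOn ℝ ∞ (fun z => K z i j) (univ ×ˢ U) := fun i j =>
    ((hG.smooth i j).comp contDiffOn_snd fun z hz => hz.2).add
      (contDiffOn_fst.mul ((hu.smooth i j).comp contDiffOn_snd fun z hz => hz.2))
  have hW : IsOpen (univ ×ˢ U ∩ (fun z => (K z).det) ⁻¹' {0}ᶜ) :=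
    (smooth_det hK).continuousOn.isOpen_inter_preimage hO isOpen_compl_singleton
  set W := univ ×ˢ U ∩ (fun z => (K z).det) ⁻¹' {0}ᶜ
  have hK' : ∀ i j, ContDiffOn ℝ ∞ (fun z => K z i j) W := fun i j => (hK i j).mono inter_subset_left
  let v : Fin 4 → ℝ × E4 := fun i => (0, bas i)
  let c : Geo (ℝ × E4 → ℝ) := ⟨fun i => dd (v i), fun _ => 1 / 2, Matrix.of fun i j z => K z i j,
    Matrix.of fun i j z => (K z)⁻¹ i j⟩
  obtain ⟨a, ok, hD, F⟩ := lift_geo hW v c rfl hK' (smooth_inv hK' fun z hz => hz.2)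
    (fun z hz i j => by
      have e := ((hG.symT.add (hu.csmul z.1)).symm z.2 hz.1.2)
      exact congrFun (congrFun e i) j)
    (fun z hz i j => by
      have e := Matrix.mul_nonsing_inv (K z) (Ne.isUnit hz.2)
      have e' := congrFun (congrFun e i) j
      by_cases h : i = j <;> simpa [c, Matrix.mul_apply, Matrix.one_apply, h] using e')
  have Z : ∀ {s : ℝ} (h : (s, y) ∈ W), Zig (slc hW h) a (G + s • u) := fun {s} h =>
    ⟨gG (locF_nhds y) bas (geo (G + s • u)), ⟨fun i x => by rw [hD]; exact slc_D hW h _ x,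
      slc_of hW h F.hf, Matrix.ext fun i j => slc_of hW h (F.Ga i j),
      Matrix.ext fun i j => slc_of hW h (F.Ha i j)⟩, hom_gG _ rfl⟩
  have h0 : ((0 : ℝ), y) ∈ W := ⟨⟨trivial, hy⟩, by simpa [K] using (hG.det_pos hy).ne'⟩
  have hv := ok.ric_var (δ := sD hW (1, 0)) (sD_add hW _) (sD_mul hW _) fun i x => by
    rw [hD]; exact sD_comm hW _ _ x
  have hδ : ∀ {x : SU W} {f : ℝ × E4 → ℝ}, iu W x = cg (𝓟 W) f →
      iu W (sD hW (1, 0) x) = cg (𝓟 W) (dd (1, 0) f) := fun {x f} e => by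
    change gD (locF_open hW) _ x.1 = _
    rw [show x.1 = cg (𝓟 W) f from e]
    rfl
  have r : RT (slc hW h0) (a.G.map (sD hW (1, 0))) u := RT.of fun i j =>
    (slc_of hW h0 (hδ (F.Ga i j))).congr ((slc_mem hW h0).mono fun p hp =>
      (dd_time (diffAt' hW (hK' i j) hp)).unique (MD0.line (G p) (u p) i j))
  have r' := (Z h0).ricL r
  rw [zero_smul, add_zero, ← hv] at r'
  intro i j
  obtain ⟨f, hf, e⟩ := ex_sgm (a.ric i j)
  have e' : iu W (a.ric i j) = cg (𝓟 W) f := by rw [e]; rfl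
  have h1 := ((slc_of hW h0 (hδ e')).ev (r'.entry i j) rfl).eq_of_nhds
  refine ((dd_time (diffAt' hW hf h0)).congr_deriv h1).congr_of_eventuallyEq ?_
  filter_upwards [(Continuous.prodMk_left y).continuousAt.eventually_mem (hW.mem_nhds h0)] with s hs
  exact (((Z hs).ric.entry i j).ev (slc_of hW hs e') rfl).eq_of_nhds

end E2

end Pool.Agent.Lib.MP_94aef8_gt
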