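import Pool.Agent.Lib.MP_94aef8_gt.E2.FnId
import Pool.Agent.Lib.MP_94aef8_gt.E2.RicD

/-! The first and the second variation of the action, pointwise. -/

open scoped ContDiff Topology
open Filter Set MeasureTheory Matrix

namespace Pool.Agent.Lib.MP_94aef8_gt.E2

variable {G u v : Tn} {U : Set E4} {y : E4}

theorem scal_deriv (hG : Good G U) (hu : SymT u U) (hy : y ∈ U) :
    HasDerivAt (fun s : ℝ => scal (G + s • u) y)
      (-((G y)⁻¹ * u y * (G y)⁻¹ * ric G y).trace + trG G (ricL G u) y) 0 := by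
  refine ((MD0.inv_line (hG.det_pos hy).ne' (u y)).mul (ric_deriv hG hu hy)).trace.congr_deriv ?_
  simp only [zero_smul, add_zero, Matrix.trace_add, Matrix.neg_mul, Matrix.trace_neg, trG]

theorem rho_deriv (hG : Good G U) (u : Tn) (hy : y ∈ U) :
    HasDerivAt (fun s : ℝ => rho (G + s • u) y) (1 / 2 * trG G u y * rho G y) 0 :=
  sqrt_det_line (hG.det_pos hy) (u y)

theorem sDen_deriv (hG : Good G U) (hu : SymT u U) (hy : y ∈ U) :
    HasDerivAt (fun s : ℝ => sDen (G + s • u) y)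
      (-eDen G u y + dvg G (Wl G u) y * rho G y) 0 := by
  refine (((scal_deriv hG hu hy).add_const 6).mul (rho_deriv hG u hy)).congr_deriv ?_
  have e1 : ipT G (Ein G) u y =
      ((G y)⁻¹ * u y * (G y)⁻¹ * ric G y).trace - (scal G y / 2 + 3) * trG G u y := by
    rw [ipT, ipM, Ein, hu.symm y hy, Matrix.mul_sub, Matrix.sub_mul, Matrix.sub_mul,
      Matrix.trace_sub, Matrix.mul_smul, hG.inv_mul hy, Matrix.smul_mul, Matrix.smul_mul,
      Matrix.one_mul, Matrix.trace_smul, smul_eq_mul, Matrix.mul_assoc _ _ (u y),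
      Matrix.trace_mul_comm, ← Matrix.mul_assoc]
    rfl
  simp only [zero_smul, add_zero, eDen, e1, fn_trG_ricL hG hu.smooth hy]
  ring

theorem eDen_deriv (hG : Good G U) (hE : ∀ p ∈ U, ric G p = (-3 : ℝ) • G p) (hu : SymT u U)
    (v : Tn) (hy : y ∈ U) :
    HasDerivAt (fun s : ℝ => eDen (G + s • u) v y)
      (ipT G ((1 / 2 : ℝ) • Rl G (PP G u) - Dl G u) v y * rho G y) 0 := by
  have e0 : scal G y = -12 := by
    rw [scal, trG, hE y hy, Matrix.mul_smul, hG.inv_mul hy, Matrix.trace_smul, Matrix.trace_one]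
    norm_num
  have e1 : Ein G y = 0 := by
    rw [Ein, e0, hE y hy, ← sub_smul]
    norm_num
  have h1 : MD0 (fun s => Ein (G + s • u) y) (((1 / 2 : ℝ) • Rl G (PP G u) - Dl G u) y) := by
    refine ((ric_deriv hG hu hy).sub (MD0.smul (((scal_deriv hG hu hy).div_const 2).add_const 3)
      (MD0.line (G y) (u y)))).congr (Eventually.of_forall fun s => rfl) ?_
    have e2 : (G y)⁻¹ * u y * (G y)⁻¹ * ric G y = (-3 : ℝ) • ((G y)⁻¹ * u y) := by
      rw [hE y hy, Matrix.mul_smul, Matrix.mul_assoc, hG.inv_mul hy, Matrix.mul_one]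
    simp only [zero_smul, add_zero, e0, e2, Pi.sub_apply, Pi.smul_apply, Rl, Dl, PP, ricL, trG,
      Matrix.mul_add, Matrix.mul_smul, Matrix.trace_add, Matrix.trace_smul, smul_eq_mul]
    module
  have h2 := MD0.inv_line (hG.det_pos hy).ne' (u y)
  refine ((((h2.mul h1).mul h2).mul (MD0.const (v y)ᵀ)).trace.mul
    (rho_deriv hG u hy)).congr_deriv ?_
  simp only [zero_smul, add_zero, e1, Matrix.mul_zero, zero_add,
    Matrix.trace_zero, zero_mul, ipT, ipM]

end Pool.Agent.Lib.MP_94aef8_gt.E2
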