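import Pool.Agent.Lib.MP_94aef8_gt.E2.PDefs

open scoped ContDiff Topology InnerProductSpace
open Filter Set MeasureTheory Matrix UniformSpace

namespace Pool.Agent.Lib.MP_94aef8_gt.E2

variable {V I : Type} [NormedAddCommGroup V] [InnerProductSpace ℝ V] [Fintype I] {d : PD V I}

/-- `sob`, `hs_pdw`, `hs_mono`, `locb`. -/
theorem PD.sup (H : d.Hyp) : ∃ C : ℝ, 0 ≤ C ∧ ∀ (a : I) (u : V) (w : List (Fin 4)), w.length ≤ 1 →
    ∀ (i k : Fin 4), ∀ y ∈ Q (3 / 2),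
      |pdw w (fun z => d.loc a u z i k) y| ≤ C * ‖(d.A ^ 5) u‖ := by
  obtain ⟨C₁, h1⟩ := H.sob
  obtain ⟨C₂, h2⟩ := H.locb
  refine ⟨√(|C₁| * |C₂|), Real.sqrt_nonneg _, fun a u w hw i k y hy =>
    abs_le_of_sq_le_sq ?_ (by positivity)⟩
  have h3 : hs 10 (Q (3 / 2)) (fun z => d.loc a u z i k) ≤ hsM 10 (Q (3 / 2)) (d.loc a u) :=
    (Finset.single_le_sum (f := fun k => hs 10 (Q (3 / 2)) fun z => d.loc a u z i k)
      (fun _ _ => hs_nonneg _ _ _) (Finset.mem_univ k)).trans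
      (Finset.single_le_sum (f := fun i => ∑ k, hs 10 (Q (3 / 2)) fun z => d.loc a u z i k)
        (fun _ _ => Finset.sum_nonneg fun _ _ => hs_nonneg _ _ _) (Finset.mem_univ i))
  have h4 := ((hs_pdw 4 _ _ w).trans (hs_mono (by omega) _ _)).trans (h3.trans ((h2 a u).trans
    (mul_le_mul_of_nonneg_right (le_abs_self C₂) (sq_nonneg _))))
  rw [mul_pow, Real.sq_sqrt (by positivity), mul_assoc]
  exact (h1 _ (sm_pdw (isOpen_Q 3) ((H.sym a u).smooth i k) w) y hy).trans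
    (mul_le_mul (le_abs_self C₁) h4 (hs_nonneg _ _ _) (abs_nonneg _))

theorem net_pd {M : Mat} (hs : Mᵀ = M) (h : ∀ u : Fin 4 → ℝ, ‖u‖ = 1 → 0 < u ⬝ᵥ M *ᵥ u) :
    M.PosDef := by
  refine PosDef.of_dotProduct_mulVec_pos (by rwa [IsHermitian, conjTranspose_eq_transpose_of_trivial])
    fun v hv => ?_
  have h0 : 0 < ‖v‖ := norm_pos_iff.2 hv
  have h1 := h (‖v‖⁻¹ • v) (by rw [norm_smul, norm_inv, norm_norm, inv_mul_cancel₀ h0.ne'])
  rw [mulVec_smul, smul_dotProduct, dotProduct_smul, smul_eq_mul, smul_eq_mul] at h1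
  exact (mul_pos_iff_of_pos_left (inv_pos.2 h0)).1 ((mul_pos_iff_of_pos_left (inv_pos.2 h0)).1 h1)

theorem net_small {M : Mat} {t : ℝ} (h : ∀ i k, |M i k| ≤ t) {u : Fin 4 → ℝ} (hu : ‖u‖ = 1) :
    |u ⬝ᵥ M *ᵥ u| ≤ 16 * t := by
  have h1 : ∀ i, |u i| ≤ 1 := fun i => (norm_le_pi_norm u i).trans hu.le
  have h2 : ∀ i k, |u i * (M i k * u k)| ≤ t := fun i k => by
    rw [abs_mul, abs_mul]
    exact (mul_le_of_le_one_left (by positivity) (h1 i)).trans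
      ((mul_le_of_le_one_right (abs_nonneg _) (h1 k)).trans (h i k))
  simp only [dotProduct, mulVec, Finset.mul_sum]
  refine (Finset.abs_sum_le_sum_abs _ _).trans ((Finset.sum_le_sum fun i _ =>
    (Finset.abs_sum_le_sum_abs _ _).trans (Finset.sum_le_sum fun k _ => h2 i k)).trans ?_)
  simp only [Fin.sum_univ_four]
  linarith

theorem net_cont {G : Tn} {U : Set E4} (hG : Good G U) : ContinuousOn G U :=
  continuousOn_pi.2 fun i => continuousOn_pi.2 fun k => (hG.smooth i k).continuousOn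

theorem net_unif {G : Tn} (hG : Good G (Q 3)) : ∃ c : ℝ, 0 < c ∧ ∀ y ∈ Q (3 / 2),
    ∀ u : Fin 4 → ℝ, ‖u‖ = 1 → c ≤ u ⬝ᵥ G y *ᵥ u := by
  have hK : Kc (3 / 2) ⊆ Q 3 := Kc_sub_Q (by norm_num)
  have h0 : Continuous fun z : Mat × (Fin 4 → ℝ) => z.2 ⬝ᵥ z.1 *ᵥ z.2 :=
    continuous_snd.dotProduct (continuous_fst.matrix_mulVec continuous_snd)
  have h3 : ContinuousOn (fun z : E4 × (Fin 4 → ℝ) => z.2 ⬝ᵥ G z.1 *ᵥ z.2)
      (Kc (3 / 2) ×ˢ Metric.sphere 0 1) :=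
    h0.comp_continuousOn (f := fun z : E4 × (Fin 4 → ℝ) => (G z.1, z.2))
      (((net_cont hG).comp continuousOn_fst fun z hz => hK hz.1).prodMk continuousOn_snd)
  obtain ⟨c, h1, h2⟩ := ((isCompact_Kc (3 / 2)).prod
    (isCompact_sphere (0 : Fin 4 → ℝ) 1)).exists_forall_le' h3 (a := 0) fun z hz =>
      (hG.pos _ (hK hz.1)).dotProduct_mulVec_pos fun e => by simpa [e] using hz.2
  exact ⟨c, h1, fun y hy u hu => h2 (y, u) ⟨Q_sub_Kc _ hy, mem_sphere_zero_iff_norm.2 hu⟩⟩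

/-- `G a` is uniformly positive on the compact set `Kc (3/2) ⊆ Q 3` (minimum of `v ⬝ᵥ G y *ᵥ v`
over `Kc (3/2) × sphere`), and the entries of `loc a h` are small by `PD.sup`. -/
theorem PD.pos (H : d.Hyp) : ∃ δ : ℝ, 0 < δ ∧ ∀ h : V, ‖(d.A ^ 5) h‖ < δ →
    ∀ a, ∀ y ∈ Q (3 / 2), (d.G a y + d.loc a h y).PosDef := by
  obtain ⟨C, hC, h1⟩ := PD.sup H
  choose c h0 hc using fun a => net_unif (H.good a)
  obtain ⟨b, hb, h2⟩ := (finite_range c).isCompact.exists_forall_le' continuousOn_id (a := 0)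
    (by rintro _ ⟨a, rfl⟩; exact h0 a)
  refine ⟨b / (16 * (C + 1)), by positivity, fun h hh a y hy => net_pd ?_ fun u hu => ?_⟩
  · have hy' : y ∈ Q 3 := Q_mono (by norm_num) hy
    rw [transpose_add, (H.sym a h).symm y hy', ← conjTranspose_eq_transpose_of_trivial,
      ((H.good a).pos y hy').isHermitian.eq]
  · have h3 := abs_le.1 (net_small (M := d.loc a h y)
      (fun i k => h1 a h [] zero_le_one i k y hy) hu)
    have h4 := (h2 _ ⟨a, rfl⟩).trans (hc a y hy u hu)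
    rw [lt_div_iff₀ (by positivity)] at hh
    rw [add_mulVec, dotProduct_add]
    nlinarith [h3.1, norm_nonneg ((d.A ^ 5) h)]

theorem net_ip (G : Mat) {M : Mat} {t : ℝ} (h : ∀ i k, |M i k| ≤ t) :
    |ipM G M M| ≤ (∑ i, ∑ j, |G⁻¹ i j|) ^ 2 * t ^ 2 := by
  have h0 : 0 ≤ t := (abs_nonneg _).trans (h 0 0)
  have h1 : ipM G M M = ∑ i, ∑ j, ∑ k, ∑ l, G⁻¹ i j * G⁻¹ k l * (M j k * M i l) := by
    simp only [ipM, trace, diag, mul_apply, transpose_apply, Fin.sum_univ_four]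
    ring
  rw [h1, sq, Finset.sum_mul, Finset.sum_mul]
  refine (Finset.abs_sum_le_sum_abs _ _).trans (Finset.sum_le_sum fun i _ => ?_)
  rw [Finset.sum_mul, Finset.sum_mul]
  refine (Finset.abs_sum_le_sum_abs _ _).trans (Finset.sum_le_sum fun j _ => ?_)
  rw [Finset.mul_sum, Finset.sum_mul]
  refine (Finset.abs_sum_le_sum_abs _ _).trans (Finset.sum_le_sum fun k _ => ?_)
  rw [Finset.mul_sum, Finset.sum_mul]
  refine (Finset.abs_sum_le_sum_abs _ _).trans (Finset.sum_le_sum fun l _ => ?_)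
  rw [abs_mul, abs_mul, abs_mul, sq]
  exact mul_le_mul_of_nonneg_left (mul_le_mul (h j k) (h i l) (abs_nonneg _) h0) (by positivity)

theorem net_dens {G : Tn} (hG : Good G (Q 3)) {χ : Fn} (hχ : ContinuousOn χ (Q 3))
    (h0 : ∀ y ∉ Q 1, χ y = 0) : ∃ B : ℝ, 0 ≤ B ∧ ∀ (h : Tn) (t : ℝ),
      (∀ y ∈ Q 1, ∀ i k, |h y i k| ≤ t) →
      ∫ y in Q (3 / 2), χ y * (ipT G h h y * rho G y) ≤ B * t ^ 2 := by
  have h1 : ContinuousOn (fun y => (G y)⁻¹) (Q 3) := fun y hy =>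
    (continuousAt_matrix_inv (G y) (by
      rw [Ring.inverse_eq_inv']
      exact continuousAt_inv₀ (hG.pos y hy).det_pos.ne')).comp_continuousWithinAt (net_cont hG y hy)
  have h2 : ContinuousOn (fun y => |χ y| * ((∑ i, ∑ j, |(G y)⁻¹ i j|) ^ 2 * |rho G y|)) (Q 3) :=
    hχ.abs.mul (((continuousOn_finsetSum _ fun i _ => continuousOn_finsetSum _ fun j _ =>
      (continuousOn_pi.1 (continuousOn_pi.1 h1 i) j).abs).pow 2).mul
      (continuous_id.matrix_det.comp_continuousOn (net_cont hG)).sqrt.abs)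
  obtain ⟨B, hB⟩ := (isCompact_Kc 1).exists_bound_of_continuousOn
    (h2.mono (Kc_sub_Q (by norm_num)))
  have hv : volume (Q (3 / 2)) < ⊤ :=
    (measure_mono (Q_sub_Kc _)).trans_lt (isCompact_Kc _).measure_lt_top
  refine ⟨|B| * volume.real (Q (3 / 2)), by positivity, fun h t ht => (le_abs_self _).trans ?_⟩
  rw [mul_right_comm, ← Real.norm_eq_abs]
  refine norm_setIntegral_le_of_norm_le_const hv fun y _ => ?_
  by_cases hy : y ∈ Q 1
  · have h3 := (le_abs_self _).trans ((hB y (Q_sub_Kc _ hy)).trans (le_abs_self B))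
    rw [Real.norm_eq_abs, abs_mul, abs_mul]
    calc _ ≤ |χ y| * ((∑ i, ∑ j, |(G y)⁻¹ i j|) ^ 2 * t ^ 2 * |rho G y|) := by
          gcongr
          exact net_ip (G y) (ht y hy)
      _ = |χ y| * ((∑ i, ∑ j, |(G y)⁻¹ i j|) ^ 2 * |rho G y|) * t ^ 2 := by ring
      _ ≤ _ := mul_le_mul_of_nonneg_right h3 (sq_nonneg t)
  · rw [h0 y hy, zero_mul, norm_zero]
    positivity

theorem net_norm (H : d.Hyp) : ∃ C : ℝ, 0 ≤ C ∧ ∀ (u : V) (t : ℝ), 0 ≤ t →
    (∀ a, ∀ y ∈ Q 1, ∀ i k, |d.loc a u y i k| ≤ t) → ‖u‖ ≤ C * t := by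
  choose B h0 hB using fun a => net_dens (H.good a) (H.χsm a).continuousOn (H.χ0 a)
  have h1 : 0 ≤ ∑ a, B a := Finset.sum_nonneg fun a _ => h0 a
  refine ⟨√(∑ a, B a), Real.sqrt_nonneg _, fun u t ht h => ?_⟩
  refine (abs_le_of_sq_le_sq' ?_ (by positivity)).2
  rw [← real_inner_self_eq_norm_sq, H.ipf, mul_pow, Real.sq_sqrt h1, Finset.sum_mul]
  exact Finset.sum_le_sum fun a _ => hB a _ t (h a)

theorem net_lip {f : Fn} (hf : ContDiffOn ℝ ∞ f (Q 3)) {B : ℝ}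
    (h : ∀ i, ∀ y ∈ Q 1, |pd i f y| ≤ B) {y z : E4} (hy : y ∈ Q 1) (hz : z ∈ Q 1) :
    |f y - f z| ≤ 4 * B * ‖y - z‖ := by
  have hQ : Q 1 = ⋂ i, (EuclideanSpace.proj i : E4 →L[ℝ] ℝ) ⁻¹' Metric.ball 0 1 := by
    ext x
    simp [Q]
  have hc : Convex ℝ (Q 1) := by
    rw [hQ]
    exact convex_iInter fun i =>
      (convex_ball 0 1).linear_preimage (EuclideanSpace.proj i : E4 →L[ℝ] ℝ).toLinearMap
  have hB : 0 ≤ B := (abs_nonneg _).trans (h 0 y hy)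
  refine hc.norm_image_sub_le_of_norm_fderiv_le (𝕜 := ℝ)
    (fun x hx => sm_diff (isOpen_Q 3) hf (Q_mono (by norm_num) hx))
    (fun x hx => ContinuousLinearMap.opNorm_le_bound _ (by positivity) fun v => ?_) hz hy
  have e : v = ∑ i, v i • bas i := by
    ext j
    simp [bas, Pi.single_apply]
  have h1 : ∀ i, ‖fderiv ℝ f x (v i • bas i)‖ ≤ ‖v‖ * B := fun i => by
    rw [map_smul, norm_smul]
    exact mul_le_mul (PiLp.norm_apply_le v i) (h i x hx) (norm_nonneg _) (norm_nonneg _)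
  nth_rw 1 [e]
  rw [map_sum]
  refine (norm_sum_le_of_le _ fun i _ => h1 i).trans (le_of_eq ?_)
  rw [Fin.sum_univ_four]
  ring

/-- By `ipf`, `χ0` and bounds of the continuous functions `χ`, `G⁻¹`, `rho G` on `Kc 1`: if all
entries of `loc a u` are bounded by `t` on `Q 1` then `‖u‖ ≤ C t`. Take a finite `η`-net of
`Q 1` (totally bounded); `Pi u` is the family of the entries of `loc a u` at the net points
(`Fintype.equivFin`); mean value inequality on the convex set `Q 1` with `PD.sup`. -/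
theorem PD.net (H : d.Hyp) (ε : ℝ) (hε : 0 < ε) : ∃ (m : ℕ) (Pi : V →ₗ[ℝ] (Fin m → ℝ)) (C : ℝ),
    (∀ u, ‖Pi u‖ ≤ C * ‖(d.A ^ 5) u‖) ∧ ∀ u, ‖u‖ ≤ ε * ‖(d.A ^ 5) u‖ + C * ‖Pi u‖ := by
  obtain ⟨C, hC, h1⟩ := PD.sup H
  obtain ⟨C₀, hC₀, h2⟩ := net_norm H
  obtain ⟨T, hT, hf, h3⟩ := Metric.finite_approx_of_totallyBounded
    ((isCompact_Kc 1).totallyBounded.subset (Q_sub_Kc 1)) (ε / (C₀ * (4 * C) + 1)) (by positivity)
  have := hf.fintype
  obtain ⟨m, ⟨e⟩⟩ := Finite.exists_equiv_fin (I × T × Fin 4 × Fin 4)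
  obtain ⟨P, hP⟩ : ∃ P : V →ₗ[ℝ] (Fin m → ℝ), ∀ u n, P u n =
      d.loc (e.symm n).1 u (e.symm n).2.1 (e.symm n).2.2.1 (e.symm n).2.2.2 :=
    ⟨⟨⟨fun u n => d.loc (e.symm n).1 u (e.symm n).2.1 (e.symm n).2.2.1 (e.symm n).2.2.2,
      fun u v => by ext n; simp⟩, fun c u => by ext n; simp⟩, fun _ _ => rfl⟩
  have hQ : Q 1 ⊆ Q (3 / 2) := Q_mono (by norm_num)
  refine ⟨m, P, C + C₀, fun u => (pi_norm_le_iff_of_nonneg (by positivity)).2 fun n => ?_,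
    fun u => ?_⟩
  · rw [hP]
    exact (h1 _ u [] zero_le_one _ _ _ (hQ (hT (e.symm n).2.1.2))).trans
      (mul_le_mul_of_nonneg_right (le_add_of_nonneg_right hC₀) (norm_nonneg _))
  · have h4 := h2 u (‖P u‖ + 4 * (C * ‖(d.A ^ 5) u‖) * (ε / (C₀ * (4 * C) + 1))) (by positivity)
      fun a y hy i k => by
        obtain ⟨z, hz, hyz⟩ := mem_iUnion₂.1 (h3 hy)
        have h5 := net_lip ((H.sym a u).smooth i k)
          (fun j x hx => h1 a u [j] le_rfl i k x (hQ hx)) hy (hT hz)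
        have h6 := norm_le_pi_norm (P u) (e (a, ⟨z, hz⟩, i, k))
        rw [hP, e.symm_apply_apply] at h6
        have h7 := mul_le_mul_of_nonneg_left (mem_ball_iff_norm.1 hyz).le
          (show 0 ≤ 4 * (C * ‖(d.A ^ 5) u‖) by positivity)
        have h8 := abs_sub_abs_le_abs_sub (d.loc a u y i k) (d.loc a u z i k)
        have h9 : |d.loc a u z i k| ≤ ‖P u‖ := h6
        linarith
    have h5 : C₀ * (4 * C) * (ε / (C₀ * (4 * C) + 1)) ≤ ε := by
      rw [← mul_div_assoc, div_le_iff₀ (by positivity)]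
      nlinarith
    nlinarith [mul_le_mul_of_nonneg_right h5 (norm_nonneg ((d.A ^ 5) u)),
      mul_nonneg hC (norm_nonneg (P u))]

end Pool.Agent.Lib.MP_94aef8_gt.E2
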