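import Pool.Agent.Lib.MP_94aef8_gt.E2.Alg
import Pool.Agent.Lib.MP_94aef8_gt.E2.AnGeo
import Pool.Agent.Lib.MP_94aef8_gt.E2.ClsX
import Pool.Agent.Lib.MP_94aef8_gt.E2.Back

open scoped ContDiff Topology InnerProductSpace
open Filter Set MeasureTheory Matrix UniformSpace

namespace Pool.Agent.Lib.MP_94aef8_gt.E2

/-- A homogeneous function bounded on a small ball of another one is dominated by it. -/
theorem PBd_scale {W : Type} [SMul ℝ W] {p q : W → ℝ} {δ M : ℝ} (hδ : 0 < δ) (hM : 0 ≤ M)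
    (hp : ∀ t : ℝ, 0 < t → ∀ u, p (t • u) = t * p u)
    (hq : ∀ t : ℝ, 0 < t → ∀ u, q (t • u) = t * q u) (hq0 : ∀ u, 0 ≤ q u)
    (h : ∀ u, q u < δ → p u ≤ M) (u : W) : p u ≤ 2 * M / δ * q u := by
  rcases (hq0 u).eq_or_lt with h0 | h0
  · rw [← h0, mul_zero]
    by_contra hc
    have hc' : 0 < p u := not_le.1 hc
    have ht : 0 < (M + 1) / p u := by positivity
    have h1 := h (((M + 1) / p u) • u) (by rw [hq _ ht, ← h0, mul_zero]; exact hδ)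
    rw [hp _ ht, div_mul_cancel₀ _ hc'.ne'] at h1
    linarith
  · have ht : 0 < δ / (2 * q u) := by positivity
    have e : δ / (2 * q u) * q u = δ / 2 := by field_simp
    have h1 := h ((δ / (2 * q u)) • u) (by rw [hq _ ht, e]; linarith)
    rw [hp _ ht, div_mul_eq_mul_div, div_le_iff₀ (by positivity)] at h1
    rw [div_mul_eq_mul_div, le_div_iff₀ hδ]
    linarith

variable {V I : Type} [NormedAddCommGroup V] [InnerProductSpace ℝ V] [Fintype I] {d : PD V I}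

theorem PBd_pow (H : d.Hyp) (n : ℕ) (u v : V) : ⟪(d.A ^ n) u, v⟫_ℝ = ⟪u, (d.A ^ n) v⟫_ℝ := by
  induction n generalizing u v with
  | zero => rfl
  | succ n ih =>
    have e1 : (d.A ^ (n + 1)) u = (d.A ^ n) (d.A u) := by rw [pow_succ]; rfl
    have e2 : (d.A ^ (n + 1)) v = d.A ((d.A ^ n) v) := by rw [pow_succ']; rfl
    rw [e1, e2, ih, H.As]

/-- An analytic family is bounded near the origin. -/
theorem PBd_bdd (H : d.Hyp) {A : Type} [NormedCommRing A] [NormedAlgebra ℝ A] [CompleteSpace A]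
    (α : AlgP A) {J B : Type} [NormedAddCommGroup B] [NormedSpace ℝ B] {x : J → B} (w : J → V)
    (k : I → J → Tn) (hk : ∀ a j, ∀ y ∈ Q 3, d.loc a (w j) y = k a j y)
    (hF : ∀ a, (anCls α x).T 0 0 (k a)) :
    ∃ δ M : ℝ, 0 < δ ∧ 0 ≤ M ∧ ∀ j, ‖x j‖ < δ → ‖(d.A ^ 4) (w j)‖ ≤ M := by
  have h1 := fun a => PD.an_back α H a (cls_raise (an_constMt α (H.good a) 0) le_rfl (hF a))
  choose Φ hΦ hΦ' using h1
  have h2 : ContinuousAt (fun b => ‖∑ a, Φ a b‖) 0 :=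
    (tendsto_finsetSum _ fun a _ => (hΦ a).continuousAt).norm
  have h3 : ∀ᶠ b in 𝓝 (0 : B), ‖∑ a, Φ a b‖ < ‖∑ a, Φ a 0‖ + 1 :=
    h2.eventually (gt_mem_nhds (lt_add_one _))
  obtain ⟨δ, hδ, h4⟩ := Metric.eventually_nhds_iff.1 ((eventually_all.2 hΦ').and h3)
  refine ⟨δ, ‖∑ a, Φ a 0‖ + 1, hδ, by positivity, fun j hj => ?_⟩
  obtain ⟨h5, h6⟩ := h4 (y := x j) (by rwa [dist_zero_right])
  have h7 : ∀ v : V, ⟪∑ a, Φ a (x j), (v : Completion V)⟫_ℝ = ⟪(d.A ^ 4) (w j), v⟫_ℝ := by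
    intro v
    rw [sum_inner, PBd_pow H, H.ipf]
    refine Finset.sum_congr rfl fun a _ => ?_
    rw [h5 a j rfl v]
    refine setIntegral_congr_fun (isOpen_Q _).measurableSet fun y hy => ?_
    simp only [ipT, ipM, hk a j y (Q_mono (by norm_num) hy)]
  have h8 := h7 ((d.A ^ 4) (w j))
  have h9 := real_inner_le_norm (∑ a, Φ a (x j)) (((d.A ^ 4) (w j) : V) : Completion V)
  rw [h8, real_inner_self_eq_norm_mul_norm, Completion.norm_coe] at h9
  rcases (norm_nonneg ((d.A ^ 4) (w j))).eq_or_lt with h0 | h0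
  · rw [← h0]
    positivity
  · exact (le_of_mul_le_mul_right h9 h0).trans h6.le

/-- `PD.an_back` for `F u y = G⁻¹ * Dl G (loc a u) y * G⁻¹` (`cls_Dl`, `cls_raise`,
`an_constMt`, `PD.an_loc`). By `ipf` and `As` the sum `Φ` over `a` satisfies
`⟪Φ (A ^ 5 u), v⟫ = ⟪A ^ 4 (D u), v⟫` for all `v : V` and small `u`; take `v = A ^ 4 (D u)`. `Φ` is
continuous at `0`, hence bounded on a small ball; scale `u`. -/
theorem PD.D_bound (H : d.Hyp) (D : V →ₗ[ℝ] V)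
    (hD : ∀ a u, ∀ y ∈ Q 3, d.loc a (D u) y = Dl (d.G a) (d.loc a u) y) :
    ∃ C : ℝ, ∀ u, ‖(d.A ^ 4) (D u)‖ ≤ C * ‖(d.A ^ 5) u‖ := by
  obtain ⟨A, _, _, _, ⟨α⟩⟩ := exists_alg H.sob H.mul
  obtain ⟨δ, M, hδ, hM, h⟩ := PBd_bdd H α
    (x := fun u : V => (((d.A ^ 5) u : V) : Completion V)) (fun u => D u)
    (fun a u => Dl (d.G a) (d.loc a u)) hD fun a =>
      cls_Dl (an_constMt α (H.good a) 0) le_rfl
        (PD.an_loc α H a (fun u => u) (ContinuousLinearMap.id ℝ _) fun _ => rfl)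
  refine ⟨2 * M / δ, PBd_scale (p := fun u => ‖(d.A ^ 4) (D u)‖) (q := fun u => ‖(d.A ^ 5) u‖)
    hδ hM (fun t ht u => ?_) (fun t ht u => ?_) (fun _ => norm_nonneg _) fun u hu => h u ?_⟩
  · simp only [map_smul, norm_smul, Real.norm_of_nonneg ht.le]
  · simp only [map_smul, norm_smul, Real.norm_of_nonneg ht.le]
  · rwa [Completion.norm_coe]

/-- The same with `J = V × V`, `B = Completion V × Completion V`, `π = fst, snd`, `cls_l1l`. -/
theorem PD.l1_bound (H : d.Hyp) (l1 : V →ₗ[ℝ] V →ₗ[ℝ] V)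
    (hl : ∀ a u h, ∀ y ∈ Q 3, d.loc a (l1 u h) y = l1l (d.G a) (d.loc a u) (d.loc a h) y) :
    ∃ C : ℝ, ∀ u h, ‖(d.A ^ 4) (l1 u h)‖ ≤ C * ‖(d.A ^ 5) u‖ * ‖(d.A ^ 5) h‖ := by
  obtain ⟨A, _, _, _, ⟨α⟩⟩ := exists_alg H.sob H.mul
  obtain ⟨δ, M, hδ, hM, h⟩ := PBd_bdd H α
    (x := fun j : V × V => ((((d.A ^ 5) j.1 : V) : Completion V),
      (((d.A ^ 5) j.2 : V) : Completion V))) (fun j => l1 j.1 j.2)
    (fun a j => l1l (d.G a) (d.loc a j.1) (d.loc a j.2)) (fun a j => hl a j.1 j.2) fun a =>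
      cls_l1l (l := 0) (p := 0) (q := 0) (an_constMt α (H.good a) 0) le_rfl le_rfl
        (PD.an_loc α H a (fun j : V × V => j.1) (ContinuousLinearMap.fst ℝ _ _) fun _ => rfl)
        ((PD.an_loc α H a (fun j : V × V => j.2) (ContinuousLinearMap.snd ℝ _ _)
          fun _ => rfl).levLe (l := 0 + 1) (by norm_num))
  have hq : ∀ t : ℝ, 0 < t → ∀ u : V, ‖(d.A ^ 5) (t • u)‖ = t * ‖(d.A ^ 5) u‖ := fun t ht u => by
    simp only [map_smul, norm_smul, Real.norm_of_nonneg ht.le]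
  have h1 : ∀ k : V, ‖(d.A ^ 5) k‖ < δ → ∀ u, ‖(d.A ^ 4) (l1 u k)‖ ≤ 2 * M / δ * ‖(d.A ^ 5) u‖ := by
    intro k hk
    refine PBd_scale (p := fun u => ‖(d.A ^ 4) (l1 u k)‖) (q := fun u => ‖(d.A ^ 5) u‖)
      hδ hM (fun t ht u => ?_) hq (fun _ => norm_nonneg _) fun u hu => h (u, k) ?_
    · simp only [map_smul, LinearMap.smul_apply, norm_smul, Real.norm_of_nonneg ht.le]
    · rw [Prod.norm_def, Completion.norm_coe, Completion.norm_coe]
      exact max_lt hu hk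
  refine ⟨2 * (2 * M / δ) / δ, fun u k => ?_⟩
  have h2 := PBd_scale (p := fun k => ‖(d.A ^ 4) (l1 u k)‖) (q := fun u => ‖(d.A ^ 5) u‖)
    (M := 2 * M / δ * ‖(d.A ^ 5) u‖) hδ (by positivity) (fun t ht k => by
      simp only [map_smul, norm_smul, Real.norm_of_nonneg ht.le]) hq (fun _ => norm_nonneg _)
    (fun k hk => h1 k hk u) k
  refine h2.trans (le_of_eq ?_)
  ring

end Pool.Agent.Lib.MP_94aef8_gt.E2
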