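import Pool.Agent.Lib.MP_94aef8_gt.E2.Alg
import Pool.Agent.Lib.MP_94aef8_gt.E2.AnGeo
import Pool.Agent.Lib.MP_94aef8_gt.E2.ClsX
import Pool.Agent.Lib.MP_94aef8_gt.E2.Back

open scoped ContDiff Topology InnerProductSpace
open Filter Set MeasureTheory Matrix UniformSpace

namespace Pool.Agent.Lib.MP_94aef8_gt.E2

variable {V I : Type} [NormedAddCommGroup V] [InnerProductSpace ℝ V] [Fintype I] {d : PD V I}

theorem PMain_met (H : d.Hyp) {A : Type} [NormedCommRing A] [NormedAlgebra ℝ A] [CompleteSpace A]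
    (α : AlgP A) (a : I) :
    (anCls α fun h : V => (((d.A ^ 5) h : V) : Completion V)).Mt 0 (fun h => d.G a + d.loc a h) ∧
      An0 α (fun h : V => (((d.A ^ 5) h : V) : Completion V)) fun h => rho (d.G a + d.loc a h) :=
  an_metric α (H.good a) (PD.an_loc α H a id (ContinuousLinearMap.id ℝ _) fun _ => rfl) (j₀ := 0)
    (by simp) (map_zero _)

theorem PMain_rho {G : Tn} {U : Set E4} (hG : Good G U) :
    (∀ y ∈ U, rho G y ≠ 0) ∧ ContDiffOn ℝ ∞ (fun y => (rho G y)⁻¹) U := by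
  have h1 : ∀ y ∈ U, rho G y ≠ 0 := fun y hy => (Real.sqrt_pos.2 (hG.pos y hy).det_pos).ne'
  refine ⟨h1, ContDiffOn.inv (ContDiffOn.sqrt ?_ fun y hy => (hG.pos y hy).det_pos.ne') h1⟩
  simp only [Matrix.det_apply']
  exact ContDiffOn.sum fun σ _ => contDiffOn_const.mul (contDiffOn_prod fun i _ => hG.smooth _ _)

omit [Fintype I] in
theorem PMain_line (h u : V) (s : ℝ) : (((d.A ^ 5) (h + s • u) : V) : Completion V) =
    (((d.A ^ 5) h : V) : Completion V) + s • (((d.A ^ 5) u : V) : Completion V) := by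
  rw [map_add, map_smul, Completion.coe_add, Completion.coe_smul]

/-- Take `J = V`, `B = Completion V`, `x h = A ^ 5 h`, `π = id`, `j₀ = 0`, `g = G a + loc a h`.
`E = ∑ a, Φ a` from `PD.an_back` for `F h y = (rho g y * (rho (G a) y)⁻¹) • (g⁻¹ * Ein g * g⁻¹)`;
`S = ∑ a, φ a` from `An0.int` for `sDen g` with the weight `χ a`. -/
theorem PD.exists_ES (H : d.Hyp) : ∃ (E : Completion V → Completion V) (S : Completion V → ℝ)
    (δ : ℝ), 0 < δ ∧ AnalyticAt ℝ E 0 ∧ AnalyticAt ℝ S 0 ∧ ∀ h : V, ‖(d.A ^ 5) h‖ < δ →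
      (∀ v : V, ⟪E ((d.A ^ 5) h : V), (v : Completion V)⟫_ℝ = d.es h ((d.A ^ 4) v)) ∧
      S ((d.A ^ 5) h : V) = d.ss h ∧
      ∀ (u : V) (ψ : I → Fn), (∀ a, ∀ y ∈ Q (3 / 2),
          HasDerivAt (fun s : ℝ => sDen (d.G a + d.loc a (h + s • u)) y) (ψ a y) 0) →
        HasDerivAt (fun s : ℝ => d.ss (h + s • u)) (∑ a, ∫ y in Q (3 / 2), d.χ a y * ψ a y) 0 := by
  obtain ⟨A, _, _, _, ⟨α⟩⟩ := exists_alg H.sob H.mul
  choose Φ h1 h2 using fun a => PD.an_back α H a (Cls.T.smulL le_rfl le_rfl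
    (An.mul (m := 0) (PMain_met H α a).2 (An.const (PMain_rho (H.good a)).2 0))
    (cls_raise (PMain_met H α a).1 le_rfl (cls_Ein (PMain_met H α a).1)))
  choose φ h3 h4 using fun a => An0.int (F := fun h => sDen (d.G a + d.loc a h))
    (An.mul (m := 0) (An.add (cls_scal (PMain_met H α a).1)
      (An.const (f := fun _ => 6) contDiffOn_const 0)) (PMain_met H α a).2) (H.χsm a).continuousOn
  obtain ⟨δ, hδ, h5⟩ := Metric.eventually_nhds_iff.1 ((eventually_all.2 h2).and (eventually_all.2 h4))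
  refine ⟨fun b => ∑ a, Φ a b, fun b => ∑ a, φ a b, δ, hδ,
    Finset.analyticAt_fun_sum _ fun a _ => h1 a, Finset.analyticAt_fun_sum _ fun a _ => h3 a,
    fun h hh => ?_⟩
  obtain ⟨h6, h7⟩ := h5 (y := ((d.A ^ 5) h : V)) (by rwa [dist_zero_right, Completion.norm_coe])
  refine ⟨fun v => ?_, Finset.sum_congr rfl fun a _ => (h7 a).1 h rfl, fun u ψ hψ =>
    HasDerivAt.fun_sum fun a _ => (h7 a).2 (fun s => h + s • u) _ _ (PMain_line h u) (hψ a)⟩
  rw [sum_inner]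
  refine Finset.sum_congr rfl fun a _ => (h6 a h rfl v).trans
    (setIntegral_congr_fun (isOpen_Q _).measurableSet fun y hy => ?_)
  have h8 := (PMain_rho (H.good a)).1 y (Q_mono (by norm_num) hy)
  simp only [eDen, ipT, ipM, Pi.mul_apply, smul_mul_assoc, trace_smul, smul_eq_mul]
  field_simp

/-- `An0.int` at `b = 0` (`Eventually.self_of_nhds`) for the family
`h ↦ eDen (G a + loc a h) (loc a v)`. -/
theorem PD.es_deriv (H : d.Hyp) (u v : V) (ψ : I → Fn) (hψ : ∀ a, ∀ y ∈ Q (3 / 2),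
    HasDerivAt (fun s : ℝ => eDen (d.G a + d.loc a (s • u)) (d.loc a v) y) (ψ a y) 0) :
    HasDerivAt (fun s : ℝ => d.es (s • u) v) (∑ a, ∫ y in Q (3 / 2), d.χ a y * ψ a y) 0 := by
  obtain ⟨A, _, _, _, ⟨α⟩⟩ := exists_alg H.sob H.mul
  refine HasDerivAt.fun_sum fun a _ => ?_
  obtain ⟨φ, -, h1⟩ := An0.int (F := fun h => eDen (d.G a + d.loc a h) (d.loc a v))
    (An.mul (m := 0) ((PMain_met H α a).1.ipT le_rfl le_rfl (cls_Ein (PMain_met H α a).1)
      (an_constT α (H.sym a v).smooth 0)) (PMain_met H α a).2) (H.χsm a).continuousOn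
  refine h1.self_of_nhds.2 (fun s => s • u) (((d.A ^ 5) u : V) : Completion V) _ (fun s => ?_) (hψ a)
  rw [map_smul, Completion.coe_smul, zero_add]

end Pool.Agent.Lib.MP_94aef8_gt.E2
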