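import Pool.Agent.Lib.MP_94aef8_gt.E2.MEst
import Pool.Agent.Lib.MP_94aef8_gt.E2.MVar
import Pool.Agent.Lib.MP_94aef8_gt.E2.MRep
import Pool.Agent.Lib.MP_94aef8_gt.E2.PMain
import Pool.Agent.Lib.MP_94aef8_gt.E2.PBd
import Pool.Agent.Lib.MP_94aef8_gt.E2.Net
import Pool.Agent.Lib.MP_94aef8_gt.E2.Dens

/-! The volumes of the Einstein metrics near a given one form a countable set. -/

open scoped Manifold ContDiff Topology InnerProductSpace
open Filter Set MeasureTheory Matrix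

namespace Pool.Agent.Lib.MP_94aef8_gt.E2

theorem mloc_good {G : Tn} {U U' : Set E4} (hG : Good G U) (hU : IsOpen U') (h : U' ⊆ U) :
    Good G U' := ⟨hU, fun i j => (hG.smooth i j).mono h, fun p hp => hG.pos p (h hp)⟩

theorem mloc_sym {k : Tn} {U U' : Set E4} (hk : SymT k U) (h : U' ⊆ U) : SymT k U' :=
  ⟨fun i j => (hk.smooth i j).mono h, fun p hp => hk.symm p (h hp)⟩

theorem q34 : Q 3 ⊆ Q 4 := Q_mono (by norm_num)

theorem q24 : Q (3 / 2) ⊆ Q 4 := Q_mono (by norm_num)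

variable {M : Type} [TopologicalSpace M] [T2Space M] [CompactSpace M] [ChartedSpace E4 M]
  [IsManifold (𝓡 4) ∞ M] [MeasurableSpace M] [BorelSpace M]
  {I : Type} [Fintype I] (T : Atl M I)

theorem ipL_patch {g u v : M → Mat} (hg : GoodT g) (hu : InvT ∅ u) (hv : InvT ∅ v) :
    ipL g u v = ∑ a, ∫ y in Q (3 / 2), T.χ a y * (ipT (gpull (T.Θ a) g) (gpull (T.Θ a) u)
      (gpull (T.Θ a) v) y * rho (gpull (T.Θ a) g) y) := by
  rw [ipL, T.int g hg _ (ipg_cont hg hu hv)]
  refine Finset.sum_congr rfl fun a _ => setIntegral_congr_fun (isOpen_Q _).measurableSet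
    fun y hy => ?_
  simp only [ipg_pull hg (T.pt a) (q24 hy)]

theorem esM_patch {g v : M → Mat} (hg : GoodT g) (hv : InvT ∅ v) :
    esM g v = ∑ a, ∫ y in Q (3 / 2), T.χ a y * eDen (gpull (T.Θ a) g) (gpull (T.Θ a) v) y := by
  rw [esM, ipL_patch T hg (GEin_inv hg) hv]
  refine Finset.sum_congr rfl fun a _ => setIntegral_congr_fun (isOpen_Q _).measurableSet
    fun y hy => ?_
  simp only [eDen, ipT, GEin_pull hg (T.pt a) (q24 hy)]

theorem ssM_patch {g : M → Mat} (hg : GoodT g) :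
    ssM g = ∑ a, ∫ y in Q (3 / 2), T.χ a y * sDen (gpull (T.Θ a) g) y := by
  rw [ssM, T.int g hg (fun x => Gscal g x + 6) ((Gscal_cont hg).add continuous_const)]
  refine Finset.sum_congr rfl fun a _ => setIntegral_congr_fun (isOpen_Q _).measurableSet
    fun y hy => ?_
  simp only [sDen, Gscal_pull hg (T.pt a) (q24 hy)]

/-- The first variation as a sum over the patches. -/
theorem var_patch {g u : M → Mat} (hg : GoodT g) (hu : InvT ∅ u) :
    ∑ a, ∫ y in Q (3 / 2), T.χ a y * (-eDen (gpull (T.Θ a) g) (gpull (T.Θ a) u) y +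
      dvg (gpull (T.Θ a) g) (Wl (gpull (T.Θ a) g) (gpull (T.Θ a) u)) y *
        rho (gpull (T.Θ a) g) y) = -esM g u := by
  obtain ⟨F, hF, h0, hp⟩ := exists_div hg hu
  have hc := ipg_cont hg (GEin_inv hg) hu
  have h2 := T.int g hg _ hc
  have h3 := T.int g hg _ hF
  have hi : ∀ (f : M → ℝ), Continuous f → ∀ a, IntegrableOn
      (fun y => T.χ a y * (f (T.Θ a y) * rho (gpull (T.Θ a) g) y)) (Q (3 / 2)) := by
    intro f hf a
    refine integrableOn_Q (R := 4) (by norm_num) ((T.χsm a).continuous.continuousOn.mul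
      ((hf.comp_continuousOn (T.pt a).smooth.continuousOn).mul ?_))
    refine Real.continuous_sqrt.comp_continuousOn ?_
    exact (continuous_id.matrix_det).comp_continuousOn (continuousOn_pi.2 fun i =>
      continuousOn_pi.2 fun j => ((good_pull hg (T.pt a)).smooth i j).continuousOn)
  rw [esM, ipL, h2, ← add_zero (-_), ← h0, h3, ← Finset.sum_neg_distrib, ← Finset.sum_add_distrib]
  refine Finset.sum_congr rfl fun a _ => ?_
  rw [neg_add_eq_sub, ← integral_sub (hi _ hF a) (hi _ hc a)]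
  refine setIntegral_congr_fun (isOpen_Q _).measurableSet fun y hy => ?_
  simp only [eDen, ipT, hp _ _ (T.pt a) y (q24 hy), ipg_pull hg (T.pt a) (q24 hy),
    GEin_pull hg (T.pt a) (q24 hy)]
  ring

theorem loc_countable {g₀ : M → Mat} (hg : IsE g₀) :
    ∃ δ : ℝ, 0 < δ ∧ ((fun g => (volT g univ).toReal) '' Near T g₀ δ).Countable := by
  classical
  obtain ⟨V, _, _, ⟨r⟩⟩ := exists_rep hg.1
  obtain ⟨P, A, lam, hlam, hP, hA, hlow, hAs, ⟨C1, hC1, hup⟩, hdn⟩ := r.exists_A hg.1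
  obtain ⟨R, hR⟩ := r.lift (GR g₀) (fun _ hu => GR_inv hg.1 hu) (fun u h _ _ => GR_add g₀ u h)
    fun c u _ => GR_smul g₀ c u
  obtain ⟨D, hD⟩ := r.lift (GDl g₀) (fun _ hu => GDl_inv hg.1 hu)
    (fun _ _ hu hh => GDl_add hg.1 hu hh) fun c _ hu => GDl_smul hg.1 c hu
  obtain ⟨l1, hl1⟩ := r.lift2 hg.1
  have hext : ∀ (a : I) (k : Tn), ∃ u : V, SymT k (Q 3) → (∀ y ∉ Q 1, k y = 0) →
      r.val u = T.ext a k := by
    intro a k
    by_cases h : SymT k (Q 3) ∧ ∀ y ∉ Q 1, k y = 0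
    · obtain ⟨u, hu⟩ := r.surj _ (T.extI a k h.1 h.2).1
      exact ⟨u, fun _ _ => hu⟩
    · exact ⟨0, fun h1 h2 => absurd ⟨h1, h2⟩ h⟩
  choose ext hext using hext
  let d : PD V I :=
    { A := A
      loc := fun a => ⟨⟨fun u => gpull (T.Θ a) (r.val u), fun u v => by rw [map_add, gpull_add]⟩,
        fun c u => by simp only [map_smul, gpull_smul, RingHom.id_apply]⟩
      G := fun a => gpull (T.Θ a) g₀
      χ := T.χ
      ext := ext }
  have hloc : ∀ a u, d.loc a u = gpull (T.Θ a) (r.val u) := fun _ _ => rfl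
  have hsum : ∀ a h, d.G a + d.loc a h = gpull (T.Θ a) (g₀ + r.val h) :=
    fun a h => (gpull_add _ _ _).symm
  have H : d.Hyp := by
    refine ⟨?_, ?_, hAs, fun a => mloc_good (good_pull hg.1 (T.pt a)) (isOpen_Q _) q34,
      fun a u => mloc_sym (sym_pull (r.mem u) (T.pt a)) q34, fun a => (T.χsm a).contDiffOn, T.χ0,
      ?_, ?_, fun a k hk h0 v => ?_, fun u v => ?_⟩
    · obtain ⟨C, hC⟩ := thmD1 (r := 3 / 2) (by norm_num)
      exact ⟨C, fun f hf => hC 3 f (by norm_num) hf⟩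
    · obtain ⟨C, hC⟩ := thmD2 (r := 3 / 2) (l := 8) (m := 8) (by norm_num) le_rfl (by norm_num)
      exact ⟨C, fun f k hf hk => hC 3 f k (by norm_num) hf hk⟩
    · obtain ⟨C, hC0, hC⟩ := loc_est T hg.1
      refine ⟨C * (6 * C1), fun a u => (hC a _ (r.mem u)).trans ?_⟩
      rw [mul_assoc]
      gcongr
      refine (Finset.sum_le_card_nsmul _ _ (C1 * ‖(A ^ 5) u‖ ^ 2) fun j hj =>
        hup u j (by simpa [Nat.lt_succ_iff] using hj)).trans (le_of_eq ?_)
      simp only [Finset.card_range, nsmul_eq_mul, Nat.cast_ofNat, mul_assoc]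
      rfl
    · obtain ⟨C, hC0, hC⟩ := ext_est T hg.1
      obtain ⟨C', hC0', hC'⟩ := hdn 4
      refine ⟨C' * C, fun a k hk h0 => ?_⟩
      rw [mul_assoc]
      refine hC' (ext a k) _ fun j hj => ?_
      rw [hext a k hk h0]
      exact hC a k hk h0 j hj
    · obtain ⟨h1, h2, h3⟩ := T.extI a k hk h0
      change ⟪ext a k, v⟫_ℝ = _
      rw [r.inner, hext a k hk h0, ipL, T.intsupp g₀ hg.1 _ (ipg_cont hg.1 h1 (r.mem v)) a
        fun x hx => by simp [ipg, ipM, h3 x hx]]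
      refine setIntegral_congr_fun (isOpen_Q _).measurableSet fun y hy => ?_
      simp only [ipg_pull hg.1 (T.pt a) (q24 hy), ipT, h2 y (Q_mono (by norm_num) hy)]
      rfl
    · rw [r.inner, ipL_patch T hg.1 (r.mem u) (r.mem v)]
      rfl
  obtain ⟨E, S, δ1, hδ1, anE, anS, hES⟩ := PD.exists_ES H
  obtain ⟨δ2, hδ2, hpos⟩ := PD.pos H
  have hgood : ∀ h : V, ‖(A ^ 5) h‖ < δ2 → GoodT (g₀ + r.val h) := by
    intro h hh
    refine good_of_pull (inv_add (inv_good hg.1) (r.mem h)) fun x => ?_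
    obtain ⟨a, y, hy, e⟩ := T.cover x
    refine ⟨T.Θ a, Q 4, y, T.pt a, Q_mono (by norm_num) hy, e, ?_⟩
    rw [← hsum]
    exact hpos h hh a y (Q_mono (by norm_num) hy)
  have hes : ∀ h : V, GoodT (g₀ + r.val h) → ∀ v, d.es h v = esM (g₀ + r.val h) (r.val v) := by
    intro h hh v
    rw [esM_patch T hh (r.mem v), PD.es]
    simp only [hsum]
    rfl
  have hss : ∀ h : V, GoodT (g₀ + r.val h) → d.ss h = ssM (g₀ + r.val h) := by
    intro h hh
    rw [ssM_patch T hh, PD.ss]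
    simp only [hsum]
    rfl
  have hzero : ∀ {g : M → Mat}, IsE g → ∀ v, esM g v = 0 := by
    intro g hE v
    rw [esM, GEin_zero hE, ← zero_smul ℝ (0 : M → Mat), ipL_smul_left, zero_mul]
  let e : VD V := ⟨A, R, D, l1, d.es, d.ss, E, S, lam, -2, min δ1 δ2⟩
  have He : e.Hyp := by
    refine ⟨hAs, hlow, fun u v => ?_, fun u => r.inj ?_, fun u => r.inj ?_, hlam, by norm_num [e],
      lt_min hδ1 hδ2, PD.D_bound H D fun a u y hy => ?_, PD.l1_bound H l1 fun a u h y hy => ?_,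
      fun ε hε => PD.net H ε hε, anE, anS, fun h hh => (hES h (hh.trans_le (min_le_left _ _))).1,
      fun h hh => (hES h (hh.trans_le (min_le_left _ _))).2.1, fun v => ?_, fun h hh u => ?_,
      fun h hh u => ?_, fun u v => ?_, fun u v => ?_, fun u => ?_, ⟨3 / 2, by norm_num, fun u => ?_⟩⟩
    · change ⟪R u, v⟫_ℝ = ⟪u, R v⟫_ℝ
      rw [r.inner, r.inner, hR, hR, GR_symm hg.1]
    · change r.val (R (R u)) = _
      rw [hR, hR, GR_GR hg.1]
    · change r.val (R (A u)) = r.val (A (R u))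
      simp only [hA, map_add, map_smul, hR, hP, GR_GP hg.1 (r.mem u)]
    · rw [hloc, hD]
      exact GDl_pull hg.1 (r.mem u) (T.pt a) (q34 hy)
    · rw [hloc, hl1]
      exact Gl1_pull hg.1 (r.mem u) (r.mem h) (T.pt a) (q34 hy)
    · have h0 : g₀ + r.val 0 = g₀ := by rw [map_zero, add_zero]
      change d.es 0 v = 0
      rw [hes 0 (h0.symm ▸ hg.1), h0, hzero hg]
    · have hG := hgood h (hh.trans_le (min_le_right _ _))
      have h1 := (hES h (hh.trans_le (min_le_left _ _))).2.2 u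
        (fun a y => -eDen (gpull (T.Θ a) (g₀ + r.val h)) (gpull (T.Θ a) (r.val u)) y +
          dvg (gpull (T.Θ a) (g₀ + r.val h))
            (Wl (gpull (T.Θ a) (g₀ + r.val h)) (gpull (T.Θ a) (r.val u))) y *
          rho (gpull (T.Θ a) (g₀ + r.val h)) y) fun a y hy => by
          have h2 := sDen_deriv (good_pull hG (T.pt a)) (sym_pull (r.mem u) (T.pt a)) (q24 hy)
          simp only [map_add, map_smul, ← add_assoc, hsum]
          exact h2
      change HasDerivAt (fun s : ℝ => d.ss (h + s • u)) (-d.es h u) 0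
      rw [hes h hG, ← var_patch T hG (r.mem u)]
      exact h1
    · have hG := hgood h (hh.trans_le (min_le_right _ _))
      change d.es h ((-2 : ℝ) • R (D u) + l1 u h) = 0
      rw [hes h hG, map_add, map_smul, hR, hD, hl1]
      exact esM_bianchi hg.1 (r.mem u) (r.mem h) hG
    · have h1 := PD.es_deriv H u v (fun a y => ipT (d.G a)
        ((1 / 2 : ℝ) • Rl (d.G a) (PP (d.G a) (d.loc a u)) - Dl (d.G a) (d.loc a u)) (d.loc a v) y *
          rho (d.G a) y) fun a y hy => by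
          have h2 := eDen_deriv (good_pull hg.1 (T.pt a)) (fun p hp => by
            rw [← GRic_pull hg.1 (T.pt a) hp, funext hg.2]
            exact congrFun (gpull_smul (T.Θ a) (-3) g₀) p) (sym_pull (r.mem u) (T.pt a))
            (d.loc a v) (q24 hy)
          simp only [map_smul]
          exact h2
      change HasDerivAt (fun s : ℝ => d.es (s • u) v)
        ⟪(1 / 2 : ℝ) • R (A u - lam • u) - D u, v⟫_ℝ 0
      rw [H.ipf, hA, add_sub_cancel_right]
      refine h1.congr_deriv (Finset.sum_congr rfl fun a _ =>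
        setIntegral_congr_fun (isOpen_Q _).measurableSet fun y hy => ?_)
      have h3 : d.loc a ((1 / 2 : ℝ) • R (P u) - D u) y =
          ((1 / 2 : ℝ) • Rl (d.G a) (PP (d.G a) (d.loc a u)) - Dl (d.G a) (d.loc a u)) y := by
        have h4 := GP_pull hg.1 (r.mem u) (T.pt a) (q24 hy)
        rw [map_sub, map_smul]
        simp only [hloc, Pi.sub_apply, Pi.smul_apply, hR, hD, hP,
          GR_pull hg.1 (T.pt a) (q24 hy), GDl_pull hg.1 (r.mem u) (T.pt a) (q24 hy), Rl, trG, h4]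
        rfl
      simp only [ipT, h3]
    · change ⟪D u, v⟫_ℝ = ⟪D v, u⟫_ℝ
      rw [r.inner, r.inner, hD, hD, GDl_symm hg.1 (r.mem u) (r.mem v)]
    · change 0 ≤ ⟪D u, u⟫_ℝ
      rw [r.inner, hD]
      exact GDl_pos hg.1 (r.mem u)
    · change 3 / 2 * ⟪D u, u⟫_ℝ ≤ ⟪R (D u), D u⟫_ℝ
      rw [r.inner, r.inner, hR, hD]
      exact GDl_yano hg (r.mem u)
  obtain ⟨δ', hδ', hc⟩ := VD.dens_main He
  obtain ⟨C2, hC2, hgl⟩ := glob_est T hg.1
  obtain ⟨C3, hC3, hd5⟩ := hdn 5
  refine ⟨δ' / (√(C3 * C2) + 1), by positivity, (hc.image fun t => t / (-6)).mono ?_⟩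
  rintro _ ⟨g, ⟨hE, hb⟩, rfl⟩
  obtain ⟨h, hh⟩ := r.surj (g + (-1 : ℝ) • g₀)
    (inv_add (inv_good hE.1) (inv_smul _ (inv_good hg.1)))
  have eg : g₀ + r.val h = g := by
    rw [hh]
    module
  refine ⟨d.ss h, ⟨h, ⟨?_, fun v => ?_⟩, rfl⟩, ?_⟩
  · have h1 := hd5 h _ (hgl _ _ (r.mem h) fun a => by
      rw [hh, gpull_add, gpull_smul, neg_one_smul, ← sub_eq_add_neg]
      exact hb a)
    have h2 : √(C3 * C2) * (δ' / (√(C3 * C2) + 1)) < δ' := by
      rw [← mul_div_assoc, div_lt_iff₀ (by positivity)]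
      nlinarith
    refine lt_of_le_of_lt (abs_le_of_sq_le_sq' ?_ (by positivity)).2 h2
    rw [mul_pow, Real.sq_sqrt (by positivity), mul_assoc]
    exact h1
  · change d.es h v = 0
    rw [hes h (eg.symm ▸ hE.1), eg, hzero hE]
  · change d.ss h / (-6) = (volT g univ).toReal
    rw [hss h (eg.symm ▸ hE.1), eg, ssM_eq hE]
    ring

end Pool.Agent.Lib.MP_94aef8_gt.E2
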