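import Pool.Agent.Lib.MP_94aef8_gt.E2.MDefs
import Pool.Agent.Lib.MP_94aef8_gt.E2.LNat
import Pool.Agent.Lib.MP_94aef8_gt.C.Loc2

open scoped Manifold ContDiff Topology
open Filter Set MeasureTheory Matrix

namespace Pool.Agent.Lib.MP_94aef8_gt.E2

variable {M : Type} [TopologicalSpace M] [T2Space M] [CompactSpace M] [ChartedSpace E4 M]
  [IsManifold (𝓡 4) ∞ M] [MeasurableSpace M] [BorelSpace M]

variable {g u h k : M → Mat} {Θ : E4 → M} {U : Set E4} {y : E4}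

theorem smT_Pop {G k : Tn} (hG : Good G U) (hk : SmT k U) : SmT (Pop 3 G k) U := hG.sm_Pop 3 hk

theorem Pop_congr {G k k' : Tn} (hU : IsOpen U) (e : EqOn k k' U) :
    EqOn (Pop 3 G k) (Pop 3 G k') U :=
  eventuallyEq_principal.1 (Pop_cg (locF_open hU) EventuallyEq.rfl 3 (eventuallyEq_principal.2 e))

theorem inv_add (hu : InvT ∅ u) (hh : InvT ∅ h) : InvT ∅ (u + h) := hu.add hh

theorem inv_smul (c : ℝ) (hu : InvT ∅ u) : InvT ∅ (c • u) := hu.smul c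

theorem inv_zero : InvT ∅ (0 : M → Mat) := invT_zero ∅

theorem inv_good (hg : GoodT g) : InvT ∅ g := hg.invT fun _ hF => hF.elim

theorem good_pull (hg : GoodT g) (hΘ : Pt Θ U) : Good (gpull Θ g) U := hg.patch hΘ

theorem sym_pull (hu : InvT ∅ u) (hΘ : Pt Θ U) : SymT (gpull Θ u) U :=
  ⟨hu.smooth.patch hΘ, fun _ _ => gpull_symm (hu.symm _)⟩

theorem gpull_add (Θ : E4 → M) (u h : M → Mat) : gpull Θ (u + h) = gpull Θ u + gpull Θ h :=
  MP_94aef8_gt.gpull_add Θ u h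

theorem gpull_smul (Θ : E4 → M) (c : ℝ) (u : M → Mat) : gpull Θ (c • u) = c • gpull Θ u :=
  MP_94aef8_gt.gpull_smul Θ c u

/-- A symmetric field that is positive in the points of patches covering the manifold. -/
theorem good_of_pull (hu : InvT ∅ u)
    (hp : ∀ x, ∃ (Θ : E4 → M) (U : Set E4) (y : E4), Pt Θ U ∧ y ∈ U ∧ Θ y = x ∧
      (gpull Θ u y).PosDef) : GoodT u := by
  refine ⟨hu.smooth, fun x => ?_⟩
  obtain ⟨Θ, U, y, hΘ, hy, rfl, h⟩ := hp x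
  have hJ := hΘ.isUnit hy
  have h1 := h.conjTranspose_mul_mul_same (B := (jm Θ y)⁻¹)
    (Matrix.mulVec_injective_iff_isUnit.2 (Matrix.isUnit_nonsing_inv_iff.2
      ((Matrix.isUnit_iff_isUnit_det _).2 hJ)))
  have e : ((jm Θ y)⁻¹)ᵀ * ((jm Θ y)ᵀ * u (Θ y) * jm Θ y) * (jm Θ y)⁻¹ =
      (jm Θ y * (jm Θ y)⁻¹)ᵀ * u (Θ y) * (jm Θ y * (jm Θ y)⁻¹) := by
    simp only [transpose_mul, Matrix.mul_assoc]
  rwa [conjTranspose_eq_transpose_of_trivial, gpull, e, Matrix.mul_nonsing_inv _ hJ, transpose_one,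
    Matrix.one_mul, Matrix.mul_one] at h1

theorem ipg_pull (hg : GoodT g) (hΘ : Pt Θ U) (hy : y ∈ U) (h k : M → Mat) :
    ipg g h k (Θ y) = ipT (gpull Θ g) (gpull Θ h) (gpull Θ k) y := hΘ.ipg_eq hy g h k

theorem ipg_cont (hg : GoodT g) (hh : InvT ∅ h) (hk : InvT ∅ k) : Continuous (ipg g h k) :=
  (sm_ipg hg hh.smooth hk.smooth).continuous

theorem GR_pull (hg : GoodT g) (hΘ : Pt Θ U) (hy : y ∈ U) (u : M → Mat) :
    gpull Θ (GR g u) y = Rl (gpull Θ g) (gpull Θ u) y := by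
  rw [Rl, trG, ← hΘ.trg_eq hy]
  simp only [gpull, GR, Matrix.mul_sub, Matrix.sub_mul, Matrix.mul_smul, Matrix.smul_mul]

theorem MNat_inv {T : M → Mat} {L : M → Tn}
    (e : ∀ x, ∀ y ∈ (chartAt E4 x).target, gpull (ch x) T y = L x y)
    (hs : ∀ x, SymT (L x) (chartAt E4 x).target) : InvT ∅ T :=
  ⟨fun x => (hs x).smooth.congr (e x), fun x => by
    rw [← gpull_ch_c0 T x, e x _ (c0_mem x)]
    exact (hs x).symm _ (c0_mem x), fun _ hF => hF.elim⟩

theorem GR_inv (hg : GoodT g) (hu : InvT ∅ u) : InvT ∅ (GR g u) :=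
  MNat_inv (fun x _ hy => GR_pull hg (pt_ch x) hy u) fun x =>
    (sym_pull hu (pt_ch x)).sub (SymT.smul
      (((hg.patch (pt_ch x)).sm_trG (hu.smooth.patch (pt_ch x))).div_const 2)
      (hg.patch (pt_ch x)).symT)

theorem GP_pull (hg : GoodT g) (hu : InvT ∅ u) (hΘ : Pt Θ U) (hy : y ∈ U) :
    gpull Θ (GP g u) y = PP (gpull Θ g) (gpull Θ u) y := hΘ.GP_eq hy hg hu.smooth

theorem GP_inv (hg : GoodT g) (hu : InvT ∅ u) : InvT ∅ (GP g u) := hu.GP hg fun _ hF => hF.elim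

theorem GP_add (hg : GoodT g) (hu : InvT ∅ u) (hh : InvT ∅ h) :
    GP g (u + h) = GP g u + GP g h := MP_94aef8_gt.GP_add hg hu.smooth hh.smooth

theorem GP_smul (hg : GoodT g) (c : ℝ) (hu : InvT ∅ u) : GP g (c • u) = c • GP g u :=
  MP_94aef8_gt.GP_smul g u c

/-- The operator is local. -/
theorem GP_zero (hg : GoodT g) (hu : InvT ∅ u) {x : M} (hx : u =ᶠ[𝓝 x] 0) : GP g u x = 0 :=
  (GP_congr g hx).trans (congrFun (MP_94aef8_gt.GP_zero g) x)

theorem Gl1_pull (hg : GoodT g) (hu : InvT ∅ u) (hh : InvT ∅ h) (hΘ : Pt Θ U) (hy : y ∈ U) :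
    gpull Θ (Gl1 g u h) y = l1l (gpull Θ g) (gpull Θ u) (gpull Θ h) y :=
  nat_T (L := fun π => l1l (gpull π g) (gpull π u) (gpull π h)) (fun _ => rfl)
    (fun t _ hz => lieT_nat t.ld hz (hg.patch t.pt') (t.evT hz g)
      ((hg.patch t.pt').sm_bian (hu.smooth.patch t.pt'))
      (eventually_of_mem (t.ld.isOpen.mem_nhds hz) fun _ hw =>
        bs_bian t.ld hw (hg.patch t.pt') (t.evT hw g) (hu.smooth.patch t.pt') (t.evT hw u))
      (hh.smooth.patch t.pt') (t.evT hz h)) hΘ hy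

theorem MNat_bian (hg : GoodT g) (hu : InvT ∅ u) (x : M) :
    SmV (bian (gpull (ch x) g) (gpull (ch x) u)) (chartAt E4 x).target :=
  (hg.patch (pt_ch x)).sm_bian (hu.smooth.patch (pt_ch x))

theorem Gl1_inv (hg : GoodT g) (hu : InvT ∅ u) (hh : InvT ∅ h) : InvT ∅ (Gl1 g u h) :=
  MNat_inv (fun x _ hy => Gl1_pull hg hu hh (pt_ch x) hy) fun x =>
    ⟨sm_lieT (hg.patch (pt_ch x)) (MNat_bian hg hu x) (hh.smooth.patch (pt_ch x)), fun _ hy =>
      lieT_symm (hg.patch (pt_ch x)) (MNat_bian hg hu x) (sym_pull hh (pt_ch x)) hy⟩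

theorem Gl1_add_left (hg : GoodT g) (hu : InvT ∅ u) (hk : InvT ∅ k) (hh : InvT ∅ h) :
    Gl1 g (u + k) h = Gl1 g u h + Gl1 g k h := by
  funext x
  have hG := hg.patch (pt_ch x)
  refine Eq.trans (lieT_congr EventuallyEq.rfl ?_ EventuallyEq.rfl) (lieT_add_left hG
    (MNat_bian hg hu x) (MNat_bian hg hk x) (hh.smooth.patch (pt_ch x)) (c0_mem x))
  rw [gpull_add]
  exact eventually_of_mem (hG.isOpen.mem_nhds (c0_mem x)) fun _ hy =>
    bian_add hG (hu.smooth.patch (pt_ch x)) (hk.smooth.patch (pt_ch x)) hy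

theorem Gl1_smul_left (hg : GoodT g) (c : ℝ) (hu : InvT ∅ u) (hh : InvT ∅ h) :
    Gl1 g (c • u) h = c • Gl1 g u h := by
  funext x
  have hG := hg.patch (pt_ch x)
  refine Eq.trans (lieT_congr EventuallyEq.rfl ?_ EventuallyEq.rfl) (lieT_smul_left hG c
    (MNat_bian hg hu x) (hh.smooth.patch (pt_ch x)) (c0_mem x))
  rw [gpull_smul]
  exact eventually_of_mem (hG.isOpen.mem_nhds (c0_mem x)) fun _ hy =>
    bian_smul hG c (hu.smooth.patch (pt_ch x)) hy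

theorem Gl1_add_right (hg : GoodT g) (hu : InvT ∅ u) (hh : InvT ∅ h) (hk : InvT ∅ k) :
    Gl1 g u (h + k) = Gl1 g u h + Gl1 g u k := by
  funext x
  rw [Gl1, gpull_add]
  exact lieT_add_right (hg.patch (pt_ch x)) (MNat_bian hg hu x) (hh.smooth.patch (pt_ch x))
    (hk.smooth.patch (pt_ch x)) (c0_mem x)

theorem Gl1_smul_right (hg : GoodT g) (c : ℝ) (hu : InvT ∅ u) (hh : InvT ∅ h) :
    Gl1 g u (c • h) = c • Gl1 g u h := by
  funext x
  rw [Gl1, gpull_smul]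
  exact lieT_smul_right (hg.patch (pt_ch x)) c (MNat_bian hg hu x) (hh.smooth.patch (pt_ch x))
    (c0_mem x)

theorem MNat_Dl {G v : Tn} (hG : Good G U) (hv : SmT v U) (hy : y ∈ U) :
    Dl G v y = (-1 / 2 : ℝ) • Rl G (l1l G v G) y := by
  rw [Dl, Rl, Rl, trG, trG, lie_eq_lieT hG (hG.sm_bian hv) hy]
  rfl

/-- The gauge operator in terms of the Lie derivative. -/
theorem GDl_eq (hg : GoodT g) (hu : InvT ∅ u) : GDl g u = (-1 / 2 : ℝ) • GR g (Gl1 g u g) := by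
  funext x
  refine (MNat_Dl (hg.patch (pt_ch x)) (hu.smooth.patch (pt_ch x)) (c0_mem x)).trans ?_
  rw [Rl, trG, gpull_ch_c0]
  rfl

theorem GDl_pull (hg : GoodT g) (hu : InvT ∅ u) (hΘ : Pt Θ U) (hy : y ∈ U) :
    gpull Θ (GDl g u) y = Dl (gpull Θ g) (gpull Θ u) y := by
  rw [GDl_eq hg hu, gpull_smul, Pi.smul_apply, GR_pull hg hΘ hy,
    MNat_Dl (hg.patch hΘ) (hu.smooth.patch hΘ) hy, Rl, Rl, trG, trG,
    Gl1_pull hg hu (inv_good hg) hΘ hy]

theorem GDl_inv (hg : GoodT g) (hu : InvT ∅ u) : InvT ∅ (GDl g u) := by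
  rw [GDl_eq hg hu]
  exact (GR_inv hg (Gl1_inv hg hu (inv_good hg))).smul _

theorem MNat_GR_add (g u h : M → Mat) : GR g (u + h) = GR g u + GR g h := by
  funext x
  simp only [GR, trg, Pi.add_apply, Matrix.mul_add, trace_add, add_div, add_smul]
  abel

theorem MNat_GR_smul (g : M → Mat) (c : ℝ) (u : M → Mat) : GR g (c • u) = c • GR g u := by
  funext x
  simp only [GR, trg, Pi.smul_apply, Matrix.mul_smul, trace_smul, smul_eq_mul, smul_sub, smul_smul,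
    mul_div_assoc]

theorem GDl_add (hg : GoodT g) (hu : InvT ∅ u) (hh : InvT ∅ h) :
    GDl g (u + h) = GDl g u + GDl g h := by
  rw [GDl_eq hg (hu.add hh), GDl_eq hg hu, GDl_eq hg hh, Gl1_add_left hg hu hh (inv_good hg),
    MNat_GR_add, smul_add]

theorem GDl_smul (hg : GoodT g) (c : ℝ) (hu : InvT ∅ u) : GDl g (c • u) = c • GDl g u := by
  rw [GDl_eq hg (hu.smul c), GDl_eq hg hu, Gl1_smul_left hg c hu (inv_good hg), MNat_GR_smul,
    smul_comm]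

theorem GRic_pull (hg : GoodT g) (hΘ : Pt Θ U) (hy : y ∈ U) :
    gpull Θ (GRic g) y = ric (gpull Θ g) y := hΘ.GRic_eq hy hg

theorem MNat_scal (g : M → Mat) : Gscal g = trg g (GRic g) := by
  funext x
  rw [Gscal, scal, trG, gpull_ch_c0]
  rfl

theorem Gscal_pull (hg : GoodT g) (hΘ : Pt Θ U) (hy : y ∈ U) :
    Gscal g (Θ y) = scal (gpull Θ g) y := by
  rw [MNat_scal, hΘ.trg_eq hy, GRic_pull hg hΘ hy]
  rfl

theorem MNat_Ein (g : M → Mat) : GEin g = fun x => GRic g x - (Gscal g x / 2 + 3) • g x := by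
  funext x
  rw [GEin, Ein, gpull_ch_c0]
  rfl

theorem GEin_pull (hg : GoodT g) (hΘ : Pt Θ U) (hy : y ∈ U) :
    gpull Θ (GEin g) y = Ein (gpull Θ g) y := by
  rw [Ein, ← Gscal_pull hg hΘ hy, ← GRic_pull hg hΘ hy, MNat_Ein]
  simp only [gpull, Matrix.mul_sub, Matrix.sub_mul, Matrix.mul_smul, Matrix.smul_mul]

theorem GEin_inv (hg : GoodT g) : InvT ∅ (GEin g) :=
  MNat_inv (fun x _ hy => GEin_pull hg (pt_ch x) hy) fun x =>
    SymT.sub ⟨(hg.patch (pt_ch x)).sm_ric, fun _ hy => bs_ric_symm (hg.patch (pt_ch x)) hy⟩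
      (SymT.smul (((hg.patch (pt_ch x)).sm_scal.div_const 2).add contDiffOn_const)
        (hg.patch (pt_ch x)).symT)

theorem Gscal_cont (hg : GoodT g) : Continuous (Gscal g) := by
  rw [MNat_scal]
  exact (sm_trg hg (smG_GRic hg)).continuous

end Pool.Agent.Lib.MP_94aef8_gt.E2
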