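import Pool.Agent.Lib.MP_94aef8_gt.E2.Lind
import Pool.Agent.Lib.MP_94aef8_gt.E2.Bridge
import Pool.Agent.Lib.MP_94aef8_gt.C.Met
import Pool.Agent.Lib.MP_94aef8_gt.C.Div

/-! The negative Einstein constants form a countable set; components of the moduli space. -/

open scoped Manifold ContDiff Topology
open Filter Set MeasureTheory Matrix

namespace Pool.Agent.Lib.MP_94aef8_gt

variable {M : Type} [TopologicalSpace M] [T2Space M] [CompactSpace M] [ChartedSpace E4 M]
  [IsManifold (𝓡 4) ∞ M] [MeasurableSpace M] [BorelSpace M]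

variable (M) in
theorem E2.const_countable : (constants M ∩ Iio 0).Countable := by
  refine ((E2.vols_countable M).image fun t => -3 * √t).mono ?_
  rintro c ⟨⟨g, hg⟩, hc⟩
  have h1 : 0 < -c / 3 := by
    have : c < 0 := hc
    linarith
  refine ⟨_, ⟨(-c / 3) • gm g.1, ⟨(goodT_gm g.1).smul h1, fun x => ?_⟩, rfl⟩, ?_⟩
  · rw [GRic_smul _ h1.ne', (isEinstein_iff g.1 c).1 hg x, Pi.smul_apply, smul_smul]
    exact congrArg (· • gm g.1 x) (by ring)
  · simp only [volT_smul (goodT_gm g.1) h1, ← vol_eq, Measure.smul_apply, g.2.1, smul_eq_mul,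
      mul_one]
    rw [ENNReal.toReal_ofReal (sq_nonneg _), Real.sqrt_sq h1.le]
    ring

/-- Infinitely many negative constants give infinitely many components. -/
theorem thmE2 (h : (constants M ∩ Iio 0).Infinite) :
    Infinite (ConnectedComponents (Moduli M)) := by
  refine E2.bridge_of (fun g x => ?_) (fun g g' e c hc => ?_) (E2.const_countable M) h
  · rw [coef_chart]
    exact (goodT_gm g).patch (pt_ch x)
  · obtain ⟨F, hF⟩ := (isom_iff g g').1 e
    refine (isEinstein_iff _ c).2 fun x => ?_
    rw [hF, GRic_gpull (pt_diffeo F) (goodT_gm _),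
      gpull_at (h' := c • gm g'.1) ((isEinstein_iff _ c).1 hc _), gpull_smul, Pi.smul_apply]

end Pool.Agent.Lib.MP_94aef8_gt
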