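import Pool.Agent.Lib.MP_94aef8_gt.E2.Hs
import Pool.Agent.Lib.MP_94aef8_gt.F.Cls
import Pool.Agent.Lib.MP_94aef8_gt.DefsEq

/-! A graded class built from a class of level zero. -/

open scoped ContDiff Topology
open Filter Set

namespace Pool.Agent.Lib.MP_94aef8_gt

namespace E2

/-- A class of families of functions which are smooth on `U` along the filter `L`. -/
structure Base {α : Type} (L : Filter α) (U : Set E4) where
  B : ℕ → (α → Fn) → Prop
  isOpen : IsOpen U
  sm : ∀ {p : ℕ} {f : α → Fn}, B p f → ∀ᶠ a in L, ContDiffOn ℝ ∞ (f a) U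
  congr : ∀ {p : ℕ} {f g : α → Fn}, B p f → (∀ᶠ a in L, EqOn (f a) (g a) U) → B p g
  const : ∀ c : ℝ, B 0 fun _ _ => c
  zero : ∀ p : ℕ, B p fun _ => 0
  add : ∀ {p : ℕ} {f g : α → Fn}, B p f → B p g → B p fun a => f a + g a
  neg : ∀ {p : ℕ} {f : α → Fn}, B p f → B p fun a => -f a
  mul : ∀ {p q : ℕ} {f g : α → Fn}, B p f → B q g → B (p + q) fun a => f a * g a

namespace Base

variable {α : Type} {L : Filter α} {U : Set E4} (S : Base L U)

/-- All derivatives up to order `m` are in the class. -/
def C : ℕ → ℕ → (α → Fn) → Prop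
  | 0, p, f => S.B p f
  | m + 1, p, f => S.B p f ∧ ∀ i, C m p fun a => pd i (f a)

variable {S} {m p q : ℕ} {f g : α → Fn}

theorem C.base (h : S.C m p f) : S.B p f := by
  cases m with
  | zero => exact h
  | succ m => exact h.1

theorem C.congr (h : S.C m p f) (e : ∀ᶠ a in L, EqOn (f a) (g a) U) : S.C m p g := by
  induction m generalizing f g with
  | zero => exact S.congr h e
  | succ m ih =>
    exact ⟨S.congr h.1 e, fun i => ih (h.2 i) (e.mono fun a ha => pd_congr_on S.isOpen ha i)⟩

theorem C.zero (m p : ℕ) : S.C m p fun _ => 0 := by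
  induction m with
  | zero => exact S.zero p
  | succ m ih =>
    refine ⟨S.zero p, fun i => ?_⟩
    have e : pd i (0 : Fn) = 0 := pd_const 0 i
    simpa only [e] using ih

theorem C.const (m : ℕ) (c : ℝ) : S.C m 0 fun _ _ => c := by
  cases m with
  | zero => exact S.const c
  | succ m => exact ⟨S.const c, fun i => by simpa only [pd_const] using C.zero m 0⟩

theorem C.lev (h : S.C (m + 1) p f) : S.C m p f := by
  induction m generalizing f with
  | zero => exact h.1
  | succ m ih => exact ⟨h.1, fun i => ih (h.2 i)⟩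

theorem C.neg (h : S.C m p f) : S.C m p fun a => -f a := by
  induction m generalizing f with
  | zero => exact S.neg h
  | succ m ih => exact ⟨S.neg h.1, fun i => by simpa only [pd_neg] using ih (h.2 i)⟩

theorem C.add (h : S.C m p f) (h' : S.C m p g) : S.C m p fun a => f a + g a := by
  induction m generalizing f g with
  | zero => exact S.add h h'
  | succ m ih =>
    refine ⟨S.add h.1 h'.1, fun i => (ih (h.2 i) (h'.2 i)).congr ?_⟩
    filter_upwards [S.sm h.1, S.sm h'.1] with a h1 h2 y hy
    exact (pd_add (sm_diff S.isOpen h1 hy) (sm_diff S.isOpen h2 hy) i).symm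

theorem C.mul (h : S.C m p f) (h' : S.C m q g) : S.C m (p + q) fun a => f a * g a := by
  induction m generalizing f g with
  | zero => exact S.mul h h'
  | succ m ih =>
    refine ⟨S.mul h.1 h'.1, fun i => ((ih (h.2 i) h'.lev).add (ih h.lev (h'.2 i))).congr ?_⟩
    filter_upwards [S.sm h.1, S.sm h'.1] with a h1 h2 y hy
    exact (pd_mul (sm_diff S.isOpen h1 hy) (sm_diff S.isOpen h2 hy) i).symm

theorem C.levLe {l : ℕ} (h : S.C m p f) (hl : l ≤ m) : S.C l p f := by
  induction hl with
  | refl => exact h
  | step _ ih => exact ih h.lev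

/-- All derivatives are in the base class. -/
theorem C.of_words (h : ∀ w : List (Fin 4), w.length ≤ m → S.B p fun a => pdw w (f a)) :
    S.C m p f := by
  have e : ∀ (w : List (Fin 4)) (i : Fin 4) (u : Fn), pdw w (pd i u) = pdw (w ++ [i]) u := by
    intro w i u
    induction w with
    | nil => rfl
    | cons j w ih => simp only [pdw, List.cons_append, ih]
  induction m generalizing f with
  | zero => exact h [] le_rfl
  | succ m ih =>
    refine ⟨h [] (Nat.zero_le _), fun i => ih fun w hw => ?_⟩
    simp only [e]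
    exact h _ (by simpa using hw)

/-- The inverse of a function without zeros. -/
theorem C.inv (h : S.C m 0 f) (hi : S.B 0 fun a y => (f a y)⁻¹)
    (h0 : ∀ᶠ a in L, ∀ y ∈ U, f a y ≠ 0) : S.C m 0 fun a y => (f a y)⁻¹ := by
  induction m with
  | zero => exact hi
  | succ m ih =>
    have h1 := ih h.lev
    refine ⟨hi, fun i => (((h.2 i).mul (h1.mul h1)).neg).congr ?_⟩
    filter_upwards [S.sm h.1, h0] with a h2 h3 y hy
    have h4 := (sm_diff S.isOpen h2 hy).hasFDerivAt
    have h5 := ((hasDerivAt_inv (h3 y hy)).comp_hasFDerivAt y h4).fderiv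
    change -(pd i (f a) y * ((f a y)⁻¹ * (f a y)⁻¹)) = fderiv ℝ (fun y => (f a y)⁻¹) y (bas i)
    rw [show (fun y => (f a y)⁻¹) = (fun y => y⁻¹) ∘ f a from rfl, h5]
    simp only [pd, _root_.smul_apply, smul_eq_mul]
    ring

variable (S) in
/-- The graded class. -/
def cls : Cls α where
  C := S.C
  m0 := 0
  pts := fun _ => U
  congr h e := h.congr (Eventually.of_forall fun a y hy => (e a y hy).eq_of_nhds)
  const := C.const
  zero := C.zero
  add := C.add
  neg := C.neg
  mul _ hl h h' := (h.levLe hl).mul h'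
  der i h := h.2 i
  lev := C.lev

end Base

end E2

end Pool.Agent.Lib.MP_94aef8_gt
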